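import Pool.Agent.Helper9.GW.Final
import Pool.Agent.Helper52.PrimeSums

/-! REC/SsDef.  Small scale: definitions.  `k` is about `log P`, `l = log k`; `z1 = 2 ^ bb l l2 l3` (small primes), `z2 = zz l`
(about `k/l^2`), shifts `h ≤ HH l 3` (about `k l^3`), see `Helper9/GW/Param` and `Est`. -/

set_option autoImplicit false

namespace Pool.Agent.REC

open Finset Pool.Agent.Helper9.GW

/-- the primes up to `w` -/
def prs (w : ℕ) : Finset ℕ := (Icc 1 w).filter Nat.Prime

theorem mem_prs {w p : ℕ} : p ∈ prs w ↔ p.Prime ∧ p ≤ w := by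
  unfold prs
  rw [mem_filter, mem_Icc]
  constructor
  · rintro ⟨⟨_, h2⟩, h3⟩
    exact ⟨h3, h2⟩
  · rintro ⟨h1, h2⟩
    exact ⟨⟨h1.one_lt.le, h2⟩, h1⟩

/-- the product of the primes up to `z` -/
def pmod (z : ℕ) : ℕ := ∏ p ∈ prs z, p

theorem pmod_pos (z : ℕ) : 0 < pmod z := Finset.prod_pos fun _ hp => (mem_prs.1 hp).1.pos

/-- the density of the integers prime to `pmod z` -/
noncomputable def dens (z : ℕ) : ℝ := ∏ p ∈ prs z, (1 - 1 / (p : ℝ))

/-- survivors of the medium primes (shift `h`) and of the small primes (class `b`) among the `j < H` -/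
def Sv (z1 z2 h b H : ℕ) : Finset ℕ :=
  (range H).filter (fun j => (∀ ℓ ∈ medium z1 z2, ¬ j ≡ h [MOD ℓ]) ∧ Nat.Coprime (b + j) (pmod z1))

/-- survivors `j` of the set `C` for which `h - j` is a prime `> z2` -/
def Pv (z1 z2 h b : ℕ) (C : Finset ℕ) : Finset ℕ :=
  C.filter (fun j => (j < h ∧ (h - j).Prime ∧ z2 < h - j) ∧ Nat.Coprime (b + j) (pmod z1))

/-- the probability space: shifts and classes -/
def Om (z1 HH : ℕ) : Finset (ℕ × ℕ) := Icc 1 HH ×ˢ range (pmod z1)

theorem Om_card (z1 HH : ℕ) : ((Om z1 HH).card : ℝ) = HH * pmod z1 := by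
  unfold Om
  rw [card_product, Nat.card_Icc, card_range]
  push_cast
  simp

/-- number of classes, one element.  PLAN: `b ↦ b + j` permutes the classes modulo `pmod z`
(`Nat.filter_coprime_Ico_eq_totient`), `Nat.totient_eq_mul_prod_factors`, `(pmod z).primeFactors = prs z`. -/
theorem count_one (z j : ℕ) :
    ((((range (pmod z)).filter (fun b => Nat.Coprime (b + j) (pmod z))).card : ℕ) : ℝ) =
      pmod z * dens z := by
  have h1 : ((range (pmod z)).filter (fun b => Nat.Coprime (b + j) (pmod z))).card =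
      ((Ico j (j + pmod z)).filter (fun x => (pmod z).Coprime x)).card := by
    refine Finset.card_bij (fun b _ => b + j) ?_ ?_ ?_
    · intro b hb
      obtain ⟨hb1, hb2⟩ := mem_filter.1 hb
      have hb3 := mem_range.1 hb1
      exact mem_filter.2 ⟨mem_Ico.2 ⟨by omega, by omega⟩, hb2.symm⟩
    · intro b _ b' _ hbb
      exact Nat.add_right_cancel hbb
    · intro x hx
      obtain ⟨hx1, hx2⟩ := mem_filter.1 hx
      have hx3 := mem_Ico.1 hx1
      have hx4 : x - j + j = x := by omega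
      refine ⟨x - j, mem_filter.2 ⟨mem_range.2 (by omega), ?_⟩, hx4⟩
      rw [hx4]
      exact hx2.symm
  rw [h1, Nat.filter_coprime_Ico_eq_totient]
  have h2 := Nat.totient_eq_mul_prod_factors (pmod z)
  have h3 : (pmod z).primeFactors = prs z := by
    unfold pmod
    exact Nat.primeFactors_prod fun p hp => (mem_prs.1 hp).1
  rw [h3] at h2
  have h4 : (((Nat.totient (pmod z) : ℕ) : ℚ) : ℝ) =
      (((pmod z : ℚ) * ∏ p ∈ prs z, (1 - (p : ℚ)⁻¹) : ℚ) : ℝ) := by rw [h2]
  push_cast at h4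
  rw [h4]
  unfold dens
  simp only [one_div]

/-- PLAN: `prod_upper`, `prod_lower` of Helper52/PrimeSums (`pr 0 (2^b)` = primes `≤ 2^b`) and `Par.bb_facts`:
`bb * log 2` lies between `l l3/(16 l2)` and `l l3/(8 l2)`. -/
theorem dens_bounds {k : ℕ} {l l2 l3 : ℝ} (h : Par k l l2 l3) :
    Real.exp (-9) * (l2 / (l * l3)) ≤ dens (2 ^ bb l l2 l3) ∧
      dens (2 ^ bb l l2 l3) ≤ 16 * (l2 / (l * l3)) := by
  obtain ⟨b1, b2, b3⟩ := h.bb_facts
  have p1 := h.p1
  have p2 := h.p2
  have p3 : 0 < l3 := by linarith [h.h3]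
  have hb0 : (0 : ℝ) < bb l l2 l3 := by exact_mod_cast b1
  have hlog2 : 0 < Real.log 2 := Real.log_pos (by norm_num)
  have hlog2' : 1 / 2 < Real.log 2 := by
    have := Real.log_two_gt_d9
    linarith
  have hpr : Pool.Agent.Helper52.pr 0 (2 ^ bb l l2 l3) = prs (2 ^ bb l l2 l3) := by
    ext q
    rw [Pool.Agent.Helper52.mem_pr, mem_prs]
    constructor
    · rintro ⟨_, h2, h3⟩
      exact ⟨h3, h2⟩
    · rintro ⟨h2, h3⟩
      exact ⟨h2.pos, h3, h2⟩
  have hlo := Pool.Agent.Helper52.prod_lower b1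
  have hup := Pool.Agent.Helper52.prod_upper b1
  rw [hpr] at hlo hup
  have hl3 : 0 < l * l3 := mul_pos p1 p3
  constructor
  · refine le_trans ?_ hlo
    rw [div_eq_mul_inv (Real.exp (-9))]
    refine mul_le_mul_of_nonneg_left ?_ (Real.exp_pos _).le
    rw [← one_div, div_le_div_iff₀ hl3 hb0, one_mul]
    have h5 : l * l3 / (8 * l2) * (8 * l2) = l * l3 := by field_simp
    have h6 : (bb l l2 l3 : ℝ) * Real.log 2 * (8 * l2) ≤ l * l3 := by
      calc (bb l l2 l3 : ℝ) * Real.log 2 * (8 * l2) ≤ l * l3 / (8 * l2) * (8 * l2) :=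
            mul_le_mul_of_nonneg_right b2 (by positivity)
        _ = l * l3 := h5
    have h7 : (bb l l2 l3 : ℝ) * (1 / 2) * (8 * l2) ≤ (bb l l2 l3 : ℝ) * Real.log 2 * (8 * l2) :=
      mul_le_mul_of_nonneg_right (mul_le_mul_of_nonneg_left hlog2'.le hb0.le) (by positivity)
    have h8 : 0 < (bb l l2 l3 : ℝ) * l2 := mul_pos hb0 p2
    nlinarith
  · refine hup.trans ?_
    rw [div_le_iff₀ (by positivity)]
    have h5 : 16 * (l2 / (l * l3)) * (l * l3 / (16 * l2)) = 1 := by field_simp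
    rw [← h5]
    exact mul_le_mul_of_nonneg_left b3 (by positivity)

end Pool.Agent.REC
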