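import Pool.Agent.REC.SsDef

/-! REC/Crt.  From the shift and the small class to one class, with removed primes.

PLAN.
* `crt_class`: Chinese remainder theorem for the coprime moduli `pmod z1` and `∏ medium` (a number `b` with `b ≡ b1` and
`b ≡ (large multiple) - h`; e.g. `Nat.chineseRemainder` with the residue `(h * (Q - 1)) % Q`, `Q = ∏ medium`; compare
`comb_class` in RS/Rankin).
* `surv_le`: if `b + j` is prime to `Mod z2 R` and no `p ∈ R` divides `b + j`, then `b + j` is prime to all primes `≤ z2`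
(`prs z2 = prs z1 ∪ medium z1 z2`), so `j ∈ Sv`: for `ℓ` medium `ℓ ∤ b + j` and `ℓ ∣ b + h` give `j ≢ h`; `b ≡ b1` modulo
`pmod z1`.  For `p ∈ R` the number of `j < H` with `p ∣ b + j` is `≤ H/p + 1`.
* `pv_coprime`: for `ℓ` medium, `h - j` is a prime `> z2 ≥ ℓ`, so `ℓ ∤ h - j`, hence `ℓ ∤ b + j`. -/

set_option autoImplicit false

namespace Pool.Agent.REC

open Finset Pool.Agent.Helper9.GW

/-- the modulus with the primes of `R` removed -/
def Mod (w : ℕ) (R : Finset ℕ) : ℕ := ∏ p ∈ prs w \ R, p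

theorem crt_class {z1 z2 : ℕ} (hz : 2 ≤ z1) (h b1 : ℕ) :
    ∃ b : ℕ, b ≡ b1 [MOD pmod z1] ∧ ∀ ℓ ∈ medium z1 z2, ℓ ∣ b + h := by
  set Q := ∏ ℓ ∈ medium z1 z2, ℓ with hQ
  have hQ0 : 0 < Q := Finset.prod_pos fun ℓ hℓ => ((mem_medium hz).1 hℓ).1.pos
  have hc : Nat.Coprime (pmod z1) Q := by
    unfold pmod
    refine Nat.Coprime.prod_right fun ℓ hℓ => Nat.Coprime.prod_left fun p hp => ?_
    have h1 := (mem_medium hz).1 hℓ
    have h2 := mem_prs.1 hp
    exact (Nat.coprime_primes h2.1 h1.1).2 (fun e => by omega)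
  obtain ⟨b, hb1, hb2⟩ := Nat.chineseRemainder hc b1 (h * (Q - 1))
  refine ⟨b, hb1, fun ℓ hℓ => ?_⟩
  have h1 : Q ∣ b + h := by
    have h2 : b + h ≡ h * (Q - 1) + h [MOD Q] := hb2.add_right h
    have h3 : h * (Q - 1) + h = h * Q := by
      obtain ⟨m, hm⟩ := Nat.exists_eq_succ_of_ne_zero hQ0.ne'
      rw [hm]
      simp only [Nat.succ_eq_add_one, Nat.add_sub_cancel]
      ring
    rw [h3] at h2
    have h4 : h * Q ≡ 0 [MOD Q] := (Nat.modEq_zero_iff_dvd).2 (Dvd.intro_left h rfl)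
    exact (Nat.modEq_zero_iff_dvd).1 (h2.trans h4)
  exact (Finset.dvd_prod_of_mem _ hℓ).trans h1

private theorem crt_count (p b H : ℕ) (_hp : 0 < p) :
    ((((range H).filter (fun j => p ∣ b + j)).card : ℕ) : ℝ) ≤ (H : ℝ) / p + 1 := by
  have h1 : ((range H).filter (fun j => p ∣ b + j)).card ≤ H / p + 1 := by
    -- the elements are congruent modulo `p`
    have hinj : Set.InjOn (fun j => j / p) ((range H).filter (fun j => p ∣ b + j) : Set ℕ) := by
      intro i hi j hj hij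
      simp only [coe_filter, mem_range, Set.mem_setOf_eq] at hi hj
      have h2 : i / p = j / p := hij
      have h3 : i ≡ j [MOD p] := by
        have h4 : b + i ≡ b + j [MOD p] :=
          ((Nat.modEq_zero_iff_dvd).2 hi.2).trans ((Nat.modEq_zero_iff_dvd).2 hj.2).symm
        exact Nat.ModEq.add_left_cancel' b h4
      have h5 := Nat.div_add_mod i p
      have h6 := Nat.div_add_mod j p
      have h7 : i % p = j % p := h3
      rw [h2, h7] at h5
      omega
    have hmaps : ((range H).filter (fun j => p ∣ b + j)).card ≤ (range (H / p + 1)).card := by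
      apply Finset.card_le_card_of_injOn (fun j => j / p) _ hinj
      intro j hj
      simp only [coe_filter, mem_range, Set.mem_setOf_eq] at hj
      simp only [coe_range, Set.mem_Iio]
      exact Nat.lt_succ_of_le (Nat.div_le_div_right hj.1.le)
    rwa [card_range] at hmaps
  have h2 : ((((range H).filter (fun j => p ∣ b + j)).card : ℕ) : ℝ) ≤ ((H / p + 1 : ℕ) : ℝ) := by
    exact_mod_cast h1
  refine h2.trans ?_
  push_cast
  have h3 : ((H / p : ℕ) : ℝ) ≤ (H : ℝ) / p := Nat.cast_div_le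
  linarith

theorem surv_le {z1 z2 h b1 b : ℕ} (hz : 2 ≤ z1) (hz12 : z1 ≤ z2) (hb1 : b ≡ b1 [MOD pmod z1])
    (hb2 : ∀ ℓ ∈ medium z1 z2, ℓ ∣ b + h) {R : Finset ℕ} (hR : R ⊆ prs z2) (H : ℕ) :
    ((((range H).filter (fun j => Nat.Coprime (b + j) (Mod z2 R))).card : ℕ) : ℝ) ≤
      (Sv z1 z2 h b1 H).card + ∑ p ∈ R, ((H : ℝ) / p + 1) := by
  classical
  have hsub : (range H).filter (fun j => Nat.Coprime (b + j) (Mod z2 R)) ⊆
      Sv z1 z2 h b1 H ∪ R.biUnion (fun p => (range H).filter (fun j => p ∣ b + j)) := by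
    intro j hj
    rw [mem_filter] at hj
    obtain ⟨hjH, hjc⟩ := hj
    rw [mem_union]
    by_cases hRj : ∃ p ∈ R, p ∣ b + j
    · right
      obtain ⟨p, hp, hpj⟩ := hRj
      exact mem_biUnion.2 ⟨p, hp, mem_filter.2 ⟨hjH, hpj⟩⟩
    · left
      have hall : ∀ p : ℕ, p.Prime → p ≤ z2 → ¬ p ∣ b + j := by
        intro p hp hpz hpd
        have h1 : p ∉ R := fun h2 => hRj ⟨p, h2, hpd⟩
        have h2 : p ∣ Mod z2 R :=
          Finset.dvd_prod_of_mem _ (mem_sdiff.2 ⟨mem_prs.2 ⟨hp, hpz⟩, h1⟩)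
        exact hp.one_lt.ne' (Nat.eq_one_of_dvd_coprimes hjc hpd h2)
      unfold Sv
      refine mem_filter.2 ⟨hjH, ?_, ?_⟩
      · intro ℓ hℓ hmod
        have h1 := (mem_medium hz).1 hℓ
        apply hall ℓ h1.1 h1.2.2
        have h2 : b + j ≡ b + h [MOD ℓ] := hmod.add_left b
        exact (Nat.modEq_zero_iff_dvd).1 (h2.trans ((Nat.modEq_zero_iff_dvd).2 (hb2 ℓ hℓ)))
      · unfold pmod
        refine Nat.Coprime.prod_right fun p hp => ?_
        have h1 := mem_prs.1 hp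
        rw [Nat.coprime_comm, h1.1.coprime_iff_not_dvd]
        intro hpd
        apply hall p h1.1 (h1.2.trans hz12)
        have h2 : b ≡ b1 [MOD p] := hb1.of_dvd (Finset.dvd_prod_of_mem _ hp)
        have h3 : b + j ≡ b1 + j [MOD p] := h2.add_right j
        exact (Nat.modEq_zero_iff_dvd).1 (h3.trans ((Nat.modEq_zero_iff_dvd).2 hpd))
  have hcard : ((((range H).filter (fun j => Nat.Coprime (b + j) (Mod z2 R))).card : ℕ) : ℝ) ≤
      (Sv z1 z2 h b1 H).card +
        ∑ p ∈ R, ((((range H).filter (fun j => p ∣ b + j)).card : ℕ) : ℝ) := by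
    have h1 := (card_le_card hsub).trans ((card_union_le _ _).trans
      (Nat.add_le_add_left card_biUnion_le _))
    exact_mod_cast h1
  refine hcard.trans ?_
  have h2 : ∑ p ∈ R, ((((range H).filter (fun j => p ∣ b + j)).card : ℕ) : ℝ) ≤
      ∑ p ∈ R, ((H : ℝ) / p + 1) :=
    Finset.sum_le_sum fun p hp => crt_count p b H (mem_prs.1 (hR hp)).1.pos
  linarith

theorem pv_coprime {z1 z2 h b1 b : ℕ} (hz : 2 ≤ z1) (hb1 : b ≡ b1 [MOD pmod z1])
    (hb2 : ∀ ℓ ∈ medium z1 z2, ℓ ∣ b + h) (R : Finset ℕ) {C : Finset ℕ} {j : ℕ}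
    (hj : j ∈ Pv z1 z2 h b1 C) : Nat.Coprime (b + j) (Mod z2 R) := by
  unfold Pv at hj
  obtain ⟨-, ⟨hjh, hjp, hjz⟩, hjc⟩ := mem_filter.1 hj
  unfold Mod
  refine Nat.Coprime.prod_right fun p hp => ?_
  have h1 := mem_prs.1 (mem_sdiff.1 hp).1
  rw [Nat.coprime_comm, h1.1.coprime_iff_not_dvd]
  intro hpd
  by_cases hpz : p ≤ z1
  · have hpm : p ∈ prs z1 := mem_prs.2 ⟨h1.1, hpz⟩
    have h2 : b ≡ b1 [MOD p] := hb1.of_dvd (Finset.dvd_prod_of_mem _ hpm)
    have h3 : b + j ≡ b1 + j [MOD p] := h2.add_right j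
    have h4 : p ∣ b1 + j :=
      (Nat.modEq_zero_iff_dvd).1 (h3.symm.trans ((Nat.modEq_zero_iff_dvd).2 hpd))
    have h5 : p ∣ pmod z1 := Finset.dvd_prod_of_mem _ hpm
    exact h1.1.one_lt.ne' (Nat.eq_one_of_dvd_coprimes hjc h4 h5)
  · have hpm : p ∈ medium z1 z2 := (mem_medium hz).2 ⟨h1.1, by omega, h1.2⟩
    have h2 : p ∣ h - j := by
      have h3 : p ∣ (b + h) - (b + j) := Nat.dvd_sub (hb2 p hpm) hpd
      have h4 : (b + h) - (b + j) = h - j := by omega
      rwa [h4] at h3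
    have h5 : p = h - j := (Nat.prime_dvd_prime_iff_eq h1.1 hjp).1 h2
    omega

end Pool.Agent.REC
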