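import Pool.Agent.REC.Crt
import Pool.Agent.AT.Av

/-! REC/ModTot.  The modulus `Mod w R`.

PLAN.  `φ(M)/M = ∏_{p ∈ prs w \ R} (1 - 1/p) = dens w/∏_{p ∈ R} (1 - 1/p)`; `∏_{p ∈ R} (1 - 1/p) ≥ 1 - ∑_R 1/p ≥ 1/2`; and
`dens w ≤ dens (2^a) ≤ 1/(a log 2)` with `a = Nat.log 2 w` (`prod_upper` of Helper52/PrimeSums; compare `Mw_totient` in AT/Av).
`Mod w R ≤ pmod w = primorial w ≤ 4^w` (`primorial_le_four_pow`).  A prime divides `Mod w R` iff it is in `prs w \ R`. -/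

set_option autoImplicit false

namespace Pool.Agent.REC

open Finset

private theorem one_sub_le' (s : Finset ℕ) (f : ℕ → ℝ) (h0 : ∀ q ∈ s, 0 ≤ f q)
    (h1 : ∀ q ∈ s, f q ≤ 1) : 1 - ∑ q ∈ s, f q ≤ ∏ q ∈ s, (1 - f q) := by
  induction s using Finset.induction_on with
  | empty => simp
  | insert a s ha ih =>
    rw [Finset.sum_insert ha, Finset.prod_insert ha]
    have e1 := ih (fun q hq => h0 q (Finset.mem_insert_of_mem hq))
      (fun q hq => h1 q (Finset.mem_insert_of_mem hq))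
    have e2 := h0 a (Finset.mem_insert_self a s)
    have e3 := h1 a (Finset.mem_insert_self a s)
    have e4 : 0 ≤ ∑ q ∈ s, f q := Finset.sum_nonneg fun q hq => h0 q (Finset.mem_insert_of_mem hq)
    have e5 : (1 - f a) * (1 - ∑ q ∈ s, f q) ≤ (1 - f a) * ∏ q ∈ s, (1 - f q) :=
      mul_le_mul_of_nonneg_left e1 (by linarith)
    nlinarith [mul_nonneg e2 e4]

theorem Mod_pos (w : ℕ) (R : Finset ℕ) : 0 < Mod w R := by
  exact Finset.prod_pos fun p hp => (mem_prs.1 (mem_sdiff.1 hp).1).1.pos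


theorem Mod_le (w : ℕ) (R : Finset ℕ) : ((Mod w R : ℕ) : ℝ) ≤ (4 : ℝ) ^ w := by
  have h1 : Mod w R ∣ primorial w := by
    unfold Mod primorial
    refine Finset.prod_dvd_prod_of_subset _ _ _ fun p hp => ?_
    have h2 := mem_prs.1 (mem_sdiff.1 hp).1
    rw [mem_filter, mem_range]
    exact ⟨by omega, h2.1⟩
  have h2 : Mod w R ≤ 4 ^ w :=
    (Nat.le_of_dvd (primorial_pos w) h1).trans (primorial_le_four_pow w)
  exact_mod_cast h2


theorem prime_dvd_Mod {w : ℕ} {R : Finset ℕ} {q : ℕ} (hq : q.Prime) :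
    q ∣ Mod w R ↔ q ≤ w ∧ q ∉ R := by
  unfold Mod
  rw [Prime.dvd_finset_prod_iff hq.prime]
  constructor
  · rintro ⟨p, hp, hqp⟩
    rw [mem_sdiff, mem_prs] at hp
    have h1 : q = p := (Nat.prime_dvd_prime_iff_eq hq hp.1.1).1 hqp
    rw [h1]
    exact ⟨hp.1.2, hp.2⟩
  · rintro ⟨h1, h2⟩
    exact ⟨q, mem_sdiff.2 ⟨mem_prs.2 ⟨hq, h1⟩, h2⟩, dvd_rfl⟩


theorem Mod_totient {w : ℕ} (hw : 2 ≤ w) {R : Finset ℕ} (hR : R ⊆ prs w)
    (h : ∑ p ∈ R, 1 / (p : ℝ) ≤ 1 / 2) :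
    (Nat.totient (Mod w R) : ℝ) ≤ 4 * (Mod w R : ℝ) / (Nat.log 2 w : ℝ) := by
  have hl2 : (1 / 2 : ℝ) < Real.log 2 := by
    have := Real.log_two_gt_d9
    linarith
  set a := Nat.log 2 w with ha
  have ha1 : 1 ≤ a := by
    rw [ha]
    exact Nat.le_log_of_pow_le (by norm_num) (by simpa using hw)
  have h2a : 2 ^ a ≤ w := Nat.pow_log_le_self 2 (by omega)
  have hpf : (Mod w R).primeFactors = prs w \ R := by
    unfold Mod
    exact Nat.primeFactors_prod fun p hp => (mem_prs.1 (mem_sdiff.1 hp).1).1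
  have h1 : (Nat.totient (Mod w R) : ℝ) = (Mod w R : ℝ) *
      ∏ q ∈ prs w \ R, (1 - 1 / (q : ℝ)) := by
    have h := Nat.totient_eq_mul_prod_factors (Mod w R)
    rw [hpf] at h
    have h' := congrArg (fun z : ℚ => (z : ℝ)) h
    push_cast at h'
    rw [h']
    simp only [one_div]
  have h01 : ∀ q ∈ prs w, 0 ≤ 1 / (q : ℝ) ∧ 1 / (q : ℝ) ≤ 1 := by
    intro q hq
    have hq2 : (2 : ℝ) ≤ (q : ℝ) := by exact_mod_cast (mem_prs.1 hq).1.two_le
    refine ⟨by positivity, ?_⟩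
    rw [div_le_one (by linarith)]
    linarith
  have h2 : (∏ q ∈ prs w \ R, (1 - 1 / (q : ℝ))) * ∏ q ∈ R, (1 - 1 / (q : ℝ)) =
      ∏ q ∈ prs w, (1 - 1 / (q : ℝ)) := prod_sdiff hR
  have h3 : (1 / 2 : ℝ) ≤ ∏ q ∈ R, (1 - 1 / (q : ℝ)) := by
    have h4 := one_sub_le' R (fun q => 1 / (q : ℝ)) (fun q hq => (h01 q (hR hq)).1)
      (fun q hq => (h01 q (hR hq)).2)
    have h5 : (1 / 2 : ℝ) ≤ 1 - ∑ q ∈ R, 1 / (q : ℝ) := by linarith
    exact h5.trans h4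
  have hsub : Pool.Agent.Helper52.pr 0 (2 ^ a) ⊆ prs w := by
    intro q hq
    rw [Pool.Agent.Helper52.mem_pr] at hq
    exact mem_prs.2 ⟨hq.2.2, hq.2.1.trans h2a⟩
  have h6 : ∏ q ∈ prs w, (1 - 1 / (q : ℝ)) ≤
      ∏ q ∈ Pool.Agent.Helper52.pr 0 (2 ^ a), (1 - 1 / (q : ℝ)) := by
    rw [← prod_sdiff hsub]
    refine mul_le_of_le_one_left (prod_nonneg fun q hq => ?_) ?_
    · have := (h01 q (hsub hq)).2
      linarith
    · refine prod_le_one (fun q hq => ?_) fun q hq => ?_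
      · have := (h01 q (sdiff_subset hq)).2
        linarith
      · have := (h01 q (sdiff_subset hq)).1
        linarith
  have h7 := Pool.Agent.Helper52.prod_upper ha1
  have har : (0 : ℝ) < (a : ℝ) := by exact_mod_cast (by omega : 0 < a)
  have h8 : 1 / ((a : ℝ) * Real.log 2) ≤ 2 / a := by
    rw [div_le_div_iff₀ (by positivity) har]
    nlinarith
  have h9 : 0 ≤ ∏ q ∈ prs w \ R, (1 - 1 / (q : ℝ)) := by
    refine prod_nonneg fun q hq => ?_
    have := (h01 q (sdiff_subset hq)).2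
    linarith
  have h10 : ∏ q ∈ prs w \ R, (1 - 1 / (q : ℝ)) ≤ 4 / a := by
    have h11 : (∏ q ∈ prs w \ R, (1 - 1 / (q : ℝ))) * (1 / 2) ≤ 2 / a := by
      refine (mul_le_mul_of_nonneg_left h3 h9).trans ?_
      rw [h2]
      exact h6.trans (h7.trans h8)
    have h12 : (4 : ℝ) / a = 2 * (2 / a) := by ring
    rw [h12]
    linarith
  rw [h1]
  have h13 := mul_le_mul_of_nonneg_left h10 (Nat.cast_nonneg (α := ℝ) (Mod w R))
  refine h13.trans (le_of_eq ?_)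
  ring


end Pool.Agent.REC
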