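import Pool.Agent.REC.Rep

/-! REC/Scale.  Infinitely many scales without an exceptional character.

Proof.  `W P = 32 (loglog P)^12`, `F P = exp(4 (loglog P)^8)`.  Given `N0` (enlarge it so that for `P ≥ N0` all monotonicity and
`(W (P+1)/W P)^30 ≤ 2` hold, `W → ∞`).  If `N0` is good we are done.  Otherwise there are `q1 ≤ F N0` and a primitive real
`χ1 ≠ 1` modulo `q1` with `β = ‖L(χ1,1)‖ < W(N0)^(-30)`; `β > 0` (`LFunction_apply_one_ne_zero`).  As `W → ∞` there is a least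
`P > N0` with `W(P)^(-30) ≤ β` (`Nat.find`), and then `β < W(P-1)^(-30) ≤ 2 W(P)^(-30)`.  CLAIM: `P` is good.  If not, there are
`q2 ≤ F P`, `χ2` primitive real `≠ 1` with `‖L(χ2,1)‖ < W(P)^(-30) ≤ β`.  `changeLevel χ1 ≠ changeLevel χ2` at level `q1 q2`: for
primitive characters equality would give `q1 = q2` (conductors) and `χ1 = χ2` (`changeLevel_injective`), contradicting
`‖L(χ2,1)‖ < ‖L(χ1,1)‖`.  `repulsion` with `V = 2 (loglog P)^12`, `q1 q2 * 3 ≤ 3 exp(8 l^8) ≤ exp(2 l^12)`. -/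

set_option autoImplicit false

namespace Pool.Agent.REC

open DirichletCharacter

/-- no exceptional primitive real character at the scale `P` -/
def Good (P : ℕ) : Prop :=
  ∀ (q : ℕ) [NeZero q], (q : ℝ) ≤ Real.exp (4 * Real.log (Real.log P) ^ 8) →
    ∀ χ : DirichletCharacter ℂ q, χ ≠ 1 → χ.IsPrimitive → χ ^ 2 = 1 →
      1 / (32 * Real.log (Real.log P) ^ 12) ^ 30 ≤ ‖LFunction χ 1‖

private theorem sc_cond {q1 q2 : ℕ} [NeZero q1] [NeZero q2] {χ1 : DirichletCharacter ℂ q1}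
    {χ2 : DirichletCharacter ℂ q2} (h1 : χ1.IsPrimitive)
    (h : changeLevel (dvd_mul_right q1 q2) χ1 = changeLevel (dvd_mul_left q2 q1) χ2) : q1 ∣ q2 := by
  have hN : NeZero (q1 * q2) := ⟨mul_ne_zero (NeZero.ne q1) (NeZero.ne q2)⟩
  set ψ := changeLevel (dvd_mul_right q1 q2) χ1 with hψ
  have h2 : ψ.FactorsThrough q2 := ⟨dvd_mul_left q2 q1, χ2, h⟩
  have h3 : ψ.FactorsThrough q1 := ⟨dvd_mul_right q1 q2, χ1, hψ⟩
  have h4 : ψ.conductor ∣ q2 := conductor_dvd_of_mem_conductorSet ψ h2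
  have h5 : ψ.conductor ∣ q1 := conductor_dvd_of_mem_conductorSet ψ h3
  have h6 : χ1.FactorsThrough ψ.conductor := by
    refine ⟨h5, ψ.primitiveCharacter, ?_⟩
    apply changeLevel_injective (dvd_mul_right q1 q2)
    rw [← changeLevel_trans]
    exact (ψ.changeLevel_primitiveCharacter).symm
  have h7 : χ1.conductor ∣ ψ.conductor := conductor_dvd_of_mem_conductorSet χ1 h6
  rw [h1] at h7
  exact h7.trans h4

/-- the iterated logarithm -/
private noncomputable def ll (P : ℕ) : ℝ := Real.log (Real.log P)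

private theorem ll_tendsto : Filter.Tendsto ll Filter.atTop Filter.atTop :=
  Real.tendsto_log_atTop.comp (Real.tendsto_log_atTop.comp tendsto_natCast_atTop_atTop)

private theorem sc_log {P : ℕ} (h : 1 ≤ ll P) : 0 < Real.log P := by
  rcases (Real.log_natCast_nonneg P).lt_or_eq with h1 | h1
  · exact h1
  · unfold ll at h
    rw [← h1, Real.log_zero] at h
    linarith

private theorem sc_pos {P : ℕ} (h : 1 ≤ ll P) : 2 ≤ P := by
  by_contra h1
  have h2 := sc_log h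
  have : P = 0 ∨ P = 1 := by omega
  rcases this with rfl | rfl <;> simp at h2

private theorem sc_mono {P R : ℕ} (h : 1 ≤ ll P) (hPR : P ≤ R) : ll P ≤ ll R := by
  have h2 := sc_pos h
  have h3 : (0 : ℝ) < P := by exact_mod_cast (by omega : 0 < P)
  exact Real.log_le_log (sc_log h) (Real.log_le_log h3 (by exact_mod_cast hPR))

private theorem sc_succ {P : ℕ} (h : 1 ≤ ll P) : ll (P + 1) ≤ ll P + 1 := by
  have h2 := sc_pos h
  have h3 : (2 : ℝ) ≤ P := by exact_mod_cast h2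
  have h4 := sc_log h
  have h5 : Real.log ((P + 1 : ℕ) : ℝ) ≤ 2 * Real.log P := by
    have h51 : (2 : ℝ) * Real.log P = Real.log ((P : ℝ) ^ 2) := by rw [Real.log_pow]; norm_num
    rw [h51]
    apply Real.log_le_log
    · push_cast; linarith
    · push_cast; nlinarith
  have h6 : 0 < Real.log ((P + 1 : ℕ) : ℝ) :=
    lt_of_lt_of_le h4 (Real.log_le_log (by linarith) (by push_cast; linarith))
  have h7 : ll (P + 1) ≤ Real.log (2 * Real.log P) := Real.log_le_log h6 h5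
  rw [Real.log_mul (by norm_num) h4.ne'] at h7
  have h8 : Real.log 2 ≤ 1 := by linarith [Real.log_two_lt_d9]
  unfold ll at h7 ⊢
  linarith

private theorem sc_half {P : ℕ} (h : 1000 ≤ ll P) :
    1 / (32 * ll P ^ 12) ^ 30 ≤ 2 / (32 * ll (P + 1) ^ 12) ^ 30 := by
  have h1 : 1 ≤ ll P := by linarith
  have h2 := sc_succ h1
  have h3 : 0 < ll P := by linarith
  have h4 : 0 < ll (P + 1) := lt_of_lt_of_le h3 (sc_mono h1 (Nat.le_succ P))
  have h5 : ll (P + 1) ≤ ll P * (1001 / 1000) := by linarith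
  rw [div_le_div_iff₀ (by positivity) (by positivity), one_mul]
  have h6 : ll (P + 1) ^ 360 ≤ (ll P * (1001 / 1000)) ^ 360 :=
    pow_le_pow_left₀ h4.le h5 360
  have h7 : ((1001 : ℝ) / 1000) ^ 360 ≤ 2 := by
    have h8 : ((1001 : ℝ) / 1000) ^ 36 ≤ 104 / 100 := by norm_num
    calc ((1001 : ℝ) / 1000) ^ 360 = (((1001 : ℝ) / 1000) ^ 36) ^ 10 := by rw [← pow_mul]
      _ ≤ (104 / 100) ^ 10 := pow_le_pow_left₀ (by positivity) h8 10
      _ ≤ 2 := by norm_num
  calc (32 * ll (P + 1) ^ 12) ^ 30 = 32 ^ 30 * ll (P + 1) ^ 360 := by rw [mul_pow, ← pow_mul]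
    _ ≤ 32 ^ 30 * (ll P * (1001 / 1000)) ^ 360 := mul_le_mul_of_nonneg_left h6 (by positivity)
    _ = 32 ^ 30 * ll P ^ 360 * (1001 / 1000) ^ 360 := by rw [mul_pow, mul_assoc]
    _ ≤ 32 ^ 30 * ll P ^ 360 * 2 := mul_le_mul_of_nonneg_left h7 (by positivity)
    _ = 2 * (32 * ll P ^ 12) ^ 30 := by rw [mul_pow, ← pow_mul]; ring

theorem good_scale (N0 : ℕ) : ∃ P : ℕ, N0 ≤ P ∧ Good P := by
  classical
  obtain ⟨K, hK⟩ := Filter.eventually_atTop.1 (ll_tendsto.eventually_ge_atTop 1000)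
  set N1 := max N0 K with hN1
  by_cases hg : Good N1
  · exact ⟨N1, le_max_left _ _, hg⟩
  unfold Good at hg
  push Not at hg
  obtain ⟨q1, _, hq1, χ1, hχ1, hp1, hr1, hb1⟩ := hg
  have hll1 : 1000 ≤ ll N1 := hK N1 (le_max_right _ _)
  have hbpos : 0 < ‖LFunction χ1 1‖ := norm_pos_iff.2 (LFunction_apply_one_ne_zero hχ1)
  have hex : ∃ P : ℕ, N1 < P ∧ 1 / (32 * ll P ^ 12) ^ 30 ≤ ‖LFunction χ1 1‖ := by
    obtain ⟨P, hP1, hP2⟩ := ((ll_tendsto.eventually_ge_atTop (max 1 (1 / ‖LFunction χ1 1‖))).and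
      (Filter.eventually_gt_atTop N1)).exists
    refine ⟨P, hP2, ?_⟩
    have h1 : 1 ≤ ll P := (le_max_left _ _).trans hP1
    have h2 : 1 / ‖LFunction χ1 1‖ ≤ ll P := (le_max_right _ _).trans hP1
    have h3 : ll P ≤ (32 * ll P ^ 12) ^ 30 := by
      have h4 : ll P ≤ ll P ^ 12 := le_self_pow₀ h1 (by norm_num)
      have h5 : ll P ≤ 32 * ll P ^ 12 := by nlinarith
      exact h5.trans (le_self_pow₀ (h1.trans h5) (by norm_num))
    rw [div_le_iff₀ (by positivity)]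
    have h6 : 1 / ‖LFunction χ1 1‖ ≤ (32 * ll P ^ 12) ^ 30 := h2.trans h3
    rw [div_le_iff₀ hbpos] at h6
    linarith
  set P := Nat.find hex with hP
  obtain ⟨hP1, hP2⟩ := Nat.find_spec hex
  rw [← hP] at hP1 hP2
  have hPm : N1 ≤ P - 1 := by omega
  have hb2 : ‖LFunction χ1 1‖ < 1 / (32 * ll (P - 1) ^ 12) ^ 30 := by
    rcases hPm.lt_or_eq with h | h
    · by_contra h1
      exact Nat.find_min hex (m := P - 1) (by omega) ⟨h, not_lt.1 h1⟩
    · rw [← h]
      exact hb1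
  have hllm : 1000 ≤ ll (P - 1) := hK _ ((le_max_right _ _).trans hPm)
  have hb3 : ‖LFunction χ1 1‖ ≤ 2 / (32 * ll P ^ 12) ^ 30 := by
    have h1 := sc_half hllm
    rw [Nat.sub_add_cancel (by omega)] at h1
    exact hb2.le.trans h1
  refine ⟨P, (le_max_left _ _).trans hP1.le, ?_⟩
  by_contra hg2
  unfold Good at hg2
  push Not at hg2
  obtain ⟨q2, _, hq2, χ2, hχ2, hp2, hr2, hb4⟩ := hg2
  have hllP : 1000 ≤ ll P := hK P ((le_max_right _ _).trans hP1.le)
  have hlt : ‖LFunction χ2 1‖ < ‖LFunction χ1 1‖ := lt_of_lt_of_le hb4 hP2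
  have hne : changeLevel (dvd_mul_right q1 q2) χ1 ≠ changeLevel (dvd_mul_left q2 q1) χ2 := by
    intro h
    have h1 : q1 ∣ q2 := sc_cond hp1 h
    have h2 : q2 ∣ q1 := by
      have hN : NeZero (q1 * q2) := ⟨mul_ne_zero (NeZero.ne q1) (NeZero.ne q2)⟩
      have h3 : changeLevel (dvd_mul_right q2 q1) χ2 = changeLevel (dvd_mul_left q1 q2) χ1 := by
        have h4 : q1 * q2 ∣ q2 * q1 := (mul_comm q1 q2) ▸ dvd_refl _
        have h5 := congrArg (changeLevel h4) h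
        rw [← changeLevel_trans, ← changeLevel_trans] at h5
        exact h5.symm
      exact sc_cond hp2 h3
    obtain rfl : q1 = q2 := Nat.dvd_antisymm h1 h2
    have hN : NeZero (q1 * q1) := ⟨mul_ne_zero (NeZero.ne q1) (NeZero.ne q1)⟩
    have h3 : χ1 = χ2 := changeLevel_injective _ h
    rw [h3] at hlt
    exact lt_irrefl _ hlt
  have hV : (16 : ℝ) * (2 * ll P ^ 12) = 32 * ll P ^ 12 := by ring
  refine repulsion (V := 2 * ll P ^ 12) hχ1 hχ2 hr1 hr2 hne ?_ ?_ ?_ ?_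
  · have h1 : 1 ≤ ll P ^ 12 := one_le_pow₀ (by linarith)
    linarith
  · have h1 : (q1 : ℝ) ≤ Real.exp (4 * ll P ^ 8) := by
      refine hq1.trans (Real.exp_le_exp.2 ?_)
      have h2 : ll N1 ≤ ll P := sc_mono (by linarith) hP1.le
      have h3 : ll N1 ^ 8 ≤ ll P ^ 8 := pow_le_pow_left₀ (by linarith) h2 8
      show 4 * ll N1 ^ 8 ≤ 4 * ll P ^ 8
      linarith
    have h2 : (q2 : ℝ) ≤ Real.exp (4 * ll P ^ 8) := hq2
    have h3 : (3 : ℝ) ≤ Real.exp (ll P ^ 8) := by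
      have h4 : (1 : ℝ) ≤ ll P := by linarith
      have h5 : ll P ≤ ll P ^ 8 := le_self_pow₀ h4 (by norm_num)
      have h6 := Real.add_one_le_exp (ll P ^ 8)
      linarith
    have h7 : 9 * ll P ^ 8 ≤ 2 * ll P ^ 12 := by
      have h8 : (9 : ℝ) ≤ 2 * ll P ^ 4 := by
        have h9 : ll P ≤ ll P ^ 4 := le_self_pow₀ (by linarith) (by norm_num)
        linarith
      have h10 : 2 * ll P ^ 12 = 2 * ll P ^ 4 * ll P ^ 8 := by ring
      rw [h10]
      exact mul_le_mul_of_nonneg_right h8 (by positivity)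
    push_cast
    calc (q1 : ℝ) * q2 * 3
        ≤ Real.exp (4 * ll P ^ 8) * Real.exp (4 * ll P ^ 8) * Real.exp (ll P ^ 8) := by
          gcongr
      _ = Real.exp (9 * ll P ^ 8) := by rw [← Real.exp_add, ← Real.exp_add]; ring_nf
      _ ≤ Real.exp (2 * ll P ^ 12) := Real.exp_le_exp.2 h7
  · rw [hV]
    exact hb3
  · rw [hV]
    refine hb4.le.trans ?_
    show 1 / (32 * ll P ^ 12) ^ 30 ≤ 2 / (32 * ll P ^ 12) ^ 30
    gcongr
    norm_num

end Pool.Agent.REC
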