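import Mathlib

/-! REC/Diff.  From Riesz means to sums, and removal of smooth weights. -/

set_option autoImplicit false

namespace Pool.Agent.REC

open Finset

/-- the Riesz mean as a finite sum -/
private theorem dif_tsum {b : ℕ → ℂ} (h0 : b 0 = 0) {y : ℝ} (hy : 0 < y) {M : ℕ}
    (hM : y < M + 1) :
    ∑' n : ℕ, b n / n * (((n : ℝ) / y * max (Real.log (y / n)) 0 : ℝ) : ℂ) =
      (∑ n ∈ Ioc 0 M, b n * ((max (Real.log (y / n)) 0 : ℝ) : ℂ)) / y := by
  rw [tsum_eq_sum (s := Ioc 0 M), Finset.sum_div]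
  · refine Finset.sum_congr rfl fun n hn => ?_
    have hn0 : (n : ℂ) ≠ 0 := by
      have := (Finset.mem_Ioc.1 hn).1
      exact_mod_cast this.ne'
    have hy0 : (y : ℂ) ≠ 0 := by exact_mod_cast hy.ne'
    push_cast
    field_simp
  · intro n hn
    rw [Finset.mem_Ioc, not_and_or, not_lt, not_le] at hn
    rcases hn with hn | hn
    · have : n = 0 := by omega
      rw [this, h0, zero_div, zero_mul]
    · have h1 : (M : ℝ) + 1 ≤ n := by exact_mod_cast hn
      have h2 : Real.log (y / n) ≤ 0 := by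
        apply Real.log_nonpos (by positivity)
        rw [div_le_one (by linarith)]
        linarith
      rw [max_eq_right h2, mul_zero, Complex.ofReal_zero, mul_zero]

theorem diff_bound {b : ℕ → ℂ} (h0 : b 0 = 0) {E β η : ℝ} (hE : 0 ≤ E) (hη : 0 < η) (hη1 : η ≤ 1)
    {N : ℕ} (hN : 1 ≤ N) (hβ : ∀ n : ℕ, (n : ℝ) ≤ 3 * N → ‖b n‖ ≤ β)
    (hG : ∀ y : ℝ, 1 ≤ y → y ≤ 3 * N →
      ‖∑' n : ℕ, b n / n * (((n : ℝ) / y * max (Real.log (y / n)) 0 : ℝ) : ℂ)‖ ≤ E) {m : ℕ}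
    (hm : m ≤ N) :
    ‖∑ n ∈ Ioc 0 m, b n‖ ≤ 4 * N * E / η + β * (2 * η * N + 1) := by
  have _hN := hN
  have hβ0 : 0 ≤ β := (norm_nonneg _).trans (hβ 0 (by push_cast; positivity))
  rcases Nat.eq_zero_or_pos m with rfl | hm0
  · rw [Finset.Ioc_self, Finset.sum_empty, norm_zero]
    positivity
  have hm1 : (1 : ℝ) ≤ m := by exact_mod_cast hm0
  have hmN : (m : ℝ) ≤ N := by exact_mod_cast hm
  have hexp3 : Real.exp η ≤ 3 := by
    have h1 := Real.exp_le_exp.2 hη1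
    have h2 := Real.exp_one_lt_d9
    linarith
  have hexp1 : 1 ≤ Real.exp η := Real.one_le_exp hη.le
  have hexp2 : Real.exp η - 1 ≤ 2 * η := by
    have h1 := Real.abs_exp_sub_one_le (x := η) (by rw [abs_of_pos hη]; exact hη1)
    rw [abs_of_pos hη] at h1
    exact (le_abs_self _).trans h1
  obtain ⟨z, hz⟩ : ∃ z : ℝ, z = m * Real.exp η := ⟨_, rfl⟩
  have hz1 : (m : ℝ) ≤ z := by rw [hz]; nlinarith
  have hz3 : z ≤ 3 * m := by rw [hz]; nlinarith
  have hz0 : 0 < z := by linarith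
  obtain ⟨M, hM⟩ : ∃ M : ℕ, M = ⌊z⌋₊ := ⟨_, rfl⟩
  have hMz : (M : ℝ) ≤ z := by rw [hM]; exact Nat.floor_le hz0.le
  have hzM : z < M + 1 := by rw [hM]; exact Nat.lt_floor_add_one z
  have hmM : m ≤ M := by rw [hM]; exact Nat.le_floor hz1
  have g1 := hG m hm1 (by linarith)
  have g2 := hG z (by linarith) (by linarith)
  rw [dif_tsum h0 (by linarith) (M := M) (by linarith), norm_div, Complex.norm_real,
    Real.norm_of_nonneg (by linarith), div_le_iff₀ (by linarith)] at g1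
  rw [dif_tsum h0 hz0 hzM, norm_div, Complex.norm_real, Real.norm_of_nonneg hz0.le,
    div_le_iff₀ hz0] at g2
  have hdisj : Ioc 0 M = Ioc 0 m ∪ Ioc m M := by
    rw [Finset.Ioc_union_Ioc_eq_Ioc (Nat.zero_le m) hmM]
  have hd : Disjoint (Ioc 0 m) (Ioc m M) := by
    rw [Finset.disjoint_left]
    intro a ha hb
    have h1 := (Finset.mem_Ioc.1 ha).2
    have h2 := (Finset.mem_Ioc.1 hb).1
    omega
  have key : (∑ n ∈ Ioc 0 M, b n * ((max (Real.log (z / n)) 0 : ℝ) : ℂ)) -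
      (∑ n ∈ Ioc 0 M, b n * ((max (Real.log ((m : ℝ) / n)) 0 : ℝ) : ℂ)) =
      (η : ℂ) * ∑ n ∈ Ioc 0 m, b n +
        ∑ n ∈ Ioc m M, b n * ((max (Real.log (z / n)) 0 : ℝ) : ℂ) := by
    rw [hdisj, Finset.sum_union hd, Finset.sum_union hd]
    have e1 : ∑ n ∈ Ioc m M, b n * ((max (Real.log ((m : ℝ) / n)) 0 : ℝ) : ℂ) = 0 := by
      refine Finset.sum_eq_zero fun n hn => ?_
      have h1 : (m : ℝ) < n := by exact_mod_cast (Finset.mem_Ioc.1 hn).1
      have h2 : Real.log ((m : ℝ) / n) ≤ 0 := by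
        apply Real.log_nonpos (by positivity)
        rw [div_le_one (by linarith)]
        exact h1.le
      rw [max_eq_right h2, Complex.ofReal_zero, mul_zero]
    have e2 : ∑ n ∈ Ioc 0 m, b n * ((max (Real.log (z / n)) 0 : ℝ) : ℂ) =
        ∑ n ∈ Ioc 0 m, b n * ((max (Real.log ((m : ℝ) / n)) 0 : ℝ) : ℂ) +
          (η : ℂ) * ∑ n ∈ Ioc 0 m, b n := by
      rw [Finset.mul_sum, ← Finset.sum_add_distrib]
      refine Finset.sum_congr rfl fun n hn => ?_
      have h1 := Finset.mem_Ioc.1 hn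
      have hn0 : (0 : ℝ) < n := by exact_mod_cast h1.1
      have hnm : (n : ℝ) ≤ m := by exact_mod_cast h1.2
      have h2 : 0 ≤ Real.log ((m : ℝ) / n) := Real.log_nonneg (by
        rw [le_div_iff₀ hn0]
        linarith)
      have h3 : Real.log (z / n) = Real.log ((m : ℝ) / n) + η := by
        have h4 : z / n = (m : ℝ) / n * Real.exp η := by rw [hz]; ring
        rw [h4, Real.log_mul (by positivity) (Real.exp_pos η).ne', Real.log_exp]
      rw [max_eq_left h2, h3, max_eq_left (by linarith)]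
      push_cast
      ring
    rw [e1, e2]
    ring
  have hrest : ‖∑ n ∈ Ioc m M, b n * ((max (Real.log (z / n)) 0 : ℝ) : ℂ)‖ ≤
      β * η * (2 * η * N) := by
    have h1 : ∀ n ∈ Ioc m M, ‖b n * ((max (Real.log (z / n)) 0 : ℝ) : ℂ)‖ ≤ β * η := by
      intro n hn
      have h2 := Finset.mem_Ioc.1 hn
      have hmn : (m : ℝ) < n := by exact_mod_cast h2.1
      have hnM : (n : ℝ) ≤ M := by exact_mod_cast h2.2
      rw [norm_mul, Complex.norm_real, Real.norm_of_nonneg (le_max_right _ _)]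
      refine mul_le_mul (hβ n (by linarith)) ?_ (le_max_right _ _) hβ0
      apply max_le _ hη.le
      have h3 : Real.log (z / n) ≤ Real.log (Real.exp η) := by
        apply Real.log_le_log (div_pos hz0 (by linarith))
        rw [div_le_iff₀ (by linarith), hz, mul_comm]
        exact mul_le_mul_of_nonneg_left hmn.le (Real.exp_pos η).le
      rwa [Real.log_exp] at h3
    refine (Finset.sum_le_card_nsmul _ _ _ h1 |> (norm_sum_le _ _).trans).trans ?_
    rw [Nat.card_Ioc, nsmul_eq_mul, Nat.cast_sub hmM, mul_comm]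
    refine mul_le_mul_of_nonneg_left ?_ (mul_nonneg hβ0 hη.le)
    have h2 : z - m ≤ 2 * η * m := by
      rw [hz]
      nlinarith
    have h3 : 2 * η * m ≤ 2 * η * N := mul_le_mul_of_nonneg_left hmN (by linarith)
    linarith
  have hfin : η * ‖∑ n ∈ Ioc 0 m, b n‖ ≤ 4 * N * E + β * η * (2 * η * N) := by
    have e1 : (η : ℂ) * ∑ n ∈ Ioc 0 m, b n =
        (∑ n ∈ Ioc 0 M, b n * ((max (Real.log (z / n)) 0 : ℝ) : ℂ)) -
        (∑ n ∈ Ioc 0 M, b n * ((max (Real.log ((m : ℝ) / n)) 0 : ℝ) : ℂ)) -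
        ∑ n ∈ Ioc m M, b n * ((max (Real.log (z / n)) 0 : ℝ) : ℂ) := by
      rw [key]
      ring
    have e2 : ‖(η : ℂ) * ∑ n ∈ Ioc 0 m, b n‖ = η * ‖∑ n ∈ Ioc 0 m, b n‖ := by
      rw [norm_mul, Complex.norm_real, Real.norm_of_nonneg hη.le]
    rw [← e2, e1]
    refine (norm_sub_le _ _).trans ?_
    refine (add_le_add (norm_sub_le _ _) le_rfl).trans ?_
    have h5 : E * z ≤ 3 * (N * E) := by nlinarith
    have h6 : E * m ≤ N * E := by nlinarith
    linarith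
  have h7 : ‖∑ n ∈ Ioc 0 m, b n‖ ≤ (4 * N * E + β * η * (2 * η * N)) / η := by
    rw [le_div_iff₀ hη, mul_comm]
    exact hfin
  refine h7.trans ?_
  rw [add_div]
  have h8 : β * η * (2 * η * N) / η = β * (2 * η * N) := by
    field_simp
  rw [h8]
  have h9 : β * (2 * η * N) ≤ β * (2 * η * N + 1) :=
    mul_le_mul_of_nonneg_left (by linarith) hβ0
  linarith

private theorem dif_abel {b : ℕ → ℂ} {g : ℕ → ℝ} {P N : ℕ}
    (hg : ∀ n, P ≤ n → n < N → g (n + 1) ≤ g n) {D : ℝ}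
    (hD : ∀ n, P ≤ n → n ≤ N → ‖∑ m ∈ Ioc 0 n, b m‖ ≤ D) (j : ℕ) (hj : P + j ≤ N) :
    ∃ R : ℂ, ∑ m ∈ Ioc P (P + j), (g m : ℂ) * b m =
      (g (P + j) : ℂ) * (∑ m ∈ Ioc 0 (P + j), b m) - (g P : ℂ) * (∑ m ∈ Ioc 0 P, b m) + R ∧
      ‖R‖ ≤ D * (g P - g (P + j)) := by
  induction j with
  | zero =>
    refine ⟨0, ?_, ?_⟩
    · rw [add_zero, Finset.Ioc_self, Finset.sum_empty]
      ring
    · rw [norm_zero, add_zero, sub_self, mul_zero]
  | succ j ih =>
    obtain ⟨R, h1, h2⟩ := ih (by omega)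
    refine ⟨R + ((g (P + j) - g (P + j + 1) : ℝ) : ℂ) * ∑ m ∈ Ioc 0 (P + j), b m, ?_, ?_⟩
    · rw [← add_assoc, Finset.sum_Ioc_succ_top (by omega), Finset.sum_Ioc_succ_top (by omega), h1]
      push_cast
      ring
    · have h3 := hg (P + j) (by omega) (by omega)
      refine (norm_add_le _ _).trans ?_
      rw [norm_mul, Complex.norm_real, Real.norm_of_nonneg (by linarith), ← add_assoc]
      have h4 := mul_le_mul_of_nonneg_left (hD (P + j) (by omega) (by omega))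
        (sub_nonneg.2 h3)
      linarith

theorem abel_anti {b : ℕ → ℂ} {g : ℕ → ℝ} {P N : ℕ} (hPN : P ≤ N)
    (hg : ∀ n, P ≤ n → n < N → g (n + 1) ≤ g n) (hg0 : ∀ n, P ≤ n → n ≤ N → 0 ≤ g n) {D : ℝ}
    (hD : ∀ n, P ≤ n → n ≤ N → ‖∑ m ∈ Ioc 0 n, b m‖ ≤ D) :
    ‖∑ m ∈ Ioc P N, (g m : ℂ) * b m‖ ≤ 2 * D * g P := by
  obtain ⟨R, h1, h2⟩ := dif_abel hg hD (N - P) (by omega)
  have h3 : P + (N - P) = N := by omega
  rw [h3] at h1 h2
  rw [h1]
  have h4 := mul_le_mul_of_nonneg_left (hD N hPN le_rfl) (hg0 N hPN le_rfl)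
  have h5 := mul_le_mul_of_nonneg_left (hD P le_rfl hPN) (hg0 P le_rfl hPN)
  have h6 : ‖(g N : ℂ) * ∑ m ∈ Ioc 0 N, b m‖ ≤ g N * D := by
    rw [norm_mul, Complex.norm_real, Real.norm_of_nonneg (hg0 N hPN le_rfl)]
    exact h4
  have h7 : ‖(g P : ℂ) * ∑ m ∈ Ioc 0 P, b m‖ ≤ g P * D := by
    rw [norm_mul, Complex.norm_real, Real.norm_of_nonneg (hg0 P le_rfl hPN)]
    exact h5
  refine (norm_add_le _ _).trans ?_
  refine (add_le_add (norm_sub_le _ _) h2).trans ?_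
  linarith

theorem weight_anti {X : ℝ} {k : ℕ} (hX : 2 ≤ X) (hk : 3 ≤ k) {n : ℕ} (h1 : 1 ≤ Real.log n)
    (h2 : Real.log (n + 1) ≤ 3 * X) :
    (Real.log ((n + 1 : ℕ) : ℝ) ^ k)⁻¹ * ((n + 1 : ℕ) : ℝ) ^ (1 / X) ≤
      (Real.log (n : ℝ) ^ k)⁻¹ * (n : ℝ) ^ (1 / X) := by
  have hn0 : (0 : ℝ) < n := by
    rcases Nat.eq_zero_or_pos n with h | h
    · rw [h, Nat.cast_zero, Real.log_zero] at h1
      linarith
    · exact_mod_cast h
  rw [Real.rpow_def_of_pos hn0, Real.rpow_def_of_pos (by positivity)]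
  push_cast
  obtain ⟨u, hu⟩ : ∃ u, u = Real.log n := ⟨_, rfl⟩
  obtain ⟨v, hv⟩ : ∃ v, v = Real.log ((n : ℝ) + 1) := ⟨_, rfl⟩
  have huv : u ≤ v := by
    rw [hu, hv]
    exact Real.log_le_log hn0 (by linarith)
  rw [← hu, ← hv]
  rw [← hu] at h1
  rw [← hv] at h2
  have hu0 : 0 < u := by linarith
  have hv0 : 0 < v := by linarith
  have hX0 : 0 < X := by linarith
  have h3 : 1 - u / v ≤ Real.log (v / u) := by
    have h4 := Real.one_sub_inv_le_log_of_pos (div_pos hv0 hu0)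
    rwa [inv_div] at h4
  have hk3 : (3 : ℝ) ≤ k := by exact_mod_cast hk
  have h5 : (v - u) / X ≤ k * Real.log (v / u) := by
    have h6 : (v - u) / (3 * X) ≤ 1 - u / v := by
      have h7 : 1 - u / v = (v - u) / v := by field_simp
      rw [h7]
      exact div_le_div_of_nonneg_left (by linarith) hv0 h2
    have h8 : 0 ≤ (v - u) / (3 * X) := div_nonneg (by linarith) (by linarith)
    have h9 : (v - u) / X = 3 * ((v - u) / (3 * X)) := by field_simp
    rw [h9]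
    exact mul_le_mul hk3 (h6.trans h3) h8 (by linarith)
  have h6 : Real.exp ((v - u) / X) ≤ (v / u) ^ k := by
    have h7 := Real.exp_le_exp.2 h5
    rw [Real.exp_nat_mul, Real.exp_log (div_pos hv0 hu0)] at h7
    exact h7
  have h7 : Real.exp (v * (1 / X)) = Real.exp (u * (1 / X)) * Real.exp ((v - u) / X) := by
    rw [← Real.exp_add]
    congr 1
    field_simp
    ring
  rw [h7]
  have h8 : (v ^ k)⁻¹ * (v / u) ^ k = (u ^ k)⁻¹ := by
    rw [div_pow]
    field_simp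
  calc (v ^ k)⁻¹ * (Real.exp (u * (1 / X)) * Real.exp ((v - u) / X))
      ≤ (v ^ k)⁻¹ * (Real.exp (u * (1 / X)) * (v / u) ^ k) := by
        gcongr
    _ = ((v ^ k)⁻¹ * (v / u) ^ k) * Real.exp (u * (1 / X)) := by ring
    _ = (u ^ k)⁻¹ * Real.exp (u * (1 / X)) := by rw [h8]

end Pool.Agent.REC
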