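import Mathlib

/-! REC/LogD.  Derivatives of a logarithmic derivative, general complex analysis.

PLAN.  `r = W^(-64)`.  Taylor series of the entire functions `f` and `deriv f` at `s`
(`Complex.hasSum_taylorSeries_of_entire` or `Complex.taylorSeries_eq_of_entire`): for `‖z‖ ≤ r`
`‖f (s+z) - f s‖ ≤ ∑_{j ≥ 1} W^(j+1) r^j = W^2 r/(1 - W r) ≤ 2 W^(-62) ≤ W^(-60)/2`, so `‖f (s+z)‖ ≥ W^(-60)/2`, and
`‖f' (s+z)‖ ≤ ∑_{j ≥ 0} (j+1) W^(j+2) r^j = W^2/(1 - W r)^2 ≤ 2 W^2` (`iteratedDeriv j (deriv f) s = iteratedDeriv (j+1) f s`).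
So `-f'/f` is differentiable on (a neighbourhood of) the closed ball of radius `r` about `s` and bounded there by
`4 W^62 ≤ W^63`.  Cauchy: `Complex.norm_iteratedDeriv_le_of_forall_mem_sphere_norm_le`: `≤ k! W^63 / r^k`. -/

set_option autoImplicit false

namespace Pool.Agent.REC

private theorem deriv_bound {f : ℂ → ℂ} (hf : Differentiable ℂ f) {s : ℂ} {W : ℝ} (hW : 16 ≤ W)
    (hd : ∀ j : ℕ, ‖iteratedDeriv j f s‖ ≤ j.factorial * W ^ (j + 1)) {z : ℂ}
    (hz : ‖z - s‖ ≤ (W ^ 64)⁻¹) : ‖deriv f z‖ ≤ 2 * W ^ 2 := by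
  have hW0 : 0 < W := by linarith
  have hdf : Differentiable ℂ (deriv f) := fun z => (hf.analyticAt z).deriv.differentiableAt
  have h1 := Complex.hasSum_taylorSeries_of_entire hdf s z
  set x := W * (W ^ 64)⁻¹ with hx
  have hx0 : 0 ≤ x := by positivity
  have hx1 : x ≤ 1 / 4 := by
    have h2 : x = (W ^ 63)⁻¹ := by
      rw [hx]
      field_simp
    have h3 : 4 ≤ W ^ 63 := by
      have h4 : W ^ 1 ≤ W ^ 63 := pow_le_pow_right₀ (by linarith) (by norm_num)
      linarith
    rw [h2, one_div]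
    exact inv_anti₀ (by norm_num) h3
  have h2 : HasSum (fun n : ℕ => W ^ 2 * (2 * x) ^ n) (W ^ 2 * (1 - 2 * x)⁻¹) :=
    (hasSum_geometric_of_lt_one (by linarith) (by linarith)).mul_left _
  have h3 : ∀ n : ℕ, ‖(n.factorial : ℂ)⁻¹ • (z - s) ^ n • iteratedDeriv n (deriv f) s‖ ≤
      W ^ 2 * (2 * x) ^ n := by
    intro n
    have h4 : iteratedDeriv n (deriv f) s = iteratedDeriv (n + 1) f s := by
      rw [iteratedDeriv_succ']
    rw [h4, norm_smul, norm_smul, norm_inv, norm_pow, Complex.norm_natCast]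
    have h5 := hd (n + 1)
    have hn0 : (0 : ℝ) < n.factorial := by exact_mod_cast n.factorial_pos
    have h6 : ‖z - s‖ ^ n ≤ ((W ^ 64)⁻¹) ^ n := pow_le_pow_left₀ (norm_nonneg _) hz n
    have h7 : ((n : ℝ) + 1) ≤ 2 ^ n := by
      have : n + 1 ≤ 2 ^ n := Nat.lt_two_pow_self
      exact_mod_cast this
    calc (n.factorial : ℝ)⁻¹ * (‖z - s‖ ^ n * ‖iteratedDeriv (n + 1) f s‖) ≤
        (n.factorial : ℝ)⁻¹ * (((W ^ 64)⁻¹) ^ n * ((n + 1).factorial * W ^ (n + 1 + 1))) := by
          apply mul_le_mul_of_nonneg_left _ (by positivity)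
          exact mul_le_mul h6 h5 (norm_nonneg _) (by positivity)
      _ = ((n : ℝ) + 1) * (W ^ 2 * x ^ n) := by
          rw [Nat.factorial_succ, hx, mul_pow]
          push_cast
          field_simp
          ring
      _ ≤ 2 ^ n * (W ^ 2 * x ^ n) := mul_le_mul_of_nonneg_right h7 (by positivity)
      _ = W ^ 2 * (2 * x) ^ n := by rw [mul_pow]; ring
  have h4 := tsum_of_norm_bounded h2 h3
  rw [h1.tsum_eq] at h4
  refine h4.trans ?_
  have h5 : (1 - 2 * x)⁻¹ ≤ 2 := by
    rw [inv_le_comm₀ (by linarith) (by norm_num)]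
    linarith
  have := mul_le_mul_of_nonneg_left h5 (by positivity : 0 ≤ W ^ 2)
  linarith

theorem logderiv_bound {f : ℂ → ℂ} (hf : Differentiable ℂ f) {s : ℂ} {W : ℝ} (hW : 16 ≤ W)
    (hd : ∀ j : ℕ, ‖iteratedDeriv j f s‖ ≤ j.factorial * W ^ (j + 1))
    (hl : 1 / W ^ 60 ≤ ‖f s‖) (k : ℕ) :
    ‖iteratedDeriv k (fun z => -deriv f z / f z) s‖ ≤ k.factorial * W ^ (64 * (k + 1)) := by
  have hW0 : 0 < W := by linarith
  set r := (W ^ 64)⁻¹ with hr
  have hr0 : 0 < r := by positivity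
  have hdf : Differentiable ℂ (deriv f) := fun z => (hf.analyticAt z).deriv.differentiableAt
  have hb : ∀ z ∈ Metric.closedBall s r, ‖deriv f z‖ ≤ 2 * W ^ 2 := by
    intro z hz
    rw [Metric.mem_closedBall, dist_eq_norm] at hz
    exact deriv_bound hf hW hd hz
  have hlow : ∀ z ∈ Metric.closedBall s r, 1 / (2 * W ^ 60) ≤ ‖f z‖ := by
    intro z hz
    have h1 := Convex.norm_image_sub_le_of_norm_deriv_le (f := f) (C := 2 * W ^ 2)
      (s := Metric.closedBall s r) (x := s) (y := z) (fun x _ => hf x) hb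
      (convex_closedBall s r) (Metric.mem_closedBall_self hr0.le) hz
    rw [Metric.mem_closedBall, dist_eq_norm] at hz
    have h2 : ‖f z - f s‖ ≤ 1 / (2 * W ^ 60) := by
      refine h1.trans ?_
      calc 2 * W ^ 2 * ‖z - s‖ ≤ 2 * W ^ 2 * r := mul_le_mul_of_nonneg_left hz (by positivity)
        _ ≤ 1 / (2 * W ^ 60) := by
            rw [hr, le_div_iff₀ (by positivity)]
            have h3 : 2 * W ^ 2 * (W ^ 64)⁻¹ * (2 * W ^ 60) = 4 / W ^ 2 := by
              field_simp
              norm_num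
            rw [h3, div_le_one (by positivity)]
            nlinarith
    have h3 : ‖f s‖ ≤ ‖f z‖ + ‖f z - f s‖ := by
      have h4 : f s = f z - (f z - f s) := by ring
      calc ‖f s‖ = ‖f z - (f z - f s)‖ := by rw [← h4]
        _ ≤ _ := norm_sub_le _ _
    have h4 : 1 / W ^ 60 = 1 / (2 * W ^ 60) + 1 / (2 * W ^ 60) := by
      field_simp
      norm_num
    linarith
  have hne : ∀ z ∈ Metric.closedBall s r, f z ≠ 0 := by
    intro z hz h0
    have h1 := hlow z hz
    rw [h0, norm_zero] at h1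
    have h2 : 0 < 1 / (2 * W ^ 60) := by positivity
    linarith
  have hg : ∀ z ∈ Metric.closedBall s r, ‖-deriv f z / f z‖ ≤ W ^ 63 := by
    intro z hz
    rw [norm_div, norm_neg]
    have h1 := hb z hz
    have h2 := hlow z hz
    have h3 : 0 < 1 / (2 * W ^ 60) := by positivity
    calc ‖deriv f z‖ / ‖f z‖ ≤ (2 * W ^ 2) / (1 / (2 * W ^ 60)) :=
          div_le_div₀ (by positivity) h1 h3 h2
      _ = 4 * W ^ 62 := by
          field_simp
          norm_num
      _ ≤ W ^ 63 := by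
          have h4 : W ^ 63 = W * W ^ 62 := by ring
          rw [h4]
          exact mul_le_mul_of_nonneg_right (by linarith) (by positivity)
  have hdc : DiffContOnCl ℂ (fun z => -deriv f z / f z) (Metric.ball s r) := by
    apply DifferentiableOn.diffContOnCl
    rw [closure_ball s hr0.ne']
    intro z hz
    exact ((hdf z).neg.div (hf z) (hne z hz)).differentiableWithinAt
  have h1 := Complex.norm_iteratedDeriv_le_of_forall_mem_sphere_norm_le k hr0 hdc
    (fun z hz => hg z (Metric.sphere_subset_closedBall hz))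
  refine h1.trans ?_
  have h2 : (k.factorial : ℝ) * W ^ 63 / r ^ k = k.factorial * (W ^ 63 * W ^ (64 * k)) := by
    rw [hr, inv_pow, div_inv_eq_mul, ← pow_mul, mul_assoc]
  rw [h2]
  apply mul_le_mul_of_nonneg_left _ (by positivity)
  rw [← pow_add]
  exact pow_le_pow_right₀ (by linarith) (by omega)

end Pool.Agent.REC
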