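import Mathlib

/-! REC/QPar.  Parameters of the prime number theorem for quasi-polylogarithmic conductors.
`X = log P`, `l = log X`, `W = 32 l^12`, `k = ⌊l^10⌋`, `log T = l^12`, `η = exp(-2 l^9)`.

PLAN (all for `X` large).  `k! ≤ k^k`, `log k ≤ 10 log l`, `log W = log 32 + 12 log l`, `k ≥ l^10/2`:
* `k! W^(64(k+1)) X^(-k) η^(-1) ≤ exp(k(10 log l + 64*13 log l*2 - l) + 2 l^9) ≤ exp(-l^11/4)`;
* `(k+1)! (4X)^(k+2) X^(-k) η^(-1)/T ≤ exp((k+1) log(k+1) + 2(k+2) + 2 l + 2 l^9 - l^12) ≤ exp(-l^12/2)`;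
* `(X+3)^(k+1) X^(-k) (8 η + 1/P) ≤ 2 X (8 exp(-2 l^9) + exp(-X))`. -/

set_option autoImplicit false

namespace Pool.Agent.REC

/-- total relative error -/
noncomputable def qerr (X : ℝ) (k : ℕ) (W T η : ℝ) : ℝ :=
  16 * (k.factorial * W ^ (64 * (k + 1)) + (k + 1).factorial * (4 * X) ^ (k + 2) / T) / η +
    (X + 3) ^ (k + 1) * (8 * η + 1 / Real.exp X)

private theorem qpar_ev : ∃ L0 : ℝ, ∀ l : ℝ, L0 ≤ l →
    l ^ 11 ≤ Real.exp l ∧ 10000 * Real.log l ≤ l ∧ 100 ≤ l := by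
  have h1 : ∀ᶠ l : ℝ in Filter.atTop, ‖l ^ 11‖ ≤ 1 * ‖Real.exp l‖ :=
    (Real.isLittleO_pow_exp_atTop (n := 11)).bound one_pos
  have h2 : ∀ᶠ l : ℝ in Filter.atTop, ‖Real.log l‖ ≤ (1 / 10000) * ‖id l‖ :=
    Real.isLittleO_log_id_atTop.bound (by norm_num)
  have h3 : ∀ᶠ l : ℝ in Filter.atTop, (100 : ℝ) ≤ l := Filter.eventually_ge_atTop 100
  obtain ⟨L0, hL⟩ := Filter.eventually_atTop.mp ((h1.and h2).and h3)
  refine ⟨L0, fun l hl => ?_⟩
  obtain ⟨⟨h4, h5⟩, h6⟩ := hL l hl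
  have hl0 : (0 : ℝ) ≤ l := by linarith
  refine ⟨?_, ?_, h6⟩
  · rw [Real.norm_of_nonneg (by positivity), one_mul, Real.norm_of_nonneg (Real.exp_pos l).le] at h4
    exact h4
  · have h7 : Real.log l ≤ ‖Real.log l‖ := Real.le_norm_self _
    rw [id, Real.norm_of_nonneg hl0] at h5
    linarith

private theorem qpar_exp6 : (288 : ℝ) ≤ Real.exp 6 := by
  have h1 : (2.7 : ℝ) ≤ Real.exp 1 := by
    have := Real.exp_one_gt_d9
    linarith
  have h2 : Real.exp 6 = Real.exp 1 ^ 6 := by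
    rw [← Real.exp_nat_mul]
    norm_num
  rw [h2]
  have h3 : (2.7 : ℝ) ^ 6 ≤ Real.exp 1 ^ 6 := pow_le_pow_left₀ (by norm_num) h1 6
  refine le_trans ?_ h3
  norm_num

private theorem qpar_exp3 : (9 : ℝ) ≤ Real.exp 3 := by
  have h1 : (2.7 : ℝ) ≤ Real.exp 1 := by
    have := Real.exp_one_gt_d9
    linarith
  have h2 : Real.exp 3 = Real.exp 1 ^ 3 := by
    rw [← Real.exp_nat_mul]
    norm_num
  rw [h2]
  have h3 : (2.7 : ℝ) ^ 3 ≤ Real.exp 1 ^ 3 := pow_le_pow_left₀ (by norm_num) h1 3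
  refine le_trans ?_ h3
  norm_num

private theorem qpar_exp2 : (5 : ℝ) ≤ Real.exp 2 := by
  have h1 : (2.7 : ℝ) ≤ Real.exp 1 := by
    have := Real.exp_one_gt_d9
    linarith
  have h2 : Real.exp 2 = Real.exp 1 ^ 2 := by
    rw [← Real.exp_nat_mul]
    norm_num
  rw [h2]
  have h3 : (2.7 : ℝ) ^ 2 ≤ Real.exp 1 ^ 2 := pow_le_pow_left₀ (by norm_num) h1 2
  refine le_trans ?_ h3
  norm_num

/-- factorials: `k! ≤ exp (k c)` if `k ≤ exp c` -/
private theorem qpar_fact (k : ℕ) (c : ℝ) (h : (k : ℝ) ≤ Real.exp c) :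
    (k.factorial : ℝ) ≤ Real.exp (k * c) := by
  have h1 : ((k.factorial : ℕ) : ℝ) ≤ (k : ℝ) ^ k := by
    exact_mod_cast Nat.factorial_le_pow k
  refine h1.trans ?_
  rw [Real.exp_nat_mul]
  exact pow_le_pow_left₀ (Nat.cast_nonneg k) h k

private theorem qpar_main (l : ℝ) (h100 : 100 ≤ l) (hexp : l ^ 11 ≤ Real.exp l)
    (hlog : 10000 * Real.log l ≤ l) (k : ℕ) (hk1 : (k : ℝ) ≤ l ^ 10) (hk2 : l ^ 10 < k + 1) :
    6 * qerr (Real.exp l) k (32 * l ^ 12) (Real.exp (l ^ 12)) (Real.exp (-(2 * l ^ 9))) ≤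
      Real.exp l ^ k * Real.exp (-l ^ 9) := by
  have hl0 : (0 : ℝ) < l := by linarith
  set L := Real.log l with hLd
  have hlL : Real.exp L = l := Real.exp_log hl0
  have hL0 : 0 ≤ L := Real.log_nonneg (by linarith)
  have hk0 : (0 : ℝ) ≤ k := Nat.cast_nonneg k
  -- powers of l
  have hp9 : (0 : ℝ) < l ^ 9 := by positivity
  have hp10 : 100 * l ^ 9 ≤ l ^ 10 := by
    have : l ^ 10 = l * l ^ 9 := by ring
    rw [this]
    exact mul_le_mul_of_nonneg_right h100 hp9.le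
  have hp11 : 100 * l ^ 10 ≤ l ^ 11 := by
    have : l ^ 11 = l * l ^ 10 := by ring
    rw [this]
    exact mul_le_mul_of_nonneg_right h100 (by positivity)
  have hp12 : 100 * l ^ 11 ≤ l ^ 12 := by
    have : l ^ 12 = l * l ^ 11 := by ring
    rw [this]
    exact mul_le_mul_of_nonneg_right h100 (by positivity)
  have hp1 : 100 * l ≤ l ^ 9 := by
    have h8 : (100 : ℝ) ≤ l ^ 8 := by
      have h1 : l ^ 1 ≤ l ^ 8 := pow_le_pow_right₀ (by linarith) (by norm_num)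
      linarith [h1, pow_one l]
    have : l ^ 9 = l ^ 8 * l := by ring
    rw [this]
    exact mul_le_mul_of_nonneg_right h8 hl0.le
  -- k
  have hkl1 : (k : ℝ) * l ≤ l ^ 11 := by
    have : l ^ 11 = l ^ 10 * l := by ring
    rw [this]
    exact mul_le_mul_of_nonneg_right hk1 hl0.le
  have hkl2 : l ^ 11 - l ≤ (k : ℝ) * l := by
    have : l ^ 11 - l = (l ^ 10 - 1) * l := by ring
    rw [this]
    exact mul_le_mul_of_nonneg_right (by linarith) hl0.le
  have hkL : (k : ℝ) * (10000 * L) ≤ (k : ℝ) * l := mul_le_mul_of_nonneg_left hlog hk0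
  -- factorials
  have hf1 : (k.factorial : ℝ) ≤ Real.exp (k * (10 * L)) := by
    apply qpar_fact
    have h1 : Real.exp (10 * L) = l ^ 10 := by
      have : (10 : ℝ) * L = ((10 : ℕ) : ℝ) * L := by norm_num
      rw [this, Real.exp_nat_mul, hlL]
    rw [h1]
    exact hk1
  have hf2 : ((k + 1).factorial : ℝ) ≤ Real.exp (((k + 1 : ℕ) : ℝ) * (11 * L)) := by
    apply qpar_fact
    have h1 : Real.exp (11 * L) = l ^ 11 := by
      have : (11 : ℝ) * L = ((11 : ℕ) : ℝ) * L := by norm_num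
      rw [this, Real.exp_nat_mul, hlL]
    rw [h1]
    push_cast
    linarith
  have hW : (32 * l ^ 12) ^ (64 * (k + 1)) ≤ Real.exp (((64 * (k + 1) : ℕ) : ℝ) * (13 * L)) := by
    rw [Real.exp_nat_mul]
    apply pow_le_pow_left₀ (by positivity)
    have h1 : Real.exp (13 * L) = l ^ 13 := by
      have : (13 : ℝ) * L = ((13 : ℕ) : ℝ) * L := by norm_num
      rw [this, Real.exp_nat_mul, hlL]
    rw [h1]
    have : l ^ 13 = l * l ^ 12 := by ring
    rw [this]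
    exact mul_le_mul_of_nonneg_right (by linarith) (by positivity)
  have hX4 : (4 * Real.exp l) ^ (k + 2) ≤ Real.exp (((k + 2 : ℕ) : ℝ) * (2 + l)) := by
    rw [Real.exp_nat_mul]
    apply pow_le_pow_left₀ (by positivity)
    rw [Real.exp_add]
    exact mul_le_mul_of_nonneg_right (by linarith [qpar_exp2]) (Real.exp_pos l).le
  have hXk : Real.exp l ^ k = Real.exp (k * l) := by rw [Real.exp_nat_mul]
  have hX3 : (Real.exp l + 3) ^ (k + 1) ≤ Real.exp (((k + 1 : ℕ) : ℝ) * l + 1) := by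
    have h1 : Real.exp l + 3 ≤ Real.exp (l + 3 * Real.exp (-l)) := by
      rw [Real.exp_add]
      have h2 : 3 * Real.exp (-l) + 1 ≤ Real.exp (3 * Real.exp (-l)) := Real.add_one_le_exp _
      have h3 : Real.exp l * (3 * Real.exp (-l) + 1) = Real.exp l + 3 := by
        rw [Real.exp_neg]
        field_simp
        ring
      rw [← h3]
      exact mul_le_mul_of_nonneg_left h2 (Real.exp_pos l).le
    refine (pow_le_pow_left₀ (by positivity) h1 (k + 1)).trans ?_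
    rw [← Real.exp_nat_mul]
    apply Real.exp_le_exp.mpr
    have h4 : ((k + 1 : ℕ) : ℝ) * (3 * Real.exp (-l)) ≤ 1 := by
      rw [Real.exp_neg]
      have h5 : ((k + 1 : ℕ) : ℝ) * 3 ≤ Real.exp l := by
        push_cast
        linarith
      have h6 : ((k + 1 : ℕ) : ℝ) * (3 * (Real.exp l)⁻¹) = (((k + 1 : ℕ) : ℝ) * 3) / Real.exp l := by
        ring
      rw [h6, div_le_one (Real.exp_pos l)]
      exact h5
    rw [mul_add]
    linarith
  have hη : 8 * Real.exp (-(2 * l ^ 9)) + 1 / Real.exp (Real.exp l) ≤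
      Real.exp 3 * Real.exp (-(2 * l ^ 9)) := by
    have h1 : 1 / Real.exp (Real.exp l) ≤ Real.exp (-(2 * l ^ 9)) := by
      rw [one_div, ← Real.exp_neg]
      apply Real.exp_le_exp.mpr
      linarith
    have h2 := mul_le_mul_of_nonneg_right qpar_exp3 (Real.exp_pos (-(2 * l ^ 9))).le
    linarith
  -- the three terms
  have hA : Real.exp 6 * ((k.factorial : ℝ) * (32 * l ^ 12) ^ (64 * (k + 1)) *
      Real.exp (2 * l ^ 9)) ≤ Real.exp l ^ k * Real.exp (-l ^ 9) := by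
    have h1 : (k.factorial : ℝ) * (32 * l ^ 12) ^ (64 * (k + 1)) ≤
        Real.exp (k * (10 * L)) * Real.exp (((64 * (k + 1) : ℕ) : ℝ) * (13 * L)) :=
      mul_le_mul hf1 hW (by positivity) (Real.exp_pos _).le
    have h2 := mul_le_mul_of_nonneg_left
      (mul_le_mul_of_nonneg_right h1 (Real.exp_pos (2 * l ^ 9)).le) (Real.exp_pos 6).le
    refine h2.trans ?_
    rw [hXk, ← Real.exp_add, ← Real.exp_add, ← Real.exp_add, ← Real.exp_add]
    apply Real.exp_le_exp.mpr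
    push_cast
    nlinarith
  have hB : Real.exp 6 * (((k + 1).factorial : ℝ) * (4 * Real.exp l) ^ (k + 2) *
      Real.exp (-l ^ 12) * Real.exp (2 * l ^ 9)) ≤ Real.exp l ^ k * Real.exp (-l ^ 9) := by
    have h1 : ((k + 1).factorial : ℝ) * (4 * Real.exp l) ^ (k + 2) ≤
        Real.exp (((k + 1 : ℕ) : ℝ) * (11 * L)) * Real.exp (((k + 2 : ℕ) : ℝ) * (2 + l)) :=
      mul_le_mul hf2 hX4 (by positivity) (Real.exp_pos _).le
    have h2 := mul_le_mul_of_nonneg_left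
      (mul_le_mul_of_nonneg_right (mul_le_mul_of_nonneg_right h1 (Real.exp_pos (-l ^ 12)).le)
        (Real.exp_pos (2 * l ^ 9)).le) (Real.exp_pos 6).le
    refine h2.trans ?_
    rw [hXk, ← Real.exp_add, ← Real.exp_add, ← Real.exp_add, ← Real.exp_add, ← Real.exp_add]
    apply Real.exp_le_exp.mpr
    push_cast
    nlinarith
  have hC : Real.exp 6 * ((Real.exp l + 3) ^ (k + 1) *
      (8 * Real.exp (-(2 * l ^ 9)) + 1 / Real.exp (Real.exp l))) ≤
      Real.exp l ^ k * Real.exp (-l ^ 9) := by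
    have h1 : (Real.exp l + 3) ^ (k + 1) *
        (8 * Real.exp (-(2 * l ^ 9)) + 1 / Real.exp (Real.exp l)) ≤
        Real.exp (((k + 1 : ℕ) : ℝ) * l + 1) * (Real.exp 3 * Real.exp (-(2 * l ^ 9))) :=
      mul_le_mul hX3 hη (by positivity) (Real.exp_pos _).le
    refine (mul_le_mul_of_nonneg_left h1 (Real.exp_pos 6).le).trans ?_
    rw [hXk, ← Real.exp_add, ← Real.exp_add, ← Real.exp_add, ← Real.exp_add]
    apply Real.exp_le_exp.mpr
    push_cast
    nlinarith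
  -- assembly
  have hq : qerr (Real.exp l) k (32 * l ^ 12) (Real.exp (l ^ 12)) (Real.exp (-(2 * l ^ 9))) =
      16 * ((k.factorial : ℝ) * (32 * l ^ 12) ^ (64 * (k + 1)) * Real.exp (2 * l ^ 9)) +
      16 * (((k + 1).factorial : ℝ) * (4 * Real.exp l) ^ (k + 2) *
        Real.exp (-l ^ 12) * Real.exp (2 * l ^ 9)) +
      (Real.exp l + 3) ^ (k + 1) *
        (8 * Real.exp (-(2 * l ^ 9)) + 1 / Real.exp (Real.exp l)) := by
    unfold qerr
    rw [Real.exp_neg (2 * l ^ 9), Real.exp_neg (l ^ 12)]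
    have h1 : Real.exp (2 * l ^ 9) ≠ 0 := (Real.exp_pos _).ne'
    have h2 : Real.exp (l ^ 12) ≠ 0 := (Real.exp_pos _).ne'
    rw [div_inv_eq_mul]
    ring
  rw [hq]
  set A := (k.factorial : ℝ) * (32 * l ^ 12) ^ (64 * (k + 1)) * Real.exp (2 * l ^ 9) with hAd
  set B := ((k + 1).factorial : ℝ) * (4 * Real.exp l) ^ (k + 2) *
        Real.exp (-l ^ 12) * Real.exp (2 * l ^ 9) with hBd
  set C := (Real.exp l + 3) ^ (k + 1) *
        (8 * Real.exp (-(2 * l ^ 9)) + 1 / Real.exp (Real.exp l)) with hCd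
  have hA0 : 0 ≤ A := by positivity
  have hB0 : 0 ≤ B := by positivity
  have hC0 : 0 ≤ C := by positivity
  have h6 := qpar_exp6
  have hA' := mul_le_mul_of_nonneg_right h6 hA0
  have hB' := mul_le_mul_of_nonneg_right h6 hB0
  have hC' := mul_le_mul_of_nonneg_right h6 hC0
  linarith

theorem qpar : ∃ X0 : ℝ, ∀ X : ℝ, X0 ≤ X → ∀ l : ℝ, l = Real.log X →
    100 ≤ l ∧ 3 ≤ ⌊l ^ 10⌋₊ ∧ 1 ≤ Real.exp (l ^ 12) ∧
    Real.exp (4 * l ^ 8) * (2 * Real.exp (l ^ 12) + 3) ≤ Real.exp (2 * l ^ 12) ∧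
    6 * qerr X ⌊l ^ 10⌋₊ (32 * l ^ 12) (Real.exp (l ^ 12)) (Real.exp (-(2 * l ^ 9))) ≤
      X ^ ⌊l ^ 10⌋₊ * Real.exp (-l ^ 9) := by
  obtain ⟨L0, hL⟩ := qpar_ev
  refine ⟨Real.exp L0, fun X hX l hl => ?_⟩
  have hX0 : 0 < X := lt_of_lt_of_le (Real.exp_pos _) hX
  have hl1 : L0 ≤ l := by
    rw [hl, ← Real.log_exp L0]
    exact Real.log_le_log (Real.exp_pos _) hX
  have hXl : X = Real.exp l := by rw [hl, Real.exp_log hX0]
  obtain ⟨h1, h2, h3⟩ := hL l hl1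
  have hl0 : 0 ≤ l := by linarith
  refine ⟨h3, ?_, Real.one_le_exp (by positivity), ?_, ?_⟩
  · apply Nat.le_floor
    have h4 : l ^ 1 ≤ l ^ 10 := pow_le_pow_right₀ (by linarith) (by norm_num)
    push_cast
    linarith [pow_one l]
  · have h4 : 2 * Real.exp (l ^ 12) + 3 ≤ Real.exp 2 * Real.exp (l ^ 12) := by
      have h5 : 1 ≤ Real.exp (l ^ 12) := Real.one_le_exp (by positivity)
      have h6 := mul_le_mul_of_nonneg_right qpar_exp2 (Real.exp_pos (l ^ 12)).le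
      linarith
    refine (mul_le_mul_of_nonneg_left h4 (Real.exp_pos _).le).trans ?_
    rw [← Real.exp_add, ← Real.exp_add]
    apply Real.exp_le_exp.mpr
    have h5 : 1 ≤ l ^ 8 := one_le_pow₀ (by linarith)
    have h6 : l ^ 12 = l ^ 4 * l ^ 8 := by ring
    have h7 : (100 : ℝ) ≤ l ^ 4 := by
      have h8 : l ^ 1 ≤ l ^ 4 := pow_le_pow_right₀ (by linarith) (by norm_num)
      linarith [pow_one l]
    have h8 : 100 * l ^ 8 ≤ l ^ 12 := by
      rw [h6]
      exact mul_le_mul_of_nonneg_right h7 (by positivity)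
    linarith
  · rw [hXl]
    exact qpar_main l h3 h1 h2 _ (Nat.floor_le (by positivity)) (Nat.lt_floor_add_one _)

end Pool.Agent.REC
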