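import Pool.Agent.REC.Ker

/-! REC/Riesz.  Riesz means by absolutely convergent integrals.

For `y > 0`, `n ≥ 1` put `u = log (y/n)`: `(n/y) max(log(y/n),0) = max u 0 * exp (-u) = (1/2π) ∫ exp(iut)/(1+it)^2 dt`
(`ker`), `exp(iut) = y^(it) n^(-it)`.  Exchange `∑'` and `∫`, then `ker_integral_le`. -/

set_option autoImplicit false

namespace Pool.Agent.REC

open Complex MeasureTheory

private theorem rz_cont {c : ℕ → ℂ} (h0 : c 0 = 0) (n : ℕ) :
    Continuous fun t : ℝ => c n * (n : ℂ) ^ (-(I * t)) := by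
  rcases Nat.eq_zero_or_pos n with rfl | hn
  · simp only [h0, zero_mul]
    exact continuous_const
  · refine continuous_const.mul (Continuous.const_cpow ?_ (Or.inl ?_))
    · fun_prop
    · exact_mod_cast hn.ne'

private theorem rz_norm {c : ℕ → ℂ} (h0 : c 0 = 0) (n : ℕ) (t : ℝ) :
    ‖c n * (n : ℂ) ^ (-(I * t))‖ = ‖c n‖ := by
  rcases Nat.eq_zero_or_pos n with rfl | hn
  · simp [h0]
  · rw [norm_mul, norm_natCast_cpow_of_pos hn]
    simp

private theorem rz_exp (a t : ℝ) : ‖Complex.exp (I * ((a * t : ℝ) : ℂ))‖ = 1 := by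
  rw [mul_comm, Complex.norm_exp_ofReal_mul_I]

private theorem rz_term {c : ℕ → ℂ} (h0 : c 0 = 0) {y : ℝ} (hy : 0 < y) (n : ℕ) :
    ∫ t : ℝ, Complex.exp (I * ((Real.log y * t : ℝ) : ℂ)) * (c n * (n : ℂ) ^ (-(I * t))) *
      (1 / (1 + I * t) ^ 2) =
      (2 * Real.pi : ℝ) * (c n * (((n : ℝ) / y * max (Real.log (y / n)) 0 : ℝ) : ℂ)) := by
  rcases Nat.eq_zero_or_pos n with rfl | hn
  · simp [h0]
  · have hn' : (0 : ℝ) < n := by exact_mod_cast hn
    have h1 : ∀ t : ℝ, Complex.exp (I * ((Real.log y * t : ℝ) : ℂ)) *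
        (c n * (n : ℂ) ^ (-(I * t))) * (1 / (1 + I * t) ^ 2) =
        c n * (Complex.exp (I * ((Real.log (y / n) * t : ℝ) : ℂ)) / (1 + I * t) ^ 2) := by
      intro t
      have h2 : (n : ℂ) ^ (-(I * t)) = Complex.exp (-(I * ((Real.log n * t : ℝ) : ℂ))) := by
        rw [Complex.cpow_def_of_ne_zero (by exact_mod_cast hn.ne'), ← Complex.natCast_log]
        congr 1
        push_cast
        ring
      have h3 : Complex.exp (I * ((Real.log (y / n) * t : ℝ) : ℂ)) =
          Complex.exp (I * ((Real.log y * t : ℝ) : ℂ)) *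
            Complex.exp (-(I * ((Real.log n * t : ℝ) : ℂ))) := by
        rw [← Complex.exp_add, Real.log_div hy.ne' hn'.ne']
        congr 1
        push_cast
        ring
      rw [h2, h3]
      ring
    rw [integral_congr_ae (Filter.Eventually.of_forall h1), integral_const_mul, ker]
    have h4 : Real.exp (-Real.log (y / n)) = n / y := by
      rw [← Real.log_inv, Real.exp_log (by positivity), inv_div]
    rw [h4]
    push_cast
    ring

theorem riesz_bound {c : ℕ → ℂ} (hc : Summable fun n => ‖c n‖) (h0 : c 0 = 0) {A B T : ℝ}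
    (hT : 1 ≤ T) (hA : 0 ≤ A) (hB : 0 ≤ B)
    (h1 : ∀ t : ℝ, |t| ≤ T → ‖∑' n : ℕ, c n * (n : ℂ) ^ (-(I * t))‖ ≤ A)
    (h2 : ∀ t : ℝ, ‖∑' n : ℕ, c n * (n : ℂ) ^ (-(I * t))‖ ≤ B) {y : ℝ} (hy : 0 < y) :
    ‖∑' n : ℕ, c n * (((n : ℝ) / y * max (Real.log (y / n)) 0 : ℝ) : ℂ)‖ ≤ A + B / T := by
  have hpi := Real.pi_pos
  have hsum : ∀ t : ℝ, Summable fun n : ℕ => c n * (n : ℂ) ^ (-(I * t)) := fun t =>
    Summable.of_norm (by simpa only [rz_norm h0] using hc)
  have hF : Continuous fun t : ℝ => Complex.exp (I * ((Real.log y * t : ℝ) : ℂ)) *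
      ∑' n : ℕ, c n * (n : ℂ) ^ (-(I * t)) := by
    refine Continuous.mul (by fun_prop) ?_
    exact continuous_tsum (fun n => rz_cont h0 n) hc fun n t => (rz_norm h0 n t).le
  have hFn : ∀ t : ℝ, ‖Complex.exp (I * ((Real.log y * t : ℝ) : ℂ)) *
      ∑' n : ℕ, c n * (n : ℂ) ^ (-(I * t))‖ = ‖∑' n : ℕ, c n * (n : ℂ) ^ (-(I * t))‖ := by
    intro t
    rw [norm_mul, rz_exp, one_mul]
  have h3 := ker_integral_le hT hA hB hF (fun t ht => by rw [hFn]; exact h1 t ht)
    (fun t => by rw [hFn]; exact h2 t)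
  -- the exchange
  have hden : ∀ t : ℝ, (1 + I * (t : ℂ)) ≠ 0 := by
    intro t h
    have := congrArg Complex.re h
    simp at this
  have hkc : Continuous fun t : ℝ => (1 : ℂ) / (1 + I * t) ^ 2 := by
    refine continuous_const.div (by fun_prop) fun t => pow_ne_zero 2 (hden t)
  have hint0 : Integrable fun t : ℝ => 1 / (1 + t ^ 2) := by
    simpa only [one_div] using integrable_inv_one_add_sq
  have hnorm : ∀ (n : ℕ) (t : ℝ), ‖Complex.exp (I * ((Real.log y * t : ℝ) : ℂ)) *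
      (c n * (n : ℂ) ^ (-(I * t))) * (1 / (1 + I * t) ^ 2)‖ = ‖c n‖ * (1 / (1 + t ^ 2)) := by
    intro n t
    rw [norm_mul, norm_mul, rz_exp, one_mul, rz_norm h0, ker_norm]
  have hint : ∀ n : ℕ, Integrable fun t : ℝ => Complex.exp (I * ((Real.log y * t : ℝ) : ℂ)) *
      (c n * (n : ℂ) ^ (-(I * t))) * (1 / (1 + I * t) ^ 2) := by
    intro n
    refine Integrable.mono' (hint0.const_mul ‖c n‖) ?_
      (Filter.Eventually.of_forall fun t => (hnorm n t).le)
    refine Continuous.aestronglyMeasurable ?_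
    exact (Continuous.mul (by fun_prop) (rz_cont h0 n)).mul hkc
  have hs : Summable fun n : ℕ => ∫ t : ℝ, ‖Complex.exp (I * ((Real.log y * t : ℝ) : ℂ)) *
      (c n * (n : ℂ) ^ (-(I * t))) * (1 / (1 + I * t) ^ 2)‖ := by
    have h4 : (fun n : ℕ => ∫ t : ℝ, ‖Complex.exp (I * ((Real.log y * t : ℝ) : ℂ)) *
        (c n * (n : ℂ) ^ (-(I * t))) * (1 / (1 + I * t) ^ 2)‖) =
        fun n => ‖c n‖ * ∫ t : ℝ, 1 / (1 + t ^ 2) := by
      funext n
      rw [← integral_const_mul]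
      exact integral_congr_ae (Filter.Eventually.of_forall fun t => hnorm n t)
    rw [h4]
    exact hc.mul_right _
  have h5 := (hasSum_integral_of_summable_integral_norm hint hs).tsum_eq
  simp only [rz_term h0 hy] at h5
  rw [tsum_mul_left] at h5
  have h6 : ∫ t : ℝ, ∑' n : ℕ, Complex.exp (I * ((Real.log y * t : ℝ) : ℂ)) *
      (c n * (n : ℂ) ^ (-(I * t))) * (1 / (1 + I * t) ^ 2) =
      ∫ t : ℝ, Complex.exp (I * ((Real.log y * t : ℝ) : ℂ)) *
      (∑' n : ℕ, c n * (n : ℂ) ^ (-(I * t))) * (1 / (1 + I * t) ^ 2) := by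
    refine integral_congr_ae (Filter.Eventually.of_forall fun t => ?_)
    show (∑' n : ℕ, Complex.exp (I * ((Real.log y * t : ℝ) : ℂ)) *
      (c n * (n : ℂ) ^ (-(I * t))) * (1 / (1 + I * t) ^ 2)) = _
    rw [tsum_mul_right, tsum_mul_left]
  rw [h6] at h5
  rw [← h5, norm_mul, Complex.norm_real, Real.norm_of_nonneg (by positivity)] at h3
  exact le_of_mul_le_mul_left h3 (by positivity)

end Pool.Agent.REC
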