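import Pool.Agent.REC.Triv

/-! REC/Ser.  The Dirichlet series of `Λ(n) χ(n) (log n)^k`.

PLAN.  `LSeries_twist_vonMangoldt_eq` : `L(χΛ, s) = - deriv L(χ) s / L(χ, s)` for `1 < Re s`, and `LFunction = LSeries` there,
so near `s` the function `-deriv (LFunction χ) z / LFunction χ z` is `LSeries (χ Λ)`; `LSeries_iteratedDeriv` (abscissa of
absolute convergence `≤ 1`); `logMul^[k] f n = (log n)^k f n`.
`norm_le`: `Λ n ≤ log n`, `(log n)^(k+1) ≤ (k+1)! (2/x)^(k+1) n^(x/2)` (from `y^m ≤ m! e^y`), `zeta_sum_le` at `x/2`. -/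

set_option autoImplicit false

namespace Pool.Agent.REC

open DirichletCharacter Complex ArithmeticFunction

/-- the coefficient `Λ(n) χ(n) (log n)^k n^(-(1+x))` -/
noncomputable def co {q : ℕ} (χ : DirichletCharacter ℂ q) (k : ℕ) (x : ℝ) (n : ℕ) : ℂ :=
  ((vonMangoldt n * Real.log n ^ k * (n : ℝ) ^ (-(1 + x)) : ℝ) : ℂ) * χ n

private lemma log_pow_le (k : ℕ) {x : ℝ} (hx : 0 < x) {n : ℕ} (hn : 0 < n) :
    Real.log n ^ k ≤ k.factorial * (2 / x) ^ k * (n : ℝ) ^ (x / 2) := by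
  have hn' : (0 : ℝ) < n := by exact_mod_cast hn
  have hl : 0 ≤ Real.log n := Real.log_natCast_nonneg n
  have h1 := Real.pow_div_factorial_le_exp (x := x / 2 * Real.log n) (by positivity) k
  have h2 : Real.exp (x / 2 * Real.log n) = (n : ℝ) ^ (x / 2) := by
    rw [Real.rpow_def_of_pos hn', mul_comm]
  rw [h2, div_le_iff₀ (by positivity)] at h1
  have h3 : Real.log n ^ k = (2 / x) ^ k * (x / 2 * Real.log n) ^ k := by
    rw [← mul_pow]
    congr 1
    field_simp
  rw [h3]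
  calc (2 / x) ^ k * (x / 2 * Real.log n) ^ k
      ≤ (2 / x) ^ k * ((n : ℝ) ^ (x / 2) * k.factorial) :=
        mul_le_mul_of_nonneg_left h1 (by positivity)
    _ = _ := by ring

private lemma co_norm_le {q : ℕ} (χ : DirichletCharacter ℂ q) (k : ℕ) {x : ℝ} (hx : 0 < x)
    (n : ℕ) : ‖co χ k x n‖ ≤
      (k + 1).factorial * (2 / x) ^ (k + 1) * ((n : ℝ) ^ (1 + x / 2))⁻¹ := by
  rcases Nat.eq_zero_or_pos n with hn | hn
  · subst hn
    have : co χ k x 0 = 0 := by simp [co]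
    rw [this, norm_zero]
    positivity
  · have hn' : (0 : ℝ) < n := by exact_mod_cast hn
    have hl : 0 ≤ Real.log n := Real.log_natCast_nonneg n
    have hL : (0 : ℝ) ≤ vonMangoldt n := vonMangoldt_nonneg
    have h1 : ‖co χ k x n‖ ≤ vonMangoldt n * Real.log n ^ k * (n : ℝ) ^ (-(1 + x)) := by
      unfold co
      rw [norm_mul, Complex.norm_real, Real.norm_of_nonneg (by positivity)]
      exact mul_le_of_le_one_right (by positivity) (χ.norm_le_one _)
    have h2 : vonMangoldt n * Real.log n ^ k ≤ Real.log n ^ (k + 1) := by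
      rw [pow_succ, mul_comm]
      exact mul_le_mul_of_nonneg_left vonMangoldt_le_log (by positivity)
    have h3 := log_pow_le (k + 1) hx hn
    have h4 : (n : ℝ) ^ (x / 2) * (n : ℝ) ^ (-(1 + x)) = ((n : ℝ) ^ (1 + x / 2))⁻¹ := by
      rw [← Real.rpow_add hn', ← Real.rpow_neg hn'.le]
      congr 1
      ring
    calc ‖co χ k x n‖ ≤ vonMangoldt n * Real.log n ^ k * (n : ℝ) ^ (-(1 + x)) := h1
      _ ≤ Real.log n ^ (k + 1) * (n : ℝ) ^ (-(1 + x)) :=
          mul_le_mul_of_nonneg_right h2 (by positivity)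
      _ ≤ ((k + 1).factorial * (2 / x) ^ (k + 1) * (n : ℝ) ^ (x / 2)) *
            (n : ℝ) ^ (-(1 + x)) := mul_le_mul_of_nonneg_right h3 (by positivity)
      _ = (k + 1).factorial * (2 / x) ^ (k + 1) *
            ((n : ℝ) ^ (x / 2) * (n : ℝ) ^ (-(1 + x))) := by ring
      _ = _ := by rw [h4]

theorem co_norm {q : ℕ} (χ : DirichletCharacter ℂ q) (k : ℕ) {x : ℝ} (hx : 0 < x) (hx1 : x ≤ 1) :
    Summable (fun n : ℕ => ‖co χ k x n‖) ∧
      ∑' n : ℕ, ‖co χ k x n‖ ≤ (k + 1).factorial * (4 / x) ^ (k + 2) := by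
  obtain ⟨hs, hle⟩ := zeta_sum_le (x := x / 2) (by linarith) (by linarith)
  have hs2 : Summable (fun n : ℕ =>
      ((k + 1).factorial * (2 / x) ^ (k + 1) * ((n : ℝ) ^ (1 + x / 2))⁻¹ : ℝ)) :=
    hs.mul_left _
  have hs1 : Summable (fun n : ℕ => ‖co χ k x n‖) :=
    Summable.of_nonneg_of_le (fun n => norm_nonneg _) (fun n => co_norm_le χ k hx n) hs2
  refine ⟨hs1, ?_⟩
  have h1 := hs1.tsum_le_tsum (fun n => co_norm_le χ k hx n) hs2
  rw [tsum_mul_left] at h1
  refine le_trans h1 ?_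
  have h2 : ((k + 1).factorial * (2 / x) ^ (k + 1) : ℝ) * ∑' n : ℕ, ((n : ℝ) ^ (1 + x / 2))⁻¹ ≤
      ((k + 1).factorial * (2 / x) ^ (k + 1)) * (2 / (x / 2)) :=
    mul_le_mul_of_nonneg_left hle (by positivity)
  refine le_trans h2 ?_
  have h3 : (2 / (x / 2) : ℝ) = 4 / x := by field_simp; norm_num
  have h4 : (2 / x : ℝ) ^ (k + 1) ≤ (4 / x) ^ (k + 1) := by
    apply pow_le_pow_left₀ (by positivity)
    apply div_le_div_of_nonneg_right (by norm_num) hx.le
  rw [h3, pow_succ (4 / x) (k + 1), mul_assoc]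
  exact mul_le_mul_of_nonneg_left (mul_le_mul_of_nonneg_right h4 (by positivity)) (by positivity)

private lemma logMul_iter (f : ℕ → ℂ) (k n : ℕ) :
    (LSeries.logMul^[k] f) n = Complex.log n ^ k * f n := by
  induction k with
  | zero => simp
  | succ k ih =>
    rw [Function.iterate_succ_apply', LSeries.logMul, ih, pow_succ]
    ring

theorem co_series {q : ℕ} [NeZero q] (χ : DirichletCharacter ℂ q) (k : ℕ) {x : ℝ} (hx : 0 < x)
    (t : ℝ) :
    ∑' n : ℕ, co χ k x n * (n : ℂ) ^ (-(I * t)) =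
      (-1) ^ k * iteratedDeriv k (fun z => -deriv (LFunction χ) z / LFunction χ z)
        (1 + x + I * t) := by
  obtain ⟨s, hs⟩ : ∃ s : ℂ, s = 1 + x + I * t := ⟨_, rfl⟩
  have hre : s.re = 1 + x := by rw [hs]; simp
  have hre1 : 1 < s.re := by rw [hre]; linarith
  obtain ⟨f, hf⟩ : ∃ f : ℕ → ℂ, f = (fun n : ℕ => χ n) * (fun n : ℕ => (vonMangoldt n : ℂ)) :=
    ⟨_, rfl⟩
  have hev : (fun z => -deriv (LFunction χ) z / LFunction χ z) =ᶠ[nhds s] LSeries f := by
    have h : {z | 1 < z.re} ∈ nhds s :=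
      (isOpen_lt continuous_const continuous_re).mem_nhds hre1
    filter_upwards [h] with z hz
    rw [deriv_LFunction_eq_deriv_LSeries χ hz, LFunction_eq_LSeries χ hz, hf]
    exact (LSeries_twist_vonMangoldt_eq χ hz).symm
  have habs : LSeries.abscissaOfAbsConv f < s.re := by
    have h1 : LSeriesSummable f (1 + (x / 2 : ℝ)) := by
      rw [hf]
      apply LSeriesSummable_twist_vonMangoldt χ
      simp
      exact hx
    have h2 := h1.abscissaOfAbsConv_le
    refine lt_of_le_of_lt h2 ?_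
    rw [hre]
    simp only [add_re, one_re, ofReal_re]
    exact_mod_cast (by linarith : 1 + x / 2 < 1 + x)
  rw [← hs, (hev.iteratedDeriv k).eq_of_nhds, LSeries_iteratedDeriv k habs, ← mul_assoc,
    ← mul_pow]
  norm_num
  unfold LSeries
  congr 1
  ext n
  rcases Nat.eq_zero_or_pos n with hn | hn
  · subst hn
    simp [co]
  · have hn0 : (n : ℂ) ≠ 0 := by exact_mod_cast hn.ne'
    rw [LSeries.term_of_ne_zero hn.ne', logMul_iter, hf]
    simp only [co, Pi.mul_apply]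
    have h1 : (n : ℂ) ^ s = (n : ℂ) ^ ((1 + x : ℝ) : ℂ) * (n : ℂ) ^ (I * t) := by
      rw [← Complex.cpow_add _ _ hn0, hs]
      push_cast
      rfl
    rw [h1, Complex.cpow_neg]
    push_cast
    rw [← Complex.ofReal_natCast, Complex.ofReal_cpow (Nat.cast_nonneg n)]
    push_cast
    rw [show (-(1 + (x : ℂ))) = -(1 + (x : ℂ)) from rfl, Complex.cpow_neg]
    have h2 : (n : ℂ) ^ (1 + (x : ℂ)) ≠ 0 := by
      intro h
      rw [Complex.cpow_eq_zero_iff] at h
      exact hn0 h.1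
    have h3 : (n : ℂ) ^ (I * t) ≠ 0 := by
      intro h
      rw [Complex.cpow_eq_zero_iff] at h
      exact hn0 h.1
    field_simp

end Pool.Agent.REC
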