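import Pool.Agent.REC.Low
import Pool.Agent.REC.LogD
import Pool.Agent.REC.Ser
import Pool.Agent.REC.Riesz
import Pool.Agent.REC.Diff
import Pool.Agent.REC.QPar

/-! REC/QMain.  The prime number theorem for a character of quasi-polylogarithmic conductor.

PLAN.  `X = log P`, `l = log X`, `x = 1/X`, `k = ⌊l^10⌋`, `V = 2 l^12`, `W = 16 V = 32 l^12`, `T = exp (l^12)`,
`η = exp(-2 l^9)` (`qpar`).  For `|t| ≤ T`: `deriv_bound` (all `j`) and `low_bound` at `1+x+it` (`hq` from `qpar`), so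
`logderiv_bound` with `f = LFunction χ` (`differentiable_LFunction hχ`) and `co_series` give
`‖∑' co χ k x n n^(-it)‖ ≤ A = k! W^(64(k+1))`; for all `t` it is `≤ B = (k+1)! (4/x)^(k+2)` (`co_norm`).  `riesz_bound` with
`c = co χ k x` (`co _ _ _ 0 = 0`), then `diff_bound` with `b n = n * co χ k x n` (so `b n / n = co n`; `‖b n‖ ≤ (log n)^(k+1) ≤
(X+3)^(k+1)` for `n ≤ 12 P`), `N = 4P`, `E = A + B/T`: `‖∑_{n ≤ m} b n‖ ≤ D = 16 P E/η + β (8 η P + 1)` for `m ≤ 4P`, i.e.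
`D ≤ P qerr` (`P = exp X`).  Finally `Λ n χ n = g n * b n` with `g n = (log n)^(-k) n^(1/X)` for `n ≥ 2`, `g` antitone
on `[P, 4P]` (`weight_anti`), `g P = X^(-k) e ≤ 3 X^(-k)`: `abel_anti` between `P` and any `N ≤ 4P`; the sum over `(y1, y2]` is the
difference for `N = y2` and `N = y1`... or apply `abel_anti` directly with `P := y1`, `g y1 ≤ g P`. Total `≤ 6 P qerr/X^k`. -/

set_option autoImplicit false

namespace Pool.Agent.REC

open DirichletCharacter Finset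

private theorem qm_co_zero {q : ℕ} (χ : DirichletCharacter ℂ q) (k : ℕ) (x : ℝ) :
    co χ k x 0 = 0 := by
  simp [co]

private theorem qm_cpow_le (n : ℕ) (t : ℝ) : ‖(n : ℂ) ^ (-(Complex.I * t))‖ ≤ 1 := by
  rcases Nat.eq_zero_or_pos n with rfl | hn
  · by_cases h : -(Complex.I * (t : ℂ)) = 0
    · rw [h]
      simp
    · rw [Nat.cast_zero, Complex.zero_cpow h]
      simp
  · rw [Complex.norm_natCast_cpow_of_pos hn]
    have : (-(Complex.I * (t : ℂ))).re = 0 := by simp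
    rw [this, Real.rpow_zero]

/-- bound for all `t` -/
private theorem qm_bd {q : ℕ} (χ : DirichletCharacter ℂ q) (k : ℕ) {x : ℝ} (hx : 0 < x)
    (hx1 : x ≤ 1) (t : ℝ) : ‖∑' n : ℕ, co χ k x n * (n : ℂ) ^ (-(Complex.I * t))‖ ≤
      (k + 1).factorial * (4 / x) ^ (k + 2) := by
  obtain ⟨h1, h2⟩ := co_norm χ k hx hx1
  have h3 : ∀ n : ℕ, ‖co χ k x n * (n : ℂ) ^ (-(Complex.I * t))‖ ≤ ‖co χ k x n‖ := by
    intro n
    rw [norm_mul]
    exact mul_le_of_le_one_right (norm_nonneg _) (qm_cpow_le n t)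
  have h4 : Summable fun n : ℕ => ‖co χ k x n * (n : ℂ) ^ (-(Complex.I * t))‖ :=
    Summable.of_nonneg_of_le (fun n => norm_nonneg _) h3 h1
  exact (norm_tsum_le_tsum_norm h4).trans ((h4.tsum_le_tsum h3 h1).trans h2)

/-- bound for small `t` -/
private theorem qm_sm {q : ℕ} [NeZero q] {χ : DirichletCharacter ℂ q} (hχ : χ ≠ 1) (k : ℕ)
    {V : ℝ} (hV : 1 ≤ V) {x : ℝ} (hx : 0 < x) (hx1 : x ≤ 1) {t : ℝ}
    (hq : (q : ℝ) * (2 * |t| + 3) ≤ Real.exp V)
    (hex : χ ^ 2 = 1 → 1 / (16 * V) ^ 30 ≤ ‖LFunction χ 1‖) :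
    ‖∑' n : ℕ, co χ k x n * (n : ℂ) ^ (-(Complex.I * t))‖ ≤
      k.factorial * (16 * V) ^ (64 * (k + 1)) := by
  rw [co_series χ k hx t, norm_mul]
  have h1 : ‖((-1 : ℂ)) ^ k‖ = 1 := by
    rw [norm_pow, norm_neg, norm_one, one_pow]
  rw [h1, one_mul]
  have hre : ((1 : ℂ) + x + Complex.I * t).re = 1 + x := by simp
  have him : ((1 : ℂ) + x + Complex.I * t).im = t := by simp
  apply logderiv_bound (differentiable_LFunction hχ) (by linarith)
  · intro j
    apply deriv_bound hχ hV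
    · rw [hre]
      linarith
    · rw [hre]
      linarith
    · rw [him]
      refine le_trans ?_ hq
      apply mul_le_mul_of_nonneg_left _ (Nat.cast_nonneg q)
      have := abs_nonneg t
      linarith
  · exact low_bound hχ hV hx hx1 hq hex

private theorem qm_lam_nonneg (n : ℕ) : 0 ≤ (ArithmeticFunction.vonMangoldt n : ℝ) :=
  ArithmeticFunction.vonMangoldt_nonneg

private theorem qm_b {q : ℕ} (χ : DirichletCharacter ℂ q) (k : ℕ) {x : ℝ} (hx : 0 < x) {n : ℕ}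
    (hn : 1 ≤ n) : ‖(n : ℂ) * co χ k x n‖ ≤ Real.log n ^ (k + 1) := by
  have hn0 : (0 : ℝ) < n := by exact_mod_cast hn
  have hn1 : (1 : ℝ) ≤ n := by exact_mod_cast hn
  have hl : 0 ≤ Real.log n := Real.log_nonneg hn1
  have h1 : (n : ℝ) * (n : ℝ) ^ (-(1 + x)) ≤ 1 := by
    have h2 : (n : ℝ) ^ (-(1 + x)) = (n : ℝ)⁻¹ * (n : ℝ) ^ (-x) := by
      rw [← Real.rpow_neg_one, ← Real.rpow_add hn0]
      congr 1
      ring
    rw [h2, ← mul_assoc, mul_inv_cancel₀ hn0.ne', one_mul]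
    exact Real.rpow_le_one_of_one_le_of_nonpos hn1 (by linarith)
  unfold co
  rw [norm_mul, norm_mul, Complex.norm_natCast, Complex.norm_real]
  have h3 : 0 ≤ (ArithmeticFunction.vonMangoldt n : ℝ) * Real.log n ^ k *
      (n : ℝ) ^ (-(1 + x)) := by
    have := qm_lam_nonneg n
    positivity
  rw [Real.norm_of_nonneg h3]
  have h4 := DirichletCharacter.norm_le_one χ (n : ZMod q)
  have h5 : (ArithmeticFunction.vonMangoldt n : ℝ) ≤ Real.log n :=
    ArithmeticFunction.vonMangoldt_le_log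
  have h6 : (ArithmeticFunction.vonMangoldt n : ℝ) * Real.log n ^ k ≤
      Real.log n * Real.log n ^ k := mul_le_mul_of_nonneg_right h5 (by positivity)
  have h7 : 0 ≤ (ArithmeticFunction.vonMangoldt n : ℝ) * Real.log n ^ k := by
    have := qm_lam_nonneg n
    positivity
  calc (n : ℝ) * ((ArithmeticFunction.vonMangoldt n : ℝ) * Real.log n ^ k *
        (n : ℝ) ^ (-(1 + x)) * ‖χ n‖)
      = ((ArithmeticFunction.vonMangoldt n : ℝ) * Real.log n ^ k) *
        ((n : ℝ) * (n : ℝ) ^ (-(1 + x))) * ‖χ n‖ := by ring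
    _ ≤ ((ArithmeticFunction.vonMangoldt n : ℝ) * Real.log n ^ k) * 1 * 1 := by
        apply mul_le_mul _ h4 (norm_nonneg _) (by positivity)
        exact mul_le_mul_of_nonneg_left h1 h7
    _ ≤ Real.log n * Real.log n ^ k := by linarith
    _ = Real.log n ^ (k + 1) := by ring

private theorem qm_gb {q : ℕ} (χ : DirichletCharacter ℂ q) (k : ℕ) (x : ℝ) {n : ℕ}
    (hn : 2 ≤ n) :
    (((Real.log n ^ k)⁻¹ * (n : ℝ) ^ x : ℝ) : ℂ) * ((n : ℂ) * co χ k x n) =
      ((ArithmeticFunction.vonMangoldt n : ℝ) : ℂ) * χ n := by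
  have hn0 : (0 : ℝ) < n := by
    have : 0 < n := by omega
    exact_mod_cast this
  have hl : Real.log n ≠ 0 := by
    apply (Real.log_pos _).ne'
    have : 1 < n := by omega
    exact_mod_cast this
  have h1 : (Real.log n ^ k)⁻¹ * (n : ℝ) ^ x * ((n : ℝ) *
      ((ArithmeticFunction.vonMangoldt n : ℝ) * Real.log n ^ k * (n : ℝ) ^ (-(1 + x)))) =
      (ArithmeticFunction.vonMangoldt n : ℝ) := by
    have h2 : (n : ℝ) ^ x * ((n : ℝ) * (n : ℝ) ^ (-(1 + x))) = 1 := by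
      have h3 : (n : ℝ) * (n : ℝ) ^ (-(1 + x)) = (n : ℝ) ^ (-x) := by
        nth_rewrite 1 [← Real.rpow_one (n : ℝ)]
        rw [← Real.rpow_add hn0]
        congr 1
        ring
      rw [h3, ← Real.rpow_add hn0, add_neg_cancel, Real.rpow_zero]
    have h4 : (Real.log n ^ k)⁻¹ * Real.log n ^ k = 1 :=
      inv_mul_cancel₀ (pow_ne_zero _ hl)
    calc (Real.log n ^ k)⁻¹ * (n : ℝ) ^ x * ((n : ℝ) *
      ((ArithmeticFunction.vonMangoldt n : ℝ) * Real.log n ^ k * (n : ℝ) ^ (-(1 + x))))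
        = (ArithmeticFunction.vonMangoldt n : ℝ) * ((Real.log n ^ k)⁻¹ * Real.log n ^ k) *
          ((n : ℝ) ^ x * ((n : ℝ) * (n : ℝ) ^ (-(1 + x)))) := by ring
      _ = _ := by rw [h2, h4, mul_one, mul_one]
  unfold co
  conv_rhs => rw [← h1]
  push_cast
  ring

/-- the final estimate -/
private theorem qm_fin {P X Q e : ℝ} {k : ℕ} (hX : 0 < X) (hP : 0 ≤ P)
    (h : 6 * Q ≤ X ^ k * e) : 2 * (P * Q) * (3 * (X ^ k)⁻¹) ≤ P * e := by
  have hk : 0 < X ^ k := pow_pos hX k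
  have h1 : 2 * (P * Q) * (3 * (X ^ k)⁻¹) = P * ((6 * Q) * (X ^ k)⁻¹) := by ring
  rw [h1]
  apply mul_le_mul_of_nonneg_left _ hP
  rw [← div_eq_mul_inv, div_le_iff₀ hk, mul_comm]
  linarith

theorem qpnt : ∃ P0 : ℕ, ∀ P : ℕ, P0 ≤ P → ∀ l : ℝ, l = Real.log (Real.log P) →
    ∀ (q : ℕ) [NeZero q], (q : ℝ) ≤ Real.exp (4 * l ^ 8) → ∀ χ : DirichletCharacter ℂ q, χ ≠ 1 →
    (χ ^ 2 = 1 → 1 / (32 * l ^ 12) ^ 30 ≤ ‖LFunction χ 1‖) →
    ∀ y1 y2 : ℕ, P ≤ y1 → y1 ≤ y2 → y2 ≤ 4 * P →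
    ‖∑ n ∈ Ioc y1 y2, ((ArithmeticFunction.vonMangoldt n : ℝ) : ℂ) * χ n‖ ≤
      P * Real.exp (-l ^ 9) := by
  obtain ⟨X0, hX0⟩ := qpar
  refine ⟨⌈Real.exp (max X0 2)⌉₊, ?_⟩
  intro P hP l hl q _ hq χ hχ hex y1 y2 hy1 hy12 hy2
  set X := Real.log P with hX
  have hP1 : Real.exp (max X0 2) ≤ P := Nat.ceil_le.1 hP
  have hP0 : (0 : ℝ) < P := (Real.exp_pos _).trans_le hP1
  have hXm : max X0 2 ≤ X := by
    rw [hX, Real.le_log_iff_exp_le hP0]
    exact hP1
  have hX2 : 2 ≤ X := (le_max_right _ _).trans hXm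
  have hXpos : 0 < X := by linarith
  obtain ⟨hl100, hk3, hT1, hqT, hmain⟩ := hX0 X ((le_max_left _ _).trans hXm) l hl
  have hX101 : 101 ≤ X := by
    have := Real.log_le_sub_one_of_pos hXpos
    linarith
  have hexpX : Real.exp X = P := by rw [hX, Real.exp_log hP0]
  set k := ⌊l ^ 10⌋₊ with hk
  set T := Real.exp (l ^ 12) with hT
  set η := Real.exp (-(2 * l ^ 9)) with hη
  have hl12 : 1 ≤ l ^ 12 := one_le_pow₀ (by linarith)
  have hl9 : 0 ≤ l ^ 9 := by positivity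
  have hV1 : 1 ≤ 2 * l ^ 12 := by linarith
  have hW : 16 * (2 * l ^ 12) = 32 * l ^ 12 := by ring
  have hη0 : 0 < η := Real.exp_pos _
  have hη1 : η ≤ 1 := by
    rw [hη, Real.exp_le_one_iff]
    linarith
  have hx0 : 0 < 1 / X := by positivity
  have hx1 : 1 / X ≤ 1 := by
    rw [div_le_one hXpos]
    linarith
  have h4X : 4 / (1 / X) = 4 * X := by
    field_simp
  set A : ℝ := k.factorial * (32 * l ^ 12) ^ (64 * (k + 1)) with hA
  set B : ℝ := (k + 1).factorial * (4 * X) ^ (k + 2) with hB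
  have hA0 : 0 ≤ A := by positivity
  have hB0 : 0 ≤ B := by positivity
  have hT0 : 0 < T := Real.exp_pos _
  have hcn := (co_norm χ k hx0 hx1).1
  have hA1 : ∀ t : ℝ, |t| ≤ T →
      ‖∑' n : ℕ, co χ k (1 / X) n * (n : ℂ) ^ (-(Complex.I * t))‖ ≤ A := by
    intro t ht
    have h1 := qm_sm hχ k hV1 hx0 hx1 (t := t) ?_ ?_
    · rw [hW] at h1
      exact h1
    · refine le_trans ?_ hqT
      apply mul_le_mul hq _ (by positivity) (Real.exp_pos _).le
      linarith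
    · rw [hW]
      exact hex
  have hB1 : ∀ t : ℝ, ‖∑' n : ℕ, co χ k (1 / X) n * (n : ℂ) ^ (-(Complex.I * t))‖ ≤ B := by
    intro t
    have h1 := qm_bd χ k hx0 hx1 t
    rw [h4X] at h1
    exact h1
  set E : ℝ := A + B / T with hE
  have hE0 : 0 ≤ E := by positivity
  set b : ℕ → ℂ := fun n => (n : ℂ) * co χ k (1 / X) n with hb
  have hb0 : b 0 = 0 := by
    simp [hb]
  have hbn : ∀ n : ℕ, b n / n = co χ k (1 / X) n := by
    intro n
    rcases Nat.eq_zero_or_pos n with rfl | hn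
    · rw [hb0, qm_co_zero, zero_div]
    · have : (n : ℂ) ≠ 0 := by
        exact_mod_cast hn.ne'
      simp only [hb]
      rw [mul_comm, mul_div_assoc, div_self this, mul_one]
  have hlog12 : Real.log 12 ≤ 3 := by
    rw [Real.log_le_iff_le_exp (by norm_num)]
    have h1 : (2.7 : ℝ) ≤ Real.exp 1 := by
      have := Real.exp_one_gt_d9
      linarith
    have h2 : Real.exp 3 = Real.exp 1 ^ 3 := by
      rw [← Real.exp_nat_mul]
      norm_num
    rw [h2]
    calc (12 : ℝ) ≤ 2.7 ^ 3 := by norm_num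
      _ ≤ Real.exp 1 ^ 3 := pow_le_pow_left₀ (by norm_num) h1 3
  have hP3 : 1 ≤ P := by exact_mod_cast hP0
  have hβ : ∀ n : ℕ, (n : ℝ) ≤ 3 * ((4 * P : ℕ) : ℝ) → ‖b n‖ ≤ (X + 3) ^ (k + 1) := by
    intro n hn
    rcases Nat.eq_zero_or_pos n with rfl | hn0
    · rw [hb0, norm_zero]
      positivity
    · refine (qm_b χ k hx0 hn0).trans ?_
      have hn1 : (1 : ℝ) ≤ n := by exact_mod_cast hn0
      apply pow_le_pow_left₀ (Real.log_nonneg hn1)
      have h1 : (n : ℝ) ≤ 12 * P := by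
        push_cast at hn
        linarith
      calc Real.log n ≤ Real.log (12 * P) := Real.log_le_log (by linarith) h1
        _ = Real.log 12 + X := by rw [Real.log_mul (by norm_num) hP0.ne']
        _ ≤ X + 3 := by linarith
  have hG : ∀ y : ℝ, 1 ≤ y → y ≤ 3 * ((4 * P : ℕ) : ℝ) →
      ‖∑' n : ℕ, b n / n * (((n : ℝ) / y * max (Real.log (y / n)) 0 : ℝ) : ℂ)‖ ≤ E := by
    intro y hy _
    simp only [hbn]
    exact riesz_bound hcn (qm_co_zero χ k _) hT1 hA0 hB0 hA1 hB1 (by linarith)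
  have hD : ∀ m : ℕ, m ≤ 4 * P → ‖∑ n ∈ Ioc 0 m, b n‖ ≤
      P * qerr X k (32 * l ^ 12) T η := by
    intro m hm
    have h1 := diff_bound hb0 hE0 hη0 hη1 (N := 4 * P) (by omega) hβ hG hm
    refine h1.trans (le_of_eq ?_)
    unfold qerr
    rw [hexpX, hE, hA, hB]
    push_cast
    field_simp
    ring
  set g : ℕ → ℝ := fun n => (Real.log n ^ k)⁻¹ * (n : ℝ) ^ (1 / X) with hg
  have hlogP : ∀ n : ℕ, P ≤ n → X ≤ Real.log n := by
    intro n hn
    have : (P : ℝ) ≤ n := by exact_mod_cast hn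
    exact Real.log_le_log hP0 this
  have hlog4 : Real.log 4 ≤ 2 := by
    have h1 : Real.log 4 = 2 * Real.log 2 := by
      have : (4 : ℝ) = 2 ^ 2 := by norm_num
      rw [this, Real.log_pow]
      norm_num
    have := Real.log_two_lt_d9
    linarith
  have hlog4P : Real.log (4 * P) = Real.log 4 + X := by
    rw [Real.log_mul (by norm_num) hP0.ne']
  have hanti : ∀ n, y1 ≤ n → n < y2 → g (n + 1) ≤ g n := by
    intro n hn1 hn2
    have h1 := hlogP n (hy1.trans hn1)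
    apply weight_anti hX2 hk3 (by linarith)
    have h2 : (n : ℝ) + 1 ≤ 4 * P := by
      have : n + 1 ≤ 4 * P := by omega
      exact_mod_cast this
    have h3 : Real.log ((n : ℝ) + 1) ≤ Real.log (4 * P) :=
      Real.log_le_log (by positivity) h2
    linarith
  have hg0 : ∀ n, y1 ≤ n → n ≤ y2 → 0 ≤ g n := by
    intro n hn1 _
    have h1 := hlogP n (hy1.trans hn1)
    simp only [hg]
    have : 0 ≤ Real.log n := by linarith
    positivity
  have hab := abel_anti (b := b) hy12 hanti hg0 (D := P * qerr X k (32 * l ^ 12) T η)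
    (fun n _ hn => hD n (hn.trans hy2))
  have hsum : ∑ n ∈ Ioc y1 y2, ((ArithmeticFunction.vonMangoldt n : ℝ) : ℂ) * χ n =
      ∑ m ∈ Ioc y1 y2, (g m : ℂ) * b m := by
    refine Finset.sum_congr rfl fun n hn => ?_
    rw [mem_Ioc] at hn
    exact (qm_gb χ k (1 / X) (by omega)).symm
  rw [hsum]
  refine hab.trans ?_
  have hg1 : g y1 ≤ 3 * (X ^ k)⁻¹ := by
    have h1 := hlogP y1 hy1
    have h2 : (Real.log y1 ^ k)⁻¹ ≤ (X ^ k)⁻¹ := by
      apply inv_anti₀ (by positivity)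
      exact pow_le_pow_left₀ hXpos.le h1 k
    have hy1r : (y1 : ℝ) ≤ 4 * P := by
      have : y1 ≤ 4 * P := hy12.trans hy2
      exact_mod_cast this
    have hy1p : (0 : ℝ) < y1 := by
      have : (P : ℝ) ≤ y1 := by exact_mod_cast hy1
      linarith
    have h3 : (y1 : ℝ) ^ (1 / X) ≤ 3 := by
      have h4 : (y1 : ℝ) ^ (1 / X) ≤ (4 * P : ℝ) ^ (1 / X) :=
        Real.rpow_le_rpow hy1p.le hy1r hx0.le
      have h5 : (4 * P : ℝ) ^ (1 / X) = Real.exp (1 + Real.log 4 / X) := by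
        rw [Real.rpow_def_of_pos (by positivity), hlog4P]
        congr 1
        field_simp
        ring
      have h6 : Real.log 4 / X ≤ 1 / 50 := by
        rw [div_le_iff₀ hXpos]
        linarith
      have h7 : Real.exp (1 + Real.log 4 / X) ≤ 3 := by
        rw [Real.exp_add]
        have a1 := Real.exp_one_lt_d9
        have a2 : Real.exp (Real.log 4 / X) ≤ Real.exp (1 / 50) := Real.exp_le_exp.2 h6
        have a3 : Real.exp (1 / 50) ≤ 50 / 49 := by
          have b1 := Real.add_one_le_exp (-(1 / 50 : ℝ))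
          rw [Real.exp_neg] at b1
          have b2 : (49 : ℝ) / 50 ≤ (Real.exp (1 / 50))⁻¹ := by
            refine le_trans ?_ b1
            norm_num
          have b3 := inv_anti₀ (by norm_num) b2
          rw [inv_inv] at b3
          refine b3.trans (le_of_eq ?_)
          norm_num
        calc Real.exp 1 * Real.exp (Real.log 4 / X) ≤ 2.7182818286 * (50 / 49) := by
              apply mul_le_mul a1.le (a2.trans a3) (Real.exp_pos _).le (by norm_num)
          _ ≤ 3 := by norm_num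
      exact h4.trans (h5.le.trans h7)
    calc g y1 = (Real.log y1 ^ k)⁻¹ * (y1 : ℝ) ^ (1 / X) := rfl
      _ ≤ (X ^ k)⁻¹ * 3 := by
          apply mul_le_mul h2 h3 (by positivity) (by positivity)
      _ = 3 * (X ^ k)⁻¹ := by ring
  have hq0 : 0 ≤ qerr X k (32 * l ^ 12) T η := by
    unfold qerr
    positivity
  calc 2 * (P * qerr X k (32 * l ^ 12) T η) * g y1
      ≤ 2 * (P * qerr X k (32 * l ^ 12) T η) * (3 * (X ^ k)⁻¹) := by
        apply mul_le_mul_of_nonneg_left hg1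
        positivity
    _ ≤ P * Real.exp (-l ^ 9) := qm_fin hXpos hP0.le hmain

end Pool.Agent.REC
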