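import Mathlib

/-! REC/Rand.  Random removal.

Weight of `R ⊆ Q`: `w R = ε^|R| (1-ε)^|Q \ R| > 0`, `∑ w = 1`.
For fixed `T ⊆ Q`: `∑_{R : R ∩ T = ∅} w R = (1-ε)^|T|`; `∑_{R ∋ i} w R = ε`.  So
`∑ w R * A R = ε ∑ u = α`, `∑ w R * B R = ∑_{T ⊆ Q, |T| ≥ ω0} (1-ε)^|T| Φ T ≤ (1-ε)^ω0 ∑ Φ = β`. -/

set_option autoImplicit false

namespace Pool.Agent.REC

open Finset

private theorem w_sum {ι : Type*} [DecidableEq ι] (Q T : Finset ι) (hT : T ⊆ Q) (ε : ℝ) :
    ∑ R ∈ Q.powerset, (if Disjoint R T then ε ^ R.card * (1 - ε) ^ (Q.card - R.card) else 0) =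
      (1 - ε) ^ T.card := by
  rw [← Finset.sum_filter]
  have h1 : Q.powerset.filter (fun R => Disjoint R T) = (Q \ T).powerset := by
    ext R
    simp only [Finset.mem_filter, Finset.mem_powerset, Finset.subset_sdiff]
  rw [h1]
  have h2 : (Q \ T).card = Q.card - T.card := Finset.card_sdiff_of_subset hT
  have h3 : T.card ≤ Q.card := Finset.card_le_card hT
  have h4 : ∀ R ∈ (Q \ T).powerset, ε ^ R.card * (1 - ε) ^ (Q.card - R.card) =
      (1 - ε) ^ T.card * (ε ^ R.card * (1 - ε) ^ ((Q \ T).card - R.card)) := by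
    intro R hR
    have h5 : R.card ≤ (Q \ T).card := Finset.card_le_card (Finset.mem_powerset.mp hR)
    have h6 : Q.card - R.card = T.card + ((Q \ T).card - R.card) := by omega
    rw [h6, pow_add]
    ring
  rw [Finset.sum_congr rfl h4, ← Finset.mul_sum, Finset.sum_pow_mul_eq_add_pow]
  simp

theorem exists_removal {ι : Type*} [DecidableEq ι] (Q : Finset ι) (u : ι → ℝ)
    (hu : ∀ i ∈ Q, 0 ≤ u i) (Φ : Finset ι → ℝ) (hΦ : ∀ T, 0 ≤ Φ T) {ε : ℝ} (h0 : 0 < ε)
    (h1 : ε < 1) (ω0 : ℕ) :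
    ∃ R ⊆ Q, ∑ i ∈ R, u i ≤ 3 * (ε * ∑ i ∈ Q, u i) ∧
      ∑ T ∈ (Q \ R).powerset.filter (fun T => ω0 ≤ T.card), Φ T ≤
        3 * ((1 - ε) ^ ω0 * ∑ T ∈ Q.powerset, Φ T) := by
  have h1' : 0 < 1 - ε := by linarith
  set w : Finset ι → ℝ := fun R => ε ^ R.card * (1 - ε) ^ (Q.card - R.card) with hw
  have hwpos : ∀ R, 0 < w R := fun R => mul_pos (pow_pos h0 _) (pow_pos h1' _)
  have hw1 : ∑ R ∈ Q.powerset, w R = 1 := by
    have h := w_sum Q ∅ (Finset.empty_subset _) ε
    simpa using h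
  set α : ℝ := ε * ∑ i ∈ Q, u i with hα
  set β : ℝ := (1 - ε) ^ ω0 * ∑ T ∈ Q.powerset, Φ T with hβ
  set A : Finset ι → ℝ := fun R => ∑ i ∈ R, u i with hA
  set B : Finset ι → ℝ := fun R => ∑ T ∈ (Q \ R).powerset.filter (fun T => ω0 ≤ T.card), Φ T
    with hB
  have hα0 : 0 ≤ α := mul_nonneg h0.le (Finset.sum_nonneg hu)
  have hβ0 : 0 ≤ β := mul_nonneg (pow_pos h1' _).le (Finset.sum_nonneg fun T _ => hΦ T)
  have hA0 : ∀ R ∈ Q.powerset, 0 ≤ A R := fun R hR =>
    Finset.sum_nonneg fun i hi => hu i (Finset.mem_powerset.mp hR hi)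
  have hB0 : ∀ R, 0 ≤ B R := fun R => Finset.sum_nonneg fun T _ => hΦ T
  -- average of A
  have hwi : ∀ i ∈ Q, ∑ R ∈ Q.powerset, (if i ∈ R then w R else 0) = ε := by
    intro i hi
    have h2 := w_sum Q {i} (Finset.singleton_subset_iff.mpr hi) ε
    rw [Finset.card_singleton, pow_one] at h2
    have h3 : ∀ R ∈ Q.powerset, (if i ∈ R then w R else 0) =
        w R - (if Disjoint R {i} then ε ^ R.card * (1 - ε) ^ (Q.card - R.card) else 0) := by
      intro R _
      by_cases hiR : i ∈ R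
      · rw [if_pos hiR, if_neg (by rw [Finset.disjoint_singleton_right]; exact not_not.mpr hiR),
          sub_zero]
      · rw [if_neg hiR, if_pos (Finset.disjoint_singleton_right.mpr hiR)]
        simp [hw]
    rw [Finset.sum_congr rfl h3, Finset.sum_sub_distrib, h2, hw1]
    ring
  have hAavg : ∑ R ∈ Q.powerset, w R * A R = α := by
    have h2 : ∀ R ∈ Q.powerset, w R * A R = ∑ i ∈ Q, (if i ∈ R then w R else 0) * u i := by
      intro R hR
      have hRQ := Finset.mem_powerset.mp hR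
      simp only [hA]
      rw [Finset.mul_sum]
      have h3 : ∀ i ∈ Q, (if i ∈ R then w R else 0) * u i = if i ∈ R then w R * u i else 0 := by
        intro i _
        split_ifs <;> simp
      rw [Finset.sum_congr rfl h3, ← Finset.sum_filter]
      have h4 : Q.filter (fun i => i ∈ R) = R := by
        ext i
        simp only [Finset.mem_filter]
        exact ⟨fun h => h.2, fun h => ⟨hRQ h, h⟩⟩
      rw [h4]
    rw [Finset.sum_congr rfl h2, Finset.sum_comm, hα, Finset.mul_sum]
    refine Finset.sum_congr rfl fun i hi => ?_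
    rw [← Finset.sum_mul, hwi i hi]
  -- average of B
  have hBavg : ∑ R ∈ Q.powerset, w R * B R ≤ β := by
    have h2 : ∀ R ∈ Q.powerset, w R * B R = ∑ T ∈ Q.powerset,
        (if Disjoint R T then w R else 0) * (if ω0 ≤ T.card then Φ T else 0) := by
      intro R hR
      simp only [hB]
      rw [Finset.mul_sum]
      have h3 : ∀ T ∈ Q.powerset,
          (if Disjoint R T then w R else 0) * (if ω0 ≤ T.card then Φ T else 0) =
            if (Disjoint R T ∧ ω0 ≤ T.card) then w R * Φ T else 0 := by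
        intro T _
        by_cases hd : Disjoint R T <;> by_cases ho : ω0 ≤ T.card <;> simp [hd, ho]
      rw [Finset.sum_congr rfl h3, ← Finset.sum_filter]
      refine Finset.sum_congr ?_ fun _ _ => rfl
      ext T
      simp only [Finset.mem_filter, Finset.mem_powerset, Finset.subset_sdiff]
      constructor
      · rintro ⟨⟨h4, h5⟩, h6⟩
        exact ⟨h4, h5.symm, h6⟩
      · rintro ⟨h4, h5, h6⟩
        exact ⟨⟨h4, h5.symm⟩, h6⟩
    rw [Finset.sum_congr rfl h2, Finset.sum_comm, hβ, Finset.mul_sum]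
    refine Finset.sum_le_sum fun T hT => ?_
    rw [← Finset.sum_mul]
    have h3 := w_sum Q T (Finset.mem_powerset.mp hT) ε
    have h4 : ∑ R ∈ Q.powerset, (if Disjoint R T then w R else 0) = (1 - ε) ^ T.card := h3
    rw [h4]
    by_cases ho : ω0 ≤ T.card
    · rw [if_pos ho]
      exact mul_le_mul_of_nonneg_right (pow_le_pow_of_le_one h1'.le (by linarith) ho) (hΦ T)
    · rw [if_neg ho, mul_zero]
      exact mul_nonneg (pow_pos h1' _).le (hΦ T)
  have hQne : Q.powerset.Nonempty := ⟨∅, Finset.empty_mem_powerset _⟩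
  by_contra hcon
  have hcon' : ∀ R ∈ Q.powerset, ¬ (A R ≤ 3 * α ∧ B R ≤ 3 * β) := by
    intro R hR h
    exact hcon ⟨R, Finset.mem_powerset.mp hR, h.1, h.2⟩
  rcases hα0.eq_or_lt with hα1 | hα1
  · -- `α = 0`
    have h2 : ∑ i ∈ Q, u i = 0 := by
      rcases mul_eq_zero.mp hα1.symm with h | h
      · exact absurd h h0.ne'
      · exact h
    have h3 : ∀ R ∈ Q.powerset, 3 * β < B R := by
      intro R hR
      have h4 : A R ≤ 3 * α := by
        rw [← hα1, mul_zero, ← h2]
        exact Finset.sum_le_sum_of_subset_of_nonneg (Finset.mem_powerset.mp hR)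
          fun i hi _ => hu i hi
      by_contra h5
      exact hcon' R hR ⟨h4, not_lt.mp h5⟩
    have h4 : ∑ R ∈ Q.powerset, w R * (3 * β) < ∑ R ∈ Q.powerset, w R * B R :=
      Finset.sum_lt_sum_of_nonempty hQne fun R hR => mul_lt_mul_of_pos_left (h3 R hR) (hwpos R)
    rw [← Finset.sum_mul, hw1] at h4
    linarith
  · rcases hβ0.eq_or_lt with hβ1 | hβ1
    · have h2 : ∑ T ∈ Q.powerset, Φ T = 0 := by
        rcases mul_eq_zero.mp hβ1.symm with h | h
        · exact absurd h (pow_pos h1' _).ne'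
        · exact h
      have h3 : ∀ R ∈ Q.powerset, 3 * α < A R := by
        intro R hR
        have h4 : B R ≤ 3 * β := by
          rw [← hβ1, mul_zero, ← h2]
          refine Finset.sum_le_sum_of_subset_of_nonneg ?_ fun T _ _ => hΦ T
          intro T hT
          have h5 := (Finset.mem_filter.mp hT).1
          exact Finset.mem_powerset.mpr
            ((Finset.mem_powerset.mp h5).trans Finset.sdiff_subset)
        by_contra h5
        exact hcon' R hR ⟨not_lt.mp h5, h4⟩
      have h4 : ∑ R ∈ Q.powerset, w R * (3 * α) < ∑ R ∈ Q.powerset, w R * A R :=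
        Finset.sum_lt_sum_of_nonempty hQne fun R hR => mul_lt_mul_of_pos_left (h3 R hR) (hwpos R)
      rw [← Finset.sum_mul, hw1] at h4
      linarith
    · have h3 : ∀ R ∈ Q.powerset, 3 * (α * β) < A R * β + B R * α := by
        intro R hR
        have hA1 := hA0 R hR
        have hB1 := hB0 R
        by_cases h4 : A R ≤ 3 * α
        · have h5 : 3 * β < B R := by
            by_contra h5
            exact hcon' R hR ⟨h4, not_lt.mp h5⟩
          have h6 : 3 * β * α < B R * α := mul_lt_mul_of_pos_right h5 hα1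
          have h7 : 0 ≤ A R * β := mul_nonneg hA1 hβ0
          nlinarith
        · have h5 : 3 * α < A R := not_le.mp h4
          have h6 : 3 * α * β < A R * β := mul_lt_mul_of_pos_right h5 hβ1
          have h7 : 0 ≤ B R * α := mul_nonneg hB1 hα0
          nlinarith
      have h4 : ∑ R ∈ Q.powerset, w R * (3 * (α * β)) <
          ∑ R ∈ Q.powerset, w R * (A R * β + B R * α) :=
        Finset.sum_lt_sum_of_nonempty hQne fun R hR => mul_lt_mul_of_pos_left (h3 R hR) (hwpos R)
      rw [← Finset.sum_mul, hw1] at h4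
      have h5 : ∑ R ∈ Q.powerset, w R * (A R * β + B R * α) =
          (∑ R ∈ Q.powerset, w R * A R) * β + (∑ R ∈ Q.powerset, w R * B R) * α := by
        rw [Finset.sum_mul, Finset.sum_mul, ← Finset.sum_add_distrib]
        exact Finset.sum_congr rfl fun R _ => by ring
      rw [h5, hAavg] at h4
      have h6 : (∑ R ∈ Q.powerset, w R * B R) * α ≤ β * α :=
        mul_le_mul_of_nonneg_right hBavg hα0
      have h7 : 0 < α * β := mul_pos hα1 hβ1
      nlinarith

end Pool.Agent.REC
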