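import Pool.Agent.Helper9.GW.Final

/-! REC/RecPar.  Comparison of the parameters `X = log P`, `l = log X`, ... with those of `k = ⌊X⌋₊`, and with
`L = Nat.log 2 P`, `lam = Nat.log 2 L`. -/

set_option autoImplicit false

namespace Pool.Agent.REC

open Filter Pool.Agent.Helper9.GW

/-- comparison of one logarithm -/
private theorem step_log {x y : ℝ} (hx : 7 ≤ Real.log x) (hy : x / 2 ≤ y) (hyx : y ≤ x) (x0 : 0 < x) :
    (9 / 10) * Real.log x ≤ Real.log y ∧ Real.log y ≤ Real.log x := by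
  have h2 := Real.log_two_lt_d9
  have hy0 : 0 < y := by linarith
  constructor
  · have h1 : Real.log (x / 2) ≤ Real.log y := Real.log_le_log (by linarith) hy
    rw [Real.log_div x0.ne' (by norm_num)] at h1
    linarith
  · exact Real.log_le_log hy0 hyx

private theorem up7 {a b : ℝ} (hb : 0 ≤ b) (h : a ≤ b * Real.log 2) : a ≤ b * (7 / 10) := by
  have := Real.log_two_lt_d9
  exact h.trans (mul_le_mul_of_nonneg_left (by linarith) hb)

private theorem lo69 {a b : ℝ} (hb : 0 ≤ b) (h : b * Real.log 2 ≤ a) : b * (69 / 100) ≤ a := by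
  have := Real.log_two_gt_d9
  exact (mul_le_mul_of_nonneg_left (by linarith) hb).trans h

private theorem sq40 {x : ℝ} (h : 40 ≤ x) : 1600 ≤ x ^ 2 := by nlinarith

private theorem sq_pow4 {x : ℝ} (h : 40 ≤ x) : 2 * x ^ 2 ≤ x ^ 4 := by
  have h1 := sq40 h
  have : x ^ 4 = x ^ 2 * x ^ 2 := by ring
  rw [this]
  exact mul_le_mul_of_nonneg_right (by linarith) (sq_nonneg x)

private theorem l3_le {l2 l3 : ℝ} (h : l3 ≤ l2) (h1 : 1 ≤ l2) : l3 ≤ l2 ^ 2 := by nlinarith

private theorem cube_ge {l : ℝ} (h : 40 ≤ l) : 0 ≤ l ^ 3 - l ^ 2 - 1 := by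
  have : l ^ 3 - l ^ 2 - 1 = l ^ 2 * (l - 1) - 1 := by ring
  rw [this]
  have h1 := sq40 h
  have h2 : l ^ 2 * 1 ≤ l ^ 2 * (l - 1) := mul_le_mul_of_nonneg_left (by linarith) (sq_nonneg l)
  linarith

/-- `Nat.log 2` and the real logarithm -/
private theorem natlog_bounds {n : ℕ} (hn : 1 ≤ n) :
    Real.log n ≤ ((Nat.log 2 n : ℝ) + 1) * Real.log 2 ∧ (Nat.log 2 n : ℝ) * Real.log 2 ≤ Real.log n := by
  have hn0 : (0 : ℝ) < n := by exact_mod_cast hn
  constructor
  · have h : n < 2 ^ (Nat.log 2 n + 1) := Nat.lt_pow_succ_log_self (by norm_num) n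
    have h' : (n : ℝ) ≤ 2 ^ (Nat.log 2 n + 1) := by exact_mod_cast h.le
    have := Real.log_le_log hn0 h'
    rw [Real.log_pow] at this
    push_cast at this
    exact this
  · have h : 2 ^ (Nat.log 2 n) ≤ n := Nat.pow_log_le_self 2 (by omega)
    have h' : (2 : ℝ) ^ (Nat.log 2 n) ≤ n := by exact_mod_cast h
    have := Real.log_le_log (by positivity) h'
    rwa [Real.log_pow] at this

theorem rec_par (k0 : ℕ) : ∀ᶠ P : ℕ in atTop, ∀ X l l2 l3 : ℝ, X = Real.log P → l = Real.log X →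
    l2 = Real.log l → l3 = Real.log l2 → ∀ (k : ℕ) (l' l2' l3' : ℝ), k = ⌊X⌋₊ → l' = Real.log k →
    l2' = Real.log l' → l3' = Real.log l2' → ∀ L : ℕ, L = Nat.log 2 P →
    k0 ≤ k ∧ Par k l' l2' l3' ∧ (zz l' : ℝ) ≤ X / 100 ∧ k0 ≤ zz l' ∧
    (4 : ℝ) ^ (zz l') ≤ (P : ℝ) ^ (1 / 1000 : ℝ) ∧ zz l' ≤ L ^ 6 ∧ X ≤ L ∧ (L : ℝ) ≤ 2 * X ∧
    l ≤ (Nat.log 2 L : ℝ) ∧ (Nat.log 2 L : ℝ) ≤ 2 * l ∧ l ≤ 2 * (Nat.log 2 (zz l') : ℝ) ∧
    (k0 : ℝ) ≤ l3 ∧
    (∀ H : ℕ, (H : ℝ) ≤ X * (l ^ 2 * l3 / l2 ^ 2) →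
      2 * H ≤ HH l' 3 ∧ H ≤ L ^ 2 ∧ ((H : ℝ) + zz l') / l ^ 4 ≤ X / l) ∧
    l2' ^ 2 / (l' ^ 2 * l3') ≤ 2 * (l2 ^ 2 / (l ^ 2 * l3)) ∧
    l2 / (l ^ 2 * l3) ≤ 2 * (l2' / (l' ^ 2 * l3')) := by
  have hcast : Tendsto (fun k : ℕ => (k : ℝ)) atTop atTop := tendsto_natCast_atTop_atTop
  have t1 : Tendsto (fun k : ℕ => Real.log k) atTop atTop := Real.tendsto_log_atTop.comp hcast
  have t2 : Tendsto (fun k : ℕ => Real.log (Real.log k)) atTop atTop :=
    Real.tendsto_log_atTop.comp t1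
  have t3 : Tendsto (fun k : ℕ => Real.log (Real.log (Real.log k))) atTop atTop :=
    Real.tendsto_log_atTop.comp t2
  have t4 : Tendsto (fun k : ℕ => Real.log (Real.log (Real.log (Real.log k)))) atTop atTop :=
    Real.tendsto_log_atTop.comp t3
  have hk : Tendsto (fun x : ℕ => ⌊Real.log x⌋₊) atTop atTop :=
    tendsto_nat_floor_atTop.comp t1
  have hgrow : ∀ᶠ l : ℝ in atTop, l ^ 4 ≤ Real.exp (l / 2) := by
    have h1 := isLittleO_pow_exp_pos_mul_atTop (k := 4) (b := 1 / 2) (by norm_num)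
    have h2 := h1.bound (c := 1) one_pos
    filter_upwards [h2, eventually_ge_atTop 0] with l hl hl0
    rw [Real.norm_of_nonneg (by positivity), Real.norm_of_nonneg (Real.exp_pos _).le, one_mul] at hl
    convert hl using 2
    ring
  have tk1 : Tendsto (fun x : ℕ => Real.log (⌊Real.log x⌋₊ : ℕ)) atTop atTop := t1.comp hk
  filter_upwards [hk.eventually par_eventually, hk.eventually_ge_atTop k0, t1.eventually_ge_atTop 40,
    t2.eventually_ge_atTop 100, t3.eventually_ge_atTop 7, t4.eventually_ge_atTop (k0 + 7),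
    tk1.eventually hgrow, tk1.eventually_ge_atTop (k0 + 40), t2.eventually hgrow,
    eventually_ge_atTop 1] with P hpar gk g1 g2 g3 g4 gr1 gr2 gr3 hP1
  intro X l l2 l3 hX hl hl2 hl3 k l' l2' l3' hkk hl' hl2' hl3' L hL
  rw [← hX] at hpar gk g1 g2 g3 g4 gr1 gr2 gr3
  rw [← hl] at g2 g3 g4 gr3
  rw [← hl2] at g3 g4
  rw [← hl3] at g4
  rw [← hkk] at hpar gk gr1 gr2
  rw [← hl'] at hpar gr1 gr2
  rw [← hl2'] at hpar
  rw [← hl3'] at hpar
  have hk00 : (0 : ℝ) ≤ k0 := Nat.cast_nonneg _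
  have c2 := Real.log_two_lt_d9
  have c2' := Real.log_two_gt_d9
  have X0 : 0 < X := by linarith
  have l0 : 0 < l := by linarith
  have l20 : 0 < l2 := by linarith
  have l30 : 0 < l3 := by linarith
  -- comparison
  have hku : (k : ℝ) ≤ X := by rw [hkk]; exact Nat.floor_le X0.le
  have hkl : X / 2 ≤ (k : ℝ) := by
    have := Nat.lt_floor_add_one X
    rw [← hkk] at this
    linarith
  have hk0 : (0 : ℝ) < k := by linarith
  obtain ⟨a1, a2⟩ := step_log (x := X) (y := k) (by rw [← hl]; linarith) hkl hku X0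
  rw [← hl, ← hl'] at a1 a2
  obtain ⟨b1, b2⟩ := step_log (x := l) (y := l') (by rw [← hl2]; linarith) (by linarith) a2 l0
  rw [← hl2, ← hl2'] at b1 b2
  obtain ⟨d1, d2⟩ := step_log (x := l2) (y := l2') (by rw [← hl3]; linarith) (by linarith) b2 l20
  rw [← hl3, ← hl3'] at d1 d2
  have l'0 : 0 < l' := by linarith
  have l2'0 : 0 < l2' := by linarith
  have l3'0 : 0 < l3' := by linarith
  have hexp : Real.exp l' = k := by rw [hl']; exact Real.exp_log hk0
  -- the number `zz`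
  have hz1 : (zz l' : ℝ) ≤ k / l' ^ 2 := by
    unfold zz
    rw [hexp]
    exact Nat.floor_le (by positivity)
  have hz2 : (zz l' : ℝ) ≤ X / 1600 := by
    refine hz1.trans ?_
    rw [div_le_div_iff₀ (by positivity) (by norm_num)]
    have h1 : (1600 : ℝ) ≤ l' ^ 2 := sq40 (by linarith)
    exact mul_le_mul hku h1 (by norm_num) X0.le
  have hz3 : Real.exp (l' / 2) ≤ (zz l' : ℝ) := by
    have h1 : Real.exp (l' / 2) + 1 ≤ Real.exp l' / l' ^ 2 := by
      rw [le_div_iff₀ (by positivity)]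
      have e1 : Real.exp l' = Real.exp (l' / 2) * Real.exp (l' / 2) := by
        rw [← Real.exp_add]; congr 1; ring
      rw [e1]
      have e2 : 1 ≤ Real.exp (l' / 2) := Real.one_le_exp (by linarith)
      have e3 : 2 * l' ^ 2 ≤ l' ^ 4 := sq_pow4 (by linarith)
      calc (Real.exp (l' / 2) + 1) * l' ^ 2 ≤ (2 * Real.exp (l' / 2)) * l' ^ 2 := by
            exact mul_le_mul_of_nonneg_right (by linarith) (sq_nonneg _)
        _ = Real.exp (l' / 2) * (2 * l' ^ 2) := by ring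
        _ ≤ Real.exp (l' / 2) * Real.exp (l' / 2) :=
            mul_le_mul_of_nonneg_left (e3.trans gr1) (Real.exp_pos _).le
    have h2 := Nat.lt_floor_add_one (Real.exp l' / l' ^ 2)
    unfold zz
    linarith
  have hz4 : (k0 : ℝ) ≤ zz l' := by
    refine le_trans ?_ hz3
    refine le_trans ?_ gr1
    have h1 : (1 : ℝ) ≤ l' := by linarith
    have h2 : l' ≤ l' ^ 4 := le_self_pow₀ h1 (by norm_num)
    linarith
  have hz5 : (1 : ℝ) ≤ zz l' := le_trans (Real.one_le_exp (by linarith)) hz3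
  -- `L`
  have hP0 : (0 : ℝ) < P := by exact_mod_cast hP1
  obtain ⟨n1, n2⟩ := natlog_bounds hP1
  rw [← hX, ← hL] at n1 n2
  have hLn : (0 : ℝ) ≤ L := Nat.cast_nonneg _
  have n1' := up7 (by linarith) n1
  have n2' := lo69 hLn n2
  have hXL : X ≤ L := by linarith
  have hLX : (L : ℝ) ≤ 2 * X := by linarith
  have hL1 : 1 ≤ L := by
    have : (1 : ℝ) ≤ L := by linarith
    exact_mod_cast this
  have hL0 : (0 : ℝ) < L := by exact_mod_cast hL1
  obtain ⟨m1, m2⟩ := natlog_bounds hL1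
  have hlL : l ≤ Real.log L := by rw [hl]; exact Real.log_le_log X0 hXL
  have hlL2 : Real.log L ≤ Real.log 2 + l := by
    rw [hl, ← Real.log_mul (by norm_num) X0.ne']
    exact Real.log_le_log hL0 hLX
  have hMn : (0 : ℝ) ≤ Nat.log 2 L := Nat.cast_nonneg _
  have m1' := up7 (by linarith) m1
  have m2' := lo69 hMn m2
  have hM1 : l ≤ (Nat.log 2 L : ℝ) := by linarith
  have hM2 : (Nat.log 2 L : ℝ) ≤ 2 * l := by linarith
  have hzn : 1 ≤ zz l' := by exact_mod_cast hz5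
  obtain ⟨q1, q2⟩ := natlog_bounds hzn
  have hlz : l' / 2 ≤ Real.log (zz l') := by
    rw [← Real.log_exp (l' / 2)]
    exact Real.log_le_log (Real.exp_pos _) hz3
  have hqn : (0 : ℝ) ≤ Nat.log 2 (zz l') := Nat.cast_nonneg _
  have q1' := up7 (by linarith) q1
  have hM3 : l ≤ 2 * (Nat.log 2 (zz l') : ℝ) := by linarith
  -- sizes
  have hlX : l ^ 4 ≤ X := by
    refine gr3.trans ?_
    have : Real.exp (l / 2) ≤ Real.exp l := Real.exp_le_exp.2 (by linarith)
    refine this.trans ?_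
    rw [hl, Real.exp_log X0]
  have hl3l2 : l3 ≤ l2 := by
    rw [hl3]
    exact (Real.log_le_sub_one_of_pos l20).trans (by linarith)
  refine ⟨gk, hpar, by linarith, by exact_mod_cast hz4, ?_, ?_, hXL, hLX, hM1, hM2, hM3, by linarith, ?_, ?_, ?_⟩
  · have e1 : (P : ℝ) ^ (1 / 1000 : ℝ) = Real.exp (X / 1000) := by
      rw [Real.rpow_def_of_pos hP0, ← hX]
      congr 1; ring
    have e2 : (4 : ℝ) ^ (zz l') = Real.exp (zz l' * Real.log 4) := by
      rw [← Real.rpow_natCast, Real.rpow_def_of_pos (by norm_num)]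
      congr 1; ring
    rw [e1, e2]
    refine Real.exp_le_exp.2 ?_
    have h4 : Real.log 4 = 2 * Real.log 2 := by
      rw [show (4 : ℝ) = 2 ^ 2 by norm_num, Real.log_pow]; norm_num
    rw [h4]
    have h5 : (zz l' : ℝ) * (2 * Real.log 2) ≤ zz l' * (3 / 2) :=
      mul_le_mul_of_nonneg_left (by linarith) (by linarith)
    linarith
  · have h1 : (zz l' : ℝ) ≤ L := by linarith
    have h2 : zz l' ≤ L := by exact_mod_cast h1
    exact h2.trans (Nat.le_self_pow (by norm_num) L)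
  · intro H hH
    have hH1 : (H : ℝ) ≤ X * l ^ 2 := by
      refine hH.trans (mul_le_mul_of_nonneg_left ?_ X0.le)
      rw [div_le_iff₀ (by positivity)]
      exact mul_le_mul_of_nonneg_left (l3_le hl3l2 (by linarith)) (by positivity)
    refine ⟨?_, ?_, ?_⟩
    · unfold HH
      refine Nat.le_floor ?_
      rw [hexp]
      push_cast
      have h3 : (l / 2) ^ 3 ≤ l' ^ 3 := pow_le_pow_left₀ (by linarith) (by linarith) 3
      have h4 : (X / 2) * (l / 2) ^ 3 ≤ k * l' ^ 3 := mul_le_mul hkl h3 (by positivity) hk0.le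
      have h5 : 2 * (X * l ^ 2) ≤ (X / 2) * (l / 2) ^ 3 := by
        have : (X / 2) * (l / 2) ^ 3 - 2 * (X * l ^ 2) = X * l ^ 2 * (l / 16 - 2) := by ring
        have h6 : 0 ≤ X * l ^ 2 * (l / 16 - 2) := mul_nonneg (by positivity) (by linarith)
        linarith
      linarith
    · have h1 : (H : ℝ) ≤ (L : ℝ) ^ 2 := by
        refine hH1.trans ?_
        have h2 : l ^ 2 ≤ X := by
          refine le_trans ?_ hlX
          have h1 := sq_pow4 (x := l) (by linarith)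
          have h2 := sq_nonneg l
          linarith
        calc X * l ^ 2 ≤ X * X := mul_le_mul_of_nonneg_left h2 X0.le
          _ ≤ L * L := mul_le_mul hXL hXL X0.le hLn
          _ = (L : ℝ) ^ 2 := by ring
      exact_mod_cast h1
    · rw [div_le_div_iff₀ (by positivity) l0]
      have h1 : (H : ℝ) + zz l' ≤ X * l ^ 2 + X := by linarith
      have h2 : ((H : ℝ) + zz l') * l ≤ (X * l ^ 2 + X) * l := mul_le_mul_of_nonneg_right h1 l0.le
      refine h2.trans ?_
      have h3 : X * l ^ 4 - (X * l ^ 2 + X) * l = X * l * (l ^ 3 - l ^ 2 - 1) := by ring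
      have h4 : 0 ≤ l ^ 3 - l ^ 2 - 1 := cube_ge (by linarith)
      have h5 : 0 ≤ X * l * (l ^ 3 - l ^ 2 - 1) := mul_nonneg (by positivity) h4
      linarith
  · have h1 : l2' ^ 2 ≤ l2 ^ 2 := pow_le_pow_left₀ l2'0.le b2 2
    have h2 : (l ^ 2 * l3) / 2 ≤ l' ^ 2 * l3' := by
      have h3 : ((9 / 10) * l) ^ 2 ≤ l' ^ 2 := pow_le_pow_left₀ (by linarith) a1 2
      have h4 : ((9 / 10) * l) ^ 2 * ((9 / 10) * l3) ≤ l' ^ 2 * l3' :=
        mul_le_mul h3 d1 (by positivity) (by positivity)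
      have h5 : 0 ≤ l ^ 2 * l3 := by positivity
      have h6 : ((9 / 10) * l) ^ 2 * ((9 / 10) * l3) = (729 / 1000) * (l ^ 2 * l3) := by ring
      rw [h6] at h4
      linarith
    calc l2' ^ 2 / (l' ^ 2 * l3') ≤ l2 ^ 2 / ((l ^ 2 * l3) / 2) := by
          apply div_le_div₀ (by positivity) h1 (by positivity) h2
      _ = 2 * (l2 ^ 2 / (l ^ 2 * l3)) := by
          field_simp
  · have h1 : l2 ≤ 2 * l2' := by linarith
    have h2 : l' ^ 2 * l3' ≤ l ^ 2 * l3 :=
      mul_le_mul (pow_le_pow_left₀ l'0.le a2 2) d2 l3'0.le (by positivity)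
    calc l2 / (l ^ 2 * l3) ≤ (2 * l2') / (l' ^ 2 * l3') := by
          apply div_le_div₀ (by positivity) h1 (by positivity) h2
      _ = 2 * (l2' / (l' ^ 2 * l3')) := by
          ring

end Pool.Agent.REC
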