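import Mathlib

/-! REC/Pz.  Two counting lemmas (finite probability). -/

set_option autoImplicit false

namespace Pool.Agent.REC

open Finset

open Classical in
/-- Paley-Zygmund: `∑_{X < ce/2} X ≤ N ce/2`, so `∑_{X ≥ ce/2} X ≥ c e N/2`; Cauchy-Schwarz. -/
theorem pz {Ω : Type*} (s : Finset Ω) (X : Ω → ℝ) (hX : ∀ ω ∈ s, 0 ≤ X ω) {e c C : ℝ} (he : 1 ≤ e)
    (hc : 0 < c) (hC : 0 < C) (h1 : c * e * s.card ≤ ∑ ω ∈ s, X ω)
    (h2 : ∑ ω ∈ s, X ω ^ 2 ≤ C * (e + e ^ 2) * s.card) :
    c ^ 2 / (8 * C) * s.card ≤ ((s.filter (fun ω => c * e / 2 ≤ X ω)).card : ℝ) := by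
  have _hX := hX
  obtain ⟨T, hT⟩ : ∃ T, T = s.filter (fun ω => c * e / 2 ≤ X ω) := ⟨_, rfl⟩
  rw [← hT]
  have hTs : T ⊆ s := hT ▸ Finset.filter_subset _ _
  have hsplit : ∑ ω ∈ s, X ω = ∑ ω ∈ T, X ω + ∑ ω ∈ s.filter (fun ω => ¬ c * e / 2 ≤ X ω), X ω := by
    rw [hT]
    exact (Finset.sum_filter_add_sum_filter_not s _ _).symm
  have hce : 0 ≤ c * e / 2 := by positivity
  have hsmall : ∑ ω ∈ s.filter (fun ω => ¬ c * e / 2 ≤ X ω), X ω ≤ s.card * (c * e / 2) := by
    calc ∑ ω ∈ s.filter (fun ω => ¬ c * e / 2 ≤ X ω), X ω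
        ≤ ∑ _ω ∈ s.filter (fun ω => ¬ c * e / 2 ≤ X ω), (c * e / 2) := by
          refine Finset.sum_le_sum fun ω hω => ?_
          exact (not_le.1 (Finset.mem_filter.1 hω).2).le
      _ = (s.filter (fun ω => ¬ c * e / 2 ≤ X ω)).card * (c * e / 2) := by
          rw [Finset.sum_const, nsmul_eq_mul]
      _ ≤ s.card * (c * e / 2) := by
          refine mul_le_mul_of_nonneg_right ?_ hce
          exact_mod_cast Finset.card_le_card (Finset.filter_subset _ _)
  have hbig : c * e * s.card / 2 ≤ ∑ ω ∈ T, X ω := by linarith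
  have hN0 : (0 : ℝ) ≤ s.card := Nat.cast_nonneg _
  have hcs : (∑ ω ∈ T, X ω) ^ 2 ≤ T.card * ∑ ω ∈ T, X ω ^ 2 := sq_sum_le_card_mul_sum_sq
  have hsq : ∑ ω ∈ T, X ω ^ 2 ≤ ∑ ω ∈ s, X ω ^ 2 :=
    Finset.sum_le_sum_of_subset_of_nonneg hTs fun ω _ _ => sq_nonneg _
  have he2 : e + e ^ 2 ≤ 2 * e ^ 2 := by nlinarith
  have h3 : ∑ ω ∈ T, X ω ^ 2 ≤ C * (2 * e ^ 2) * s.card := by
    refine (hsq.trans h2).trans ?_
    gcongr
  have hT0 : (0 : ℝ) ≤ T.card := Nat.cast_nonneg _
  have h4 : (c * e * s.card / 2) ^ 2 ≤ T.card * (C * (2 * e ^ 2) * s.card) := by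
    refine (pow_le_pow_left₀ (by positivity) hbig 2).trans (hcs.trans ?_)
    exact mul_le_mul_of_nonneg_left h3 hT0
  rcases hN0.eq_or_lt with h5 | h5
  · rw [← h5, mul_zero]
    exact hT0
  · have h6 : c ^ 2 * s.card ≤ 8 * C * T.card := by
      have h7 : (c * e * s.card / 2) ^ 2 = (e ^ 2 * s.card / 4) * (c ^ 2 * s.card) := by ring
      have h8 : T.card * (C * (2 * e ^ 2) * s.card) = (e ^ 2 * s.card / 4) * (8 * C * T.card) := by
        ring
      rw [h7, h8] at h4
      exact le_of_mul_le_mul_left h4 (by positivity)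
    rw [div_mul_eq_mul_div, div_le_iff₀ (by positivity)]
    linarith

open Classical in
/-- Markov's inequality for `B` and double counting of the pairs `(i, ω)` with `G i ω`. -/
theorem select {Ω : Type*} (s : Finset Ω) (hs : s.Nonempty) {K : ℕ} (hK : 0 < K)
    (G : Fin K → Ω → Prop) (B : Ω → ℝ) (hB : ∀ ω ∈ s, 0 ≤ B ω) {p A : ℝ} (hp : 0 < p)
    (hG : ∀ i, p * s.card ≤ ((s.filter (fun ω => G i ω)).card : ℝ))
    (hA : ∑ ω ∈ s, B ω ≤ A * s.card) :
    ∃ ω ∈ s, B ω ≤ 4 / p * A ∧ p / 2 * K ≤ (((univ : Finset (Fin K)).filter (fun i => G i ω)).card : ℝ) := by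
  by_contra hcon
  push Not at hcon
  have hN : (0 : ℝ) < s.card := by exact_mod_cast hs.card_pos
  have hK' : (0 : ℝ) < K := by exact_mod_cast hK
  have hA0 : 0 ≤ A := by
    have h1 := Finset.sum_nonneg hB
    by_contra hA1
    push Not at hA1
    nlinarith
  have hdc : ∑ ω ∈ s, (((univ : Finset (Fin K)).filter (fun i => G i ω)).card : ℝ) =
      ∑ i : Fin K, ((s.filter (fun ω => G i ω)).card : ℝ) := by
    have h1 : ∀ ω, (((univ : Finset (Fin K)).filter (fun i => G i ω)).card : ℝ) =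
        ∑ i : Fin K, if G i ω then (1 : ℝ) else 0 := by
      intro ω
      rw [Finset.card_filter]
      push_cast
      rfl
    have h2 : ∀ i, ((s.filter (fun ω => G i ω)).card : ℝ) =
        ∑ ω ∈ s, if G i ω then (1 : ℝ) else 0 := by
      intro i
      rw [Finset.card_filter]
      push_cast
      rfl
    rw [Finset.sum_congr rfl fun ω _ => h1 ω, Finset.sum_congr rfl fun i _ => h2 i,
      Finset.sum_comm]
  have hlow : K * (p * s.card) ≤
      ∑ ω ∈ s, (((univ : Finset (Fin K)).filter (fun i => G i ω)).card : ℝ) := by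
    rw [hdc]
    calc (K : ℝ) * (p * s.card) = ∑ _i : Fin K, p * s.card := by
          rw [Finset.sum_const, Finset.card_univ, Fintype.card_fin, nsmul_eq_mul]
      _ ≤ _ := Finset.sum_le_sum fun i _ => hG i
  obtain ⟨D, hD⟩ : ∃ D, D = s.filter (fun ω => ¬ B ω ≤ 4 / p * A) := ⟨_, rfl⟩
  have hDcard : (D.card : ℝ) ≤ p * s.card / 4 := by
    rcases hA0.eq_or_lt with h0 | h0
    · have h1 : D = ∅ := by
        rw [hD, Finset.filter_eq_empty_iff]
        intro ω hω h2
        apply h2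
        rw [← h0, mul_zero]
        have h3 := Finset.single_le_sum hB hω
        rw [← h0, zero_mul] at hA
        linarith
      rw [h1, Finset.card_empty, Nat.cast_zero]
      positivity
    · have h1 : D.card * (4 / p * A) ≤ ∑ ω ∈ D, B ω := by
        rw [← nsmul_eq_mul, ← Finset.sum_const]
        refine Finset.sum_le_sum fun ω hω => ?_
        rw [hD] at hω
        exact (not_le.1 (Finset.mem_filter.1 hω).2).le
      have h2 : ∑ ω ∈ D, B ω ≤ ∑ ω ∈ s, B ω :=
        Finset.sum_le_sum_of_subset_of_nonneg (hD ▸ Finset.filter_subset _ _)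
          fun ω hω _ => hB ω hω
      have h3 : D.card * (4 / p * A) ≤ A * s.card := h1.trans (h2.trans hA)
      have h4 : D.card * (4 / p * A) = (4 * A / p) * D.card := by ring
      have h5 : A * s.card = (4 * A / p) * (p * s.card / 4) := by
        field_simp
      rw [h4, h5] at h3
      exact le_of_mul_le_mul_left h3 (by positivity)
  have hup : ∑ ω ∈ s, (((univ : Finset (Fin K)).filter (fun i => G i ω)).card : ℝ) ≤
      K * D.card + p / 2 * K * s.card := by
    rw [← Finset.sum_filter_add_sum_filter_not s (fun ω => ¬ B ω ≤ 4 / p * A), ← hD]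
    refine add_le_add ?_ ?_
    · calc ∑ ω ∈ D, (((univ : Finset (Fin K)).filter (fun i => G i ω)).card : ℝ)
          ≤ ∑ _ω ∈ D, (K : ℝ) := by
            refine Finset.sum_le_sum fun ω _ => ?_
            have h1 := Finset.card_le_univ ((univ : Finset (Fin K)).filter (fun i => G i ω))
            rw [Fintype.card_fin] at h1
            exact_mod_cast h1
        _ = K * D.card := by rw [Finset.sum_const, nsmul_eq_mul, mul_comm]
    · calc ∑ ω ∈ s.filter (fun ω => ¬ ¬ B ω ≤ 4 / p * A),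
            (((univ : Finset (Fin K)).filter (fun i => G i ω)).card : ℝ)
          ≤ ∑ _ω ∈ s.filter (fun ω => ¬ ¬ B ω ≤ 4 / p * A), p / 2 * K := by
            refine Finset.sum_le_sum fun ω hω => ?_
            have h1 := Finset.mem_filter.1 hω
            exact (hcon ω h1.1 (not_not.1 h1.2)).le
        _ = (s.filter (fun ω => ¬ ¬ B ω ≤ 4 / p * A)).card * (p / 2 * K) := by
            rw [Finset.sum_const, nsmul_eq_mul]
        _ ≤ s.card * (p / 2 * K) := by
            refine mul_le_mul_of_nonneg_right ?_ (by positivity)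
            exact_mod_cast Finset.card_le_card (Finset.filter_subset _ _)
        _ = p / 2 * K * s.card := by ring
  have h1 : K * (D.card : ℝ) ≤ K * (p * s.card / 4) := mul_le_mul_of_nonneg_left hDcard hK'.le
  have h2 : 0 < K * (p * s.card) := by positivity
  nlinarith

end Pool.Agent.REC
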