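import Pool.Agent.REC.SsSec
import Pool.Agent.REC.Pz

/-! REC/SsMain.  Choice of the shift and of the class.

PLAN.  `s = Om z1 HH` (nonempty).  For every `i`: `pz` with `X ω = |Pv .. (Ico (u i) (u i + E))|`, `e = E l2/(l^2 l3) ≥ 1`,
`c` from `mean_low` (`2 j ≤ 2 H ≤ HH`), `C` from `second`: at least `p |s|` good `ω`, `p = c^2/(8C)`.  `select` with
`B ω = |Sv|`, `A = 2000 H l2^2/(l^2 l3)` (`mean_total`). -/

set_option autoImplicit false

namespace Pool.Agent.REC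

open Finset Pool.Agent.Helper9.GW

open Classical in
theorem ss_main : ∃ p : ℝ, 0 < p ∧ ∃ c1 : ℝ, 0 < c1 ∧ ∃ C3 : ℝ, 0 < C3 ∧ ∃ k0 : ℕ,
    ∀ (k : ℕ) (l l2 l3 : ℝ), k0 ≤ k → Par k l l2 l3 → ∀ (K H E : ℕ) (u : Fin K → ℕ), 0 < K →
    (∀ i, u i + E ≤ H) → 2 * H ≤ HH l 3 → 1 ≤ E * (l2 / (l ^ 2 * l3)) →
    ∃ h b : ℕ, ((Sv (2 ^ bb l l2 l3) (zz l) h b H).card : ℝ) ≤ C3 * (H * (l2 ^ 2 / (l ^ 2 * l3))) ∧
      p * K ≤ (((univ : Finset (Fin K)).filter (fun i => c1 * (E * (l2 / (l ^ 2 * l3))) ≤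
        ((Pv (2 ^ bb l l2 l3) (zz l) h b (Ico (u i) (u i + E))).card : ℝ))).card : ℝ) := by
  obtain ⟨c, hc, k1, hlow⟩ := mean_low
  obtain ⟨C, hC, k2, hsec⟩ := second
  have hp0 : 0 < c ^ 2 / (8 * C) := by positivity
  refine ⟨c ^ 2 / (8 * C) / 2, by positivity, c / 2, by positivity,
    4 / (c ^ 2 / (8 * C)) * 2000, by positivity, max k1 k2, ?_⟩
  intro k l l2 l3 hk hpar K H E u hK hu hH he
  have hlow' := hlow k l l2 l3 ((le_max_left _ _).trans hk) hpar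
  have hsec' := hsec k l l2 l3 ((le_max_right _ _).trans hk) hpar
  have hE : 1 ≤ E := by
    rcases Nat.eq_zero_or_pos E with h0 | h0
    · rw [h0, Nat.cast_zero, zero_mul] at he
      linarith
    · exact h0
  have hH1 : 1 ≤ HH l 3 := by
    have h1 := hu ⟨0, hK⟩
    omega
  have hne : (Om (2 ^ bb l l2 l3) (HH l 3)).Nonempty := by
    refine ⟨(1, 0), ?_⟩
    unfold Om
    rw [mem_product, mem_Icc, mem_range]
    exact ⟨⟨le_rfl, hH1⟩, pmod_pos _⟩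
  set e : ℝ := E * (l2 / (l ^ 2 * l3)) with hedef
  have hG : ∀ i : Fin K, c ^ 2 / (8 * C) * (Om (2 ^ bb l l2 l3) (HH l 3)).card ≤
      (((Om (2 ^ bb l l2 l3) (HH l 3)).filter (fun ω => c * e / 2 ≤
        ((Pv (2 ^ bb l l2 l3) (zz l) ω.1 ω.2 (Ico (u i) (u i + E))).card : ℝ))).card : ℝ) := by
    intro i
    have h1 := hlow' (Ico (u i) (u i + E)) (fun j hj => by
      have h2 := hu i
      rw [mem_Ico] at hj
      omega)
    rw [Nat.card_Ico, Nat.add_sub_cancel_left, ← hedef] at h1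
    have h3 := hsec' (u i) E (by
      have h2 := hu i
      omega) e hedef
    refine (pz (Om (2 ^ bb l l2 l3) (HH l 3))
      (fun ω => ((Pv (2 ^ bb l l2 l3) (zz l) ω.1 ω.2 (Ico (u i) (u i + E))).card : ℝ))
      (fun ω _ => Nat.cast_nonneg _) he hc hC h1 h3).trans (le_of_eq ?_)
    exact congrArg (fun n : ℕ => (n : ℝ)) (by congr)
  obtain ⟨ω, -, hB, hcount⟩ := select (Om (2 ^ bb l l2 l3) (HH l 3)) hne hK
    (fun i ω => c * e / 2 ≤
      ((Pv (2 ^ bb l l2 l3) (zz l) ω.1 ω.2 (Ico (u i) (u i + E))).card : ℝ))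
    (fun ω => ((Sv (2 ^ bb l l2 l3) (zz l) ω.1 ω.2 H).card : ℝ))
    (fun ω _ => Nat.cast_nonneg _) hp0
    (fun i => (hG i).trans (le_of_eq (congrArg (fun n : ℕ => (n : ℝ)) (by congr))))
    (mean_total hpar (H := H) (by omega))
  refine ⟨ω.1, ω.2, ?_, ?_⟩
  · refine hB.trans (le_of_eq ?_)
    ring
  · refine hcount.trans ?_
    have h4 : ∀ s t : Finset (Fin K), s ⊆ t → ((s.card : ℕ) : ℝ) ≤ ((t.card : ℕ) : ℝ) :=
      fun s t hst => by exact_mod_cast card_le_card hst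
    apply h4
    intro i hi
    rw [mem_filter] at hi ⊢
    refine ⟨mem_univ i, ?_⟩
    have h5 := hi.2
    have h6 : c / 2 * e = c * e / 2 := by ring
    rw [h6]
    exact h5

end Pool.Agent.REC
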