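import Pool.Agent.REC.One
import Pool.Agent.REC.ModTot
import Pool.Agent.REC.RecPar
import Pool.Agent.REC.PRem
import Pool.Agent.REC.SsMain
import Pool.Agent.AT.PtD
import Pool.Agent.AT.E0
import Pool.Agent.AT.E1
import Pool.Agent.AT.E2
import Pool.Agent.AT.E3

/-! REC/RecB.  THEOREM B at the record scale, for the good scales.

`primes_removed` (primes in all classes modulo `M = Mod w R`), `ss_main` (shift and small class: few survivors, `p K` clusters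
rich in candidates), `crt_class` (one class `b` modulo `M`), `one_class` (attract the candidates, repel the other survivors);
a prime of `[n, n + H)` is prime to `M`, hence it lies in one of the chosen sets `A i`. -/

set_option autoImplicit false

namespace Pool.Agent.REC

open Finset Pool.Agent.AT

private theorem num_E {C1 X l l2 l3 a E : ℝ} (hX : 0 ≤ X) (hl : 0 < l) (hl2 : 0 < l2)
    (hl3 : 0 < l3) (hC1 : 0 ≤ C1) (ha : l2 / (l ^ 2 * l3) ≤ 2 * a)
    (hE : C1 * (X * (l * l3 / l2)) ≤ E) : C1 * X / (2 * l) ≤ E * a := by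
  have h0 : 0 < l2 / (l ^ 2 * l3) := by positivity
  have ha0 : 0 ≤ a := by linarith
  have h1 : C1 * (X * (l * l3 / l2)) * a ≤ E * a := mul_le_mul_of_nonneg_right hE ha0
  have h2 : C1 * (X * (l * l3 / l2)) * (l2 / (l ^ 2 * l3) / 2) ≤ C1 * (X * (l * l3 / l2)) * a :=
    mul_le_mul_of_nonneg_left (by linarith) (by positivity)
  have h3 : C1 * (X * (l * l3 / l2)) * (l2 / (l ^ 2 * l3) / 2) = C1 * X / (2 * l) := by
    field_simp
  linarith

private theorem num_H {C3 c X l l2 l3 b H : ℝ} (hl : 0 < l) (hl2 : 0 < l2)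
    (hl3 : 0 < l3) (hC3 : 0 ≤ C3) (hH0 : 0 ≤ H) (hb : b ≤ 2 * (l2 ^ 2 / (l ^ 2 * l3)))
    (hH : H ≤ c * (X * (l ^ 2 * l3 / l2 ^ 2))) : C3 * (H * b) ≤ 2 * C3 * c * X := by
  have h1 : H * b ≤ H * (2 * (l2 ^ 2 / (l ^ 2 * l3))) := mul_le_mul_of_nonneg_left hb hH0
  have h2 : H * (2 * (l2 ^ 2 / (l ^ 2 * l3))) ≤
      c * (X * (l ^ 2 * l3 / l2 ^ 2)) * (2 * (l2 ^ 2 / (l ^ 2 * l3))) :=
    mul_le_mul_of_nonneg_right hH (by positivity)
  have h3 : c * (X * (l ^ 2 * l3 / l2 ^ 2)) * (2 * (l2 ^ 2 / (l ^ 2 * l3))) = 2 * c * X := by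
    field_simp
  have h4 := mul_le_mul_of_nonneg_left (h1.trans (h2.trans h3.le)) hC3
  linarith

private theorem to_cncl {m P H E K K' M b n : ℕ} {u : Fin K → ℕ} (hc : Cfg H u E)
    {ι : Fin K' → Fin K} (hι : Function.Injective ι) {A : Fin K' → Finset ℕ}
    (hA : ∀ i, A i ⊆ Ico (u (ι i)) (u (ι i) + E))
    (hn1 : P - H < n) (hn2 : n ≤ 4 * P) (hnb : n ≡ b [MOD M])
    (hcop : ∀ q, q.Prime → n ≤ q → Nat.Coprime q M)
    (hR : ∀ j < H, Nat.Coprime (b + j) M → (∀ i, j ∉ A i) → ¬ (n + j).Prime)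
    (hone : ∀ i, ∀ j ∈ A i, ∀ j' ∈ A i, (n + j).Prime → (n + j').Prime → j = j')
    (hcard : m + 1 ≤ (((univ : Finset (Fin K')).biUnion A).filter
      (fun j => (n + j).Prime)).card) : Cncl m P H E u := by
  have key : ∀ j < H, (n + j).Prime → ∃ i, j ∈ A i := by
    intro j hj hp
    by_contra hno
    push Not at hno
    refine hR j hj ?_ hno hp
    have h1 : Nat.Coprime (n + j) M := hcop _ hp (Nat.le_add_right _ _)
    have h2 : Nat.gcd (n + j) M = Nat.gcd (b + j) M := (Nat.ModEq.add_right j hnb).gcd_eq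
    unfold Nat.Coprime
    rw [← h2]
    exact h1
  have hdisj : ∀ (i i' : Fin K) (j : ℕ), u i ≤ j → j < u i + E → u i' ≤ j → j < u i' + E →
      i = i' := by
    intro i i' j h1 h2 h3 h4
    by_contra hne
    rcases lt_or_gt_of_ne hne with h | h
    · have := hc.hdis i i' h
      omega
    · have := hc.hdis i' i h
      omega
  refine ⟨n, hn1, hn2, ?_, ?_, ?_⟩
  · intro q hq hqp
    rw [mem_Ico] at hq
    obtain ⟨j, rfl⟩ := Nat.exists_eq_add_of_le hq.1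
    obtain ⟨i, hi⟩ := key j (by omega) hqp
    have h1 := mem_Ico.1 (hA i hi)
    exact ⟨ι i, by omega, by omega⟩
  · intro i q q' hq hq' h1 h2 h3 h4
    have hin := hc.hin i
    obtain ⟨j, rfl⟩ := Nat.exists_eq_add_of_le (le_trans (Nat.le_add_right _ _) h1)
    obtain ⟨j', rfl⟩ := Nat.exists_eq_add_of_le (le_trans (Nat.le_add_right _ _) h3)
    obtain ⟨i1, hi1⟩ := key j (by omega) hq
    obtain ⟨i2, hi2⟩ := key j' (by omega) hq'
    have e1 := mem_Ico.1 (hA i1 hi1)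
    have e2 := mem_Ico.1 (hA i2 hi2)
    have f1 := hdisj i (ι i1) j (by omega) (by omega) e1.1 e1.2
    have f2 := hdisj i (ι i2) j' (by omega) (by omega) e2.1 e2.2
    have f3 : i1 = i2 := hι (f1.symm.trans f2)
    subst f3
    rw [hone i1 j hi1 j' hi2 hq hq']
  · refine hcard.trans (card_le_card_of_injOn (fun j => n + j) ?_ ?_)
    · intro j hj
      rw [mem_coe, mem_filter, mem_biUnion] at hj
      obtain ⟨⟨i, -, hi⟩, hjp⟩ := hj
      have h1 := mem_Ico.1 (hA i hi)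
      have h2 := hc.hin (ι i)
      show n + j ∈ _
      rw [mem_coe, mem_filter, mem_Ico]
      exact ⟨⟨by omega, by omega⟩, hjp⟩
    · intro j _ j' _ h
      exact Nat.add_left_cancel h

open Helper9.GW in
private theorem z_le {k : ℕ} {l l2 l3 : ℝ} (h : Par k l l2 l3) :
    2 ≤ 2 ^ bb l l2 l3 ∧ 2 ^ bb l l2 l3 ≤ zz l := by
  obtain ⟨b1, b2, b3⟩ := h.bb_facts
  obtain ⟨z1, z2, z3⟩ := h.zz_facts
  obtain ⟨e1, e2, e3, g1, g2, g3⟩ := h.facts
  have p1 := h.p1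
  have p2 := h.p2
  constructor
  · calc 2 = 2 ^ 1 := rfl
      _ ≤ _ := Nat.pow_le_pow_right (by norm_num) b1
  · have h1 : l * l3 / (8 * l2) ≤ l / 2 := by
      rw [div_le_div_iff₀ (by positivity) (by norm_num)]
      nlinarith
    have h2 : ((2 ^ bb l l2 l3 : ℕ) : ℝ) ≤ (zz l : ℝ) := by
      refine le_trans ?_ z1
      push_cast
      have h3 : (2 : ℝ) ^ bb l l2 l3 = Real.exp ((bb l l2 l3 : ℝ) * Real.log 2) := by
        rw [Real.exp_nat_mul, Real.exp_log (by norm_num)]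
      rw [h3]
      exact Real.exp_le_exp.2 (b2.trans h1)
    exact_mod_cast h2

private theorem big_facts : ∀ᶠ P : ℕ in Filter.atTop, 5 ≤ Nat.log 2 P ∧ 1 ≤ Real.log P ∧
    2 ≤ Real.log (Real.log P) ∧ 1 ≤ Real.log (Real.log (Real.log P)) ∧
    1 ≤ Real.log (Real.log (Real.log (Real.log P))) := by
  have h1 : Filter.Tendsto (fun P : ℕ => Real.log (P : ℝ)) Filter.atTop Filter.atTop :=
    Real.tendsto_log_atTop.comp tendsto_natCast_atTop_atTop
  have h2 := Real.tendsto_log_atTop.comp h1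
  have h3 := Real.tendsto_log_atTop.comp h2
  have h4 := Real.tendsto_log_atTop.comp h3
  filter_upwards [h1.eventually_ge_atTop 1, h2.eventually_ge_atTop 2, h3.eventually_ge_atTop 1,
    h4.eventually_ge_atTop 1, Filter.eventually_ge_atTop (2 ^ 5)] with P e1 e2 e3 e4 e5
  exact ⟨Nat.le_log_of_pow_le (by norm_num) e5, e1, e2, e3, e4⟩

private theorem cheb_of : ∃ c : ℝ, 0 < c ∧ ∀ᶠ P : ℕ in Filter.atTop,
    c * P ≤ ∑ m ∈ Ioc P (4 * P), ArithmeticFunction.vonMangoldt m := by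
  obtain ⟨c, hc, P0, h⟩ := theta_int
  refine ⟨c, hc, ?_⟩
  filter_upwards [Filter.eventually_ge_atTop P0] with P hP
  refine (h P hP).trans ?_
  have h1 : ∑ q ∈ (Ioc P (4 * P)).filter Nat.Prime, Real.log q =
      ∑ q ∈ (Ioc P (4 * P)).filter Nat.Prime, ArithmeticFunction.vonMangoldt q := by
    refine sum_congr rfl fun q hq => ?_
    rw [ArithmeticFunction.vonMangoldt_apply_prime (mem_filter.1 hq).2]
  rw [h1]
  exact sum_le_sum_of_subset_of_nonneg (filter_subset _ _)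
    fun _ _ _ => ArithmeticFunction.vonMangoldt_nonneg

private theorem sq_le_two_pow {L : ℕ} (h : 5 ≤ L) : L ^ 2 + L ≤ 2 ^ L := by
  induction L, h using Nat.le_induction with
  | base => norm_num
  | succ n hn ih =>
    have h1 : (n + 1) ^ 2 + (n + 1) ≤ 2 * (n ^ 2 + n) := by nlinarith
    have h2 : 2 ^ (n + 1) = 2 * 2 ^ n := pow_succ' 2 n
    linarith

/-- choice of the sets `A i` -/
private theorem choose_sets {K K' N : ℕ} {B : Fin K → Finset ℕ} {I : Finset (Fin K)}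
    (hI : ∀ i ∈ I, N ≤ (B i).card) (hK : K' ≤ I.card) :
    ∃ (ι : Fin K' → Fin K) (A : Fin K' → Finset ℕ), Function.Injective ι ∧
      ∀ i, A i ⊆ B (ι i) ∧ (A i).card = N := by
  obtain ⟨I', hI', hc⟩ := exists_subset_card_eq hK
  let f := I'.orderEmbOfFin hc
  have hf : ∀ i, f i ∈ I := fun i => hI' (I'.orderEmbOfFin_mem hc i)
  have h1 : ∀ i, ∃ A : Finset ℕ, A ⊆ B (f i) ∧ A.card = N := fun i =>
    exists_subset_card_eq (hI _ (hf i))
  choose A hA using h1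
  exact ⟨f, A, f.injective, hA⟩

/-- the number of the other survivors -/
private theorem num_R {w : ℕ} {R : Finset ℕ} (hR : R ⊆ prs w) {H l4 : ℝ} (hH : 0 ≤ H)
    (hs : ∑ p ∈ R, 1 / (p : ℝ) ≤ 1 / l4) :
    ∑ p ∈ R, (H / (p : ℝ) + 1) ≤ (H + w) / l4 := by
  have h1 : ∑ p ∈ R, (H / (p : ℝ) + 1) ≤ ∑ p ∈ R, (H + w) * (1 / (p : ℝ)) := by
    refine sum_le_sum fun p hp => ?_
    have h2 := mem_prs.1 (hR hp)
    have hp0 : (0 : ℝ) < p := by exact_mod_cast h2.1.pos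
    have h3 : (1 : ℝ) ≤ w * (1 / (p : ℝ)) := by
      rw [mul_one_div, le_div_iff₀ hp0, one_mul]
      exact_mod_cast h2.2
    have h4 : (H + w) * (1 / (p : ℝ)) = H / p + w * (1 / (p : ℝ)) := by ring
    rw [h4]
    linarith
  refine h1.trans ?_
  rw [← mul_sum]
  calc (H + w) * ∑ p ∈ R, 1 / (p : ℝ) ≤ (H + w) * (1 / l4) :=
        mul_le_mul_of_nonneg_left hs (by positivity)
    _ = (H + w) / l4 := by ring

/-- lower bound for the primes in the classes -/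
private theorem num_psi {cθ P M φ lw l lam ψ : ℝ} (hc : 0 < cθ) (hP : 0 ≤ P) (hM : 0 < M)
    (hφ0 : 0 < φ) (hlw : 0 < lw) (hφ : φ ≤ 4 * M / lw) (hl : l ≤ 2 * lw) (hlam : lam ≤ 2 * l)
    (hψ : cθ / 2 * P / φ ≤ ψ) : cθ / 32 * (P / M) * lam ≤ ψ := by
  refine le_trans ?_ hψ
  have h1 : cθ / 2 * P / (4 * M / lw) ≤ cθ / 2 * P / φ :=
    div_le_div_of_nonneg_left (by positivity) hφ0 hφ
  refine le_trans ?_ h1
  have h2 : cθ / 2 * P / (4 * M / lw) = cθ / 32 * (P / M) * (4 * lw) := by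
    field_simp
    ring
  rw [h2]
  exact mul_le_mul_of_nonneg_left (by linarith) (by positivity)

theorem recB (m : ℕ) : ∃ c : ℝ, 0 < c ∧ ∃ K : ℕ, 0 < K ∧ ∃ C1 : ℝ, 0 < C1 ∧ ∃ P0 : ℕ,
    ∀ P : ℕ, P0 ≤ P → Good P → ∀ X l l2 l3 : ℝ, X = Real.log P → l = Real.log X →
    l2 = Real.log l → l3 = Real.log l2 → ∀ (H E : ℕ) (u : Fin K → ℕ),
    (H : ℝ) ≤ c * (X * (l ^ 2 * l3 / l2 ^ 2)) → C1 * (X * (l * l3 / l2)) ≤ E →
    Cfg H u E → Cncl m P H E u := by
  classical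
  obtain ⟨cθ, hcθ, hcheb⟩ := cheb_of
  obtain ⟨Pa, hprem⟩ := primes_removed hcθ hcheb
  obtain ⟨K', hK', ε, hε, Pb, hone⟩ := one_class E0 E1 E2 E3 m (κ := cθ / 32) (by positivity)
  obtain ⟨p, hp, c1, hc1, C3, hC3, k0, hss⟩ := ss_main
  obtain ⟨k1, hk1⟩ := exists_nat_ge (4 / c0)
  obtain ⟨k00, hk00⟩ : ∃ k00 : ℕ, k00 = k0 + k1 + 2 := ⟨_, rfl⟩
  obtain ⟨Pc, hPc⟩ := Filter.eventually_atTop.1 ((rec_par k00).and big_facts)
  have hc00 : 0 < c0 := by
    unfold c0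
    positivity
  obtain ⟨c, hc⟩ : ∃ c : ℝ, c = min 1 (c0 / (8 * C3)) := ⟨_, rfl⟩
  have hcpos : 0 < c := by
    rw [hc]
    exact lt_min one_pos (by positivity)
  have hc1' : c ≤ 1 := hc ▸ min_le_left _ _
  have hc2' : c ≤ c0 / (8 * C3) := hc ▸ min_le_right _ _
  obtain ⟨C1, hC1⟩ : ∃ C1 : ℝ, C1 = 8 * ε / c1 + 2 := ⟨_, rfl⟩
  have hC1pos : 0 < C1 := by
    rw [hC1]
    positivity
  refine ⟨c, hcpos, ⌈(K' : ℝ) / p⌉₊ + 1, by omega, C1, hC1pos, max Pa (max Pb Pc), ?_⟩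
  intro P hP hG X l l2 l3 hX hl hl2 hl3 H E u hH hE hcfg
  have hPa : Pa ≤ P := (le_max_left _ _).trans hP
  have hPb : Pb ≤ P := (le_max_left _ _).trans ((le_max_right _ _).trans hP)
  have hPc' : Pc ≤ P := (le_max_right _ _).trans ((le_max_right _ _).trans hP)
  obtain ⟨hrec, hL5, hX1, hl1, hl21, hl31⟩ := hPc P hPc'
  rw [← hX] at hX1 hl1 hl21 hl31
  rw [← hl] at hl1 hl21 hl31
  rw [← hl2] at hl21 hl31
  rw [← hl3] at hl31
  obtain ⟨k, hk⟩ : ∃ k : ℕ, k = ⌊X⌋₊ := ⟨_, rfl⟩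
  obtain ⟨l', hl'⟩ : ∃ l' : ℝ, l' = Real.log k := ⟨_, rfl⟩
  obtain ⟨l2', hl2'⟩ : ∃ l2' : ℝ, l2' = Real.log l' := ⟨_, rfl⟩
  obtain ⟨l3', hl3'⟩ : ∃ l3' : ℝ, l3' = Real.log l2' := ⟨_, rfl⟩
  obtain ⟨L, hL⟩ : ∃ L : ℕ, L = Nat.log 2 P := ⟨_, rfl⟩
  obtain ⟨r1, hPar, r3, r4, r5, r6, r7, r8, r9, r10, r11, r12, r13, r14, r15⟩ :=
    hrec X l l2 l3 hX hl hl2 hl3 k l' l2' l3' hk hl' hl2' hl3' L hL
  rw [← hL] at hL5
  obtain ⟨w, hw⟩ : ∃ w : ℕ, w = Helper9.GW.zz l' := ⟨_, rfl⟩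
  obtain ⟨hz2, hzw⟩ := z_le hPar
  rw [← hw] at r3 r4 r5 r6 r11 hzw
  have hX0 : 0 < X := by linarith
  have hl0 : 0 < l := by linarith
  have hl20 : 0 < l2 := by linarith
  have hl30 : 0 < l3 := by linarith
  -- the removed primes
  obtain ⟨R, hRw, hRs, hpsi⟩ := hprem P hPa hG l (by rw [hl, hX]) w (by rw [← hX]; exact r3)
  have hl4 : (2 : ℝ) ≤ l ^ 4 := by
    have h1 : (2 : ℝ) ^ 4 ≤ l ^ 4 := pow_le_pow_left₀ (by norm_num) hl1 4
    linarith
  have hRs2 : ∑ p ∈ R, 1 / (p : ℝ) ≤ 1 / 2 :=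
    hRs.trans (one_div_le_one_div_of_le (by norm_num) hl4)
  have hw2 : 2 ≤ w := by omega
  have hMtot := Mod_totient hw2 hRw hRs2
  have hMpos := Mod_pos w R
  obtain ⟨M, hM⟩ : ∃ M : ℕ, M = Mod w R := ⟨_, rfl⟩
  rw [← hM] at hMtot hMpos hpsi
  have hMr : (0 : ℝ) < M := by exact_mod_cast hMpos
  have hφ0 : (0 : ℝ) < M.totient := by exact_mod_cast Nat.totient_pos.2 hMpos
  have hlw : (0 : ℝ) < (Nat.log 2 w : ℝ) := by linarith
  have hpsi2 : ∀ r : ℕ, r.Coprime M → cθ / 32 * ((P : ℝ) / M) * (Nat.log 2 L : ℝ) ≤ psi M r P :=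
    fun r hr => num_psi hcθ (Nat.cast_nonneg _) hMr hφ0 hlw hMtot r11 r10 (hpsi r hr)
  -- the shift and the small class
  have hHX : (H : ℝ) ≤ X * (l ^ 2 * l3 / l2 ^ 2) :=
    hH.trans (mul_le_of_le_one_left (by positivity) hc1')
  obtain ⟨s1, s2, s3⟩ := r13 H hHX
  rw [← hw] at s3
  have hEa := num_E hX0.le hl0 hl20 hl30 hC1pos.le r15 hE
  have hlX : l ≤ X := by
    rw [hl]
    exact Real.log_le_self hX0.le
  have hEa1 : 1 ≤ (E : ℝ) * (l2' / (l' ^ 2 * l3')) := by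
    refine le_trans ?_ hEa
    rw [le_div_iff₀ (by positivity)]
    have h2 : 2 ≤ C1 := by
      rw [hC1]
      have : 0 ≤ 8 * ε / c1 := by positivity
      linarith
    nlinarith
  obtain ⟨h, b1, hSv, hI⟩ := hss k l' l2' l3' (by omega) hPar (⌈(K' : ℝ) / p⌉₊ + 1) H E u
    (by omega) hcfg.hin s1 hEa1
  rw [← hw] at hSv hI
  obtain ⟨b, hb1, hb2⟩ := crt_class (z2 := w) hz2 h b1
  -- the rich clusters
  have hlam0 : (0 : ℝ) < (Nat.log 2 L : ℝ) := by linarith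
  have hN : (⌊ε * L / (Nat.log 2 L : ℝ)⌋₊ : ℝ) ≤ c1 * ((E : ℝ) * (l2' / (l' ^ 2 * l3'))) := by
    refine (Nat.floor_le (by positivity)).trans ?_
    have h1 : ε * L / (Nat.log 2 L : ℝ) ≤ ε * (2 * X) / l := by
      apply div_le_div₀ (by positivity) (mul_le_mul_of_nonneg_left r8 hε.le) hl0 r9
    refine h1.trans ((le_trans ?_ (mul_le_mul_of_nonneg_left hEa hc1.le)))
    have h2 : c1 * (C1 * X / (2 * l)) = (4 * ε + c1) * X / l := by
      rw [hC1]
      field_simp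
      ring
    rw [h2]
    apply div_le_div_of_nonneg_right _ hl0.le
    nlinarith
  have hKI : K' ≤ ((univ : Finset (Fin (⌈(K' : ℝ) / p⌉₊ + 1))).filter
      (fun i => c1 * ((E : ℝ) * (l2' / (l' ^ 2 * l3'))) ≤
        ((Pv (2 ^ Helper9.GW.bb l' l2' l3') w h b1 (Ico (u i) (u i + E))).card : ℝ))).card := by
    have h1 : (K' : ℝ) ≤ p * ((⌈(K' : ℝ) / p⌉₊ + 1 : ℕ) : ℝ) := by
      have h2 : (K' : ℝ) / p ≤ (⌈(K' : ℝ) / p⌉₊ : ℝ) := Nat.le_ceil _
      rw [div_le_iff₀ hp] at h2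
      push_cast
      nlinarith
    exact_mod_cast h1.trans hI
  obtain ⟨ι, A, hι, hA⟩ := choose_sets
    (B := fun i => Pv (2 ^ Helper9.GW.bb l' l2' l3') w h b1 (Ico (u i) (u i + E)))
    (N := ⌊ε * L / (Nat.log 2 L : ℝ)⌋₊) (K' := K') (fun i hi => by
      have h1 := hN.trans (mem_filter.1 hi).2
      exact_mod_cast h1) hKI
  have hAico : ∀ i, A i ⊆ Ico (u (ι i)) (u (ι i) + E) := fun i j hj =>
    (mem_filter.1 ((hA i).1 hj)).1
  have hAcop : ∀ i, ∀ j ∈ A i, Nat.Coprime (b + j) M := by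
    intro i j hj
    rw [hM]
    exact pv_coprime hz2 hb1 hb2 R ((hA i).1 hj)
  have hArange : ∀ i, A i ⊆ range H := by
    intro i j hj
    have h1 := mem_Ico.1 (hAico i hj)
    have h2 := hcfg.hin (ι i)
    rw [mem_range]
    omega
  -- the repelled set
  obtain ⟨R', hR'⟩ : ∃ R' : Finset ℕ, R' = (range H).filter (fun j => Nat.Coprime (b + j) M) \
    (univ : Finset (Fin K')).biUnion A := ⟨_, rfl⟩
  have hR'card : (R'.card : ℝ) ≤ c0 * L := by
    have h1 : (R'.card : ℝ) ≤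
        ((((range H).filter (fun j => Nat.Coprime (b + j) M)).card : ℕ) : ℝ) := by
      rw [hR']
      exact_mod_cast card_le_card sdiff_subset
    have h2 := surv_le hz2 hzw hb1 hb2 hRw H
    rw [← hM] at h2
    have h3 := num_H (C3 := C3) hl0 hl20 hl30 hC3.le (Nat.cast_nonneg H) r14 hH
    have h4 := num_R hRw (Nat.cast_nonneg H) hRs
    have h5 : 2 * C3 * c * X ≤ c0 / 4 * X := by
      apply mul_le_mul_of_nonneg_right _ hX0.le
      have h6 := mul_le_mul_of_nonneg_left hc2' (by positivity : (0 : ℝ) ≤ 2 * C3)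
      have h7 : 2 * C3 * (c0 / (8 * C3)) = c0 / 4 := by
        field_simp
        ring
      rwa [h7] at h6
    have h6 : X / l ≤ c0 / 4 * X := by
      have h7 : 4 / c0 ≤ l := by
        have e1 : l3 ≤ l2 := by
          rw [hl3]
          exact Real.log_le_self hl20.le
        have e2 : l2 ≤ l := by
          rw [hl2]
          exact Real.log_le_self hl0.le
        have e3 : (k1 : ℝ) ≤ (k00 : ℝ) := by exact_mod_cast (by omega : k1 ≤ k00)
        linarith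
      rw [div_le_iff₀ hl0]
      rw [div_le_iff₀ hc00] at h7
      nlinarith
    have h8 : c0 * X ≤ c0 * L := mul_le_mul_of_nonneg_left r7 hc00.le
    have h9 : 0 < c0 * X := mul_pos hc00 hX0
    linarith
  have hPL : 2 ^ L ≤ P := by
    rw [hL]
    refine Nat.pow_log_le_self 2 ?_
    rintro rfl
    rw [hL] at hL5
    simp at hL5
  have hPbig : H + w ≤ P := by
    have h1 := sq_le_two_pow hL5
    have h2 : w ≤ L := by
      have h3 : (w : ℝ) ≤ L := by linarith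
      exact_mod_cast h3
    omega
  have hadm : Adm P L M H R' := by
    refine ⟨hL, hMpos, ?_, ?_, s2, ?_, hR'card⟩
    · intro q hq hLq
      rw [Nat.coprime_comm, hq.coprime_iff_not_dvd, hM, prime_dvd_Mod hq]
      rintro ⟨h1, -⟩
      omega
    · rw [hM]
      exact (Mod_le w R).trans r5
    · rw [hR']
      exact sdiff_subset.trans (filter_subset _ _)
  obtain ⟨n, hn, hn1, hn2, hn3⟩ := hone P hPb L M H R' hadm b A hArange
    (fun i => by
      rw [hR']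
      refine disjoint_left.2 fun j hj hj' => ?_
      exact (mem_sdiff.1 hj').2 (mem_biUnion.2 ⟨i, mem_univ i, hj⟩))
    (fun i i' hii => by
      refine disjoint_left.2 fun j hj hj' => ?_
      have e1 := mem_Ico.1 (hAico i hj)
      have e2 := mem_Ico.1 (hAico i' hj')
      have hne : ι i ≠ ι i' := fun hh => hii (hι hh)
      rcases lt_or_gt_of_ne hne with hh | hh
      · have := hcfg.hdis _ _ hh
        omega
      · have := hcfg.hdis _ _ hh
        omega)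
    (fun i => (hA i).2)
    (fun i j hj => ⟨hAcop i j hj, hpsi2 _ (hAcop i j hj)⟩)
  have hn' : n ∈ (Ioc (P - H) (4 * P)).filter (fun n => n ≡ b [MOD M]) := by
    have := hn
    unfold Nw at this
    rw [mem_filter] at this ⊢
    exact this
  rw [mem_filter, mem_Ioc] at hn'
  refine to_cncl hcfg hι hAico hn'.1.1 hn'.1.2 hn'.2 ?_ ?_ hn2 hn3
  · intro q hq hnq
    rw [Nat.coprime_comm, Nat.coprime_comm, hq.coprime_iff_not_dvd, hM, prime_dvd_Mod hq]
    rintro ⟨h1, -⟩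
    omega
  · intro j hj hcop hno
    refine hn1 j ?_
    rw [hR', mem_sdiff, mem_filter, mem_range]
    refine ⟨⟨hj, hcop⟩, fun hmem => ?_⟩
    obtain ⟨i, -, hi⟩ := mem_biUnion.1 hmem
    exact hno i hi

end Pool.Agent.REC
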