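import Pool.Agent.REC.PtR

/-! REC/RhoS.  Growth and slow variation of the record scale `rho` (defined in REC/PtR).

PLAN.  Put `a = log x`, `b = log a`, `c' = log b`, `d = log c'` (all tend to infinity).  For `x ≤ y ≤ 2x`:
`log y/log x ∈ [1, 1 + log 2/log x]`, and `u/v ∈ [1, 1 + η]` implies `log u/log v ∈ [1, 1 + η/log v]`, so each of the four iterated
logarithms changes by a factor `1 + o(1)`, hence `rho y/rho x → 1` uniformly.  `rho x/log x = b^2 d/c'^2 → ∞` since `b/c' → ∞`.
`rho x ≤ (log x)^3 ≤ √x`-type bound. -/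

set_option autoImplicit false

namespace Pool.Agent.REC

open Filter Topology

/-- the filter of pairs `(x, y)`, `x → ∞`, `x ≤ y ≤ 2 x` -/
noncomputable def svF : Filter (ℝ × ℝ) :=
  comap Prod.fst atTop ⊓ 𝓟 {p | p.1 ≤ p.2 ∧ p.2 ≤ 2 * p.1}

theorem svF_fst : Tendsto (fun p : ℝ × ℝ => p.1) svF atTop :=
  tendsto_comap.mono_left inf_le_left

theorem svF_mem : ∀ᶠ p in svF, p.1 ≤ p.2 ∧ p.2 ≤ 2 * p.1 :=
  (eventually_principal.2 fun _ h => h).filter_mono inf_le_right

theorem svF_snd : Tendsto (fun p : ℝ × ℝ => p.2) svF atTop :=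
  tendsto_atTop_mono' _ (svF_mem.mono fun _ h => h.1) svF_fst

theorem svF_ext {P : ℝ → ℝ → Prop} (h : ∀ᶠ p in svF, P p.1 p.2) :
    ∀ᶠ x in atTop, ∀ y : ℝ, x ≤ y → y ≤ 2 * x → P x y := by
  rw [svF, eventually_inf_principal, eventually_comap] at h
  exact h.mono fun x hx y h1 h2 => hx (x, y) rfl ⟨h1, h2⟩

theorem sv_log0 : Tendsto (fun p : ℝ × ℝ => Real.log p.2 / Real.log p.1) svF (𝓝 1) := by
  have h1 : Tendsto (fun p : ℝ × ℝ => Real.log 2 / Real.log p.1) svF (𝓝 0) :=
    (Real.tendsto_log_atTop.comp svF_fst).const_div_atTop _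
  have h2 : Tendsto (fun p : ℝ × ℝ => 1 + Real.log 2 / Real.log p.1) svF (𝓝 1) := by
    simpa using h1.const_add 1
  refine tendsto_of_tendsto_of_tendsto_of_le_of_le' tendsto_const_nhds h2 ?_ ?_
  · filter_upwards [svF_mem, svF_fst.eventually_gt_atTop 1] with p hp h
    rw [le_div_iff₀ (Real.log_pos h), one_mul]
    exact Real.log_le_log (by linarith) hp.1
  · filter_upwards [svF_mem, svF_fst.eventually_gt_atTop 1] with p hp h
    have hl := Real.log_pos h
    rw [div_le_iff₀ hl, add_mul, one_mul, div_mul_cancel₀ _ hl.ne', add_comm,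
      ← Real.log_mul (by norm_num) (by linarith)]
    exact Real.log_le_log (by linarith) hp.2

theorem sv_log {f : ℝ → ℝ} (hf : Tendsto f atTop atTop)
    (h : Tendsto (fun p : ℝ × ℝ => f p.2 / f p.1) svF (𝓝 1)) :
    Tendsto (fun p : ℝ × ℝ => Real.log (f p.2) / Real.log (f p.1)) svF (𝓝 1) := by
  have h1 : Tendsto (fun p : ℝ × ℝ => Real.log (f p.2 / f p.1)) svF (𝓝 0) := by
    have := (Real.continuousAt_log (one_ne_zero)).tendsto.comp h
    rw [Real.log_one] at this
    exact this
  have h2 : Tendsto (fun p : ℝ × ℝ => 1 + Real.log (f p.2 / f p.1) / Real.log (f p.1)) svF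
      (𝓝 1) := by
    have := h1.div_atTop (Real.tendsto_log_atTop.comp (hf.comp svF_fst))
    simpa using this.const_add 1
  refine h2.congr' ?_
  filter_upwards [(hf.comp svF_fst).eventually_gt_atTop 1, (hf.comp svF_snd).eventually_gt_atTop 1]
    with p h3 h4
  simp only [Function.comp_apply] at h3 h4
  have hl := Real.log_pos h3
  rw [Real.log_div (by linarith) (by linarith)]
  field_simp
  ring

theorem t1 : Tendsto (fun x : ℝ => Real.log x) atTop atTop := Real.tendsto_log_atTop
theorem t2 : Tendsto (fun x : ℝ => Real.log (Real.log x)) atTop atTop := Real.tendsto_log_atTop.comp t1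
theorem t3 : Tendsto (fun x : ℝ => Real.log (Real.log (Real.log x))) atTop atTop :=
  Real.tendsto_log_atTop.comp t2
theorem t4 : Tendsto (fun x : ℝ => Real.log (Real.log (Real.log (Real.log x)))) atTop atTop :=
  Real.tendsto_log_atTop.comp t3

theorem rho_pos : ∀ᶠ x in atTop, 0 < rho x := by
  filter_upwards [t1.eventually_gt_atTop 0, t2.eventually_gt_atTop 0, t3.eventually_gt_atTop 0,
    t4.eventually_gt_atTop 0] with x h1 h2 h3 h4
  unfold rho
  positivity

theorem rho_slow {c : ℝ} (hc : 0 < c) : ∀ δ : ℝ, 0 < δ → ∀ᶠ x in atTop, ∀ y : ℝ, x ≤ y → y ≤ 2 * x →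
    |c * rho y - c * rho x| ≤ δ * (c * rho x) := by
  intro δ hδ
  have s1 := sv_log0
  have s2 := sv_log t1 s1
  have s3 := sv_log t2 s2
  have s4 := sv_log t3 s3
  have hr : Tendsto (fun p : ℝ × ℝ => rho p.2 / rho p.1) svF (𝓝 1) := by
    have := s1.mul (((s2.pow 2).mul s4).div (s3.pow 2) (by norm_num))
    norm_num at this
    refine this.congr' ?_
    filter_upwards [svF_fst.eventually (t1.eventually_gt_atTop 0),
      svF_fst.eventually (t2.eventually_gt_atTop 0), svF_fst.eventually (t3.eventually_gt_atTop 0),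
      svF_fst.eventually (t4.eventually_gt_atTop 0), svF_snd.eventually (t1.eventually_gt_atTop 0),
      svF_snd.eventually (t2.eventually_gt_atTop 0), svF_snd.eventually (t3.eventually_gt_atTop 0),
      svF_snd.eventually (t4.eventually_gt_atTop 0)] with p a1 a2 a3 a4 b1 b2 b3 b4
    unfold rho
    field_simp
  refine svF_ext ?_
  have h1 : ∀ᶠ p in svF, |rho p.2 / rho p.1 - 1| < δ := by
    have := (tendsto_order.1 ((hr.sub_const 1).abs)).2 δ (by simpa using hδ)
    simpa using this
  filter_upwards [h1, svF_fst.eventually rho_pos] with p hp h0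
  have : c * rho p.2 - c * rho p.1 = (rho p.2 / rho p.1 - 1) * (c * rho p.1) := by
    field_simp
  rw [this, abs_mul, abs_of_pos (mul_pos hc h0)]
  exact mul_le_mul_of_nonneg_right hp.le (mul_pos hc h0).le

theorem bc_top : Tendsto (fun x : ℝ => Real.log (Real.log x) / Real.log (Real.log (Real.log x)))
    atTop atTop := by
  have h0 : Tendsto (fun x : ℝ => x / Real.log x) atTop atTop := by
    have h1 : Tendsto (fun x : ℝ => Real.log x / x) atTop (𝓝[>] 0) := by
      refine tendsto_nhdsWithin_iff.2 ⟨?_, ?_⟩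
      · have := Real.isLittleO_log_id_atTop.tendsto_div_nhds_zero
        simpa using this
      · filter_upwards [eventually_gt_atTop 1] with x hx
        exact div_pos (Real.log_pos hx) (by linarith)
    have := h1.inv_tendsto_nhdsGT_zero
    refine this.congr fun x => ?_
    simp
  exact h0.comp t2

theorem rho_log {c : ℝ} (hc : 0 < c) : Tendsto (fun x => c * rho x / Real.log x) atTop atTop := by
  have h1 : Tendsto (fun x : ℝ => c * ((Real.log (Real.log x) / Real.log (Real.log (Real.log x))) *
      (Real.log (Real.log x) / Real.log (Real.log (Real.log x))) *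
      Real.log (Real.log (Real.log (Real.log x))))) atTop atTop :=
    ((bc_top.atTop_mul_atTop₀ bc_top).atTop_mul_atTop₀ t4).const_mul_atTop hc
  refine h1.congr' ?_
  filter_upwards [t1.eventually_gt_atTop 0, t3.eventually_gt_atTop 0] with x h2 h3
  unfold rho
  field_simp

theorem rho_top {c : ℝ} (hc : 0 < c) : Tendsto (fun x => c * rho x) atTop atTop := by
  refine ((rho_log hc).atTop_mul_atTop₀ t1).congr' ?_
  filter_upwards [t1.eventually_gt_atTop 0] with x h2
  field_simp

theorem rho_sqrt : ∀ᶠ x in atTop, rho x ≤ √x := by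
  have h6 : ∀ᶠ x : ℝ in atTop, Real.log x ^ 6 ≤ x := by
    have := (Real.isLittleO_pow_log_id_atTop (n := 6)).bound (zero_lt_one)
    filter_upwards [this, eventually_gt_atTop 0] with x hx h0
    simp only [id, Real.norm_eq_abs, one_mul] at hx
    rw [abs_of_pos h0] at hx
    exact (le_abs_self _).trans hx
  filter_upwards [h6, t1.eventually_ge_atTop 1, t2.eventually_ge_atTop 1, t3.eventually_ge_atTop 1,
    t4.eventually_ge_atTop 1] with x h6 h1 h2 h3 h4
  have hb : Real.log (Real.log x) ≤ Real.log x := (Real.log_le_self (by linarith))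
  have hd : Real.log (Real.log (Real.log (Real.log x))) ≤ Real.log (Real.log (Real.log x)) :=
    Real.log_le_self (by linarith)
  have h7 : rho x ≤ Real.log x ^ 3 := by
    unfold rho
    have h8 : Real.log (Real.log x) ^ 2 * Real.log (Real.log (Real.log (Real.log x))) /
        Real.log (Real.log (Real.log x)) ^ 2 ≤ Real.log x ^ 2 := by
      rw [div_le_iff₀ (by positivity)]
      refine mul_le_mul (pow_le_pow_left₀ (by linarith) hb 2) ?_ (by linarith) (by positivity)
      nlinarith
    calc _ ≤ Real.log x * Real.log x ^ 2 := mul_le_mul_of_nonneg_left h8 (by linarith)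
      _ = _ := by ring
  refine h7.trans ?_
  refine Real.le_sqrt_of_sq_le ?_
  calc _ = Real.log x ^ 6 := by ring
    _ ≤ x := h6

end Pool.Agent.REC
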