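import Mathlib

/-! REC/AvgPhi.  Average of the singular series.

PLAN.  `(1 + 1/p)(1 - 1/p)⁻¹ = 1 + 2/(p-1)`, so the product is `∑_{e ⊆ primeFactors d} ∏_{p ∈ e} 2/(p-1)`
(`Finset.prod_one_add`), i.e. a sum over squarefree divisors `e` of `d` of `g e = ∏_{p ∣ e} 2/(p-1)`.  Exchange:
`∑_{d ≤ N} = ∑_{e ≤ N} g e ⌊N/e⌋ ≤ N ∑_{e ≤ N squarefree} g e/e ≤ N ∏_{p ≤ N} (1 + 2/(p(p-1))) ≤ N exp(∑_{n≥2} 2/(n(n-1))) = N e^2`. -/

set_option autoImplicit false

namespace Pool.Agent.REC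

open Finset

private theorem avg_tel (N : ℕ) :
    ∑ n ∈ Icc 2 (N + 1), 2 / ((n : ℝ) * ((n : ℝ) - 1)) = 2 - 2 / ((N : ℝ) + 1) := by
  induction N with
  | zero => simp
  | succ m ih =>
    rw [Finset.sum_Icc_succ_top (by omega), ih]
    have h1 : ((m : ℝ) + 1) ≠ 0 := by positivity
    have h2 : ((m : ℝ) + 1 + 1) ≠ 0 := by positivity
    push_cast
    have h3 : (m : ℝ) + 1 + 1 - 1 = (m : ℝ) + 1 := by ring
    rw [h3]
    field_simp
    ring

private theorem avg_tel_le (N : ℕ) : ∑ n ∈ Icc 2 N, 2 / ((n : ℝ) * ((n : ℝ) - 1)) ≤ 2 := by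
  rcases Nat.eq_zero_or_pos N with h | h
  · subst h
    simp
  · obtain ⟨m, rfl⟩ : ∃ m, N = m + 1 := ⟨N - 1, by omega⟩
    rw [avg_tel]
    have : (0 : ℝ) ≤ 2 / ((m : ℝ) + 1) := by positivity
    linarith

private theorem avg_card (N : ℕ) (S : Finset ℕ) :
    (((Icc 1 N).filter (fun d => S ⊆ d.primeFactors)).card : ℝ) ≤ N / ∏ p ∈ S, (p : ℝ) := by
  have h1 : (Icc 1 N).filter (fun d => S ⊆ d.primeFactors) ⊆
      (Ioc 0 N).filter (fun d => (∏ p ∈ S, p) ∣ d) := by
    intro d hd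
    rw [mem_filter, mem_Icc] at hd
    rw [mem_filter, mem_Ioc]
    refine ⟨⟨by omega, hd.1.2⟩, ?_⟩
    exact (Finset.prod_dvd_prod_of_subset _ _ _ hd.2).trans (Nat.prod_primeFactors_dvd d)
  have h2 := card_le_card h1
  rw [Nat.Ioc_filter_dvd_card_eq_div] at h2
  have h3 : (((Icc 1 N).filter (fun d => S ⊆ d.primeFactors)).card : ℝ) ≤
      ((N / ∏ p ∈ S, p : ℕ) : ℝ) := by exact_mod_cast h2
  refine h3.trans ?_
  refine Nat.cast_div_le.trans (le_of_eq ?_)
  push_cast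
  rfl

theorem avg_phi (N : ℕ) : ∑ d ∈ Icc 1 N,
    ((∏ p ∈ d.primeFactors, (1 + 1 / (p : ℝ))) * ∏ p ∈ d.primeFactors, (1 - 1 / (p : ℝ))⁻¹) ≤
      Real.exp 2 * N := by
  classical
  set P : Finset ℕ := (Icc 1 N).filter Nat.Prime with hP
  set h : ℕ → ℝ := fun p => 2 / ((p : ℝ) - 1) with hh
  have hPpos : ∀ p ∈ P, (2 : ℝ) ≤ p := by
    intro p hp
    rw [hP, mem_filter] at hp
    exact_mod_cast hp.2.two_le
  have hsub : ∀ d ∈ Icc 1 N, d.primeFactors ⊆ P := by
    intro d hd p hp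
    rw [mem_Icc] at hd
    rw [hP, mem_filter, mem_Icc]
    have h1 := Nat.prime_of_mem_primeFactors hp
    have h2 := Nat.le_of_dvd (by omega) (Nat.dvd_of_mem_primeFactors hp)
    exact ⟨⟨h1.one_lt.le, h2.trans hd.2⟩, h1⟩
  -- the term as a sum over subsets
  have hterm : ∀ d ∈ Icc 1 N,
      (∏ p ∈ d.primeFactors, (1 + 1 / (p : ℝ))) * ∏ p ∈ d.primeFactors, (1 - 1 / (p : ℝ))⁻¹ =
      ∑ S ∈ P.powerset, if S ⊆ d.primeFactors then ∏ p ∈ S, h p else 0 := by
    intro d hd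
    rw [← prod_mul_distrib]
    have h1 : ∀ p ∈ d.primeFactors, (1 + 1 / (p : ℝ)) * (1 - 1 / (p : ℝ))⁻¹ = 1 + h p := by
      intro p hp
      have h2 := hPpos p (hsub d hd hp)
      have h3 : (p : ℝ) ≠ 0 := by linarith
      have h4 : (p : ℝ) - 1 ≠ 0 := by
        intro h0
        linarith
      have h5 : (1 : ℝ) - 1 / (p : ℝ) = ((p : ℝ) - 1) / p := by
        field_simp
      rw [h5, hh]
      field_simp
      ring
    rw [prod_congr rfl h1, prod_one_add, ← sum_filter]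
    apply sum_congr _ (fun _ _ => rfl)
    ext S
    rw [mem_powerset, mem_filter, mem_powerset]
    constructor
    · intro h2
      exact ⟨h2.trans (hsub d hd), h2⟩
    · intro h2
      exact h2.2
  rw [sum_congr rfl hterm, sum_comm]
  have hF0 : ∀ S ∈ P.powerset, 0 ≤ ∏ p ∈ S, h p := by
    intro S hS
    rw [mem_powerset] at hS
    apply prod_nonneg
    intro p hp
    have h1 := hPpos p (hS hp)
    apply div_nonneg (by norm_num)
    linarith
  have hS : ∀ S ∈ P.powerset, (∑ d ∈ Icc 1 N, if S ⊆ d.primeFactors then ∏ p ∈ S, h p else 0) ≤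
      N * ∏ p ∈ S, (h p / p) := by
    intro S hS
    have hd : ∏ p ∈ S, (h p / (p : ℝ)) = (∏ p ∈ S, h p) / ∏ p ∈ S, (p : ℝ) := prod_div_distrib _ _
    rw [← sum_filter, sum_const, nsmul_eq_mul, hd]
    calc (((Icc 1 N).filter (fun d => S ⊆ d.primeFactors)).card : ℝ) * ∏ p ∈ S, h p ≤
        (N / ∏ p ∈ S, (p : ℝ)) * ∏ p ∈ S, h p :=
          mul_le_mul_of_nonneg_right (avg_card N S) (hF0 S hS)
      _ = N * ((∏ p ∈ S, h p) / ∏ p ∈ S, (p : ℝ)) := by ring
  refine (sum_le_sum hS).trans ?_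
  rw [← mul_sum, ← prod_one_add, mul_comm]
  apply mul_le_mul_of_nonneg_right _ (Nat.cast_nonneg N)
  calc ∏ p ∈ P, (1 + h p / p) ≤ ∏ p ∈ P, Real.exp (h p / p) := by
        apply prod_le_prod
        · intro p hp
          have h1 := hPpos p hp
          have h2 : 0 ≤ h p / p := by
            apply div_nonneg _ (by linarith)
            apply div_nonneg (by norm_num)
            linarith
          linarith
        · intro p hp
          rw [add_comm]
          exact Real.add_one_le_exp _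
    _ = Real.exp (∑ p ∈ P, h p / p) := by rw [Real.exp_sum]
    _ ≤ Real.exp 2 := by
        apply Real.exp_le_exp.2
        refine le_trans ?_ (avg_tel_le N)
        have h1 : ∑ p ∈ P, h p / p = ∑ p ∈ P, 2 / ((p : ℝ) * ((p : ℝ) - 1)) := by
          refine sum_congr rfl fun p _ => ?_
          rw [hh]
          show 2 / ((p : ℝ) - 1) / p = _
          rw [div_div, mul_comm]
        rw [h1]
        apply sum_le_sum_of_subset_of_nonneg
        · intro p hp
          rw [hP, mem_filter, mem_Icc] at hp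
          rw [mem_Icc]
          exact ⟨hp.2.two_le, hp.1.2⟩
        · intro n hn _
          rw [mem_Icc] at hn
          have h2 : (2 : ℝ) ≤ n := by exact_mod_cast hn.1
          apply div_nonneg (by norm_num)
          nlinarith

end Pool.Agent.REC
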