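import Pool.Agent.ATL.Main
import Pool.Agent.AT.Pr1

/-! REC/Chars.  Primes in one residue class from the sums over primitive characters.

`ATL.prim f` = primitive characters modulo `f`; `AT.psi M r P = ∑ Λ(m)` over `P < m ≤ 4P`, `m ≡ r [MOD M]`;
`AT.pp_err`: proper prime powers contribute `≤ 10 √P log(4P)^2`.

PLAN.  Orthogonality (`DirichletCharacter.sum_char_inv_mul_char_eq`) for the unit `r` modulo `M`:
`φ(M) psi M r P = ∑_ψ ψ(r)⁻¹ ∑_{P<m≤4P} Λ(m) ψ(m)`.  Every `m` with `Λ m ≠ 0` not prime to `M` is a proper prime power (its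
prime divides `M`, so it is `≤ M ≤ P < m`).  `ψ = 1`: the sum is `≥ ∑ Λ m - pp`.  `ψ ≠ 1`: `ψ` is induced by the primitive
character `ψ* = ψ.primitiveCharacter` of conductor `f ∣ M`, `f ≥ 2`, and `ψ m = ψ* m` for `m` prime to `M`, so the two sums differ
by `≤ pp`; `ψ ↦ (f, ψ*)` is injective (`changeLevel`, `DirichletCharacter.changeLevel_primitiveCharacter`...), so
`∑_{ψ ≠ 1} ‖∑ Λ ψ‖ ≤ ∑_{f ∣ M, f ≠ 1} ∑_{χ ∈ prim f} ‖∑ Λ χ‖ + φ(M) pp`. -/

set_option autoImplicit false

namespace Pool.Agent.REC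

open Finset Pool.Agent.ATL

/-- the character sum over the primes of the dyadic block -/
noncomputable def PC {f : ℕ} (P : ℕ) (χ : DirichletCharacter ℂ f) : ℝ :=
  ‖∑ m ∈ Ioc P (4 * P), ((ArithmeticFunction.vonMangoldt m : ℝ) : ℂ) * χ m‖

/-- the inverse of the map to primitive characters -/
private noncomputable def chInv (M : ℕ) (x : Σ f : ℕ, DirichletCharacter ℂ f) :
    DirichletCharacter ℂ M :=
  if h : x.1 ∣ M then DirichletCharacter.changeLevel h x.2 else 1

private theorem chInv_prim {M : ℕ} (ψ : DirichletCharacter ℂ M) :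
    chInv M ⟨ψ.conductor, ψ.primitiveCharacter⟩ = ψ := by
  unfold chInv
  rw [dif_pos ψ.conductor_dvd_level]
  exact ψ.changeLevel_primitiveCharacter

/-- the `Λ`-sum over the numbers which are not prime to `M` -/
private theorem bad_sum {M P : ℕ} (hMP : M ≤ P) (hM : 0 < M) (hP : 2 ≤ P) :
    ∑ m ∈ (Ioc P (4 * P)).filter (fun m => ¬ m.Coprime M), ArithmeticFunction.vonMangoldt m ≤
      10 * √P * Real.log (4 * P) ^ 2 := by
  refine le_trans ?_ (Pool.Agent.AT.pp_err hP)
  rw [sum_filter, sum_filter]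
  refine sum_le_sum fun m hm => ?_
  rw [mem_Ioc] at hm
  have hnn : 0 ≤ ArithmeticFunction.vonMangoldt m := ArithmeticFunction.vonMangoldt_nonneg
  by_cases h1 : m.Coprime M
  · rw [if_neg (not_not.2 h1)]
    split_ifs
    · exact le_rfl
    · exact hnn
  · rw [if_pos h1]
    by_cases h2 : m.Prime
    · exfalso
      apply h1
      rw [Nat.Prime.coprime_iff_not_dvd h2]
      intro h3
      have := Nat.le_of_dvd hM h3
      omega
    · rw [if_pos h2]

/-- the sum for a character and for its primitive character -/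
private theorem prim_diff {M P : ℕ} (hM : 0 < M) (hMP : M ≤ P) (hP : 2 ≤ P)
    (ψ : DirichletCharacter ℂ M) :
    ‖∑ m ∈ Ioc P (4 * P), ((ArithmeticFunction.vonMangoldt m : ℝ) : ℂ) * ψ m‖ ≤
      PC P ψ.primitiveCharacter + 10 * √P * Real.log (4 * P) ^ 2 := by
  have h1 : ∑ m ∈ Ioc P (4 * P), ((ArithmeticFunction.vonMangoldt m : ℝ) : ℂ) * ψ m =
      ∑ m ∈ Ioc P (4 * P), ((ArithmeticFunction.vonMangoldt m : ℝ) : ℂ) *
        ψ.primitiveCharacter m -
      ∑ m ∈ (Ioc P (4 * P)).filter (fun m => ¬ m.Coprime M),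
        ((ArithmeticFunction.vonMangoldt m : ℝ) : ℂ) * ψ.primitiveCharacter m := by
    rw [sum_filter, ← sum_sub_distrib]
    refine sum_congr rfl fun m _ => ?_
    by_cases h : m.Coprime M
    · rw [if_neg (not_not.2 h), sub_zero]
      congr 1
      have h2 := ψ.primitiveCharacter_apply_of_isCoprime (a := (m : ℤ))
        (Nat.isCoprime_iff_coprime.2 h)
      rw [Int.cast_natCast, Int.cast_natCast] at h2
      exact h2.symm
    · rw [if_pos h, sub_self]
      have h2 : ψ (m : ZMod M) = 0 := by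
        apply ψ.map_nonunit
        rw [ZMod.isUnit_iff_coprime]
        exact h
      rw [h2, mul_zero]
  rw [h1]
  refine (norm_sub_le _ _).trans (add_le_add le_rfl ?_)
  refine (norm_sum_le _ _).trans (le_trans ?_ (bad_sum hMP hM hP))
  refine sum_le_sum fun m _ => ?_
  rw [norm_mul, Complex.norm_real, Real.norm_eq_abs,
    abs_of_nonneg ArithmeticFunction.vonMangoldt_nonneg]
  have h3 := DirichletCharacter.norm_le_one ψ.primitiveCharacter (m : ZMod ψ.conductor)
  have h4 : 0 ≤ ArithmeticFunction.vonMangoldt m := ArithmeticFunction.vonMangoldt_nonneg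
  nlinarith

theorem psi_ge {M P r : ℕ} (hM : 0 < M) (hMP : M ≤ P) (hP : 2 ≤ P) (hr : r.Coprime M) :
    (1 / (M.totient : ℝ)) * (∑ m ∈ Ioc P (4 * P), ArithmeticFunction.vonMangoldt m -
      ∑ f ∈ M.divisors.erase 1, ∑ χ ∈ prim f, PC P χ) -
      2 * (10 * √P * Real.log (4 * P) ^ 2) ≤ Pool.Agent.AT.psi M r P := by
  classical
  have : NeZero M := ⟨hM.ne'⟩
  obtain ⟨E, hE⟩ : ∃ E : ℝ, E = 10 * √P * Real.log (4 * P) ^ 2 := ⟨_, rfl⟩
  have hE0 : 0 ≤ E := by rw [hE]; positivity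
  have hφ : (1 : ℝ) ≤ M.totient := by exact_mod_cast Nat.totient_pos.2 hM
  have hru : IsUnit (r : ZMod M) := (ZMod.isUnit_iff_coprime r M).2 hr
  -- orthogonality
  have horth : ((M.totient : ℝ) * Pool.Agent.AT.psi M r P : ℂ) =
      ∑ ψ : DirichletCharacter ℂ M, ψ (r : ZMod M)⁻¹ *
        ∑ m ∈ Ioc P (4 * P), ((ArithmeticFunction.vonMangoldt m : ℝ) : ℂ) * ψ m := by
    have h1 : ∑ ψ : DirichletCharacter ℂ M, ψ (r : ZMod M)⁻¹ *
        ∑ m ∈ Ioc P (4 * P), ((ArithmeticFunction.vonMangoldt m : ℝ) : ℂ) * ψ m =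
        ∑ m ∈ Ioc P (4 * P), ((ArithmeticFunction.vonMangoldt m : ℝ) : ℂ) *
          ∑ ψ : DirichletCharacter ℂ M, ψ (r : ZMod M)⁻¹ * ψ m := by
      simp only [mul_sum]
      rw [sum_comm]
      refine sum_congr rfl fun m _ => sum_congr rfl fun ψ _ => ?_
      ring
    rw [h1]
    unfold Pool.Agent.AT.psi
    push_cast
    rw [sum_filter, mul_sum]
    refine sum_congr rfl fun m _ => ?_
    rw [DirichletCharacter.sum_char_inv_mul_char_eq ℂ hru]
    by_cases h2 : m ≡ r [MOD M]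
    · have h3 : (r : ZMod M) = m := ((ZMod.natCast_eq_natCast_iff m r M).2 h2).symm
      rw [if_pos h2, if_pos h3]
      ring
    · have h3 : ¬ (r : ZMod M) = m := fun h => h2 ((ZMod.natCast_eq_natCast_iff m r M).1 h.symm)
      rw [if_neg h2, if_neg h3]
      ring
  -- the principal character
  have hone : (∑ m ∈ Ioc P (4 * P), ((ArithmeticFunction.vonMangoldt m : ℝ) : ℂ) *
      (1 : DirichletCharacter ℂ M) m).re ≥
      ∑ m ∈ Ioc P (4 * P), ArithmeticFunction.vonMangoldt m - E := by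
    have h1 := bad_sum hMP hM hP
    rw [← hE, sum_filter] at h1
    rw [Complex.re_sum]
    have h2 : ∀ m ∈ Ioc P (4 * P), (((ArithmeticFunction.vonMangoldt m : ℝ) : ℂ) *
        (1 : DirichletCharacter ℂ M) m).re = ArithmeticFunction.vonMangoldt m -
          (if ¬ m.Coprime M then ArithmeticFunction.vonMangoldt m else 0) := by
      intro m _
      by_cases h : m.Coprime M
      · rw [if_neg (not_not.2 h), sub_zero, MulChar.one_apply ((ZMod.isUnit_iff_coprime m M).2 h),
          mul_one, Complex.ofReal_re]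
      · have h3 : (1 : DirichletCharacter ℂ M) (m : ZMod M) = 0 := by
          apply MulChar.map_nonunit
          rw [ZMod.isUnit_iff_coprime]
          exact h
        rw [if_pos h, sub_self, h3, mul_zero, Complex.zero_re]
    rw [sum_congr rfl h2, sum_sub_distrib]
    linarith
  -- the other characters
  have hoth : ∑ ψ ∈ (univ : Finset (DirichletCharacter ℂ M)).erase 1,
      ‖∑ m ∈ Ioc P (4 * P), ((ArithmeticFunction.vonMangoldt m : ℝ) : ℂ) * ψ m‖ ≤
      ∑ f ∈ M.divisors.erase 1, ∑ χ ∈ prim f, PC P χ + ((M.totient : ℝ) - 1) * E := by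
    have h1 : ∀ ψ ∈ (univ : Finset (DirichletCharacter ℂ M)).erase 1,
        ‖∑ m ∈ Ioc P (4 * P), ((ArithmeticFunction.vonMangoldt m : ℝ) : ℂ) * ψ m‖ ≤
          PC P ψ.primitiveCharacter + E := by
      intro ψ _
      rw [hE]
      exact prim_diff hM hMP hP ψ
    refine (sum_le_sum h1).trans ?_
    rw [sum_add_distrib, sum_const, card_erase_of_mem (mem_univ _), card_univ]
    have h2 : Fintype.card (DirichletCharacter ℂ M) = M.totient := by
      rw [← Nat.card_eq_fintype_card]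
      exact DirichletCharacter.card_eq_totient_of_hasEnoughRootsOfUnity ℂ M
    rw [h2, nsmul_eq_mul, Nat.cast_sub (Nat.totient_pos.2 hM), Nat.cast_one]
    refine add_le_add ?_ le_rfl
    have h3 : ∑ ψ ∈ (univ : Finset (DirichletCharacter ℂ M)).erase 1,
        PC P ψ.primitiveCharacter = ∑ x ∈ ((univ : Finset (DirichletCharacter ℂ M)).erase 1).image
          (fun ψ => (⟨ψ.conductor, ψ.primitiveCharacter⟩ : Σ f : ℕ, DirichletCharacter ℂ f)),
            PC P x.2 := by
      rw [sum_image]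
      intro ψ _ ψ' _ h
      have h4 := congrArg (chInv M) h
      simp only [chInv_prim] at h4
      exact h4
    rw [h3, sum_sigma']
    apply sum_le_sum_of_subset_of_nonneg
    · intro x hx
      rw [mem_image] at hx
      obtain ⟨ψ, hψ, rfl⟩ := hx
      rw [mem_erase] at hψ
      rw [mem_sigma]
      refine ⟨?_, ?_⟩
      · rw [mem_erase, Nat.mem_divisors]
        refine ⟨?_, ψ.conductor_dvd_level, hM.ne'⟩
        intro h4
        exact hψ.1 (DirichletCharacter.eq_one_iff_conductor_eq_one.2 h4)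
      · exact (mem_prim ψ.conductor_ne_zero).2 ψ.primitiveCharacter_isPrimitive
    · intro x _ _
      unfold PC
      exact norm_nonneg _
  -- conclusion
  have hre : (M.totient : ℝ) * Pool.Agent.AT.psi M r P =
      (∑ ψ : DirichletCharacter ℂ M, ψ (r : ZMod M)⁻¹ *
        ∑ m ∈ Ioc P (4 * P), ((ArithmeticFunction.vonMangoldt m : ℝ) : ℂ) * ψ m).re := by
    rw [← horth]
    simp
  rw [← add_sum_erase _ _ (mem_univ (1 : DirichletCharacter ℂ M)), Complex.add_re] at hre
  have h1r : (1 : DirichletCharacter ℂ M) (r : ZMod M)⁻¹ = 1 := by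
    apply MulChar.one_apply
    have h5 : (r : ZMod M)⁻¹ * (r : ZMod M) = 1 := ZMod.inv_mul_of_unit _ hru
    exact IsUnit.of_mul_eq_one _ h5
  rw [h1r, one_mul] at hre
  have hsec : -(∑ ψ ∈ (univ : Finset (DirichletCharacter ℂ M)).erase 1,
      ‖∑ m ∈ Ioc P (4 * P), ((ArithmeticFunction.vonMangoldt m : ℝ) : ℂ) * ψ m‖) ≤
      (∑ ψ ∈ (univ : Finset (DirichletCharacter ℂ M)).erase 1, ψ (r : ZMod M)⁻¹ *
        ∑ m ∈ Ioc P (4 * P), ((ArithmeticFunction.vonMangoldt m : ℝ) : ℂ) * ψ m).re := by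
    have h6 := Complex.abs_re_le_norm (∑ ψ ∈ (univ : Finset (DirichletCharacter ℂ M)).erase 1,
      ψ (r : ZMod M)⁻¹ *
        ∑ m ∈ Ioc P (4 * P), ((ArithmeticFunction.vonMangoldt m : ℝ) : ℂ) * ψ m)
    have h7 : ‖∑ ψ ∈ (univ : Finset (DirichletCharacter ℂ M)).erase 1, ψ (r : ZMod M)⁻¹ *
        ∑ m ∈ Ioc P (4 * P), ((ArithmeticFunction.vonMangoldt m : ℝ) : ℂ) * ψ m‖ ≤
        ∑ ψ ∈ (univ : Finset (DirichletCharacter ℂ M)).erase 1,
        ‖∑ m ∈ Ioc P (4 * P), ((ArithmeticFunction.vonMangoldt m : ℝ) : ℂ) * ψ m‖ := by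
      refine (norm_sum_le _ _).trans (sum_le_sum fun ψ _ => ?_)
      rw [norm_mul]
      have h8 := DirichletCharacter.norm_le_one ψ (r : ZMod M)⁻¹
      exact mul_le_of_le_one_left (norm_nonneg _) h8
    have h9 := neg_abs_le (∑ ψ ∈ (univ : Finset (DirichletCharacter ℂ M)).erase 1,
      ψ (r : ZMod M)⁻¹ *
        ∑ m ∈ Ioc P (4 * P), ((ArithmeticFunction.vonMangoldt m : ℝ) : ℂ) * ψ m).re
    linarith
  rw [← hE]
  have hfin : (∑ m ∈ Ioc P (4 * P), ArithmeticFunction.vonMangoldt m -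
      ∑ f ∈ M.divisors.erase 1, ∑ χ ∈ prim f, PC P χ) - (M.totient : ℝ) * E ≤
      (M.totient : ℝ) * Pool.Agent.AT.psi M r P := by
    rw [hre]
    linarith
  have hφ0 : (0 : ℝ) < M.totient := by linarith
  have h10 : (1 / (M.totient : ℝ)) * (∑ m ∈ Ioc P (4 * P), ArithmeticFunction.vonMangoldt m -
      ∑ f ∈ M.divisors.erase 1, ∑ χ ∈ prim f, PC P χ) - E ≤ Pool.Agent.AT.psi M r P := by
    have h11 : (M.totient : ℝ) * ((1 / (M.totient : ℝ)) *
        (∑ m ∈ Ioc P (4 * P), ArithmeticFunction.vonMangoldt m -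
          ∑ f ∈ M.divisors.erase 1, ∑ χ ∈ prim f, PC P χ) - E) ≤
        (M.totient : ℝ) * Pool.Agent.AT.psi M r P := by
      rw [mul_sub, ← mul_assoc, mul_one_div_cancel hφ0.ne', one_mul]
      exact hfin
    exact le_of_mul_le_mul_left h11 hφ0
  linarith

end Pool.Agent.REC
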