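import Mathlib

/-! REC/DerivB.  Bounds for all derivatives of `L(s, χ)`, `χ` not principal modulo `q`, in `1 < Re s ≤ 2`.

PROOF.  Let `N = ⌊exp (2 V)⌋`.  For `Re w > 1`, `L(w, χ) = ∑_{n ≤ N} χ(n) n^(-w) + w ∫ B(t) t^(-w-1) dt`, where `B(t)` is
the sum of `χ(n)` over `N < n ≤ t` (`LSeries_eq_mul_integral`), `|B| ≤ q`, `B = 0` for `t < N + 1`.  The integral is a
Mellin transform, analytic for `Re w > 0`, so the formula holds there (`LF_eq`).  Hence `|L(w, χ)| ≤ 8 V` for
`Re w ≥ 1 - 1/(4V)`, `q |w| ≤ exp V` (`LF_le`), and Cauchy's estimate on the disc of radius `1/(4V)` gives the result. -/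

set_option autoImplicit false

namespace Pool.Agent.REC

open DirichletCharacter Filter MeasureTheory Topology

private theorem sum_full {q : ℕ} [NeZero q] {χ : DirichletCharacter ℂ q} (hχ : χ ≠ 1) (j : ℕ) :
    ∑ i ∈ Finset.range q, χ ((j + i : ℕ) : ZMod q) = 0 := by
  have h1 : ∑ i ∈ Finset.range q, χ ((j + i : ℕ) : ZMod q)
      = ∑ x : ZMod q, χ ((j : ZMod q) + x) := by
    refine Finset.sum_bij (fun i _ => ((i : ℕ) : ZMod q)) (fun _ _ => Finset.mem_univ _) ?_ ?_ ?_
    · intro i hi i' hi' h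
      rw [ZMod.natCast_eq_natCast_iff'] at h
      rwa [Nat.mod_eq_of_lt (Finset.mem_range.1 hi), Nat.mod_eq_of_lt (Finset.mem_range.1 hi')] at h
    · intro x _
      exact ⟨x.val, Finset.mem_range.2 (ZMod.val_lt x), ZMod.natCast_zmod_val x⟩
    · intro i _
      rw [Nat.cast_add]
  have h2 := Equiv.sum_comp (Equiv.addLeft (j : ZMod q)) (fun y => χ y)
  simp only [Equiv.coe_addLeft] at h2
  rw [h1, h2]
  exact MulChar.sum_eq_zero_of_ne_one hχ

private theorem sum_part {q : ℕ} [NeZero q] {χ : DirichletCharacter ℂ q} (hχ : χ ≠ 1) (n : ℕ) :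
    ∀ j : ℕ, ‖∑ i ∈ Finset.range n, χ ((j + i : ℕ) : ZMod q)‖ ≤ q := by
  induction n using Nat.strong_induction_on with
  | _ n ih =>
    intro j
    rcases lt_or_ge n q with h | h
    · refine (norm_sum_le _ _).trans ?_
      calc ∑ i ∈ Finset.range n, ‖χ ((j + i : ℕ) : ZMod q)‖
          ≤ ∑ i ∈ Finset.range n, (1 : ℝ) :=
            Finset.sum_le_sum fun i _ => DirichletCharacter.norm_le_one χ _
        _ = n := by simp
        _ ≤ q := by exact_mod_cast h.le
    · obtain ⟨k, rfl⟩ : ∃ k, n = q + k := ⟨n - q, by omega⟩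
      have hq : 0 < q := Nat.pos_of_ne_zero (NeZero.ne q)
      rw [Finset.sum_range_add, sum_full hχ j, zero_add]
      have h1 := ih k (by omega) (j + q)
      have h2 : ∑ x ∈ Finset.range k, χ ((j + (q + x) : ℕ) : ZMod q)
          = ∑ i ∈ Finset.range k, χ ((j + q + i : ℕ) : ZMod q) :=
        Finset.sum_congr rfl fun i _ => by rw [add_assoc j q i]
      rw [h2]
      exact h1

/-- the tail of the character -/
private noncomputable def tl {q : ℕ} (χ : DirichletCharacter ℂ q) (N n : ℕ) : ℂ :=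
  if n ≤ N then 0 else χ (n : ZMod q)

/-- partial sums of the tail -/
private noncomputable def BB {q : ℕ} (χ : DirichletCharacter ℂ q) (N : ℕ) (t : ℝ) : ℂ :=
  ∑ k ∈ Finset.Icc 1 ⌊t⌋₊, tl χ N k

private theorem tl_sum {q : ℕ} [NeZero q] {χ : DirichletCharacter ℂ q} (hχ : χ ≠ 1) (N n : ℕ) :
    ‖∑ k ∈ Finset.Icc 1 n, tl χ N k‖ ≤ q := by
  have h1 : ∑ k ∈ Finset.Icc 1 n, tl χ N k =
      ∑ i ∈ Finset.range (n + 1 - (N + 1)), χ ((N + 1 + i : ℕ) : ZMod q) := by
    rw [← Finset.sum_Ico_eq_sum_range (fun k => χ ((k : ℕ) : ZMod q))]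
    unfold tl
    have h2 : ∀ k ∈ Finset.Icc 1 n, (if k ≤ N then (0 : ℂ) else χ ((k : ℕ) : ZMod q)) =
        if ¬ k ≤ N then χ ((k : ℕ) : ZMod q) else 0 := by
      intro k _
      by_cases h : k ≤ N
      · rw [if_pos h, if_neg (not_not.2 h)]
      · rw [if_neg h, if_pos h]
    rw [Finset.sum_congr rfl h2, ← Finset.sum_filter]
    apply Finset.sum_congr _ fun _ _ => rfl
    ext k
    rw [Finset.mem_filter, Finset.mem_Icc, Finset.mem_Ico]
    omega
  rw [h1]
  exact sum_part hχ _ _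

private theorem BB_zero {q : ℕ} (χ : DirichletCharacter ℂ q) (N : ℕ) {t : ℝ}
    (ht : t < N + 1) : BB χ N t = 0 := by
  unfold BB
  apply Finset.sum_eq_zero
  intro k hk
  have h1 := (Finset.mem_Icc.1 hk).2
  have h2 : ⌊t⌋₊ < N + 1 := by
    rcases lt_or_ge t 0 with h | h
    · rw [Nat.floor_of_nonpos h.le]
      omega
    · rw [Nat.floor_lt h]
      exact_mod_cast ht
  unfold tl
  rw [if_pos (by omega)]

private theorem BB_le {q : ℕ} [NeZero q] {χ : DirichletCharacter ℂ q} (hχ : χ ≠ 1) (N : ℕ)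
    (t : ℝ) : ‖BB χ N t‖ ≤ q := tl_sum hχ N _

private theorem tl_LSeries {q : ℕ} [NeZero q] {χ : DirichletCharacter ℂ q} (hχ : χ ≠ 1) (N : ℕ)
    {w : ℂ} (hw : 1 < w.re) :
    LSeries (tl χ N) w = w * ∫ t in Set.Ioi (1 : ℝ), BB χ N t * t ^ (-(w + 1)) := by
  have hS : LSeriesSummable (tl χ N) w := by
    refine LSeriesSummable_of_bounded_of_one_lt_re (m := 1) ?_ hw
    intro n _
    unfold tl
    by_cases h : n ≤ N
    · rw [if_pos h, norm_zero]
      exact zero_le_one
    · rw [if_neg h]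
      exact DirichletCharacter.norm_le_one χ _
  refine LSeries_eq_mul_integral (tl χ N) le_rfl (by linarith) hS ?_
  refine Asymptotics.IsBigO.of_bound q (Eventually.of_forall fun n => ?_)
  rw [Real.rpow_zero, norm_one, mul_one]
  exact tl_sum hχ N n

private theorem tl_split {q : ℕ} [NeZero q] (χ : DirichletCharacter ℂ q) (N : ℕ)
    {w : ℂ} (hw : 1 < w.re) :
    LFunction χ w = ∑ n ∈ Finset.Icc 1 N, LSeries.term (fun n => χ (n : ZMod q)) w n +
      LSeries (tl χ N) w := by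
  have hb : ∀ n : ℕ, ‖χ (n : ZMod q)‖ ≤ 1 := fun n => DirichletCharacter.norm_le_one χ _
  have h1 : (fun n : ℕ => χ (n : ZMod q)) =
      (fun n : ℕ => if n ≤ N then χ (n : ZMod q) else 0) + tl χ N := by
    funext n
    rw [Pi.add_apply]
    unfold tl
    by_cases h : n ≤ N
    · rw [if_pos h, if_pos h, add_zero]
    · rw [if_neg h, if_neg h, zero_add]
  have hS : LSeriesSummable (tl χ N) w := by
    refine LSeriesSummable_of_bounded_of_one_lt_re (m := 1) ?_ hw
    intro n _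
    unfold tl
    by_cases h : n ≤ N
    · rw [if_pos h, norm_zero]
      exact zero_le_one
    · rw [if_neg h]
      exact hb n
  have hS' : LSeriesSummable (fun n : ℕ => if n ≤ N then χ (n : ZMod q) else 0) w := by
    refine LSeriesSummable_of_bounded_of_one_lt_re (m := 1) ?_ hw
    intro n _
    show ‖if n ≤ N then χ (n : ZMod q) else 0‖ ≤ 1
    by_cases h : n ≤ N
    · rw [if_pos h]
      exact hb n
    · rw [if_neg h, norm_zero]
      exact zero_le_one
  rw [LFunction_eq_LSeries χ hw, h1, LSeries_add hS' hS]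
  congr 1
  unfold LSeries
  rw [tsum_eq_sum (s := Finset.Icc 1 N)]
  · apply Finset.sum_congr rfl
    intro n hn
    have h2 := Finset.mem_Icc.1 hn
    rw [LSeries.term_of_ne_zero (by omega), LSeries.term_of_ne_zero (by omega), if_pos h2.2,
      Pi.add_apply, if_pos h2.2]
    unfold tl
    rw [if_pos h2.2, add_zero]
  · intro n hn
    rcases Nat.eq_zero_or_pos n with h | h
    · rw [h, LSeries.term_zero]
    · have h3 : ¬ n ≤ N := by
        intro h4
        exact hn (Finset.mem_Icc.2 ⟨h, h4⟩)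
      rw [LSeries.term_of_ne_zero (by omega), if_neg h3, zero_div]

/-- the continuation of the tail -/
private noncomputable def GG {q : ℕ} (χ : DirichletCharacter ℂ q) (N : ℕ) (w : ℂ) : ℂ :=
  w * mellin (BB χ N) (-w)

private theorem GG_eq {q : ℕ} [NeZero q] {χ : DirichletCharacter ℂ q} (hχ : χ ≠ 1) {N : ℕ}
    (hN : 1 ≤ N) {w : ℂ} (hw : 1 < w.re) : LSeries (tl χ N) w = GG χ N w := by
  rw [tl_LSeries hχ N hw]
  unfold GG mellin
  congr 1
  symm
  rw [setIntegral_eq_of_subset_of_forall_sdiff_eq_zero measurableSet_Ioi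
    (Set.Ioi_subset_Ioi zero_le_one : Set.Ioi (1 : ℝ) ⊆ Set.Ioi 0)]
  · apply setIntegral_congr_fun measurableSet_Ioi
    intro t _
    show (t : ℂ) ^ (-w - 1) • BB χ N t = BB χ N t * (t : ℂ) ^ (-(w + 1))
    rw [smul_eq_mul, mul_comm]
    congr 2
    ring
  · intro t ht
    have h1 : t ≤ 1 := not_lt.1 ht.2
    have h2 : (1 : ℝ) ≤ N := by exact_mod_cast hN
    rw [BB_zero χ N (by linarith), smul_zero]

private theorem GG_diff {q : ℕ} [NeZero q] {χ : DirichletCharacter ℂ q} (hχ : χ ≠ 1) (N : ℕ)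
    {w : ℂ} (hw : 0 < w.re) : DifferentiableAt ℂ (GG χ N) w := by
  unfold GG
  refine differentiableAt_id.mul ?_
  have h1 : DifferentiableAt ℂ (mellin (BB χ N)) (-w) := by
    refine mellin_differentiableAt_of_isBigO_rpow (a := 0) (b := -w.re - 1) ?_ ?_ ?_ ?_ ?_
    · have h2 := locallyIntegrableOn_mul_sum_Icc (tl χ N) (m := 1) (le_refl (0 : ℝ))
        (g := fun _ => (1 : ℂ)) ((locallyIntegrable_const (1 : ℂ)).locallyIntegrableOn _)
      simp only [one_mul] at h2
      exact h2.mono_set Set.Ioi_subset_Ici_self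
    · refine Asymptotics.IsBigO.of_bound q (Eventually.of_forall fun t => ?_)
      rw [neg_zero, Real.rpow_zero, norm_one, mul_one]
      exact BB_le hχ N t
    · rw [Complex.neg_re]
      linarith
    · refine Asymptotics.IsBigO.of_bound 1 ?_
      have h3 : Set.Ioo (0 : ℝ) 1 ∈ 𝓝[>] (0 : ℝ) := Ioo_mem_nhdsGT one_pos
      filter_upwards [h3] with t ht
      have h4 : (0 : ℝ) ≤ N := Nat.cast_nonneg N
      rw [BB_zero χ N (by linarith [ht.2]), norm_zero]
      positivity
    · rw [Complex.neg_re]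
      linarith
  have h5 : DifferentiableAt ℂ (fun z : ℂ => -z) w := differentiableAt_id.neg
  exact DifferentiableAt.comp (g := mellin (BB χ N)) (f := fun z : ℂ => -z) w h1 h5

private theorem LF_eq {q : ℕ} [NeZero q] {χ : DirichletCharacter ℂ q} (hχ : χ ≠ 1) {N : ℕ}
    (hN : 1 ≤ N) {w : ℂ} (hw : 0 < w.re) :
    LFunction χ w = ∑ n ∈ Finset.Icc 1 N, LSeries.term (fun n => χ (n : ZMod q)) w n +
      GG χ N w := by
  have hU : IsOpen {w : ℂ | 0 < w.re} := isOpen_lt continuous_const Complex.continuous_re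
  have hconv : Convex ℝ {w : ℂ | 0 < w.re} := convex_halfSpace_re_gt 0
  have h1 : AnalyticOnNhd ℂ (LFunction χ) {w : ℂ | 0 < w.re} :=
    (differentiable_LFunction hχ).differentiableOn.analyticOnNhd hU
  have h2 : AnalyticOnNhd ℂ (fun w => ∑ n ∈ Finset.Icc 1 N,
      LSeries.term (fun n => χ (n : ZMod q)) w n + GG χ N w) {w : ℂ | 0 < w.re} := by
    refine DifferentiableOn.analyticOnNhd ?_ hU
    intro z hz
    refine DifferentiableAt.differentiableWithinAt ?_
    refine DifferentiableAt.add ?_ (GG_diff hχ N hz)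
    exact DifferentiableAt.fun_sum fun n _ =>
      (LSeries.hasDerivAt_term (fun n => χ (n : ZMod q)) n z).differentiableAt
  have h3 : (2 : ℂ) ∈ {w : ℂ | 0 < w.re} := by
    show 0 < (2 : ℂ).re
    norm_num
  have h4 : LFunction χ =ᶠ[𝓝 (2 : ℂ)] (fun w => ∑ n ∈ Finset.Icc 1 N,
      LSeries.term (fun n => χ (n : ZMod q)) w n + GG χ N w) := by
    have h5 : {w : ℂ | 1 < w.re} ∈ 𝓝 (2 : ℂ) :=
      (isOpen_lt continuous_const Complex.continuous_re).mem_nhds (by
        show 1 < (2 : ℂ).re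
        norm_num)
    filter_upwards [h5] with z hz
    rw [tl_split χ N hz, GG_eq hχ hN hz]
  exact h1.eqOn_of_preconnected_of_eventuallyEq h2 hconv.isPreconnected h3 h4 hw

private theorem GG_le {q : ℕ} [NeZero q] {χ : DirichletCharacter ℂ q} (hχ : χ ≠ 1) {N : ℕ}
    {Y : ℝ} (hY : 0 < Y) (hYN : Y < N + 1) {w : ℂ} (hw : 0 < w.re) :
    ‖GG χ N w‖ ≤ ‖w‖ * (q * (Y ^ (-w.re) / w.re)) := by
  unfold GG mellin
  rw [norm_mul]
  refine mul_le_mul_of_nonneg_left ?_ (norm_nonneg _)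
  have h1 : ∫ t : ℝ in Set.Ioi 0, (t : ℂ) ^ (-w - 1) • BB χ N t =
      ∫ t : ℝ in Set.Ioi Y, (t : ℂ) ^ (-w - 1) • BB χ N t := by
    refine setIntegral_eq_of_subset_of_forall_sdiff_eq_zero measurableSet_Ioi
      (Set.Ioi_subset_Ioi hY.le) ?_
    intro t ht
    have h2 : t ≤ Y := not_lt.1 ht.2
    rw [BB_zero χ N (by linarith), smul_zero]
  rw [h1]
  have ha : -w.re - 1 < -1 := by linarith
  have h2 : ∫ t : ℝ in Set.Ioi Y, (q : ℝ) * t ^ (-w.re - 1) = q * (Y ^ (-w.re) / w.re) := by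
    rw [integral_const_mul, integral_Ioi_rpow_of_lt ha hY]
    congr 1
    rw [show -w.re - 1 + 1 = -w.re by ring, neg_div_neg_eq]
  rw [← h2]
  refine norm_integral_le_of_norm_le ((integrableOn_Ioi_rpow_of_lt ha hY).const_mul _) ?_
  refine (ae_restrict_iff' measurableSet_Ioi).2 (Eventually.of_forall fun t ht => ?_)
  have ht0 : 0 < t := hY.trans ht
  rw [norm_smul, Complex.norm_cpow_eq_rpow_re_of_pos ht0, mul_comm]
  have h3 : (-w - 1).re = -w.re - 1 := by simp
  rw [h3]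
  exact mul_le_mul_of_nonneg_right (BB_le hχ N t) (Real.rpow_nonneg ht0.le _)

private theorem head_le {q : ℕ} (χ : DirichletCharacter ℂ q) {N : ℕ} {V : ℝ} (hV : 1 ≤ V)
    (hN : (N : ℝ) ≤ Real.exp (2 * V)) {w : ℂ} (hw : 1 - 1 / (4 * V) ≤ w.re) :
    ‖∑ n ∈ Finset.Icc 1 N, LSeries.term (fun n => χ (n : ZMod q)) w n‖ ≤
      Real.exp (1 / 2) * (1 + 2 * V) := by
  have hV0 : 0 < V := by linarith
  refine (norm_sum_le _ _).trans ?_
  have h1 : ∀ n ∈ Finset.Icc 1 N, ‖LSeries.term (fun n => χ (n : ZMod q)) w n‖ ≤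
      Real.exp (1 / 2) * ((n : ℝ))⁻¹ := by
    intro n hn
    have h2 := Finset.mem_Icc.1 hn
    have hn0 : (0 : ℝ) < n := by exact_mod_cast (by omega : 0 < n)
    have hn1 : (1 : ℝ) ≤ n := by exact_mod_cast h2.1
    rw [LSeries.term_of_ne_zero (by omega), norm_div]
    have h3 : ‖(n : ℂ) ^ w‖ = (n : ℝ) ^ w.re := by
      have := Complex.norm_cpow_eq_rpow_re_of_pos hn0 w
      rwa [Complex.ofReal_natCast] at this
    rw [h3]
    have h4 : ‖χ (n : ZMod q)‖ ≤ 1 := DirichletCharacter.norm_le_one χ _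
    have h5 : (n : ℝ) ≤ Real.exp (1 / 2) * (n : ℝ) ^ w.re := by
      have h6 : (n : ℝ) ^ (1 / (4 * V)) ≤ Real.exp (1 / 2) := by
        calc (n : ℝ) ^ (1 / (4 * V)) ≤ (Real.exp (2 * V)) ^ (1 / (4 * V)) := by
              refine Real.rpow_le_rpow hn0.le ?_ (by positivity)
              exact le_trans (by exact_mod_cast h2.2) hN
          _ = Real.exp (1 / 2) := by
              rw [← Real.exp_mul]
              congr 1
              field_simp
              norm_num
      have h7 : (n : ℝ) ^ (1 - 1 / (4 * V)) ≤ (n : ℝ) ^ w.re :=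
        Real.rpow_le_rpow_of_exponent_le hn1 hw
      calc (n : ℝ) = (n : ℝ) ^ (1 / (4 * V)) * (n : ℝ) ^ (1 - 1 / (4 * V)) := by
            rw [← Real.rpow_add hn0, add_sub_cancel, Real.rpow_one]
        _ ≤ Real.exp (1 / 2) * (n : ℝ) ^ w.re :=
            mul_le_mul h6 h7 (Real.rpow_nonneg hn0.le _) (Real.exp_pos _).le
    have h8 : 0 < (n : ℝ) ^ w.re := Real.rpow_pos_of_pos hn0 _
    rw [div_le_iff₀ h8]
    have h9 : 1 ≤ Real.exp (1 / 2) * (n : ℝ)⁻¹ * (n : ℝ) ^ w.re := by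
      have h10 : Real.exp (1 / 2) * (n : ℝ)⁻¹ * (n : ℝ) ^ w.re =
          (Real.exp (1 / 2) * (n : ℝ) ^ w.re) / n := by
        field_simp
      rw [h10, le_div_iff₀ hn0, one_mul]
      exact h5
    exact h4.trans h9
  refine (Finset.sum_le_sum h1).trans ?_
  rw [← Finset.mul_sum]
  refine mul_le_mul_of_nonneg_left ?_ (Real.exp_pos _).le
  have h11 := harmonic_le_one_add_log N
  rw [harmonic_eq_sum_Icc] at h11
  push_cast at h11
  refine h11.trans ?_
  rcases Nat.eq_zero_or_pos N with h | h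
  · rw [h, Nat.cast_zero, Real.log_zero]
    linarith
  · have h12 : Real.log N ≤ 2 * V := by
      rw [Real.log_le_iff_le_exp (by exact_mod_cast h)]
      exact hN
    linarith

private theorem exp_half_le : Real.exp (1 / 2) ≤ 2 := by
  have h1 := Real.exp_one_lt_d9
  have h2 : Real.exp (1 / 2) * Real.exp (1 / 2) = Real.exp 1 := by
    rw [← Real.exp_add]
    norm_num
  have h3 := Real.exp_pos (1 / 2)
  nlinarith

private theorem LF_le {q : ℕ} [NeZero q] {χ : DirichletCharacter ℂ q} (hχ : χ ≠ 1) {V : ℝ}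
    (hV : 1 ≤ V) {w : ℂ} (hw : 1 - 1 / (4 * V) ≤ w.re)
    (hq : (q : ℝ) * ‖w‖ ≤ Real.exp V) : ‖LFunction χ w‖ ≤ 8 * V := by
  have hV0 : 0 < V := by linarith
  have h4V : 1 / (4 * V) ≤ 1 / 4 := by
    rw [div_le_div_iff₀ (by positivity) (by norm_num)]
    linarith
  have hw34 : 3 / 4 ≤ w.re := by linarith
  have hw0 : 0 < w.re := by linarith
  have hY1 : 1 ≤ Real.exp (2 * V) := Real.one_le_exp (by positivity)
  have hN : 1 ≤ ⌊Real.exp (2 * V)⌋₊ := (Nat.one_le_floor_iff _).2 hY1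
  rw [LF_eq hχ hN hw0]
  refine (norm_add_le _ _).trans ?_
  have h1 := head_le χ hV (Nat.floor_le (Real.exp_pos (2 * V)).le) hw
  have h2 := GG_le hχ (Real.exp_pos (2 * V)) (Nat.lt_floor_add_one (Real.exp (2 * V))) hw0
  have h3 : Real.exp (1 / 2) * (1 + 2 * V) ≤ 6 * V := by
    have := exp_half_le
    nlinarith
  have h4 : ‖w‖ * (q * (Real.exp (2 * V) ^ (-w.re) / w.re)) ≤ 2 * V := by
    have h5 : Real.exp (2 * V) ^ (-w.re) ≤ Real.exp (-V) := by
      rw [← Real.exp_mul]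
      apply Real.exp_le_exp.2
      nlinarith
    have h6 : Real.exp (2 * V) ^ (-w.re) / w.re ≤ Real.exp (-V) * (4 / 3) := by
      rw [div_le_iff₀ hw0]
      have h7 := Real.exp_pos (-V)
      nlinarith
    calc ‖w‖ * (q * (Real.exp (2 * V) ^ (-w.re) / w.re)) =
          (q * ‖w‖) * (Real.exp (2 * V) ^ (-w.re) / w.re) := by ring
      _ ≤ Real.exp V * (Real.exp (-V) * (4 / 3)) :=
          mul_le_mul hq h6 (by positivity) (Real.exp_pos _).le
      _ = 4 / 3 := by
          rw [← mul_assoc, ← Real.exp_add, add_neg_cancel, Real.exp_zero, one_mul]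
      _ ≤ 2 * V := by linarith
  linarith

theorem deriv_bound {q : ℕ} [NeZero q] {χ : DirichletCharacter ℂ q} (hχ : χ ≠ 1) {V : ℝ}
    (hV : 1 ≤ V) {s : ℂ} (h1 : 1 < s.re) (h2 : s.re ≤ 2)
    (hq : (q : ℝ) * (|s.im| + 3) ≤ Real.exp V) (j : ℕ) :
    ‖iteratedDeriv j (LFunction χ) s‖ ≤ j.factorial * (16 * V) ^ (j + 1) := by
  have hV0 : 0 < V := by linarith
  have hR : 0 < 1 / (4 * V) := by positivity
  have h4V : 1 / (4 * V) ≤ 1 / 4 := by
    rw [div_le_div_iff₀ (by positivity) (by norm_num)]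
    linarith
  have h3 := Complex.norm_iteratedDeriv_le_of_forall_mem_sphere_norm_le (c := s) j hR
    (differentiable_LFunction hχ).diffContOnCl (C := 8 * V) (by
      intro z hz
      have hz1 : ‖z - s‖ = 1 / (4 * V) := by rwa [mem_sphere_iff_norm] at hz
      have hre : |(z - s).re| ≤ 1 / (4 * V) := (Complex.abs_re_le_norm _).trans hz1.le
      rw [Complex.sub_re] at hre
      have hre' := abs_le.1 hre
      refine LF_le hχ hV (by linarith [hre'.1]) ?_
      refine le_trans (mul_le_mul_of_nonneg_left ?_ (Nat.cast_nonneg q)) hq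
      have h5 : ‖z‖ ≤ ‖s‖ + ‖z - s‖ := by
        have := norm_add_le s (z - s)
        rwa [add_sub_cancel] at this
      have h6 := Complex.norm_le_abs_re_add_abs_im s
      rw [abs_of_pos (by linarith : 0 < s.re)] at h6
      linarith)
  refine h3.trans ?_
  have h4 : (j.factorial : ℝ) * (8 * V) / (1 / (4 * V)) ^ j =
      j.factorial * (8 * V * (4 * V) ^ j) := by
    rw [one_div, inv_pow, div_inv_eq_mul]
    ring
  rw [h4]
  refine mul_le_mul_of_nonneg_left ?_ (Nat.cast_nonneg _)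
  rw [pow_succ, mul_comm]
  exact mul_le_mul (pow_le_pow_left₀ (by positivity) (by linarith) _) (by linarith)
    (by positivity) (by positivity)

end Pool.Agent.REC
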