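import Pool.Agent.REC.RhoS
import Pool.Agent.AT.Pt2
import Pool.Agent.AT.Pt3

/-! REC/Fin.  The two final statements.

PLAN.
* `patterns`: `ptR m` gives `c1`, `K`; `c = min c1 1`.  `f` tends to infinity (`f = (f/log) * log`), `f x ≤ √x` eventually
(`rho_sqrt`, `c ≤ 1`; `rho ≥ 0` eventually).  `pt2` and `pt3` with `G n = 2 √(pn n) dn n/f (pn n)`.
* `chain`: `f = c rho`, `β i = i/K` (`i : Fin K`), differences `≥ 1/K`; from `patterns`, eventually along the subsequence
`2 √p d/(c rho p) ≥ 1/(2K)`, so `dn ≥ c/(4K) rho(p)/√p`; the subsequence is strictly monotone, so the set of `n` is infinite. -/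

set_option autoImplicit false

namespace Pool.Agent.REC

open Filter Topology Pool.Agent.AT

theorem patterns (m : ℕ) : ∃ c : ℝ, 0 < c ∧ ∃ K : ℕ, 0 < K ∧ ∀ f : ℝ → ℝ,
    (∀ δ : ℝ, 0 < δ → ∀ᶠ x in atTop, ∀ y : ℝ, x ≤ y → y ≤ 2 * x → |f y - f x| ≤ δ * f x) →
    Tendsto (fun x => f x / Real.log x) atTop atTop → (∀ᶠ x in atTop, f x ≤ c * rho x) →
    ∀ β : Fin K → ℝ, StrictMono β → (∀ i, 0 ≤ β i ∧ β i ≤ 1) →
    ∃ i : Fin (m + 1) → Fin K, StrictMono i ∧ ∃ n : ℕ → ℕ, StrictMono n ∧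
      ∀ r : Fin m, Tendsto (fun t => 2 * √(pn (n t + r)) * dn (n t + r) / f (pn (n t + r))) atTop
        (𝓝 (β (i r.succ) - β (i r.castSucc))) := by
  obtain ⟨c1, hc1, K, hK, hpt⟩ := ptR m
  refine ⟨min c1 1, lt_min hc1 one_pos, K, hK, fun f hs hf hfr β hβ hβ01 => ?_⟩
  have hfr1 : ∀ᶠ x in atTop, f x ≤ c1 * rho x := by
    filter_upwards [hfr, rho_pos] with x h1 h2
    exact h1.trans (mul_le_mul_of_nonneg_right (min_le_left _ _) h2.le)
  have hsq : ∀ᶠ x in atTop, f x ≤ √x := by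
    filter_upwards [hfr, rho_pos, rho_sqrt] with x h1 h2 h3
    refine (h1.trans (mul_le_mul_of_nonneg_right (min_le_right _ _) h2.le)).trans ?_
    rw [one_mul]
    exact h3
  have htop : Tendsto f atTop atTop := by
    refine tendsto_atTop_mono' atTop ?_ Real.tendsto_log_atTop
    filter_upwards [hf.eventually_ge_atTop 1, eventually_gt_atTop (1 : ℝ)] with x h1 h2
    have h3 : 0 < Real.log x := Real.log_pos h2
    rwa [le_div_iff₀ h3, one_mul] at h1
  exact pt3 (fun n => 2 * √(pn n) * dn n / f (pn n)) β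
    (pt2 hs htop hsq (hpt f hf hfr1) β hβ hβ01)

theorem chain (m : ℕ) : ∃ c : ℝ, 0 < c ∧ ∀ N : ℕ, ∃ n : ℕ, N ≤ n ∧ ∀ r : ℕ, r < m →
    c * rho (pn (n + r)) / √(pn (n + r)) ≤ dn (n + r) := by
  obtain ⟨c, hc, K, hK, hp⟩ := patterns m
  have hK0 : (0 : ℝ) < K := by exact_mod_cast hK
  obtain ⟨i, hi, n, hn, hlim⟩ := hp (fun x => c * rho x) (rho_slow hc) (rho_log hc)
    (Eventually.of_forall fun x => le_refl _) (fun j => (j : ℝ) / K)
    (fun a b hab => by
      show (a : ℝ) / K < (b : ℝ) / K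
      have : (a : ℝ) < (b : ℝ) := by exact_mod_cast hab
      gcongr)
    (fun j => ⟨by positivity, by
      show (j : ℝ) / K ≤ 1
      rw [div_le_one hK0]
      exact_mod_cast j.2.le⟩)
  refine ⟨c / (4 * K), by positivity, fun N => ?_⟩
  have hgap : ∀ r : Fin m, 1 / (K : ℝ) ≤ ((i r.succ : Fin K) : ℝ) / K - ((i r.castSucc : Fin K) : ℝ) / K := by
    intro r
    have h1 : i r.castSucc < i r.succ := hi (Fin.castSucc_lt_succ (i := r))
    have h2 : ((i r.castSucc : Fin K) : ℝ) + 1 ≤ ((i r.succ : Fin K) : ℝ) := by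
      exact_mod_cast h1
    rw [← sub_div]
    gcongr
    linarith
  have hev : ∀ r : Fin m, ∀ᶠ t in atTop,
      1 / (2 * K : ℝ) ≤ 2 * √(pn (n t + r)) * dn (n t + r) / (c * rho (pn (n t + r))) := by
    intro r
    have h1 := (hlim r).eventually_const_lt (u := 1 / (2 * K : ℝ)) (by
      refine lt_of_lt_of_le ?_ (hgap r)
      rw [div_lt_div_iff₀ (by positivity) hK0]
      linarith)
    exact h1.mono fun t ht => ht.le
  have hpnt : Tendsto (fun k : ℕ => pn k) atTop atTop := by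
    refine tendsto_natCast_atTop_atTop.comp ?_
    exact (Nat.nth_strictMono Nat.infinite_setOfPred_prime).tendsto_atTop
  have hpos : ∀ r : Fin m, ∀ᶠ t in atTop, 0 < rho (pn (n t + r)) := by
    intro r
    have h1 : Tendsto (fun t => pn (n t + r)) atTop atTop :=
      hpnt.comp (tendsto_atTop_mono (fun t => Nat.le_add_right _ _) hn.tendsto_atTop)
    exact h1.eventually rho_pos
  obtain ⟨t, ht1, ht2, ht3⟩ := ((eventually_all.2 hev).and ((eventually_all.2 hpos).and
    (hn.tendsto_atTop.eventually_ge_atTop N))).exists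
  refine ⟨n t, ht3, fun r hr => ?_⟩
  have h1 := ht1 ⟨r, hr⟩
  have h2 := ht2 ⟨r, hr⟩
  simp only at h1 h2
  have hp0 : 0 < pn (n t + r) := by
    have : 0 < Nat.nth Nat.Prime (n t + r) := (Nat.prime_nth_prime _).pos
    unfold pn
    exact_mod_cast this
  have hs0 : 0 < √(pn (n t + r)) := Real.sqrt_pos.2 hp0
  rw [div_le_div_iff₀ (by positivity) (by positivity)] at h1
  rw [div_le_iff₀ hs0, div_mul_eq_mul_div, div_le_iff₀ (by positivity)]
  nlinarith
 
end Pool.Agent.REC
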