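import Mathlib

/-! REC/Ker.  The kernel of the Riesz mean of order one: Fourier inversion for
`u ↦ max u 0 * exp (-u)`. -/

set_option autoImplicit false

namespace Pool.Agent.REC

open Complex MeasureTheory

open scoped FourierTransform

private noncomputable def kf (u : ℝ) : ℂ := ((max u 0 * Real.exp (-u) : ℝ) : ℂ)

private theorem kf_cont : Continuous kf := by
  unfold kf
  fun_prop

private theorem kf_of_le {u : ℝ} (hu : u ≤ 0) : kf u = 0 := by
  rw [kf, max_eq_right hu, zero_mul, ofReal_zero]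

private theorem kf_int : Integrable kf := by
  have h1 : IntegrableOn kf (Set.Ioi 0) := by
    have h2 := (Real.GammaIntegral_convergent (s := 2) (by norm_num)).ofReal (𝕜 := ℂ)
    refine h2.congr ?_
    filter_upwards [ae_restrict_mem measurableSet_Ioi] with x hx
    have hx0 : (0 : ℝ) ≤ x := (Set.mem_Ioi.1 hx).le
    rw [kf, max_eq_left hx0, mul_comm, show (2 : ℝ) - 1 = 1 by norm_num, Real.rpow_one]
    simp
  refine (integrableOn_iff_integrable_of_support_subset ?_).1 h1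
  intro x hx
  rw [Function.mem_support] at hx
  by_contra h
  exact hx (kf_of_le (not_lt.1 h))

private theorem kf_fourier (w : ℝ) : 𝓕 kf w = 1 / (1 + I * ((2 * Real.pi * w : ℝ) : ℂ)) ^ 2 := by
  obtain ⟨a, ha⟩ : ∃ a : ℂ, a = -(1 + I * ((2 * Real.pi * w : ℝ) : ℂ)) := ⟨_, rfl⟩
  have har : a.re = -1 := by
    rw [ha]
    simp
  have ha0 : a ≠ 0 := by
    intro h
    rw [h] at har
    simp at har
  have h1 : (1 : ℂ) / (1 + I * ((2 * Real.pi * w : ℝ) : ℂ)) ^ 2 = 1 / a ^ 2 := by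
    rw [ha, neg_sq]
  rw [h1, Real.fourier_real_eq_integral_exp_smul]
  have h2 : ∀ v : ℝ, v ∉ Set.Ioi (0 : ℝ) →
      Complex.exp (((-2 * Real.pi * v * w : ℝ) : ℂ) * I) • kf v = 0 := by
    intro v hv
    rw [kf_of_le (not_lt.1 hv), smul_zero]
  rw [← setIntegral_eq_integral_of_forall_compl_eq_zero h2]
  have h3 : ∀ v ∈ Set.Ioi (0 : ℝ), Complex.exp (((-2 * Real.pi * v * w : ℝ) : ℂ) * I) • kf v =
      (v : ℂ) * Complex.exp (a * v) := by
    intro v hv
    rw [kf, max_eq_left (Set.mem_Ioi.1 hv).le, smul_eq_mul, ofReal_mul v, ofReal_exp, mul_left_comm,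
      ← Complex.exp_add]
    congr 2
    rw [ha]
    push_cast
    ring
  rw [setIntegral_congr_fun measurableSet_Ioi h3]
  have h4 : ∀ x ∈ Set.Ici (0 : ℝ), HasDerivAt
      (fun v : ℝ => ((v : ℂ) / a - 1 / a ^ 2) * Complex.exp (a * v))
      ((x : ℂ) * Complex.exp (a * x)) x := by
    intro x _
    have e1 : HasDerivAt (fun v : ℝ => (v : ℂ)) 1 x := Complex.ofRealCLM.hasDerivAt
    have e2 := (e1.div_const a).sub_const (1 / a ^ 2)
    have e3 := (e1.const_mul a).cexp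
    have e4 := e2.mul e3
    refine e4.congr_deriv ?_
    field_simp
    ring
  have h5 : IntegrableOn (fun v : ℝ => (v : ℂ) * Complex.exp (a * v)) (Set.Ioi 0) := by
    have e1 : IntegrableOn (fun v : ℝ => Complex.exp (((-2 * Real.pi * v * w : ℝ) : ℂ) * I) • kf v)
        (Set.Ioi 0) := by
      refine Integrable.integrableOn ?_
      refine kf_int.bdd_mul (c := 1) (by fun_prop) (Filter.Eventually.of_forall fun v => ?_)
      rw [Complex.norm_exp_ofReal_mul_I]
    exact e1.congr_fun h3 measurableSet_Ioi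
  have h6 : Filter.Tendsto (fun v : ℝ => ((v : ℂ) / a - 1 / a ^ 2) * Complex.exp (a * v))
      Filter.atTop (nhds 0) := by
    have e1 : ∀ v : ℝ, ‖Complex.exp (a * v)‖ = Real.exp (-v) := by
      intro v
      rw [Complex.norm_exp]
      congr 1
      simp [har]
    have e2 := Real.tendsto_pow_mul_exp_neg_atTop_nhds_zero 1
    have e3 := Real.tendsto_pow_mul_exp_neg_atTop_nhds_zero 0
    have e4 : Filter.Tendsto (fun v : ℝ => (v : ℂ) * Complex.exp (a * v)) Filter.atTop (nhds 0) := by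
      rw [tendsto_zero_iff_norm_tendsto_zero]
      refine (e2.congr' ?_)
      filter_upwards [Filter.eventually_ge_atTop 0] with v hv
      rw [norm_mul, e1, Complex.norm_real, Real.norm_eq_abs, abs_of_nonneg hv, pow_one]
    have e5 : Filter.Tendsto (fun v : ℝ => Complex.exp (a * v)) Filter.atTop (nhds 0) := by
      rw [tendsto_zero_iff_norm_tendsto_zero]
      refine (e3.congr ?_)
      intro v
      rw [e1, pow_zero, one_mul]
    have e6 := (e4.const_mul (1 / a)).sub (e5.const_mul (1 / a ^ 2))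
    rw [mul_zero, mul_zero, sub_zero] at e6
    refine e6.congr fun v => ?_
    ring
  rw [integral_Ioi_of_hasDerivAt_of_tendsto' h4 h5 h6]
  simp

private theorem ksq (t : ℝ) : ‖(1 + I * t : ℂ) ^ 2‖ = 1 + t ^ 2 := by
  rw [norm_pow, ← Complex.normSq_eq_norm_sq, Complex.normSq_apply]
  simp
  ring

private theorem kne (t : ℝ) : (1 + I * t : ℂ) ≠ 0 := by
  intro h
  have h1 := ksq t
  rw [h] at h1
  have h2 := sq_nonneg t
  simp at h1
  linarith

private theorem kinv_int : Integrable (fun t : ℝ => (1 : ℂ) / (1 + I * t) ^ 2) := by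
  refine integrable_inv_one_add_sq.mono' ?_ (Filter.Eventually.of_forall fun t => ?_)
  · have h : Continuous (fun t : ℝ => (1 : ℂ) / (1 + I * t) ^ 2) := by
      refine Continuous.div (by fun_prop) (by fun_prop) fun t => pow_ne_zero 2 (kne t)
    exact h.aestronglyMeasurable
  · rw [norm_div, ksq, norm_one, one_div]

theorem ker (u : ℝ) :
    ∫ t : ℝ, Complex.exp (I * ((u * t : ℝ) : ℂ)) / (1 + I * t) ^ 2 =
      ((2 * Real.pi * (max u 0 * Real.exp (-u)) : ℝ) : ℂ) := by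
  have hpi : (0 : ℝ) < 2 * Real.pi := by positivity
  have h1 : 𝓕 kf = fun w : ℝ => (1 : ℂ) / (1 + I * ((2 * Real.pi * w : ℝ) : ℂ)) ^ 2 :=
    funext kf_fourier
  have h2 : Integrable (𝓕 kf) := by
    rw [h1]
    exact kinv_int.comp_mul_left' hpi.ne'
  have h3 := congrFun (kf_cont.fourierInv_fourier_eq kf_int h2) u
  rw [Real.fourierInv_eq', h1] at h3
  have h4 := Measure.integral_comp_mul_left
    (fun t : ℝ => Complex.exp (I * ((u * t : ℝ) : ℂ)) / (1 + I * t) ^ 2) (2 * Real.pi)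
  have h5 : (∫ v : ℝ, Complex.exp (((2 * Real.pi * inner ℝ v u : ℝ) : ℂ) * I) •
      ((1 : ℂ) / (1 + I * ((2 * Real.pi * v : ℝ) : ℂ)) ^ 2)) =
      ∫ v : ℝ, Complex.exp (I * ((u * (2 * Real.pi * v) : ℝ) : ℂ)) /
        (1 + I * ((2 * Real.pi * v : ℝ) : ℂ)) ^ 2 := by
    refine integral_congr_ae (Filter.Eventually.of_forall fun v => ?_)
    simp only [smul_eq_mul, mul_one_div]
    congr 2
    rw [mul_comm]
    congr 2
    have e : (inner ℝ v u : ℝ) = u * v := by simp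
    rw [e]
    ring
  rw [h5, h4, abs_of_pos (inv_pos.2 hpi)] at h3
  have h6 : ((2 * Real.pi : ℝ) : ℂ) ≠ 0 := by
    rw [ne_eq, ofReal_eq_zero]
    exact hpi.ne'
  rw [Complex.real_smul, ofReal_inv, inv_mul_eq_iff_eq_mul₀ h6] at h3
  rw [h3, kf, ← ofReal_mul]

theorem ker_norm (t : ℝ) : ‖(1 : ℂ) / (1 + I * t) ^ 2‖ = 1 / (1 + t ^ 2) := by
  rw [norm_div, ksq, norm_one]

theorem ker_integral_le {T A B : ℝ} (hT : 1 ≤ T) (hA : 0 ≤ A) (hB : 0 ≤ B) {F : ℝ → ℂ}
    (hF : Continuous F) (h1 : ∀ t, |t| ≤ T → ‖F t‖ ≤ A) (h2 : ∀ t, ‖F t‖ ≤ B) :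
    ‖∫ t : ℝ, F t * (1 / (1 + I * t) ^ 2)‖ ≤ 2 * Real.pi * (A + B / T) := by
  have hT0 : 0 < T := lt_of_lt_of_le one_pos hT
  have hi1 := integrable_inv_one_add_sq.const_mul A
  have hi2 := (integrable_inv_one_add_sq.comp_mul_left' (inv_ne_zero hT0.ne')).const_mul
    (2 * B / T ^ 2)
  have h3 : ∀ t : ℝ, ‖F t * (1 / (1 + I * t) ^ 2)‖ ≤
      A * (1 + t ^ 2)⁻¹ + 2 * B / T ^ 2 * (1 + (T⁻¹ * t) ^ 2)⁻¹ := by
    intro t
    have e0 : 0 < 1 + t ^ 2 := by positivity
    have e1 : 0 < T ^ 2 + t ^ 2 := by positivity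
    have e2 : 2 * B / T ^ 2 * (1 + (T⁻¹ * t) ^ 2)⁻¹ = 2 * B / (T ^ 2 + t ^ 2) := by
      field_simp
    rw [e2, norm_mul, norm_div, ksq, norm_one, ← div_eq_mul_inv, mul_one_div]
    rcases le_or_gt |t| T with h | h
    · have e3 : ‖F t‖ / (1 + t ^ 2) ≤ A / (1 + t ^ 2) :=
        div_le_div_of_nonneg_right (h1 t h) e0.le
      have e4 : 0 ≤ 2 * B / (T ^ 2 + t ^ 2) := by positivity
      linarith
    · have e3 : T ^ 2 ≤ t ^ 2 := by
        rw [← sq_abs t]
        exact pow_le_pow_left₀ hT0.le h.le 2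
      have e4 : ‖F t‖ / (1 + t ^ 2) ≤ B / (1 + t ^ 2) :=
        div_le_div_of_nonneg_right (h2 t) e0.le
      have e5 : B / (1 + t ^ 2) ≤ 2 * B / (T ^ 2 + t ^ 2) := by
        rw [div_le_div_iff₀ e0 e1]
        nlinarith
      have e6 : 0 ≤ A / (1 + t ^ 2) := by positivity
      linarith
  refine (norm_integral_le_of_norm_le (g := fun t : ℝ => A * (1 + t ^ 2)⁻¹ +
    2 * B / T ^ 2 * (1 + (T⁻¹ * t) ^ 2)⁻¹) (hi1.add hi2) (Filter.Eventually.of_forall h3)).trans ?_
  have h4 : ∫ t : ℝ, (A * (1 + t ^ 2)⁻¹ + 2 * B / T ^ 2 * (1 + (T⁻¹ * t) ^ 2)⁻¹) =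
      A * Real.pi + 2 * B / T ^ 2 * (T * Real.pi) := by
    rw [integral_add hi1 hi2, integral_const_mul, integral_const_mul,
      integral_univ_inv_one_add_sq,
      Measure.integral_comp_inv_mul_left (fun t : ℝ => (1 + t ^ 2)⁻¹) T,
      integral_univ_inv_one_add_sq, abs_of_pos hT0, smul_eq_mul]
  rw [h4]
  have h5 : 2 * B / T ^ 2 * (T * Real.pi) = 2 * Real.pi * (B / T) := by
    field_simp
  rw [h5]
  have h6 : 0 ≤ A * Real.pi := by positivity
  nlinarith

end Pool.Agent.REC
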