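import Mathlib

/-! REC/Triv.  Elementary bounds: the principal character, and the trivial lower bound.

PLAN.
* `triv_real`: `LFunctionTrivChar q (1+x) = LSeries (1 : DirichletCharacter) (1+x)` (`LFunction_eq_LSeries`), norm
  `≤ ∑' n^(-(1+x)) ≤ 1 + 1/x ≤ 2/x` (compare with the integral; or `riemannZeta` bounds of Mathlib if available).
* `triv_bound`: with `s = 1 + x + I t`, `Y = exp (2V)`: `n ≤ Y`: `∑ 1/n ≤ 1 + 2V ≤ 3V`.  `n > Y`: let
  `c n = [n coprime to q] - φ(q)/q`; its sum over any interval has absolute value `≤ q` (periodic, mean zero), so summation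
  by parts gives `‖∑_{n>Y} c n n^(-s)‖ ≤ q (Y^(-1) + ∑_{n>Y} ‖(n+1)^(-s) - n^(-s)‖) ≤ q (1 + 2 |s|) 2/Y ≤ 5`, and
  `∑_{Y<n≤N} n^(-s) = ∫_Y^N u^(-s) du + O(1 + |s|/Y)`, `‖∫_Y^∞ u^(-s) du‖ = Y^(-x)/|s-1| ≤ 1/|t|`.
* `low_triv`: `LSeries.mul_mu_eq_one`: `L(χ,s) L(χμ,s) = 1` and `‖L(χμ,s)‖ ≤ ∑' n^(-(1+x)) ≤ 2/x`. -/

set_option autoImplicit false

namespace Pool.Agent.REC

open DirichletCharacter Complex

theorem zeta_sum_le {x : ℝ} (hx : 0 < x) (hx1 : x ≤ 1) :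
    Summable (fun n : ℕ => ((n : ℝ) ^ (1 + x))⁻¹) ∧ ∑' n : ℕ, ((n : ℝ) ^ (1 + x))⁻¹ ≤ 2 / x := by
  have hs : Summable (fun n : ℕ => ((n : ℝ) ^ (1 + x))⁻¹) :=
    Real.summable_nat_rpow_inv.2 (by linarith)
  refine ⟨hs, ?_⟩
  rw [hs.tsum_eq_zero_add]
  have h0 : (((0 : ℕ) : ℝ) ^ (1 + x))⁻¹ = 0 := by
    rw [Nat.cast_zero, Real.zero_rpow (by linarith), inv_zero]
  have h1 : (∑' n : ℕ, (((n + 1 : ℕ) : ℝ) ^ (1 + x))⁻¹) =
      ∑' n : ℕ, 1 / (n + 1 : ℝ) ^ (1 + x) := by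
    refine tsum_congr fun n => ?_
    rw [one_div, Nat.cast_add, Nat.cast_one]
  have h2 := ZetaAsymptotics.zeta_limit_aux1 (s := 1 + x) (by linarith)
  have h3 : 0 ≤ ZetaAsymptotics.termTSum (1 + x) :=
    tsum_nonneg fun n => ZetaAsymptotics.term_nonneg (n + 1) (1 + x)
  have h4 : 0 ≤ (1 + x) * ZetaAsymptotics.termTSum (1 + x) := mul_nonneg (by linarith) h3
  have h5 : 1 / (1 + x - 1) = 1 / x := by rw [add_sub_cancel_left]
  rw [h5] at h2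
  have h6 : 1 ≤ 1 / x := by rw [le_div_iff₀ hx]; linarith
  have h7 : 2 / x = 1 / x + 1 / x := by ring
  rw [h0, h1, h7]
  linarith

private theorem triv_aux {f : ℕ → ℂ} (hf : ∀ n, ‖f n‖ ≤ 1) {x : ℝ} (hx : 0 < x) (hx1 : x ≤ 1)
    {s : ℂ} (hs : s.re = 1 + x) : ‖LSeries f s‖ ≤ 2 / x := by
  obtain ⟨h1, h2⟩ := zeta_sum_le hx hx1
  refine (tsum_of_norm_bounded h1.hasSum fun n => ?_).trans h2
  rcases Nat.eq_zero_or_pos n with rfl | hn
  · rw [LSeries.term_zero, norm_zero]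
    exact inv_nonneg.2 (Real.rpow_nonneg (Nat.cast_nonneg _) _)
  · rw [LSeries.term_of_ne_zero hn.ne', norm_div, Complex.norm_natCast_cpow_of_pos hn, hs,
      div_eq_mul_inv]
    exact mul_le_of_le_one_left (inv_nonneg.2 (Real.rpow_nonneg (Nat.cast_nonneg _) _)) (hf n)

theorem triv_real (q : ℕ) [NeZero q] {x : ℝ} (hx : 0 < x) (hx1 : x ≤ 1) :
    ‖LFunctionTrivChar q (1 + x)‖ ≤ 2 / x := by
  have hre : ((1 : ℂ) + (x : ℂ)).re = 1 + x := by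
    rw [Complex.add_re, Complex.one_re, Complex.ofReal_re]
  unfold LFunctionTrivChar
  rw [LFunction_eq_LSeries _ (by rw [hre]; linarith)]
  exact triv_aux (fun n => DirichletCharacter.norm_le_one _ _) hx hx1 hre

theorem low_triv {q : ℕ} [NeZero q] (χ : DirichletCharacter ℂ q) {x : ℝ} (hx : 0 < x) (hx1 : x ≤ 1)
    (t : ℝ) : x / 2 ≤ ‖LFunction χ (1 + x + I * t)‖ := by
  have hre : ((1 : ℂ) + (x : ℂ) + I * (t : ℂ)).re = 1 + x := by
    simp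
  have h1 : 1 < ((1 : ℂ) + (x : ℂ) + I * (t : ℂ)).re := by rw [hre]; linarith
  have h2 := DirichletCharacter.LSeries.mul_mu_eq_one χ h1
  rw [LFunction_eq_LSeries _ h1]
  have h3 := congrArg norm h2
  rw [norm_mul, norm_one] at h3
  have h4 : ‖LSeries ((fun n : ℕ => χ n) * (fun n : ℕ => ((ArithmeticFunction.moebius n : ℤ) : ℂ)))
      (1 + x + I * t)‖ ≤ 2 / x := by
    refine triv_aux (fun n => ?_) hx hx1 hre
    rw [Pi.mul_apply, norm_mul]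
    have h5 : ‖((ArithmeticFunction.moebius n : ℤ) : ℂ)‖ ≤ 1 := by
      rw [Complex.norm_intCast]
      exact_mod_cast ArithmeticFunction.abs_moebius_le_one
    calc ‖χ n‖ * ‖((ArithmeticFunction.moebius n : ℤ) : ℂ)‖ ≤ 1 * 1 :=
          mul_le_mul (DirichletCharacter.norm_le_one _ _) h5 (norm_nonneg _) zero_le_one
      _ = 1 := one_mul 1
  have h5 : 0 ≤ ‖LSeries (fun n : ℕ => χ n) (1 + x + I * t)‖ := norm_nonneg _
  have h6 : 1 ≤ ‖LSeries (fun n : ℕ => χ n) (1 + x + I * t)‖ * (2 / x) := by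
    rw [← h3]
    exact mul_le_mul_of_nonneg_left h4 h5
  have h7 : ‖LSeries (fun n : ℕ => χ n) (1 + x + I * t)‖ * (2 / x) =
      ‖LSeries (fun n : ℕ => χ n) (1 + x + I * t)‖ * 2 / x := by ring
  rw [h7, le_div_iff₀ hx] at h6
  linarith

end Pool.Agent.REC
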