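import Mathlib

/-! REC/TrivB.  The principal character away from `s = 1`.

PLAN.  With `s = 1 + x + I t`, `Y = exp (2V)`: `n ≤ Y`: `∑ 1/n ≤ 1 + 2V ≤ 3V`.  `n > Y`: let
`c n = [n coprime to q] - φ(q)/q`; its sum over any interval has absolute value `≤ q` (periodic, mean zero), so summation
by parts gives `‖∑_{n>Y} c n n^(-s)‖ ≤ q (Y^(-1) + ∑_{n>Y} ‖(n+1)^(-s) - n^(-s)‖) ≤ q (1 + 2 |s|) 2/Y ≤ 5`, and
`∑_{Y<n≤N} n^(-s) = ∫_Y^N u^(-s) du + O(1 + |s|/Y)`, `‖∫_Y^∞ u^(-s) du‖ = Y^(-x)/|s-1| ≤ 1/|t|`.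
Alternative: `LFunctionTrivChar_eq_mul_riemannZeta` and a bound for `riemannZeta`; the finite product over `p ∣ q` has norm
`≤ ∏ (1 + 1/p) ≤ 1 + log q`, so a bound `‖ζ(s)‖ ≤ 2 V + 1/|t|`-type times `1 + log q ≤ 2V` is NOT enough for the stated
bound; use the direct route. -/

set_option autoImplicit false

namespace Pool.Agent.REC

open DirichletCharacter Complex

/-- difference of powers -/
private theorem cpow_sub_le {s : ℂ} (hs : 1 ≤ s.re) {a b u v : ℝ} (ha : 1 ≤ a)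
    (hu : u ∈ Set.Icc a b) (hv : v ∈ Set.Icc a b) :
    ‖((u : ℝ) : ℂ) ^ (-s) - ((v : ℝ) : ℂ) ^ (-s)‖ ≤ ‖s‖ * (a ^ 2)⁻¹ * (b - a) := by
  have hs0 : -s ≠ 0 := by
    intro h
    rw [neg_eq_zero] at h
    rw [h] at hs
    norm_num at hs
  have h1 : ∀ x ∈ Set.Icc a b, HasDerivWithinAt (fun y : ℝ => (y : ℂ) ^ (-s))
      (-s * (x : ℂ) ^ (-s - 1)) (Set.Icc a b) x := by
    intro x hx
    have hx0 : x ≠ 0 := by linarith [hx.1]
    exact (hasDerivAt_ofReal_cpow_const hx0 hs0).hasDerivWithinAt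
  have h2 : ∀ x ∈ Set.Icc a b, ‖-s * (x : ℂ) ^ (-s - 1)‖ ≤ ‖s‖ * (a ^ 2)⁻¹ := by
    intro x hx
    have hx1 : 1 ≤ x := ha.trans hx.1
    have hx0 : 0 < x := by linarith
    rw [norm_mul, norm_neg, norm_cpow_eq_rpow_re_of_pos hx0]
    refine mul_le_mul_of_nonneg_left ?_ (norm_nonneg _)
    have e : (-s - 1).re ≤ -2 := by
      simp only [sub_re, neg_re, one_re]
      linarith
    calc x ^ (-s - 1).re ≤ x ^ (-2 : ℝ) := Real.rpow_le_rpow_of_exponent_le hx1 e
      _ = (x ^ 2)⁻¹ := by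
          rw [Real.rpow_neg hx0.le]
          norm_num
      _ ≤ (a ^ 2)⁻¹ := by
          apply inv_anti₀ (by positivity)
          have := hx.1
          gcongr
  have h3 := Convex.norm_image_sub_le_of_norm_hasDerivWithin_le h1 h2 (convex_Icc a b) hv hu
  refine h3.trans (mul_le_mul_of_nonneg_left ?_ (by positivity))
  rw [Real.norm_eq_abs, abs_le]
  constructor <;> linarith [hu.1, hu.2, hv.1, hv.2]

/-- the primitive -/
private noncomputable def PP (s : ℂ) (u : ℝ) : ℂ := (u : ℂ) ^ (-s + 1) / (-s + 1)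

private theorem block_le {s : ℂ} (hs : 1 ≤ s.re) (hs1 : s ≠ 1) {a h v : ℝ} (ha : 1 ≤ a)
    (hh : 0 < h) (hv : v ∈ Set.Icc a (a + h)) :
    ‖(v : ℂ) ^ (-s) - (PP s (a + h) - PP s a) / h‖ ≤ ‖s‖ * (a ^ 2)⁻¹ * h := by
  have hr : -s ≠ -1 := by
    intro hh2
    exact hs1 (neg_injective hh2)
  have h1 : ∀ x ∈ Set.Icc a (a + h), HasDerivWithinAt
      (fun y : ℝ => PP s y - (y : ℂ) * (v : ℂ) ^ (-s))
      ((x : ℂ) ^ (-s) - (v : ℂ) ^ (-s)) (Set.Icc a (a + h)) x := by
    intro x hx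
    have hx0 : x ≠ 0 := by linarith [hx.1]
    have e1 : HasDerivAt (fun y : ℝ => PP s y) ((x : ℂ) ^ (-s)) x :=
      hasDerivAt_ofReal_cpow_const' hx0 hr
    have e2 : HasDerivAt (fun y : ℝ => (y : ℂ) * (v : ℂ) ^ (-s)) (1 * (v : ℂ) ^ (-s)) x :=
      (Complex.ofRealCLM.hasDerivAt (x := x)).mul_const _
    rw [one_mul] at e2
    exact (e1.sub e2).hasDerivWithinAt
  have h2 : ∀ x ∈ Set.Icc a (a + h), ‖(x : ℂ) ^ (-s) - (v : ℂ) ^ (-s)‖ ≤
      ‖s‖ * (a ^ 2)⁻¹ * h := by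
    intro x hx
    have := cpow_sub_le hs ha hx hv
    simpa using this
  have h3 := Convex.norm_image_sub_le_of_norm_hasDerivWithin_le h1 h2 (convex_Icc a (a + h))
    (Set.left_mem_Icc.2 (by linarith)) (Set.right_mem_Icc.2 (by linarith))
  have hh0 : (h : ℂ) ≠ 0 := by exact_mod_cast hh.ne'
  have e : (v : ℂ) ^ (-s) - (PP s (a + h) - PP s a) / h =
      -((PP s (a + h) - ((a + h : ℝ) : ℂ) * (v : ℂ) ^ (-s)) -
        (PP s a - (a : ℂ) * (v : ℂ) ^ (-s))) / h := by
    field_simp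
    push_cast
    ring
  rw [e, norm_div, norm_neg, Complex.norm_of_nonneg hh.le, div_le_iff₀ hh]
  refine h3.trans (le_of_eq ?_)
  rw [Real.norm_eq_abs, abs_of_pos (by linarith)]
  ring

private theorem PP_le {s : ℂ} (hs : 1 ≤ s.re) {t : ℝ} (ht : s.im = t) (ht0 : t ≠ 0) {u : ℝ}
    (hu : 1 ≤ u) : ‖PP s u‖ ≤ 1 / |t| := by
  unfold PP
  rw [norm_div, norm_cpow_eq_rpow_re_of_pos (by linarith)]
  have h1 : |t| ≤ ‖-s + 1‖ := by
    have h2 := Complex.abs_im_le_norm (-s + 1)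
    simp only [add_im, neg_im, one_im, add_zero, abs_neg, ht] at h2
    exact h2
  have h3 : 0 < |t| := abs_pos.2 ht0
  have h4 : u ^ (-s + 1).re ≤ 1 := by
    apply Real.rpow_le_one_of_one_le_of_nonpos hu
    simp only [add_re, neg_re, one_re]
    linarith
  exact div_le_div₀ zero_le_one h4 h3 h1

/-- one block -/
private theorem one_block (q : ℕ) [NeZero q] {s : ℂ} (hs : 1 ≤ s.re) (hs1 : s ≠ 1) {N : ℕ}
    (hN : 1 ≤ N) :
    ‖∑ r ∈ Finset.range q, LSeries.term (fun n => (1 : DirichletCharacter ℂ q) n) s (q * N + r) -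
      (∑ r ∈ Finset.range q, (1 : DirichletCharacter ℂ q) r) / q *
        (PP s (q * (N + 1 : ℕ)) - PP s (q * N))‖ ≤ ‖s‖ * ((N : ℝ) ^ 2)⁻¹ := by
  have hq : 0 < q := Nat.pos_of_ne_zero (NeZero.ne q)
  have hqR : (0 : ℝ) < q := by exact_mod_cast hq
  have hqC : (q : ℂ) ≠ 0 := by exact_mod_cast hq.ne'
  have hNR : (1 : ℝ) ≤ N := by exact_mod_cast hN
  have hq1 : (1 : ℝ) ≤ q := by exact_mod_cast hq
  have ha : (1 : ℝ) ≤ q * N := by nlinarith
  have e1 : ∀ r ∈ Finset.range q,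
      LSeries.term (fun n => (1 : DirichletCharacter ℂ q) n) s (q * N + r) =
      (1 : DirichletCharacter ℂ q) r * (((q * N + r : ℝ) : ℝ) : ℂ) ^ (-s) := by
    intro r _
    have h0 : q * N + r ≠ 0 := by
      have : 0 < q * N := Nat.mul_pos hq (by omega)
      omega
    rw [LSeries.term_of_ne_zero h0, Complex.cpow_neg, div_eq_mul_inv]
    congr 1
    · congr 1
      simp
    · push_cast
      rfl
  have e2 : ∑ r ∈ Finset.range q,
        LSeries.term (fun n => (1 : DirichletCharacter ℂ q) n) s (q * N + r) -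
      (∑ r ∈ Finset.range q, (1 : DirichletCharacter ℂ q) r) / q *
        (PP s (q * (N + 1 : ℕ)) - PP s (q * N)) =
      ∑ r ∈ Finset.range q, (1 : DirichletCharacter ℂ q) r *
        ((((q * N + r : ℝ) : ℝ) : ℂ) ^ (-s) -
          (PP s (q * N + q) - PP s (q * N)) / ((q : ℝ) : ℂ)) := by
    rw [Finset.sum_congr rfl e1, Finset.sum_div, Finset.sum_mul, ← Finset.sum_sub_distrib]
    refine Finset.sum_congr rfl fun r _ => ?_
    have e3 : (q : ℝ) * ((N + 1 : ℕ) : ℝ) = q * N + q := by push_cast; ring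
    rw [e3]
    push_cast
    ring
  rw [e2]
  refine (norm_sum_le _ _).trans ?_
  have h1 : ∀ r ∈ Finset.range q, ‖(1 : DirichletCharacter ℂ q) r *
        ((((q * N + r : ℝ) : ℝ) : ℂ) ^ (-s) -
          (PP s (q * N + q) - PP s (q * N)) / ((q : ℝ) : ℂ))‖ ≤
      ‖s‖ * (((q : ℝ) * N) ^ 2)⁻¹ * q := by
    intro r hr
    rw [Finset.mem_range] at hr
    rw [norm_mul]
    have h2 : ‖(1 : DirichletCharacter ℂ q) r‖ ≤ 1 := DirichletCharacter.norm_le_one _ _
    have h3 := block_le hs hs1 (a := q * N) (h := q) (v := q * N + r) ha hqR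
      ⟨by linarith [(Nat.cast_nonneg r : (0 : ℝ) ≤ r)],
        by
          have : (r : ℝ) ≤ q := by exact_mod_cast hr.le
          linarith⟩
    calc _ ≤ 1 * (‖s‖ * (((q : ℝ) * N) ^ 2)⁻¹ * q) :=
          mul_le_mul h2 h3 (norm_nonneg _) zero_le_one
      _ = _ := one_mul _
  refine (Finset.sum_le_sum h1).trans (le_of_eq ?_)
  rw [Finset.sum_const, Finset.card_range, nsmul_eq_mul]
  have hN0 : (N : ℝ) ≠ 0 := by positivity
  field_simp

private theorem head_le (q : ℕ) [NeZero q] {s : ℂ} (hs : 1 ≤ s.re) (K : ℕ) (hK : 1 ≤ K) :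
    ‖∑ n ∈ Finset.range K, LSeries.term (fun n => (1 : DirichletCharacter ℂ q) n) s n‖ ≤
      1 + Real.log K := by
  obtain ⟨K', rfl⟩ : ∃ K', K = K' + 1 := ⟨K - 1, by omega⟩
  refine (norm_sum_le _ _).trans ?_
  rw [Finset.sum_range_succ', LSeries.term_zero, norm_zero, add_zero]
  have h1 : ∀ i ∈ Finset.range K',
      ‖LSeries.term (fun n => (1 : DirichletCharacter ℂ q) n) s (i + 1)‖ ≤
        ((i : ℝ) + 1)⁻¹ := by
    intro i _
    rw [LSeries.norm_term_eq, if_neg (Nat.succ_ne_zero i)]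
    have h2 : ‖(1 : DirichletCharacter ℂ q) ((i + 1 : ℕ) : ZMod q)‖ ≤ 1 :=
      DirichletCharacter.norm_le_one _ _
    have h3 : ((i + 1 : ℕ) : ℝ) ≤ ((i + 1 : ℕ) : ℝ) ^ s.re := by
      have h4 : (1 : ℝ) ≤ ((i + 1 : ℕ) : ℝ) := by
        push_cast
        linarith [(Nat.cast_nonneg i : (0 : ℝ) ≤ i)]
      calc ((i + 1 : ℕ) : ℝ) = ((i + 1 : ℕ) : ℝ) ^ (1 : ℝ) := (Real.rpow_one _).symm
        _ ≤ _ := Real.rpow_le_rpow_of_exponent_le h4 hs
    have h5 : (0 : ℝ) < ((i + 1 : ℕ) : ℝ) := by positivity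
    calc _ ≤ 1 / ((i + 1 : ℕ) : ℝ) := div_le_div₀ zero_le_one h2 h5 h3
      _ = _ := by push_cast; rw [one_div]
  refine (Finset.sum_le_sum h1).trans ?_
  have h2 := harmonic_le_one_add_log K'
  have h3 : ((harmonic K' : ℚ) : ℝ) = ∑ i ∈ Finset.range K', ((i : ℝ) + 1)⁻¹ := by
    unfold harmonic
    push_cast
    rfl
  rw [← h3]
  refine h2.trans ?_
  rcases Nat.eq_zero_or_pos K' with h0 | h0
  · subst h0
    simp
  · have h4 : Real.log K' ≤ Real.log ((K' + 1 : ℕ) : ℝ) :=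
      Real.log_le_log (by exact_mod_cast h0) (by push_cast; linarith)
    linarith

theorem triv_bound (q : ℕ) [NeZero q] {V : ℝ} (hV : 1 ≤ V) {x t : ℝ} (hx : 0 < x) (hx1 : x ≤ 1)
    (ht : t ≠ 0) (hq : (q : ℝ) * (|t| + 3) ≤ Real.exp V) :
    ‖LFunctionTrivChar q (1 + x + I * t)‖ ≤ 16 * V + 2 / |t| := by
  set s : ℂ := 1 + x + I * t with hs
  have hre : s.re = 1 + x := by simp [hs]
  have him : s.im = t := by simp [hs]
  have hs1 : 1 < s.re := by rw [hre]; linarith
  have hsne : s ≠ 1 := by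
    intro h
    rw [h] at hs1
    simp at hs1
  have hsn : ‖s‖ ≤ |t| + 3 := by
    have h1 : ‖s‖ ≤ ‖(1 : ℂ)‖ + ‖(x : ℂ)‖ + ‖I * (t : ℂ)‖ := norm_add₃_le
    rw [norm_one, Complex.norm_of_nonneg hx.le, norm_mul, Complex.norm_I, one_mul,
      Complex.norm_real, Real.norm_eq_abs] at h1
    linarith
  have hqpos : 0 < q := Nat.pos_of_ne_zero (NeZero.ne q)
  have hq1 : (1 : ℝ) ≤ q := by exact_mod_cast hqpos
  have ht0 : 0 < |t| := abs_pos.2 ht
  set M : ℕ := ⌈Real.exp V⌉₊ with hM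
  have hMge : Real.exp V ≤ M := Nat.le_ceil _
  have hexp1 : 1 ≤ Real.exp V := by
    have := Real.add_one_le_exp V
    linarith
  have hMle : (M : ℝ) ≤ Real.exp V + 1 := (Nat.ceil_lt_add_one (by positivity)).le
  have hM1 : 1 ≤ M := by
    have : (1 : ℝ) ≤ M := hexp1.trans hMge
    exact_mod_cast this
  have hMR : (0 : ℝ) < M := by exact_mod_cast hM1
  set f : ℕ → ℂ := LSeries.term (fun n => (1 : DirichletCharacter ℂ q) n) s with hf
  set W : ℂ := (∑ r ∈ Finset.range q, (1 : DirichletCharacter ℂ q) r) / q with hW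
  have hWn : ‖W‖ ≤ 1 := by
    rw [hW, norm_div, Complex.norm_natCast, div_le_one (by linarith)]
    refine (norm_sum_le _ _).trans ?_
    have h1 : ∀ r ∈ Finset.range q, ‖(1 : DirichletCharacter ℂ q) (r : ZMod q)‖ ≤ 1 :=
      fun r _ => DirichletCharacter.norm_le_one _ _
    refine (Finset.sum_le_sum h1).trans ?_
    simp
  -- the partial sums
  have key : ∀ N, M ≤ N → ‖∑ n ∈ Finset.range (q * N), f n - ∑ n ∈ Finset.range (q * M), f n -
      W * (PP s (q * N) - PP s (q * M))‖ ≤ ‖s‖ * ∑ m ∈ Finset.Ico M N, ((m : ℝ) ^ 2)⁻¹ := by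
    intro N hN
    induction N, hN using Nat.le_induction with
    | base => simp
    | succ N hN ih =>
      have h1 := one_block q hs1.le hsne (N := N) (by omega)
      have e1 : ∑ n ∈ Finset.range (q * (N + 1)), f n = ∑ n ∈ Finset.range (q * N), f n +
          ∑ r ∈ Finset.range q, f (q * N + r) := by
        rw [mul_add, mul_one, Finset.sum_range_add]
      rw [e1, Finset.sum_Ico_succ_top hN, mul_add]
      refine le_trans ?_ (add_le_add ih h1)
      refine le_trans (le_of_eq ?_) (norm_add_le _ _)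
      congr 1
      ring
  have hbd : ∀ N, M ≤ N → ‖∑ n ∈ Finset.range (q * N), f n‖ ≤ 16 * V + 2 / |t| := by
    intro N hN
    have h1 := key N hN
    have h2 : ∑ m ∈ Finset.Ico M N, ((m : ℝ) ^ 2)⁻¹ ≤ 2 / M := by
      have h3 : Finset.Ico M N = Finset.Ioo (M - 1) N := by
        ext m
        simp only [Finset.mem_Ico, Finset.mem_Ioo]
        omega
      rw [h3]
      refine (sum_Ioo_inv_sq_le (M - 1) N).trans (le_of_eq ?_)
      congr 1
      have : M - 1 + 1 = M := by omega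
      exact_mod_cast this
    have hqN : (1 : ℝ) ≤ q * N := by
      have : 1 ≤ q * N := Nat.mul_pos hqpos (by omega)
      exact_mod_cast this
    have hqM : (1 : ℝ) ≤ q * M := by
      have : 1 ≤ q * M := Nat.mul_pos hqpos (by omega)
      exact_mod_cast this
    have h4 := PP_le hs1.le him ht hqN
    have h5 := PP_le hs1.le him ht hqM
    have h6 := head_le q hs1.le (q * M) (Nat.mul_pos hqpos (by omega))
    have h7 : Real.log ((q * M : ℕ) : ℝ) ≤ 2 * V + 1 := by
      have h8 : ((q * M : ℕ) : ℝ) ≤ Real.exp (2 * V + 1) := by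
        have h9 : (q : ℝ) ≤ Real.exp V := by
          refine le_trans ?_ hq
          nlinarith
        have h10 : (M : ℝ) ≤ Real.exp V * Real.exp 1 := by
          have := Real.add_one_le_exp (1 : ℝ)
          nlinarith
        have e : Real.exp (2 * V + 1) = Real.exp V * (Real.exp V * Real.exp 1) := by
          rw [← Real.exp_add, ← Real.exp_add]
          congr 1
          ring
        rw [e]
        push_cast
        exact mul_le_mul h9 h10 (by positivity) (by positivity)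
      calc _ ≤ Real.log (Real.exp (2 * V + 1)) := Real.log_le_log (by push_cast; linarith) h8
        _ = _ := Real.log_exp _
    have h8 : ‖s‖ * (2 / M) ≤ 2 := by
      have h9 : ‖s‖ ≤ M := by
        refine hsn.trans (le_trans ?_ hMge)
        refine le_trans ?_ hq
        nlinarith
      rw [mul_div_assoc', div_le_iff₀ hMR]
      linarith
    have h9 : ‖W * (PP s (q * N) - PP s (q * M))‖ ≤ 2 / |t| := by
      rw [norm_mul]
      calc ‖W‖ * ‖PP s (q * N) - PP s (q * M)‖ ≤ 1 * (1 / |t| + 1 / |t|) :=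
            mul_le_mul hWn ((norm_sub_le _ _).trans (add_le_add h4 h5)) (norm_nonneg _)
              zero_le_one
        _ = 2 / |t| := by ring
    have e : ∑ n ∈ Finset.range (q * N), f n =
        (∑ n ∈ Finset.range (q * N), f n - ∑ n ∈ Finset.range (q * M), f n -
          W * (PP s (q * N) - PP s (q * M))) + (∑ n ∈ Finset.range (q * M), f n +
            W * (PP s (q * N) - PP s (q * M))) := by ring
    rw [e]
    refine (norm_add_le _ _).trans ?_
    have h10 := norm_add_le (∑ n ∈ Finset.range (q * M), f n) (W * (PP s (q * N) - PP s (q * M)))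
    have h11 : ‖s‖ * ∑ m ∈ Finset.Ico M N, ((m : ℝ) ^ 2)⁻¹ ≤ ‖s‖ * (2 / M) :=
      mul_le_mul_of_nonneg_left h2 (norm_nonneg _)
    have h12 := h6.trans (add_le_add_right h7 1)
    linarith
  -- the limit
  have hL : LFunctionTrivChar q s = LSeries (fun n => (1 : DirichletCharacter ℂ q) n) s :=
    LFunction_eq_LSeries (1 : DirichletCharacter ℂ q) hs1
  have hsum : LSeriesSummable (fun n => (1 : DirichletCharacter ℂ q) n) s :=
    ZMod.LSeriesSummable_of_one_lt_re _ hs1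
  have hlim := hsum.hasSum.tendsto_sum_nat
  have hsub : Filter.Tendsto (fun N : ℕ => q * N) Filter.atTop Filter.atTop :=
    Filter.tendsto_atTop_mono (fun N => Nat.le_mul_of_pos_left N hqpos) Filter.tendsto_id
  have hlim2 := (hlim.comp hsub).norm
  rw [hL]
  refine le_of_tendsto hlim2 (Filter.eventually_atTop.2 ⟨M, fun N hN => ?_⟩)
  exact hbd N hN

end Pool.Agent.REC
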