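import Pool.Agent.REC.DerivB
import Pool.Agent.REC.Triv
import Pool.Agent.REC.TrivB

/-! REC/Low.  Lower bound for `|L(1+x+it, χ)|`, up to the line `Re s = 1`.

Write `W = 16 V ≥ 16`, `s = 1+x+it`.  In `1 < Re ≤ 2`: `|L| ≤ W`, `|L'| ≤ W^2` (`deriv_bound`, `j = 0, 1`; the hypothesis
`hq` covers the heights `t` and `2t`).
* THREE-FOUR-ONE (`norm_LFunction_product_ge_one`, `triv_real`): if `‖L(χ^2, 1+x0+2it)‖ ≤ W^41` then
  `‖L(χ, 1+x0+it)‖^4 ≥ x0^3/(8 W^41)`; with `x0 = W^(-64)`: `≥ W^(-234)`, so `‖L‖ ≥ W^(-59)`.  For `x ≥ x0` the same with `x`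
  in place of `x0`.  For `x ≤ x0`: `‖L(1+x+it) - L(1+x0+it)‖ ≤ x0 W^2 = W^(-62)` (mean value inequality on the segment,
  `Convex.norm_image_sub_le_of_norm_deriv_le` or via `differentiable_LFunction`), so `‖L‖ ≥ W^(-59) - W^(-62) ≥ W^(-60)`.
* case `χ^2 ≠ 1`: `‖L(χ^2, ·)‖ ≤ W` by `deriv_bound` with `j = 0`.
* case `χ^2 = 1`, `|t| ≥ W^(-40)`: `LFunction (χ^2) = LFunctionTrivChar q` and `triv_bound` at height `2t`:
  `≤ W + W^40 ≤ W^41`.
* case `χ^2 = 1`, `|t| ≤ W^(-40)`, `x ≤ W^(-34)`: `‖L(1+x+it) - L(1)‖ ≤ (|t| + x) W^2` (mean value on `1+x'+i[0,t]` and on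
  `(1, 1+x]`, continuity of `L` at `1`), so `‖L‖ ≥ W^(-30) - W^(-38) - W^(-32) ≥ W^(-31)`.
* case `x ≥ W^(-34)`: `low_triv`: `‖L‖ ≥ x/2 ≥ W^(-35)`. -/

set_option autoImplicit false

namespace Pool.Agent.REC

open DirichletCharacter Complex

private theorem size {q : ℕ} [NeZero q] {χ : DirichletCharacter ℂ q} (hχ : χ ≠ 1) {V : ℝ}
    (hV : 1 ≤ V) {s : ℂ} (h1 : 1 < s.re) (h2 : s.re ≤ 2)
    (hq : (q : ℝ) * (|s.im| + 3) ≤ Real.exp V) : ‖LFunction χ s‖ ≤ 16 * V := by
  have h := deriv_bound hχ hV h1 h2 hq 0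
  rw [iteratedDeriv_zero] at h
  simpa using h

private theorem mv {q : ℕ} [NeZero q] {χ : DirichletCharacter ℂ q} (hχ : χ ≠ 1) {V : ℝ}
    (hV : 1 ≤ V) {t : ℝ} (hq : (q : ℝ) * (2 * |t| + 3) ≤ Real.exp V) {s1 s2 : ℂ}
    (h1 : 1 < s1.re ∧ s1.re ≤ 2 ∧ |s1.im| ≤ |t|) (h2 : 1 < s2.re ∧ s2.re ≤ 2 ∧ |s2.im| ≤ |t|) :
    ‖LFunction χ s2 - LFunction χ s1‖ ≤ (16 * V) ^ 2 * ‖s2 - s1‖ := by
  refine Convex.norm_image_sub_le_of_norm_deriv_le
    (s := {s : ℂ | 1 < s.re ∧ s.re ≤ 2 ∧ |s.im| ≤ |t|}) (f := LFunction χ) ?_ ?_ ?_ h1 h2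
  · intro s _
    exact (differentiable_LFunction hχ).differentiableAt
  · rintro s ⟨hs1, hs2, hs3⟩
    have h := deriv_bound hχ hV hs1 hs2 (s := s) (by
      refine le_trans ?_ hq
      apply mul_le_mul_of_nonneg_left _ (Nat.cast_nonneg _)
      have := abs_nonneg t
      linarith) 1
    rw [iteratedDeriv_one] at h
    simpa using h
  · rintro a ⟨ha1, ha2, ha3⟩ b ⟨hb1, hb2, hb3⟩ u v hu hv huv
    have hre : (u • a + v • b).re = u * a.re + v * b.re := by simp
    have him : (u • a + v • b).im = u * a.im + v * b.im := by simp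
    refine ⟨?_, ?_, ?_⟩
    · rw [hre]
      rcases eq_or_lt_of_le hu with h | h
      · subst h
        have : v = 1 := by linarith
        subst this
        linarith
      · nlinarith
    · rw [hre]
      nlinarith
    · rw [him]
      rw [abs_le] at ha3 hb3 ⊢
      constructor
      · nlinarith
      · nlinarith

private theorem three_four_one {q : ℕ} [NeZero q] {χ : DirichletCharacter ℂ q} {W : ℝ}
    (hW : 16 ≤ W) {x t : ℝ} (hx : 1 / W ^ 64 ≤ x) (hx1 : x ≤ 1)
    (h2 : ‖LFunction (χ ^ 2) (1 + x + 2 * I * t)‖ ≤ W ^ 41) :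
    1 / W ^ 59 ≤ ‖LFunction χ (1 + x + I * t)‖ := by
  have hW0 : (0 : ℝ) < W := by linarith
  have hx0 : 0 < x := lt_of_lt_of_le (by positivity) hx
  have h := norm_LFunction_product_ge_one χ hx0 t
  rw [norm_mul, norm_mul, norm_pow, norm_pow] at h
  have h3 := triv_real q hx0 hx1
  set a := ‖LFunctionTrivChar q (1 + x)‖ with ha
  set b := ‖LFunction χ (1 + x + I * t)‖ with hb
  set c := ‖LFunction (χ ^ 2) (1 + x + 2 * I * t)‖ with hc
  have ha0 : 0 ≤ a := norm_nonneg _
  have hb0 : 0 ≤ b := norm_nonneg _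
  have hc0 : 0 ≤ c := norm_nonneg _
  by_contra hcon
  push Not at hcon
  have hb4 : b ^ 4 < (1 / W ^ 59) ^ 4 := pow_lt_pow_left₀ hcon hb0 (by norm_num)
  have ha3 : a ^ 3 ≤ (2 / x) ^ 3 := pow_le_pow_left₀ ha0 h3 3
  have hx' : 1 / x ≤ W ^ 64 := by
    rw [div_le_iff₀ hx0]
    rw [div_le_iff₀ (by positivity)] at hx
    linarith
  have ha4 : (2 / x) ^ 3 ≤ 8 * W ^ 192 := by
    have e1 : (2 / x) ^ 3 = 8 * (1 / x) ^ 3 := by ring
    rw [e1]
    have e2 : (1 / x) ^ 3 ≤ (W ^ 64) ^ 3 := pow_le_pow_left₀ (by positivity) hx' 3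
    have e3 : (W ^ 64) ^ 3 = W ^ 192 := by rw [← pow_mul]
    rw [e3] at e2
    linarith
  have h5 : a ^ 3 * b ^ 4 * c ≤ (8 * W ^ 192) * (1 / W ^ 59) ^ 4 * W ^ 41 := by
    apply mul_le_mul _ h2 hc0 (by positivity)
    exact mul_le_mul (ha3.trans ha4) hb4.le (by positivity) (by positivity)
  have h6 : (8 * W ^ 192) * (1 / W ^ 59) ^ 4 * W ^ 41 = 8 / W ^ 3 := by
    field_simp
  rw [h6] at h5
  have h7 : 8 / W ^ 3 < 1 := by
    rw [div_lt_one (by positivity)]
    have : (16 : ℝ) ^ 3 ≤ W ^ 3 := pow_le_pow_left₀ (by norm_num) hW 3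
    norm_num at this
    linarith
  linarith

private theorem gen_case {q : ℕ} [NeZero q] {χ : DirichletCharacter ℂ q} (hχ : χ ≠ 1) {V : ℝ}
    (hV : 1 ≤ V) {x t : ℝ} (hx : 0 < x) (hx1 : x ≤ 1)
    (hq : (q : ℝ) * (2 * |t| + 3) ≤ Real.exp V)
    (h2 : ∀ y : ℝ, 0 < y → y ≤ 1 → ‖LFunction (χ ^ 2) (1 + y + 2 * I * t)‖ ≤ (16 * V) ^ 41) :
    1 / (16 * V) ^ 60 ≤ ‖LFunction χ (1 + x + I * t)‖ := by
  set W := 16 * V with hWdef
  have hW : 16 ≤ W := by linarith
  have hW0 : (0 : ℝ) < W := by linarith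
  have hW60 : 1 / W ^ 59 = W * (1 / W ^ 60) := by field_simp
  have hp60 : 0 < 1 / W ^ 60 := by positivity
  by_cases hc : 1 / W ^ 64 ≤ x
  · have h := three_four_one hW hc hx1 (h2 x hx hx1)
    nlinarith
  · push Not at hc
    have hx0 : 0 < 1 / W ^ 64 := by positivity
    have hx01 : 1 / W ^ 64 ≤ 1 := by
      rw [div_le_one (by positivity)]
      exact one_le_pow₀ (by linarith)
    have h := three_four_one (x := 1 / W ^ 64) (t := t) hW le_rfl hx01 (h2 _ hx0 hx01)
    have hm := mv hχ hV hq (s1 := 1 + (x : ℂ) + I * t) (s2 := 1 + ((1 / W ^ 64 : ℝ) : ℂ) + I * t)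
      (by
        have e1 : (1 + (x : ℂ) + I * t).re = 1 + x := by simp
        have e2 : (1 + (x : ℂ) + I * t).im = t := by simp
        rw [e1, e2]
        exact ⟨by linarith, by linarith, le_rfl⟩)
      (by
        have e1 : (1 + ((1 / W ^ 64 : ℝ) : ℂ) + I * t).re = 1 + 1 / W ^ 64 := by
          rw [add_re, add_re, one_re, ofReal_re]
          simp
        have e2 : (1 + ((1 / W ^ 64 : ℝ) : ℂ) + I * t).im = t := by
          rw [add_im, add_im, one_im, ofReal_im]
          simp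
        rw [e1, e2]
        exact ⟨by linarith, by linarith, le_rfl⟩)
    have hd : (1 + ((1 / W ^ 64 : ℝ) : ℂ) + I * t) - (1 + (x : ℂ) + I * t) =
        ((1 / W ^ 64 - x : ℝ) : ℂ) := by
      push_cast
      ring
    rw [hd, norm_real, Real.norm_eq_abs, abs_of_nonneg (by linarith), ← hWdef] at hm
    have hm2 : W ^ 2 * (1 / W ^ 64 - x) ≤ 1 / W ^ 60 := by
      have e1 : W ^ 2 * (1 / W ^ 64 - x) ≤ W ^ 2 * (1 / W ^ 64) :=
        mul_le_mul_of_nonneg_left (by linarith) (by positivity)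
      refine e1.trans ?_
      have e2 : W ^ 2 * (1 / W ^ 64) = 1 / W ^ 62 := by field_simp
      rw [e2]
      apply one_div_le_one_div_of_le (by positivity)
      exact pow_le_pow_right₀ (by linarith) (by norm_num)
    have htri : ‖LFunction χ (1 + ((1 / W ^ 64 : ℝ) : ℂ) + I * t)‖ ≤
        ‖LFunction χ (1 + ((1 / W ^ 64 : ℝ) : ℂ) + I * t) - LFunction χ (1 + (x : ℂ) + I * t)‖ +
          ‖LFunction χ (1 + (x : ℂ) + I * t)‖ := by
      have := norm_add_le (LFunction χ (1 + ((1 / W ^ 64 : ℝ) : ℂ) + I * t) -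
        LFunction χ (1 + (x : ℂ) + I * t)) (LFunction χ (1 + (x : ℂ) + I * t))
      rwa [sub_add_cancel] at this
    nlinarith

theorem low_bound {q : ℕ} [NeZero q] {χ : DirichletCharacter ℂ q} (hχ : χ ≠ 1) {V : ℝ} (hV : 1 ≤ V)
    {x t : ℝ} (hx : 0 < x) (hx1 : x ≤ 1) (hq : (q : ℝ) * (2 * |t| + 3) ≤ Real.exp V)
    (hex : χ ^ 2 = 1 → 1 / (16 * V) ^ 30 ≤ ‖LFunction χ 1‖) :
    1 / (16 * V) ^ 60 ≤ ‖LFunction χ (1 + x + I * t)‖ := by
  set W := 16 * V with hWdef
  have hW : 16 ≤ W := by linarith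
  have hW0 : (0 : ℝ) < W := by linarith
  by_cases h2 : χ ^ 2 = 1
  · by_cases ht : 1 / W ^ 40 ≤ |t|
    · -- case 2
      have ht0 : t ≠ 0 := by
        rintro rfl
        rw [abs_zero] at ht
        have : 0 < 1 / W ^ 40 := by positivity
        linarith
      refine gen_case hχ hV hx hx1 hq ?_
      intro y hy hy1
      rw [h2]
      have h3 := triv_bound q hV hy hy1 (t := 2 * t) (mul_ne_zero two_ne_zero ht0) (by
        rw [abs_mul, abs_two]
        exact hq)
      have e1 : (1 + (y : ℂ) + I * ((2 * t : ℝ) : ℂ)) = 1 + y + 2 * I * t := by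
        push_cast
        ring
      rw [e1] at h3
      refine h3.trans ?_
      rw [← hWdef, abs_mul, abs_two]
      have e2 : 2 / (2 * |t|) = 1 / |t| := by
        have := abs_pos.2 ht0
        field_simp
      rw [e2]
      have e3 : 1 / |t| ≤ W ^ 40 := by
        rw [div_le_iff₀ (abs_pos.2 ht0)]
        rw [div_le_iff₀ (by positivity)] at ht
        linarith
      have e4 : W ^ 41 = W * W ^ 40 := by ring
      have e5 : W ^ 1 ≤ W ^ 40 := pow_le_pow_right₀ (by linarith) (by norm_num)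
      rw [pow_one] at e5
      rw [e4]
      nlinarith
    · push Not at ht
      by_cases hxx : 1 / W ^ 34 ≤ x
      · have h3 := low_triv χ hx hx1 t
        refine le_trans ?_ h3
        have e1 : 1 / W ^ 60 ≤ 1 / W ^ 35 := by
          apply one_div_le_one_div_of_le (by positivity)
          exact pow_le_pow_right₀ (by linarith) (by norm_num)
        have e2 : 1 / W ^ 34 = W * (1 / W ^ 35) := by field_simp
        have e3 : 0 < 1 / W ^ 35 := by positivity
        nlinarith
      · push Not at hxx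
        have hL1 := hex h2
        -- comparison with the value at 1
        have key : ‖LFunction χ (1 + x + I * t) - LFunction χ 1‖ ≤ W ^ 2 * (x + |t|) := by
          have hcont : Filter.Tendsto (fun ε : ℝ =>
              ‖LFunction χ (1 + x + I * t) - LFunction χ (1 + (ε : ℂ))‖)
              (nhdsWithin 0 (Set.Ioi 0)) (nhds ‖LFunction χ (1 + x + I * t) - LFunction χ 1‖) := by
            have hc : Continuous (fun ε : ℝ =>
                ‖LFunction χ (1 + x + I * t) - LFunction χ (1 + (ε : ℂ))‖) := by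
              have := (differentiable_LFunction hχ).continuous
              fun_prop
            have h3 := (hc.tendsto 0).mono_left (nhdsWithin_le_nhds (s := Set.Ioi (0 : ℝ)))
            simpa using h3
          refine le_of_tendsto hcont ?_
          have hev : ∀ᶠ ε : ℝ in nhdsWithin 0 (Set.Ioi 0), 0 < ε ∧ ε < x := by
            have h3 := Ioo_mem_nhdsGT hx
            filter_upwards [h3] with ε hε
            exact hε
          filter_upwards [hev] with ε hε
          have hm := mv hχ hV hq (s1 := 1 + (ε : ℂ)) (s2 := 1 + (x : ℂ) + I * t)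
            (by
              have e1 : (1 + (ε : ℂ)).re = 1 + ε := by simp
              have e2 : (1 + (ε : ℂ)).im = 0 := by simp
              rw [e1, e2, abs_zero]
              exact ⟨by linarith [hε.1], by linarith [hε.2], abs_nonneg _⟩)
            (by
              have e1 : (1 + (x : ℂ) + I * t).re = 1 + x := by simp
              have e2 : (1 + (x : ℂ) + I * t).im = t := by simp
              rw [e1, e2]
              exact ⟨by linarith, by linarith, le_rfl⟩)
          refine hm.trans ?_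
          rw [← hWdef]
          apply mul_le_mul_of_nonneg_left _ (by positivity)
          have e3 : (1 + (x : ℂ) + I * t) - (1 + (ε : ℂ)) = ((x - ε : ℝ) : ℂ) + I * t := by
            push_cast
            ring
          rw [e3]
          refine (norm_add_le _ _).trans ?_
          rw [norm_real, norm_mul, norm_I, one_mul, norm_real, Real.norm_eq_abs, Real.norm_eq_abs,
            abs_of_nonneg (by linarith [hε.2])]
          linarith [hε.1]
        have htri : ‖LFunction χ 1‖ ≤ ‖LFunction χ (1 + x + I * t)‖ +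
            ‖LFunction χ (1 + x + I * t) - LFunction χ 1‖ := by
          have := norm_sub_le (LFunction χ (1 + x + I * t))
            (LFunction χ (1 + x + I * t) - LFunction χ 1)
          rwa [sub_sub_cancel] at this
        have e1 : W ^ 2 * (x + |t|) ≤ W ^ 2 * (1 / W ^ 34 + 1 / W ^ 40) :=
          mul_le_mul_of_nonneg_left (by linarith) (by positivity)
        have e2 : W ^ 2 * (1 / W ^ 34 + 1 / W ^ 40) = 1 / W ^ 32 + 1 / W ^ 38 := by
          field_simp
        have e3 : 1 / W ^ 38 ≤ 1 / W ^ 32 := by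
          apply one_div_le_one_div_of_le (by positivity)
          exact pow_le_pow_right₀ (by linarith) (by norm_num)
        have e4 : 1 / W ^ 60 ≤ 1 / W ^ 32 := by
          apply one_div_le_one_div_of_le (by positivity)
          exact pow_le_pow_right₀ (by linarith) (by norm_num)
        have e5 : 1 / W ^ 30 = W ^ 2 * (1 / W ^ 32) := by field_simp
        have e6 : 0 < 1 / W ^ 32 := by positivity
        have e7 : 256 ≤ W ^ 2 := by nlinarith
        nlinarith
  · -- case 1
    refine gen_case hχ hV hx hx1 hq ?_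
    intro y hy hy1
    have e1 : (1 + (y : ℂ) + 2 * I * t).re = 1 + y := by simp
    have e2 : (1 + (y : ℂ) + 2 * I * t).im = 2 * t := by simp
    have h3 := size (χ := χ ^ 2) h2 hV (s := 1 + (y : ℂ) + 2 * I * t) (by rw [e1]; linarith)
      (by rw [e1]; linarith) (by rw [e2, abs_mul, abs_two]; exact hq)
    refine h3.trans ?_
    rw [← hWdef]
    have e5 : W ^ 1 ≤ W ^ 41 := pow_le_pow_right₀ (by linarith) (by norm_num)
    rwa [pow_one] at e5

end Pool.Agent.REC
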