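import Pool.Agent.AT.Mom
import Pool.Agent.AT.En
import Pool.Agent.AT.ParA
import Pool.Agent.AT.One

/-! REC/One.  ONE CLASS: attract the given sets `A i`, repel `R`.

PROOF.  From `AT.one_class` with `c2 = κ/2`: `⌊ε L/l⌋ ≥ ε L/(2 l)` as soon as `ε L/l ≥ 1`, so
`∑_i ∑_{j ∈ A i} psi ≥ K (ε L/(2 l)) κ (P/M) l = (κ/2) (K ε) L (P/M)`. -/

set_option autoImplicit false

namespace Pool.Agent.REC

open Finset Pool.Agent.RS Pool.Agent.AT

/-- growth of the logarithm -/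
private theorem one_growth (c : ℝ) (hc : 0 < c) : ∃ L0 : ℕ, ∀ L : ℕ, L0 ≤ L →
    c * (Nat.log 2 L : ℝ) ≤ L := by
  obtain ⟨n, hn⟩ := exists_nat_ge (4 * c ^ 2)
  refine ⟨n + 1, fun L hL => ?_⟩
  have hL0 : L ≠ 0 := by omega
  have h1 : 2 ^ Nat.log 2 L ≤ L := Nat.pow_log_le_self 2 hL0
  set l := Nat.log 2 L with hl
  have h2 : (2 : ℝ) ^ l ≤ L := by exact_mod_cast h1
  have h3 : (n : ℝ) + 1 ≤ L := by exact_mod_cast hL
  have h4 : ((l : ℝ)) ^ 2 ≤ 4 * (2 : ℝ) ^ l := by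
    have : ∀ l : ℕ, l ^ 2 ≤ 4 * 2 ^ l := by
      intro l
      induction l with
      | zero => norm_num
      | succ l ih =>
        rcases Nat.lt_or_ge l 3 with h | h
        · interval_cases l <;> norm_num
        · have e : (l + 1) ^ 2 ≤ 2 * l ^ 2 := by nlinarith
          rw [pow_succ 2 l]
          omega
    exact_mod_cast this l
  have h5 : ((l : ℝ)) ^ 2 ≤ 4 * L := by linarith
  have h6 : (c * l) ^ 2 ≤ (L : ℝ) ^ 2 := by
    have h7 : c ^ 2 * (l : ℝ) ^ 2 ≤ c ^ 2 * (4 * L) := mul_le_mul_of_nonneg_left h5 (by positivity)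
    have h8 : 4 * c ^ 2 * (L : ℝ) ≤ L * L := by
      apply mul_le_mul_of_nonneg_right _ (Nat.cast_nonneg L)
      linarith
    nlinarith
  exact le_of_sq_le_sq h6 (Nat.cast_nonneg L)

open Classical in
theorem one_class (h0 : SE0) (h1 : SE1) (h2 : SE2) (h3 : SE3) (m : ℕ) {κ : ℝ} (hκ : 0 < κ) :
    ∃ K : ℕ, 0 < K ∧ ∃ ε : ℝ, 0 < ε ∧ ∃ P0 : ℕ, ∀ P : ℕ, P0 ≤ P → ∀ (L M H : ℕ) (R : Finset ℕ),
    Adm P L M H R → ∀ (b : ℕ) (A : Fin K → Finset ℕ), (∀ i, A i ⊆ range H) →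
    (∀ i, Disjoint (A i) R) → (∀ i j, i ≠ j → Disjoint (A i) (A j)) →
    (∀ i, (A i).card = ⌊ε * L / (Nat.log 2 L : ℝ)⌋₊) →
    (∀ i, ∀ j ∈ A i, Nat.Coprime (b + j) M ∧
      κ * ((P : ℝ) / M) * (Nat.log 2 L : ℝ) ≤ psi M (b + j) P) →
    ∃ n ∈ Nw P H M b, (∀ j ∈ R, ¬ (n + j).Prime) ∧
      (∀ i, ∀ j ∈ A i, ∀ j' ∈ A i, (n + j).Prime → (n + j').Prime → j = j') ∧
      m + 1 ≤ (((univ : Finset (Fin K)).biUnion A).filter (fun j => (n + j).Prime)).card := by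
  obtain ⟨K, hK, ε, hε, P0, hmain⟩ := Pool.Agent.AT.one_class h0 h1 h2 h3 m
    (c2 := κ / 2) (by positivity)
  obtain ⟨L0, hL0⟩ := one_growth (1 / ε) (by positivity)
  refine ⟨K, hK, ε, hε, P0 + 2 ^ (L0 + 2), ?_⟩
  intro P hP L M H R hadm b A hAH hAR hAA hcard hA
  have hpow : 0 < 2 ^ (L0 + 2) := by positivity
  have hLL : L0 + 2 ≤ L := by
    rw [hadm.hL]
    exact Nat.le_log_of_pow_le (by norm_num) (by omega)
  have hl1 : 1 ≤ Nat.log 2 L := Nat.le_log_of_pow_le (by norm_num) (by omega)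
  have hl : (0 : ℝ) < (Nat.log 2 L : ℝ) := by exact_mod_cast hl1
  have hLpos : (0 : ℝ) < L := by
    have : 0 < L := by omega
    exact_mod_cast this
  have hX0 : 0 ≤ (P : ℝ) / M := by positivity
  have hone : 1 ≤ ε * L / (Nat.log 2 L : ℝ) := by
    rw [le_div_iff₀ hl, one_mul]
    have h4 := hL0 L (by omega)
    rw [one_div, inv_mul_le_iff₀ hε] at h4
    exact h4
  have hfl : ε * L / (2 * (Nat.log 2 L : ℝ)) ≤ (⌊ε * L / (Nat.log 2 L : ℝ)⌋₊ : ℝ) := by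
    have h4 := Nat.lt_floor_add_one (ε * L / (Nat.log 2 L : ℝ))
    have h5 : (1 : ℝ) ≤ (⌊ε * L / (Nat.log 2 L : ℝ)⌋₊ : ℝ) := by
      exact_mod_cast (Nat.one_le_floor_iff _).2 hone
    have h6 : ε * L / (2 * (Nat.log 2 L : ℝ)) = ε * L / (Nat.log 2 L : ℝ) / 2 := by
      field_simp
    rw [h6]
    linarith
  obtain ⟨n, hn1, hn2, hn3, hn4, hn5, hn6⟩ := hmain P (by omega) L M H R hadm b A hAH hAA hAR
    (fun i j hj => (hA i j hj).1)
    (fun i => by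
      rw [hcard i]
      exact Nat.floor_le (by positivity))
    (by
      have h4 : ∀ i, (ε * L / (2 * (Nat.log 2 L : ℝ))) *
          (κ * ((P : ℝ) / M) * (Nat.log 2 L : ℝ)) ≤ ∑ j ∈ A i, psi M (b + j) P := by
        intro i
        calc (ε * L / (2 * (Nat.log 2 L : ℝ))) * (κ * ((P : ℝ) / M) * (Nat.log 2 L : ℝ)) ≤
              ((A i).card : ℝ) * (κ * ((P : ℝ) / M) * (Nat.log 2 L : ℝ)) := by
              refine mul_le_mul_of_nonneg_right ?_ (by positivity)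
              rw [hcard i]
              exact hfl
          _ = ∑ j ∈ A i, κ * ((P : ℝ) / M) * (Nat.log 2 L : ℝ) := by
              rw [sum_const, nsmul_eq_mul]
          _ ≤ ∑ j ∈ A i, psi M (b + j) P := sum_le_sum fun j hj => (hA i j hj).2
      calc κ / 2 * (K * ε) * L * ((P : ℝ) / M) =
            ∑ i : Fin K, (ε * L / (2 * (Nat.log 2 L : ℝ))) *
              (κ * ((P : ℝ) / M) * (Nat.log 2 L : ℝ)) := by
            rw [sum_const, card_univ, Fintype.card_fin, nsmul_eq_mul]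
            field_simp
        _ ≤ ∑ i, ∑ j ∈ A i, psi M (b + j) P := sum_le_sum fun i _ => h4 i)
  refine ⟨n, ?_, hn4, hn5, ?_⟩
  · unfold Nw
    exact mem_filter.2 ⟨mem_Ioc.2 ⟨hn1, hn2⟩, hn3⟩
  · exact hn6

end Pool.Agent.REC
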