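import Pool.Agent.REC.RecB
import Pool.Agent.REC.Scale
import Pool.Agent.AT.PtB

/-! REC/PtR.  The hypothesis of `pt2` (frequently version) for all scales `log x ≪ f ≤ c log x (log2 x)^2 log4 x/(log3 x)^2`.

PLAN.
* `cncl_mono`: the `n` of the first `K` clusters works: every prime of the window lies in one of the first `K` clusters, so the
  other clusters (disjoint from them by `Cfg.hdis`, contained in the window) contain no prime.
* `ptR`: `ptB m` gives `cb`, `Kb`; `recB m` gives `cr`, `Kr`, `C1`.  `K = max Kb Kr`, `c = cr/4`.  Given `f`, `δ` (wlog `δ ≤ 1`: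
  prove it for `min δ 1`).  `f1 x = min (f x) (cb log x loglog x)` satisfies the hypotheses of `ptB`.  Take a good `P` beyond all
  thresholds (`good_scale`; to get `∃ᶠ` use `Filter.frequently_atTop`).  If `f P ≤ cb log P loglog P`: `f1 P = f P`, use
  `ptB` and `cncl_mono`.  Otherwise `E = ⌊δ f P⌋₊ ≥ δ cb X l - 1 ≥ C1 X l l3/l2` (as `l3/l2 → 0`), `H = ⌈f P⌉₊ + E ≤ 3 f P`,
  `H ≤ 3 f P ≤ cr X l^2 l3/l2^2`: `recB` and `cncl_mono`. -/

set_option autoImplicit false

namespace Pool.Agent.REC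

open Finset Filter Topology Pool.Agent.AT

private theorem cfg_res {H E K K' : ℕ} (h : K ≤ K') {u : Fin K' → ℕ} (hc : Cfg H u E) :
    Cfg H (fun i : Fin K => u (Fin.castLE h i)) E := by
  refine ⟨fun i => hc.hin _, fun i j hij => hc.hdis _ _ ?_⟩
  exact hij

private theorem cfg_eq {H E K : ℕ} {u : Fin K → ℕ} (hc : Cfg H u E) {n q : ℕ} {i j : Fin K}
    (h1 : n + u i ≤ q) (h2 : q < n + u i + E) (h3 : n + u j ≤ q) (h4 : q < n + u j + E) : i = j := by
  rcases lt_trichotomy i j with h | h | h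
  · have := hc.hdis i j h
    omega
  · exact h
  · have := hc.hdis j i h
    omega

theorem cncl_mono {m P H E K K' : ℕ} (h : K ≤ K') {u : Fin K' → ℕ} (hc : Cfg H u E)
    (h1 : Cncl m P H E (fun i : Fin K => u (Fin.castLE h i))) : Cncl m P H E u := by
  obtain ⟨n, hn1, hn2, hn3, hn4, hn5⟩ := h1
  refine ⟨n, hn1, hn2, ?_, ?_, hn5⟩
  · intro q hq hqp
    obtain ⟨i, hi1, hi2⟩ := hn3 q hq hqp
    exact ⟨Fin.castLE h i, hi1, hi2⟩
  · intro i q q' hq hq' h1 h2 h3 h4
    have hin := hc.hin i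
    obtain ⟨i1, ha1, ha2⟩ := hn3 q (mem_Ico.2 ⟨by omega, by omega⟩) hq
    have e1 : i = Fin.castLE h i1 := cfg_eq hc h1 h2 ha1 ha2
    rw [e1] at h3 h4
    exact hn4 i1 q q' hq hq' ha1 ha2 h3 h4

/-- the record scale -/
noncomputable def rho (x : ℝ) : ℝ :=
  Real.log x * (Real.log (Real.log x) ^ 2 * Real.log (Real.log (Real.log (Real.log x))) /
    Real.log (Real.log (Real.log x)) ^ 2)

theorem ptR (m : ℕ) : ∃ c : ℝ, 0 < c ∧ ∃ K : ℕ, 0 < K ∧ ∀ f : ℝ → ℝ,
    Tendsto (fun x => f x / Real.log x) atTop atTop → (∀ᶠ x in atTop, f x ≤ c * rho x) →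
    ∀ δ : ℝ, 0 < δ → ∃ᶠ P : ℕ in atTop, ∃ H E : ℕ, (E : ℝ) ≤ δ * f P ∧ f P + E ≤ H ∧
      (H : ℝ) ≤ 3 * f P ∧ ∀ u : Fin K → ℕ, Cfg H u E → Cncl m P H E u := by
  obtain ⟨cb, hcb, Kb, hKb, hB⟩ := ptB m
  obtain ⟨cr, hcr, Kr, hKr, C1, hC1, P0, hR⟩ := recB m
  refine ⟨cr / 4, by positivity, max Kb Kr, lt_of_lt_of_le hKb (le_max_left _ _), ?_⟩
  intro f hf1 hf2 δ hδ
  set δ' := min δ 1 with hδ'
  have hδ0 : 0 < δ' := lt_min hδ one_pos
  have hδ1 : δ' ≤ 1 := min_le_right _ _
  have hδ2 : δ' ≤ δ := min_le_left _ _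
  set f1 : ℝ → ℝ := fun x => min (f x) (cb * Real.log x * Real.log (Real.log x)) with hf1d
  have hll : Tendsto (fun x : ℝ => Real.log (Real.log x)) atTop atTop :=
    Real.tendsto_log_atTop.comp Real.tendsto_log_atTop
  have hf1a : Tendsto (fun x => f1 x / Real.log x) atTop atTop := by
    rw [tendsto_atTop]
    intro B
    filter_upwards [hf1.eventually_ge_atTop B, hll.eventually_ge_atTop (B / cb),
      Real.tendsto_log_atTop.eventually_ge_atTop 1] with x h1 h2 h3
    have h4 : 0 < Real.log x := by linarith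
    rw [le_div_iff₀ h4]
    rw [le_div_iff₀ h4] at h1
    rw [div_le_iff₀ hcb] at h2
    refine le_min h1 ?_
    have h5 := mul_le_mul_of_nonneg_right h2 h4.le
    linarith [h5, mul_comm cb (Real.log x), mul_comm (Real.log (Real.log x) * cb) (Real.log x),
      mul_assoc cb (Real.log x) (Real.log (Real.log x)),
      mul_comm (Real.log (Real.log x)) cb,
      mul_assoc (Real.log (Real.log x)) cb (Real.log x),
      mul_comm (Real.log (Real.log x)) (cb * Real.log x)]
  have hf1b : ∀ᶠ x in atTop, f1 x ≤ cb * Real.log x * Real.log (Real.log x) :=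
    Eventually.of_forall fun x => min_le_right _ _
  have hBe := hB f1 hf1a hf1b δ' hδ0
  have hcast : Tendsto (fun n : ℕ => (n : ℝ)) atTop atTop := tendsto_natCast_atTop_atTop
  have hX : Tendsto (fun n : ℕ => Real.log (n : ℝ)) atTop atTop :=
    Real.tendsto_log_atTop.comp hcast
  have hl : Tendsto (fun n : ℕ => Real.log (Real.log (n : ℝ))) atTop atTop :=
    Real.tendsto_log_atTop.comp hX
  have hl2 : Tendsto (fun n : ℕ => Real.log (Real.log (Real.log (n : ℝ)))) atTop atTop :=
    Real.tendsto_log_atTop.comp hl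
  have hsm : ∀ᶠ n : ℕ in atTop, Real.log (Real.log (Real.log (Real.log (n : ℝ)))) ≤
      (δ' * cb / (2 * C1)) * Real.log (Real.log (Real.log (n : ℝ))) := by
    have h1 : (0 : ℝ) < δ' * cb / (2 * C1) := by positivity
    have h2 := (Real.isLittleO_log_id_atTop).bound h1
    filter_upwards [hl2.eventually h2, hl2.eventually_ge_atTop 1] with n h3 h4
    have h5 : 0 ≤ Real.log (Real.log (Real.log (Real.log (n : ℝ)))) := Real.log_nonneg h4
    rw [Real.norm_of_nonneg h5, id, Real.norm_of_nonneg (by linarith)] at h3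
    exact h3
  obtain ⟨N, hN⟩ := eventually_atTop.1 (hBe.and (hsm.and ((hcast.eventually hf2).and
    ((hcast.eventually (hf1.eventually_ge_atTop 1)).and ((hX.eventually_ge_atTop
      (1 + 2 / (δ' * cb))).and ((hl.eventually_ge_atTop 1).and (hl2.eventually_ge_atTop 1)))))))
  rw [frequently_atTop]
  intro a
  obtain ⟨P, hP, hg⟩ := good_scale (max a (max N P0))
  refine ⟨P, (le_max_left _ _).trans hP, ?_⟩
  obtain ⟨g1, g2, g3, g4, g5, g6, g7⟩ := hN P (((le_max_left _ _).trans (le_max_right _ _)).trans hP)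
  have gP0 : P0 ≤ P := ((le_max_right _ _).trans (le_max_right _ _)).trans hP
  have h0 : 0 < δ' * cb := by positivity
  have h0' : 0 < 2 / (δ' * cb) := by positivity
  have hXp : 1 ≤ Real.log (P : ℝ) := by linarith
  have hfP : 1 ≤ f P := by
    rw [le_div_iff₀ (by linarith)] at g4
    linarith
  by_cases hcase : f P ≤ cb * Real.log (P : ℝ) * Real.log (Real.log (P : ℝ))
  · obtain ⟨H, E, k1, k2, k3, k4⟩ := g1
    have e : f1 P = f P := min_eq_left hcase
    rw [e] at k1 k2 k3
    refine ⟨H, E, k1.trans (mul_le_mul_of_nonneg_right hδ2 (by linarith)), k2, k3, ?_⟩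
    intro u hc
    exact cncl_mono (le_max_left Kb Kr) hc (k4 _ (cfg_res _ hc))
  · have hcase' := (not_le.1 hcase).le
    set E : ℕ := ⌊δ' * f P⌋₊ with hE
    have hEle : (E : ℝ) ≤ δ' * f P := Nat.floor_le (by positivity)
    have hEge : δ' * f P - 1 ≤ E := (Nat.sub_one_lt_floor _).le
    have hce : f P ≤ (⌈f P⌉₊ : ℝ) := Nat.le_ceil _
    have hce2 : (⌈f P⌉₊ : ℝ) ≤ f P + 1 := (Nat.ceil_lt_add_one (by linarith)).le
    have hH3 : ((⌈f P⌉₊ + E : ℕ) : ℝ) ≤ 3 * f P := by
      push_cast
      nlinarith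
    refine ⟨⌈f P⌉₊ + E, E, hEle.trans (mul_le_mul_of_nonneg_right hδ2 (by linarith)), ?_, hH3, ?_⟩
    · push_cast
      linarith
    · intro u hc
      refine cncl_mono (le_max_right Kb Kr) hc ?_
      refine hR P gP0 hg _ _ _ _ rfl rfl rfl rfl (⌈f P⌉₊ + E) E _ ?_ ?_ (cfg_res _ hc)
      · refine hH3.trans ?_
        have h1 : 0 ≤ f P := by linarith
        unfold rho at g3
        set Q := Real.log (P : ℝ) * (Real.log (Real.log (P : ℝ)) ^ 2 *
          Real.log (Real.log (Real.log (Real.log (P : ℝ)))) /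
            Real.log (Real.log (Real.log (P : ℝ))) ^ 2) with hQ
        have h2 : 0 ≤ cr / 4 * Q := h1.trans g3
        linarith
      · set X := Real.log (P : ℝ) with hXd
        set l := Real.log X with hld
        set l2 := Real.log l with hl2d
        set l3 := Real.log l2 with hl3d
        have h1 : C1 * (X * (l * l3 / l2)) ≤ δ' * cb / 2 * (X * l) := by
          have h2 : 0 < l2 := by linarith
          have h3 : l3 / l2 ≤ δ' * cb / (2 * C1) := by
            rw [div_le_iff₀ h2]
            exact g2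
          have h4 : C1 * (X * (l * l3 / l2)) = (C1 * (X * l)) * (l3 / l2) := by ring
          rw [h4]
          have h5 : 0 ≤ C1 * (X * l) := by
            have : 0 ≤ l := by linarith
            have : 0 ≤ X := by linarith
            positivity
          refine (mul_le_mul_of_nonneg_left h3 h5).trans (le_of_eq ?_)
          field_simp
        have h6 : δ' * (cb * X * l) ≤ δ' * f P := mul_le_mul_of_nonneg_left hcase' hδ0.le
        have h7 : 1 ≤ δ' * cb / 2 * (X * l) := by
          have h8 : 2 / (δ' * cb) ≤ X * l := by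
            have : X * 1 ≤ X * l := mul_le_mul_of_nonneg_left g6 (by linarith)
            linarith
          rw [div_le_iff₀ h0] at h8
          linarith
        have h8 : δ' * (cb * X * l) = δ' * cb / 2 * (X * l) + δ' * cb / 2 * (X * l) := by ring
        linarith

end Pool.Agent.REC
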