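import Pool.Agent.REC.DerivB
import Pool.Agent.REC.Triv

/-! REC/Rep.  Landau's repulsion: two different real characters cannot both be exceptional.

For the two characters at the common level `N = q1 q2` the product
`L(1_N, 1+x) L(ψ1, 1+x) L(ψ2, 1+x) L(ψ1 ψ2, 1+x)` has norm at least `1`; the upper bounds of the four
factors with `x = W^(-20)`, `W = 16 V`, contradict this. -/

set_option autoImplicit false

namespace Pool.Agent.REC

open DirichletCharacter Complex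

/-- the value of `-log |1 - a z|` -/
private theorem rep_re {z : ℝ} (hz0 : 0 < z) (hz1 : z < 1) {a : ℂ} (ha : a = 1 ∨ a = -1) :
    (-log (1 - a * (z : ℂ))).re = if a = 1 then -Real.log (1 - z) else -Real.log (1 + z) := by
  rcases ha with rfl | rfl
  · rw [if_pos rfl, neg_re, log_re, one_mul]
    have : (1 : ℂ) - (z : ℂ) = ((1 - z : ℝ) : ℂ) := by push_cast; ring
    rw [this, norm_real, Real.norm_of_nonneg (by linarith)]
  · rw [if_neg (by norm_num), neg_re, log_re]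
    have : (1 : ℂ) - (-1) * (z : ℂ) = ((1 + z : ℝ) : ℂ) := by push_cast; ring
    rw [this, norm_real, Real.norm_of_nonneg (by linarith)]

/-- the local positivity -/
private theorem rep_local {N : ℕ} (ψ1 ψ2 : DirichletCharacter ℂ N) (h1 : ψ1 ^ 2 = 1)
    (h2 : ψ2 ^ 2 = 1) {n : ℕ} (hn : 2 ≤ n) {x : ℝ} (hx : 1 < x) :
    0 ≤ (-log (1 - (1 : DirichletCharacter ℂ N) n * (n : ℂ) ^ (-(x : ℂ)))).re +
      (-log (1 - ψ1 n * (n : ℂ) ^ (-(x : ℂ)))).re +
      ((-log (1 - ψ2 n * (n : ℂ) ^ (-(x : ℂ)))).re +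
      (-log (1 - (ψ1 * ψ2) n * (n : ℂ) ^ (-(x : ℂ)))).re) := by
  by_cases hu : IsUnit (n : ZMod N)
  · obtain ⟨z, hz⟩ : ∃ z : ℝ, z = (n : ℝ) ^ (-x) := ⟨_, rfl⟩
    have hzc : (n : ℂ) ^ (-(x : ℂ)) = (z : ℂ) := by
      rw [hz, ofReal_cpow n.cast_nonneg (-x), ofReal_natCast, ofReal_neg]
    have hz0 : 0 < z := by
      rw [hz]
      have : (0 : ℝ) < n := by exact_mod_cast (by omega : 0 < n)
      positivity
    have hz1 : z < 1 := by
      rw [hz, Real.rpow_neg (Nat.cast_nonneg n), inv_lt_one_iff₀]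
      exact .inr <| Real.one_lt_rpow (mod_cast one_lt_two.trans_le hn) <| zero_lt_one.trans hx
    have hval : ∀ ψ : DirichletCharacter ℂ N, ψ ^ 2 = 1 → ψ n = 1 ∨ ψ n = -1 := by
      intro ψ hψ
      have h3 : (ψ n) ^ 2 = 1 := by
        rw [← MulChar.pow_apply' ψ two_ne_zero, hψ, MulChar.one_apply hu]
      exact mul_self_eq_one_iff.1 (by rw [← sq]; exact h3)
    rw [hzc, MulChar.one_apply hu, MulChar.mul_apply]
    have hlogs : 0 ≤ -Real.log (1 - z) := by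
      have := Real.log_nonpos (by linarith : (0 : ℝ) ≤ 1 - z) (by linarith)
      linarith
    have hlog2 : 0 ≤ -Real.log (1 - z) + -Real.log (1 + z) := by
      have h3 : Real.log ((1 - z) * (1 + z)) = Real.log (1 - z) + Real.log (1 + z) :=
        Real.log_mul (by linarith) (by linarith)
      have h4 : Real.log ((1 - z) * (1 + z)) ≤ 0 :=
        Real.log_nonpos (mul_nonneg (by linarith) (by linarith)) (by nlinarith)
      linarith
    have e0 := rep_re hz0 hz1 (a := 1) (Or.inl rfl)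
    have e1 := rep_re hz0 hz1 (a := -1) (Or.inr rfl)
    rw [if_pos rfl] at e0
    rw [if_neg (by norm_num)] at e1
    rcases hval ψ1 h1 with ha | ha <;> rcases hval ψ2 h2 with hb | hb <;> rw [ha, hb]
    · rw [show (1 : ℂ) * 1 = 1 by norm_num, e0]; linarith
    · rw [show (1 : ℂ) * (-1) = -1 by norm_num, e0, e1]; linarith
    · rw [show (-1 : ℂ) * 1 = -1 by norm_num, e0, e1]; linarith
    · rw [show (-1 : ℂ) * (-1) = 1 by norm_num, e0, e1]; linarith
  · simp only [MulChar.map_nonunit _ hu, zero_mul, sub_zero, log_one, neg_zero, zero_re, add_zero,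
      le_refl]

private theorem rep_pos {N : ℕ} [NeZero N] (ψ1 ψ2 : DirichletCharacter ℂ N) (h1 : ψ1 ^ 2 = 1)
    (h2 : ψ2 ^ 2 = 1) {x : ℝ} (hx : 0 < x) :
    1 ≤ ‖LFunctionTrivChar N (1 + x)‖ * ‖LFunction ψ1 (1 + x)‖ *
      (‖LFunction ψ2 (1 + x)‖ * ‖LFunction (ψ1 * ψ2) (1 + x)‖) := by
  have h₀ : 1 < (1 + x : ℂ).re := by simpa using hx
  have H₀ := summable_neg_log_one_sub_mul_prime_cpow (N := N) 1 h₀
  have H₁ := summable_neg_log_one_sub_mul_prime_cpow ψ1 h₀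
  have H₂ := summable_neg_log_one_sub_mul_prime_cpow ψ2 h₀
  have H₃ := summable_neg_log_one_sub_mul_prime_cpow (ψ1 * ψ2) h₀
  have s0 := (hasSum_re H₀.hasSum).summable
  have s1 := (hasSum_re H₁.hasSum).summable
  have s2 := (hasSum_re H₂.hasSum).summable
  have s3 := (hasSum_re H₃.hasSum).summable
  rw [LFunctionTrivChar, LFunction_eq_LSeries 1 h₀, LFunction_eq_LSeries ψ1 h₀,
    LFunction_eq_LSeries ψ2 h₀, LFunction_eq_LSeries (ψ1 * ψ2) h₀,
    ← LSeries_eulerProduct_exp_log _ h₀, ← LSeries_eulerProduct_exp_log ψ1 h₀,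
    ← LSeries_eulerProduct_exp_log ψ2 h₀, ← LSeries_eulerProduct_exp_log _ h₀,
    norm_exp, norm_exp, norm_exp, norm_exp, ← Real.exp_add, ← Real.exp_add, ← Real.exp_add,
    Real.one_le_exp_iff, re_tsum H₀, re_tsum H₁, re_tsum H₂, re_tsum H₃, ← s0.tsum_add s1,
    ← s2.tsum_add s3, ← (s0.add s1).tsum_add (s2.add s3)]
  refine tsum_nonneg fun p => ?_
  have h3 := rep_local ψ1 ψ2 h1 h2 p.prop.two_le (x := 1 + x) (by linarith)
  simpa only [ofReal_add, ofReal_one] using h3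

/-- mean value inequality at the edge -/
private theorem rep_mean {N : ℕ} [NeZero N] {ψ : DirichletCharacter ℂ N} (hψ : ψ ≠ 1) {V : ℝ}
    (hV : 1 ≤ V) (hq : (N : ℝ) * 3 ≤ Real.exp V) {x : ℝ} (hx : 0 < x) (hx1 : x ≤ 1) :
    ‖LFunction ψ (1 + x)‖ ≤ ‖LFunction ψ 1‖ + (16 * V) ^ 2 * x := by
  have hdiff := differentiable_LFunction hψ
  -- the function on the real line
  have hd : ∀ y : ℝ, HasDerivAt (fun y : ℝ => LFunction ψ (1 + y)) (deriv (LFunction ψ) (1 + y)) y := by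
    intro y
    have h1 : HasDerivAt (LFunction ψ) (deriv (LFunction ψ) (1 + y)) (1 + (y : ℂ)) :=
      (hdiff _).hasDerivAt
    have h2 : HasDerivAt (fun y : ℝ => (1 : ℂ) + (y : ℂ)) 1 y :=
      (Complex.ofRealCLM.hasDerivAt (x := y)).const_add (1 : ℂ)
    have h3 := h1.scomp y h2
    rw [one_smul] at h3
    exact h3
  have hbd : ∀ y : ℝ, 0 < y → y ≤ 1 → ‖deriv (LFunction ψ) (1 + y)‖ ≤ (16 * V) ^ 2 := by
    intro y hy hy1
    have h1 := deriv_bound hψ hV (s := 1 + y) (by simpa using hy) (by simp; linarith)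
      (by simpa using hq) 1
    rw [iteratedDeriv_one] at h1
    simpa using h1
  have hstep : ∀ y : ℝ, 0 < y → y ≤ x →
      ‖LFunction ψ (1 + x) - LFunction ψ (1 + y)‖ ≤ (16 * V) ^ 2 * x := by
    intro y hy hyx
    have h1 := (convex_Icc y x).norm_image_sub_le_of_norm_hasDerivWithin_le
      (f := fun y : ℝ => LFunction ψ (1 + y)) (f' := fun y : ℝ => deriv (LFunction ψ) (1 + y))
      (C := (16 * V) ^ 2) (fun t _ => (hd t).hasDerivWithinAt)
      (fun t ht => hbd t (lt_of_lt_of_le hy ht.1) (ht.2.trans hx1))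
      (Set.left_mem_Icc.2 hyx) (Set.right_mem_Icc.2 hyx)
    refine h1.trans ?_
    rw [Real.norm_of_nonneg (by linarith)]
    have : 0 ≤ (16 * V) ^ 2 := by positivity
    nlinarith
  have hcont : Continuous fun y : ℝ => ‖LFunction ψ (1 + x) - LFunction ψ (1 + y)‖ := by
    have h1 : Continuous fun y : ℝ => LFunction ψ (1 + y) :=
      hdiff.continuous.comp (continuous_const.add continuous_ofReal)
    exact (continuous_const.sub h1).norm
  have hlim : ‖LFunction ψ (1 + x) - LFunction ψ (1 + (0 : ℝ))‖ ≤ (16 * V) ^ 2 * x := by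
    have h1 : Filter.Tendsto (fun y : ℝ => ‖LFunction ψ (1 + x) - LFunction ψ (1 + y)‖)
        (nhdsWithin 0 (Set.Ioi 0)) (nhds ‖LFunction ψ (1 + x) - LFunction ψ (1 + (0 : ℝ))‖) :=
      (hcont.tendsto 0).mono_left nhdsWithin_le_nhds
    refine le_of_tendsto h1 ?_
    filter_upwards [Ioc_mem_nhdsGT hx] with y hy
    exact hstep y hy.1 hy.2
  rw [ofReal_zero, add_zero] at hlim
  have h4 : ‖LFunction ψ (1 + x)‖ ≤ ‖LFunction ψ (1 + x) - LFunction ψ 1‖ + ‖LFunction ψ 1‖ := by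
    have := norm_add_le (LFunction ψ (1 + x) - LFunction ψ 1) (LFunction ψ 1)
    rwa [sub_add_cancel] at this
  linarith

/-- `∏_{p ∣ N} (1 + 1/p) ≤ 1 + log N` -/
private theorem rep_prod {N : ℕ} (hN : N ≠ 0) :
    ∏ p ∈ N.primeFactors, (1 + 1 / (p : ℝ)) ≤ 1 + Real.log N := by
  classical
  have h1 : ∏ p ∈ N.primeFactors, (1 + 1 / (p : ℝ)) =
      ∑ T ∈ N.primeFactors.powerset, 1 / ((∏ p ∈ T, p : ℕ) : ℝ) := by
    rw [Finset.prod_one_add]
    refine Finset.sum_congr rfl fun T _ => ?_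
    rw [Finset.prod_div_distrib, Finset.prod_const_one]
    push_cast
    rfl
  have hinj : Set.InjOn (fun T : Finset ℕ => ∏ p ∈ T, p) (N.primeFactors.powerset : Set (Finset ℕ)) := by
    intro T hT T' hT' h
    rw [Finset.mem_coe, Finset.mem_powerset] at hT hT'
    have h2 := Nat.primeFactors_prod (s := T) fun p hp => Nat.prime_of_mem_primeFactors (hT hp)
    have h3 := Nat.primeFactors_prod (s := T') fun p hp => Nat.prime_of_mem_primeFactors (hT' hp)
    have h' : ∏ p ∈ T, p = ∏ p ∈ T', p := h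
    rw [← h2, ← h3, h']
  have h2 : ∑ T ∈ N.primeFactors.powerset, 1 / ((∏ p ∈ T, p : ℕ) : ℝ) =
      ∑ d ∈ N.primeFactors.powerset.image (fun T : Finset ℕ => ∏ p ∈ T, p), 1 / (d : ℝ) := by
    rw [Finset.sum_image hinj]
  have h3 : N.primeFactors.powerset.image (fun T : Finset ℕ => ∏ p ∈ T, p) ⊆ Finset.Icc 1 N := by
    intro d hd
    rw [Finset.mem_image] at hd
    obtain ⟨T, hT, rfl⟩ := hd
    rw [Finset.mem_powerset] at hT
    have h4 : ∏ p ∈ T, p ∣ N :=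
      (Finset.prod_dvd_prod_of_subset T N.primeFactors (fun p => p) hT).trans
        (Nat.prod_primeFactors_dvd N)
    exact Finset.mem_Icc.2 ⟨Nat.pos_of_dvd_of_pos h4 (Nat.pos_of_ne_zero hN),
      Nat.le_of_dvd (Nat.pos_of_ne_zero hN) h4⟩
  rw [h1, h2]
  refine (Finset.sum_le_sum_of_subset_of_nonneg h3 fun d _ _ => by positivity).trans ?_
  have h4 := harmonic_le_one_add_log N
  rw [harmonic_eq_sum_Icc] at h4
  push_cast at h4
  refine le_trans (le_of_eq ?_) h4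
  exact Finset.sum_congr rfl fun d _ => one_div _

private theorem rep_level {q N : ℕ} [NeZero q] [NeZero N] (hd : q ∣ N) {χ : DirichletCharacter ℂ q}
    (hχ : χ ≠ 1) : ‖LFunction (changeLevel hd χ) 1‖ ≤ ‖LFunction χ 1‖ * (1 + Real.log N) := by
  rw [LFunction_changeLevel hd χ (Or.inl hχ), norm_mul]
  refine mul_le_mul_of_nonneg_left ?_ (norm_nonneg _)
  refine le_trans ?_ (rep_prod (NeZero.ne N))
  rw [norm_prod]
  refine Finset.prod_le_prod (fun p _ => norm_nonneg _) fun p hp => ?_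
  refine (norm_sub_le _ _).trans ?_
  rw [norm_one, norm_mul]
  have h1 : ‖χ (p : ZMod q)‖ ≤ 1 := χ.norm_le_one _
  have h2 : ‖(p : ℂ) ^ (-(1 : ℂ))‖ = 1 / (p : ℝ) := by
    rw [cpow_neg_one, norm_inv, norm_natCast, one_div]
  rw [h2]
  have h3 : (0 : ℝ) ≤ 1 / (p : ℝ) := by positivity
  nlinarith

theorem repulsion {q1 q2 : ℕ} [NeZero q1] [NeZero q2] {χ1 : DirichletCharacter ℂ q1}
    {χ2 : DirichletCharacter ℂ q2} (h1 : χ1 ≠ 1) (h2 : χ2 ≠ 1) (hr1 : χ1 ^ 2 = 1) (hr2 : χ2 ^ 2 = 1)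
    (hne : changeLevel (dvd_mul_right q1 q2) χ1 ≠ changeLevel (dvd_mul_left q2 q1) χ2) {V : ℝ}
    (hV : 1 ≤ V) (hq : ((q1 * q2 : ℕ) : ℝ) * 3 ≤ Real.exp V)
    (hL1 : ‖LFunction χ1 1‖ ≤ 2 / (16 * V) ^ 30) (hL2 : ‖LFunction χ2 1‖ ≤ 2 / (16 * V) ^ 30) :
    False := by
  have hN0 : q1 * q2 ≠ 0 := mul_ne_zero (NeZero.ne q1) (NeZero.ne q2)
  have : NeZero (q1 * q2) := ⟨hN0⟩
  set ψ1 := changeLevel (dvd_mul_right q1 q2) χ1 with hψ1
  set ψ2 := changeLevel (dvd_mul_left q2 q1) χ2 with hψ2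
  have n1 : ψ1 ≠ 1 := fun h => h1 ((changeLevel_eq_one_iff _).1 h)
  have n2 : ψ2 ≠ 1 := fun h => h2 ((changeLevel_eq_one_iff _).1 h)
  have s1 : ψ1 ^ 2 = 1 := by rw [hψ1, ← map_pow, hr1, map_one]
  have s2 : ψ2 ^ 2 = 1 := by rw [hψ2, ← map_pow, hr2, map_one]
  have n3 : ψ1 * ψ2 ≠ 1 := by
    intro h
    apply hne
    have h3 : ψ1 * ψ2 = ψ2 * ψ2 := by rw [h, ← sq, s2]
    exact mul_right_cancel h3
  obtain ⟨W, hW⟩ : ∃ W, W = 16 * V := ⟨_, rfl⟩
  have hW16 : 16 ≤ W := by linarith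
  have hW0 : 0 < W := by linarith
  rw [← hW] at hL1 hL2
  obtain ⟨x, hx⟩ : ∃ x, x = 1 / W ^ 20 := ⟨_, rfl⟩
  have hx0 : 0 < x := by rw [hx]; positivity
  have hx1 : x ≤ 1 := by
    rw [hx, div_le_one (by positivity)]
    exact one_le_pow₀ (by linarith)
  have hlogN : 1 + Real.log ((q1 * q2 : ℕ) : ℝ) ≤ W := by
    have hNpos : (0 : ℝ) < ((q1 * q2 : ℕ) : ℝ) := by exact_mod_cast Nat.pos_of_ne_zero hN0
    have h3 : Real.log ((q1 * q2 : ℕ) : ℝ) ≤ V := by
      rw [Real.log_le_iff_le_exp hNpos]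
      linarith
    linarith
  have hpow : ∀ k : ℕ, 0 < W ^ k := fun k => by positivity
  -- the bounds of the factors
  have b0 : ‖LFunctionTrivChar (q1 * q2) (1 + x)‖ ≤ 2 * W ^ 20 := by
    refine (triv_real (q1 * q2) hx0 hx1).trans (le_of_eq ?_)
    rw [hx]
    field_simp
  have b3 : ‖LFunction (ψ1 * ψ2) (1 + x)‖ ≤ W := by
    have h3 := deriv_bound n3 hV (s := 1 + x) (by simpa using hx0) (by simp; linarith)
      (by simpa using hq) 0
    rw [iteratedDeriv_zero] at h3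
    rw [hW]
    simpa using h3
  have bi : ∀ {ψ : DirichletCharacter ℂ (q1 * q2)} {l : ℝ}, ψ ≠ 1 → l ≤ 2 / W ^ 30 →
      ‖LFunction ψ 1‖ ≤ l * (1 + Real.log ((q1 * q2 : ℕ) : ℝ)) → 0 ≤ l →
      ‖LFunction ψ (1 + x)‖ ≤ 2 / W ^ 18 := by
    intro ψ l hψ hl hL hl0
    have h3 := rep_mean hψ hV hq hx0 hx1
    rw [← hW] at h3
    have h4 : l * (1 + Real.log ((q1 * q2 : ℕ) : ℝ)) ≤ 2 / W ^ 30 * W :=
      (mul_le_mul_of_nonneg_left hlogN hl0).trans (mul_le_mul_of_nonneg_right hl hW0.le)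
    have h5 : 2 / W ^ 30 * W = 2 / W ^ 29 := by
      field_simp
    have h6 : W ^ 2 * x = 1 / W ^ 18 := by
      rw [hx]
      field_simp
    have h7 : 2 / W ^ 29 ≤ 1 / W ^ 18 := by
      rw [div_le_div_iff₀ (hpow _) (hpow _)]
      have h8 : W ^ 29 = W ^ 18 * W ^ 11 := by ring
      have h9 : (2 : ℝ) ≤ W ^ 11 := by
        have : W ^ 1 ≤ W ^ 11 := pow_le_pow_right₀ (by linarith) (by norm_num)
        linarith
      rw [h8]
      nlinarith [hpow 18]
    have h8 : 2 / W ^ 18 = 1 / W ^ 18 + 1 / W ^ 18 := by ring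
    linarith
  have b1 := bi n1 hL1 (rep_level (dvd_mul_right q1 q2) h1) (norm_nonneg _)
  have b2 := bi n2 hL2 (rep_level (dvd_mul_left q2 q1) h2) (norm_nonneg _)
  have hpos := rep_pos ψ1 ψ2 s1 s2 hx0
  have hub : ‖LFunctionTrivChar (q1 * q2) (1 + x)‖ * ‖LFunction ψ1 (1 + x)‖ *
      (‖LFunction ψ2 (1 + x)‖ * ‖LFunction (ψ1 * ψ2) (1 + x)‖) ≤
      (2 * W ^ 20) * (2 / W ^ 18) * ((2 / W ^ 18) * W) := by
    have := hpow 20
    have := hpow 18
    gcongr
  have hlast : (2 * W ^ 20) * (2 / W ^ 18) * ((2 / W ^ 18) * W) = 8 / W ^ 15 := by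
    field_simp
    ring
  rw [hlast] at hub
  have h3 : 8 / W ^ 15 < 1 := by
    rw [div_lt_one (hpow _)]
    have : W ^ 1 ≤ W ^ 15 := pow_le_pow_right₀ (by linarith) (by norm_num)
    linarith
  linarith

end Pool.Agent.REC
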