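import Pool.Agent.REC.SsDef

/-! REC/SsMean.  First moments.

PLAN.
* `mean_total`: exchange the sums: `∑_{(h,b)} |Sv| = ∑_{j<H} |shifts z1 z2 HH j| * #{b : (b+j, pmod z1) = 1}`; `Par.small_le`
(Helper9/GW/Key or Est: `j ≤ HH l B → |shifts| ≤ 9 (B+5) l2/l * HH`) with `B = 3`, `count_one`, `dens_bounds`:
`≤ H * (72 l2/l * HH) * (pmod z1 * 16 l2/(l l3))`, and `72 * 16 = 1152 ≤ 2000`.
* `mean_low`: for `j ∈ C`: `#{h ∈ [1, HH] : h - j prime, > z2} = #{p prime : z2 < p ≤ HH - j} ≥ π(HH/2) - z2 ≥ c HH/l`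
(Chebyshev lower bound for all large numbers: see how `par_eventually` proves `Par.low`, or Helper98/Bern/CH; `log HH ≤ 2 l`,
`z2 ≤ e^l/l^2`), `dens_bounds`.
* `mean_up`: the same with `π(HH) ≤ 2 HH/log HH ≤ 2 HH/l` (`Par.cheb` with `t = HH`). -/

set_option autoImplicit false

namespace Pool.Agent.REC

open Finset Pool.Agent.Helper9.GW

private theorem sm_exch (A R C : Finset ℕ) (p q : ℕ → ℕ → Prop) [∀ j, DecidablePred fun h => p h j]
    [∀ j, DecidablePred fun b => q b j] [∀ ω : ℕ × ℕ, DecidablePred fun j => p ω.1 j ∧ q ω.2 j] :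
    ∑ ω ∈ A ×ˢ R, ((C.filter (fun j => p ω.1 j ∧ q ω.2 j)).card : ℝ) =
      ∑ j ∈ C, ((A.filter (fun h => p h j)).card : ℝ) * ((R.filter (fun b => q b j)).card : ℝ) := by
  classical
  have h1 : ∀ ω : ℕ × ℕ, ((C.filter (fun j => p ω.1 j ∧ q ω.2 j)).card : ℝ) =
      ∑ j ∈ C, if p ω.1 j ∧ q ω.2 j then (1 : ℝ) else 0 := by
    intro ω
    rw [card_filter, Nat.cast_sum]
    refine sum_congr rfl fun j _ => ?_
    split_ifs <;> simp
  rw [sum_congr rfl fun ω _ => h1 ω, sum_comm]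
  refine sum_congr rfl fun j _ => ?_
  have h2 := filter_product (s := A) (t := R) (fun h => p h j) (fun b => q b j)
  rw [← Nat.cast_mul, ← card_product, ← h2, card_filter, Nat.cast_sum]
  refine sum_congr rfl fun ω _ => ?_
  split_ifs <;> simp

private theorem sm_pc (n : ℕ) : Nat.primeCounting n = (prs n).card := by
  unfold Nat.primeCounting Nat.primeCounting'
  rw [Nat.count_eq_card_filter_range]
  congr 1
  ext p
  rw [mem_filter, mem_range, mem_prs]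
  constructor
  · rintro ⟨h1, h2⟩
    exact ⟨h2, by omega⟩
  · rintro ⟨h1, h2⟩
    exact ⟨by omega, h1⟩

theorem mean_total {k : ℕ} {l l2 l3 : ℝ} (h : Par k l l2 l3) {H : ℕ} (hH : H ≤ HH l 3) :
    ∑ ω ∈ Om (2 ^ bb l l2 l3) (HH l 3), ((Sv (2 ^ bb l l2 l3) (zz l) ω.1 ω.2 H).card : ℝ) ≤
      2000 * H * (l2 ^ 2 / (l ^ 2 * l3)) * (Om (2 ^ bb l l2 l3) (HH l 3)).card := by
  classical
  obtain ⟨d1, d2⟩ := dens_bounds h
  have p1 := h.p1
  have p2 := h.p2
  have p3 : 0 < l3 := by linarith [h.h3]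
  obtain ⟨z1, hz1⟩ : ∃ z1 : ℕ, z1 = 2 ^ bb l l2 l3 := ⟨_, rfl⟩
  obtain ⟨M, hM⟩ : ∃ M : ℝ, M = pmod z1 := ⟨_, rfl⟩
  have hM0 : 0 ≤ M := by
    rw [hM]
    exact Nat.cast_nonneg _
  rw [Om_card]
  unfold Om Sv
  rw [← hz1] at d2 ⊢
  rw [sm_exch (Icc 1 (HH l 3)) (range (pmod z1)) (range H)
    (fun h j => ∀ ℓ ∈ medium z1 (zz l), ¬ j ≡ h [MOD ℓ])
    (fun b j => Nat.Coprime (b + j) (pmod z1))]
  have h1 : ∀ j ∈ range H, (((Icc 1 (HH l 3)).filter
      (fun h => ∀ ℓ ∈ medium z1 (zz l), ¬ j ≡ h [MOD ℓ])).card : ℝ) *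
      (((range (pmod z1)).filter (fun b => Nat.Coprime (b + j) (pmod z1))).card : ℝ) ≤
      (9 * ((3 : ℕ) + 5) * l2 / l * HH l 3) * (M * (16 * (l2 / (l * l3)))) := by
    intro j hj
    rw [mem_range] at hj
    have h2 := Par.small_le h 3 (q := j) (by omega)
    rw [← hz1] at h2
    have h3 := count_one z1 j
    rw [h3, ← hM]
    have h4 : M * dens z1 ≤ M * (16 * (l2 / (l * l3))) := mul_le_mul_of_nonneg_left d2 hM0
    have h5 : 0 ≤ M * dens z1 := by
      rw [hM, ← h3]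
      exact Nat.cast_nonneg _
    exact mul_le_mul h2 h4 h5 ((Nat.cast_nonneg _).trans h2)
  refine (sum_le_sum h1).trans ?_
  rw [sum_const, card_range, nsmul_eq_mul, ← hM]
  have h6 : (H : ℝ) * ((9 * ((3 : ℕ) + 5) * l2 / l * HH l 3) * (M * (16 * (l2 / (l * l3))))) =
      1152 * (H * (l2 ^ 2 / (l ^ 2 * l3)) * (HH l 3 * M)) := by
    push_cast
    field_simp
    ring
  rw [h6]
  have h7 : 0 ≤ H * (l2 ^ 2 / (l ^ 2 * l3)) * ((HH l 3 : ℝ) * M) := by positivity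
  have h8 : 2000 * (H : ℝ) * (l2 ^ 2 / (l ^ 2 * l3)) * (HH l 3 * M) =
      2000 * (H * (l2 ^ 2 / (l ^ 2 * l3)) * (HH l 3 * M)) := by ring
  rw [h8]
  linarith

private theorem sm_pv (z1 z2 X : ℕ) (C : Finset ℕ) :
    ∑ ω ∈ Om z1 X, ((Pv z1 z2 ω.1 ω.2 C).card : ℝ) =
      ∑ j ∈ C, (((Icc 1 X).filter (fun h => j < h ∧ (h - j).Prime ∧ z2 < h - j)).card : ℝ) *
        (pmod z1 * dens z1) := by
  classical
  unfold Om Pv
  rw [sm_exch (Icc 1 X) (range (pmod z1)) C (fun h j => j < h ∧ (h - j).Prime ∧ z2 < h - j)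
    (fun b j => Nat.Coprime (b + j) (pmod z1))]
  refine sum_congr rfl fun j _ => ?_
  rw [count_one z1 j]

private theorem sm_logHH {k : ℕ} {l l2 l3 : ℝ} (h : Par k l l2 l3) :
    l ≤ Real.log (HH l 3) ∧ Real.log (HH l 3) ≤ 2 * l := by
  obtain ⟨_, _, _, g1, g2, g3⟩ := h.facts
  obtain ⟨H1, H2, H3⟩ := h.HH_facts 3
  have hl1 : 1 ≤ l := by linarith
  constructor
  · have h1 := Real.log_le_log (Real.exp_pos l) H3
    rwa [Real.log_exp] at h1
  · have h2 : (HH l 3 : ℝ) ≤ Real.exp (2 * l) := by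
      refine H2.trans ?_
      have h3 : l ^ 3 ≤ l ^ 4 := pow_le_pow_right₀ hl1 (by norm_num)
      have h4 : Real.exp (l / 2) ≤ Real.exp l := Real.exp_le_exp.2 (by linarith)
      have h5 : l ^ 3 ≤ Real.exp l := h3.trans (h.grow.trans h4)
      calc Real.exp l * l ^ 3 ≤ Real.exp l * Real.exp l :=
            mul_le_mul_of_nonneg_left h5 (Real.exp_pos l).le
        _ = Real.exp (2 * l) := by
            rw [← Real.exp_add]
            congr 1
            ring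
    have h6 : (0 : ℝ) < HH l 3 := lt_of_lt_of_le (Real.exp_pos l) H3
    have h7 := Real.log_le_log h6 h2
    rwa [Real.log_exp] at h7

private theorem sm_cheb : ∃ N0 : ℕ, ∀ N : ℕ, N0 ≤ N →
    (N : ℝ) / 2 ≤ Nat.primeCounting N * Real.log N := by
  have h1 := (Real.isLittleO_log_id_atTop).bound (c := 1 / 20) (by norm_num)
  have h2 : Filter.Tendsto (fun k : ℕ => (k : ℝ) + 1) Filter.atTop Filter.atTop :=
    Filter.tendsto_atTop_add_const_right _ _ tendsto_natCast_atTop_atTop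
  obtain ⟨N1, hN1⟩ := Filter.eventually_atTop.1 (h2.eventually h1)
  refine ⟨max N1 2, fun N hN => ?_⟩
  have hk := hN1 N (le_trans (le_max_left _ _) hN)
  have hN2 : 2 ≤ N := le_trans (le_max_right _ _) hN
  have hN2' : (2 : ℝ) ≤ N := by exact_mod_cast hN2
  simp only [id] at hk
  rw [Real.norm_of_nonneg (Real.log_nonneg (by linarith)),
    Real.norm_of_nonneg (by linarith)] at hk
  have h3 := Chebyshev.pi_ge N
  have h4 : 0 < Real.log N := Real.log_pos (by linarith)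
  rw [div_le_iff₀ h4] at h3
  have h5 := Real.log_two_gt_d9
  refine le_trans ?_ h3
  nlinarith

theorem mean_low : ∃ c : ℝ, 0 < c ∧ ∃ k0 : ℕ, ∀ (k : ℕ) (l l2 l3 : ℝ), k0 ≤ k → Par k l l2 l3 →
    ∀ C : Finset ℕ, (∀ j ∈ C, 2 * j ≤ HH l 3) →
    c * (C.card * (l2 / (l ^ 2 * l3))) * (Om (2 ^ bb l l2 l3) (HH l 3)).card ≤
      ∑ ω ∈ Om (2 ^ bb l l2 l3) (HH l 3), ((Pv (2 ^ bb l l2 l3) (zz l) ω.1 ω.2 C).card : ℝ) := by
  classical
  obtain ⟨N0, hN0⟩ := sm_cheb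
  refine ⟨Real.exp (-9) / 32, by positivity, 2 * N0 + 4, fun k l l2 l3 hk h C hC => ?_⟩
  obtain ⟨e1, e2, e3, g1, g2, g3⟩ := h.facts
  obtain ⟨H1, H2, H3⟩ := h.HH_facts 3
  obtain ⟨q1, q2⟩ := sm_logHH h
  obtain ⟨_, zf2, _⟩ := h.zz_facts
  obtain ⟨d1, d2⟩ := dens_bounds h
  have p1 := h.p1
  have p2 := h.p2
  have p3 : 0 < l3 := by linarith [h.h3]
  have hl32 : 32 ≤ l := by linarith
  obtain ⟨z1, hz1⟩ : ∃ z1 : ℕ, z1 = 2 ^ bb l l2 l3 := ⟨_, rfl⟩
  obtain ⟨X, hX⟩ : ∃ X : ℕ, X = HH l 3 := ⟨_, rfl⟩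
  rw [Om_card, sm_pv]
  rw [← hz1] at d1 ⊢
  rw [← hX] at q1 q2 H1 H2 H3 hC ⊢
  have hX4 : 4 ≤ X := by omega
  have hX4' : (4 : ℝ) ≤ X := by exact_mod_cast hX4
  -- the number of primes
  have hcount : ∀ j ∈ C, (X : ℝ) / (32 * l) ≤
      (((Icc 1 X).filter (fun h => j < h ∧ (h - j).Prime ∧ zz l < h - j)).card : ℝ) := by
    intro j hj
    have hj2 := hC j hj
    obtain ⟨N, hN⟩ : ∃ N : ℕ, N = X / 2 := ⟨_, rfl⟩
    have h1 : (prs N \ Icc 1 (zz l)).card ≤
        ((Icc 1 X).filter (fun h => j < h ∧ (h - j).Prime ∧ zz l < h - j)).card := by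
      refine card_le_card_of_injOn (fun p => p + j) ?_ ?_
      · intro p hp
        rw [mem_coe, mem_sdiff, mem_prs, mem_Icc] at hp
        obtain ⟨⟨hp1, hp2⟩, hp3⟩ := hp
        have hp4 := hp1.two_le
        rw [mem_coe, mem_filter, mem_Icc]
        show (1 ≤ p + j ∧ p + j ≤ X) ∧ j < p + j ∧ (p + j - j).Prime ∧ zz l < p + j - j
        have hp5 : p + j - j = p := by omega
        rw [hp5]
        exact ⟨⟨by omega, by omega⟩, by omega, hp1, by omega⟩
      · intro p _ p' _ hpp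
        have h2 : p + j = p' + j := hpp
        omega
    have h2 : (prs N).card ≤ (prs N \ Icc 1 (zz l)).card + zz l := by
      have h3 := card_le_card_sdiff_add_card (s := prs N) (t := Icc 1 (zz l))
      rw [Nat.card_Icc] at h3
      omega
    have h3 : ((prs N).card : ℝ) - zz l ≤
        (((Icc 1 X).filter (fun h => j < h ∧ (h - j).Prime ∧ zz l < h - j)).card : ℝ) := by
      have h4 : ((prs N).card : ℝ) ≤
          (((Icc 1 X).filter (fun h => j < h ∧ (h - j).Prime ∧ zz l < h - j)).card : ℝ) + zz l := by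
        exact_mod_cast h2.trans (Nat.add_le_add_right h1 _)
      linarith
    refine le_trans ?_ h3
    have hNlow : (X : ℝ) / 4 ≤ N := by
      have h4 : X ≤ 2 * N + 1 := by omega
      have h5 : (X : ℝ) ≤ 2 * N + 1 := by exact_mod_cast h4
      linarith
    have hNX : (N : ℝ) ≤ X := by exact_mod_cast (by omega : N ≤ X)
    have hNpos : (0 : ℝ) < N := by linarith
    have h5 := hN0 N (by omega)
    rw [sm_pc] at h5
    have h6 : Real.log N ≤ 2 * l := (Real.log_le_log hNpos hNX).trans q2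
    have h7 : (N : ℝ) / 2 ≤ (prs N).card * (2 * l) :=
      h5.trans (mul_le_mul_of_nonneg_left h6 (Nat.cast_nonneg _))
    have h8 : (X : ℝ) / (16 * l) ≤ (prs N).card := by
      rw [div_le_iff₀ (by positivity)]
      linarith
    have h9 : (zz l : ℝ) ≤ X / (32 * l) := by
      refine zf2.trans ?_
      rw [div_le_div_iff₀ (by positivity) (by positivity)]
      have h10 : 32 * l ≤ l ^ 2 := by nlinarith
      exact mul_le_mul H3 h10 (by positivity) (Nat.cast_nonneg _)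
    have h10 : (X : ℝ) / (16 * l) = X / (32 * l) + X / (32 * l) := by
      field_simp
      ring
    linarith
  have hM0 : (0 : ℝ) ≤ pmod z1 := Nat.cast_nonneg _
  have hd : (pmod z1 : ℝ) * (Real.exp (-9) * (l2 / (l * l3))) ≤ pmod z1 * dens z1 :=
    mul_le_mul_of_nonneg_left d1 hM0
  have hX0 : (0 : ℝ) ≤ X / (32 * l) := by positivity
  have hsum : ∑ j ∈ C, (X : ℝ) / (32 * l) * (pmod z1 * (Real.exp (-9) * (l2 / (l * l3)))) ≤
      ∑ j ∈ C, (((Icc 1 X).filter (fun h => j < h ∧ (h - j).Prime ∧ zz l < h - j)).card : ℝ) *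
        (pmod z1 * dens z1) := by
    refine sum_le_sum fun j hj => ?_
    exact mul_le_mul (hcount j hj) hd (by positivity) (Nat.cast_nonneg _)
  refine le_trans (le_of_eq ?_) hsum
  rw [sum_const, nsmul_eq_mul]
  field_simp

theorem mean_up {k : ℕ} {l l2 l3 : ℝ} (h : Par k l l2 l3) (C : Finset ℕ) :
    ∑ ω ∈ Om (2 ^ bb l l2 l3) (HH l 3), ((Pv (2 ^ bb l l2 l3) (zz l) ω.1 ω.2 C).card : ℝ) ≤
      100 * (C.card * (l2 / (l ^ 2 * l3))) * (Om (2 ^ bb l l2 l3) (HH l 3)).card := by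
  classical
  obtain ⟨e1, e2, e3, g1, g2, g3⟩ := h.facts
  obtain ⟨H1, H2, H3⟩ := h.HH_facts 3
  obtain ⟨q1, q2⟩ := sm_logHH h
  obtain ⟨d1, d2⟩ := dens_bounds h
  have p1 := h.p1
  have p2 := h.p2
  have p3 : 0 < l3 := by linarith [h.h3]
  obtain ⟨z1, hz1⟩ : ∃ z1 : ℕ, z1 = 2 ^ bb l l2 l3 := ⟨_, rfl⟩
  obtain ⟨X, hX⟩ : ∃ X : ℕ, X = HH l 3 := ⟨_, rfl⟩
  rw [Om_card, sm_pv]
  rw [← hz1] at d1 d2 ⊢
  rw [← hX] at q1 q2 H1 H2 H3 ⊢
  have hX1 : (1 : ℝ) ≤ X := by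
    have := Real.add_one_le_exp l
    linarith
  -- the number of primes
  have hpc : ((prs X).card : ℝ) ≤ 2 * X / l := by
    have h1 := h.cheb (X : ℝ) (by
      have h2 : Real.exp (l / 2) ≤ Real.exp l := Real.exp_le_exp.2 (by linarith)
      linarith)
    rw [Nat.floor_natCast, sm_pc] at h1
    refine h1.trans ?_
    exact div_le_div_of_nonneg_left (by linarith) p1 q1
  have hcount : ∀ j ∈ C,
      (((Icc 1 X).filter (fun h => j < h ∧ (h - j).Prime ∧ zz l < h - j)).card : ℝ) ≤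
        2 * X / l := by
    intro j _
    refine le_trans ?_ hpc
    have h1 : ((Icc 1 X).filter (fun h => j < h ∧ (h - j).Prime ∧ zz l < h - j)).card ≤
        (prs X).card := by
      refine card_le_card_of_injOn (fun h => h - j) ?_ ?_
      · intro p hp
        rw [mem_coe, mem_filter, mem_Icc] at hp
        rw [mem_coe, mem_prs]
        show (p - j).Prime ∧ p - j ≤ X
        exact ⟨hp.2.2.1, by omega⟩
      · intro p hp p' hp' hpp
        rw [mem_coe, mem_filter] at hp hp'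
        have h2 : p - j = p' - j := hpp
        have h3 := hp.2.1
        have h4 := hp'.2.1
        omega
    exact_mod_cast h1
  have hM0 : (0 : ℝ) ≤ pmod z1 := Nat.cast_nonneg _
  have hd : (pmod z1 : ℝ) * dens z1 ≤ pmod z1 * (16 * (l2 / (l * l3))) :=
    mul_le_mul_of_nonneg_left d2 hM0
  have hd0 : 0 ≤ (pmod z1 : ℝ) * dens z1 := by
    rw [← count_one z1 0]
    exact Nat.cast_nonneg _
  have hsum : ∑ j ∈ C, (((Icc 1 X).filter
      (fun h => j < h ∧ (h - j).Prime ∧ zz l < h - j)).card : ℝ) * (pmod z1 * dens z1) ≤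
      ∑ j ∈ C, (2 * X / l) * ((pmod z1 : ℝ) * (16 * (l2 / (l * l3)))) := by
    refine sum_le_sum fun j hj => ?_
    exact mul_le_mul (hcount j hj) hd hd0 (by positivity)
  refine hsum.trans ?_
  rw [sum_const, nsmul_eq_mul]
  have h6 : (C.card : ℝ) * ((2 * X / l) * ((pmod z1 : ℝ) * (16 * (l2 / (l * l3))))) =
      32 * (C.card * (l2 / (l ^ 2 * l3)) * (X * pmod z1)) := by
    field_simp
    ring
  rw [h6]
  have h7 : 0 ≤ (C.card : ℝ) * (l2 / (l ^ 2 * l3)) * (X * pmod z1) := by positivity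
  have h8 : 100 * ((C.card : ℝ) * (l2 / (l ^ 2 * l3))) * (X * pmod z1) =
      100 * (C.card * (l2 / (l ^ 2 * l3)) * (X * pmod z1)) := by ring
  rw [h8]
  linarith

end Pool.Agent.REC
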