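import Pool.Agent.REC.SsDef
import Pool.Agent.Helper24.PairBound
import Pool.Agent.RW.Avg

/-! REC/SsPair.  Pairs.

* `pair_h`: for `j' < j`, `d = j - j'`: `p = h - j` and `p + d = h - j'` are both primes `> z2 ≥ 2`, so `d` is even;
`card_prime_pairs_explicit` (Helper24/PrimePairs) with `x = HH`, and `eventually_level` (Helper24/PairBound).
* `pair_b`: the classes `b` modulo `pmod z` are counted by the Chinese remainder theorem; the factor at `p` is
`p - ν_p`, `ν_p = 1` if `p ∣ j - j'`, else `2`; `1 - 2/p ≤ (1 - 1/p)^2`. -/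

set_option autoImplicit false

namespace Pool.Agent.REC

open Finset Pool.Agent.Helper9.GW

private theorem pair_lt {H z d j j' : ℕ} (hz : 2 ≤ z) (hj : j' + d = j) :
    ((Icc 1 H).filter (fun h => (j < h ∧ (h - j).Prime ∧ z < h - j) ∧
      (j' < h ∧ (h - j').Prime ∧ z < h - j'))).card ≤
      if Even d then ((Nat.primesLE H).filter (fun p => (p + d).Prime)).card else 0 := by
  split_ifs with he
  · refine card_le_card_of_injOn (fun h => h - j) ?_ ?_
    · intro h hh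
      rw [mem_coe, mem_filter, mem_Icc] at hh
      obtain ⟨⟨h1, h2⟩, ⟨h3, h4, h5⟩, h6, h7, h8⟩ := hh
      show h - j ∈ _
      rw [mem_coe, mem_filter, Nat.mem_primesLE]
      refine ⟨⟨by omega, h4⟩, ?_⟩
      have h9 : h - j + d = h - j' := by omega
      rw [h9]
      exact h7
    · intro h hh g hg hhg
      rw [mem_coe, mem_filter, mem_Icc] at hh hg
      have h1 := hh.2.1.1
      have h2 := hg.2.1.1
      have h3 : h - j = g - j := hhg
      omega
  · rw [Nat.le_zero, card_eq_zero, filter_eq_empty_iff]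
    rintro h - ⟨⟨h3, h4, h5⟩, h6, h7, h8⟩
    apply he
    have o1 : Odd (h - j) := h4.odd_of_ne_two (by omega)
    have o2 : Odd (h - j') := h7.odd_of_ne_two (by omega)
    have h9 : d = (h - j') - (h - j) := by omega
    rw [h9]
    exact Nat.Odd.sub_odd o2 o1

private theorem one_le_prodP (d : ℕ) : (1 : ℝ) ≤ ∏ p ∈ d.primeFactors, (1 + 1 / (p : ℝ)) := by
  have h : ∏ p ∈ d.primeFactors, (1 : ℝ) ≤ ∏ p ∈ d.primeFactors, (1 + 1 / (p : ℝ)) := by
    refine prod_le_prod (fun _ _ => by norm_num) fun p _ => ?_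
    have : (0 : ℝ) ≤ 1 / (p : ℝ) := by positivity
    linarith
  rwa [prod_const_one] at h

private theorem pair_h_lt {k : ℕ} {l l2 l3 : ℝ} (hP : Par k l l2 l3)
    (hlev : ∃ Z : ℕ, 2 ≤ Z ∧ Real.log (HH l 3 : ℕ) / 25 ≤ Real.log Z ∧
      2 * (Z : ℝ) ^ 12 ≤ (HH l 3 : ℕ) / (Real.log (HH l 3 : ℕ)) ^ 2) {j j' : ℕ} (hj : j' < j) :
    ((((Icc 1 (HH l 3)).filter (fun h => (j < h ∧ (h - j).Prime ∧ zz l < h - j) ∧
      (j' < h ∧ (h - j').Prime ∧ zz l < h - j'))).card : ℕ) : ℝ) ≤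
      2501 * (HH l 3 / l ^ 2) * ∏ p ∈ (j - j').primeFactors, (1 + 1 / (p : ℝ)) := by
  obtain ⟨e1, e2, e3, g1, g2, g3⟩ := hP.facts
  obtain ⟨H1, H2, H3⟩ := hP.HH_facts 3
  obtain ⟨z1, z2, z3⟩ := hP.zz_facts
  have p1 := hP.p1
  have hl1 : 2 ≤ l := by linarith
  have hz2 : 2 ≤ zz l := by
    have h1 : (2 : ℝ) ≤ zz l := by
      have := Real.add_one_le_exp (l / 2)
      linarith
    exact_mod_cast h1
  have hH0 : (0 : ℝ) < HH l 3 := lt_of_lt_of_le (Real.exp_pos _) H3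
  have hlog : l ≤ Real.log (HH l 3) := by
    rw [Real.le_log_iff_exp_le hH0]
    exact H3
  have h0 := pair_lt (H := HH l 3) (z := zz l) (d := j - j') (j := j) (j' := j') hz2 (by omega)
  have hP1 := one_le_prodP (j - j')
  generalize hPdef : ∏ p ∈ (j - j').primeFactors, (1 + 1 / (p : ℝ)) = P at hP1
  have hrhs : 0 ≤ 2501 * ((HH l 3 : ℝ) / l ^ 2) * P := by positivity
  split_ifs at h0 with he
  · obtain ⟨Z, hZ2, hZlog, hZ12⟩ := hlev
    have h1 := Helper24.card_prime_pairs_explicit he (by omega) (HH l 3) Z hZ2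
    rw [hPdef] at h1
    have h2 : ((((Icc 1 (HH l 3)).filter (fun h => (j < h ∧ (h - j).Prime ∧ zz l < h - j) ∧
      (j' < h ∧ (h - j').Prime ∧ zz l < h - j'))).card : ℕ) : ℝ) ≤
      (((Nat.primesLE (HH l 3)).filter (fun p => (p + (j - j')).Prime)).card : ℝ) := by
      exact_mod_cast h0
    refine h2.trans (h1.trans ?_)
    have hlZ : l / 25 ≤ Real.log Z := by linarith
    have hlZ0 : 0 < l / 25 := by positivity
    have h3 : 4 * (HH l 3 : ℝ) * P / Real.log Z ^ 2 ≤ 4 * (HH l 3 : ℝ) * P / (l / 25) ^ 2 := by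
      apply div_le_div_of_nonneg_left (by positivity) (by positivity)
      exact pow_le_pow_left₀ hlZ0.le hlZ 2
    have h4 : 2 * (Z : ℝ) ^ 12 ≤ (HH l 3 : ℝ) / l ^ 2 := by
      refine hZ12.trans ?_
      apply div_le_div_of_nonneg_left hH0.le (by positivity)
      exact pow_le_pow_left₀ p1.le hlog 2
    have h5 : 4 * (HH l 3 : ℝ) * P / (l / 25) ^ 2 = 2500 * ((HH l 3 : ℝ) / l ^ 2) * P := by
      field_simp
      ring
    have h6 : (HH l 3 : ℝ) / l ^ 2 ≤ (HH l 3 : ℝ) / l ^ 2 * P :=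
      le_mul_of_one_le_right (by positivity) hP1
    rw [h5] at h3
    linarith
  · have h1 : ((Icc 1 (HH l 3)).filter (fun h => (j < h ∧ (h - j).Prime ∧ zz l < h - j) ∧
      (j' < h ∧ (h - j').Prime ∧ zz l < h - j'))).card = 0 := Nat.le_zero.1 h0
    rw [h1, Nat.cast_zero]
    exact hrhs

theorem pair_h : ∃ C : ℝ, 0 < C ∧ ∃ k0 : ℕ, ∀ (k : ℕ) (l l2 l3 : ℝ), k0 ≤ k → Par k l l2 l3 →
    ∀ j j' : ℕ, j ≠ j' → j ≤ HH l 3 → j' ≤ HH l 3 →
    ((((Icc 1 (HH l 3)).filter (fun h => (j < h ∧ (h - j).Prime ∧ zz l < h - j) ∧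
      (j' < h ∧ (h - j').Prime ∧ zz l < h - j'))).card : ℕ) : ℝ) ≤
      C * (HH l 3 / l ^ 2) * ∏ p ∈ (max j j' - min j j').primeFactors, (1 + 1 / (p : ℝ)) := by
  obtain ⟨k0, hk0⟩ := Filter.eventually_atTop.1 Helper24.eventually_level
  refine ⟨2501, by norm_num, k0, ?_⟩
  intro k l l2 l3 hk hP j j' hne _ _
  have hlev := hk0 (HH l 3) (hk.trans (hP.HH_facts 3).1)
  rcases lt_or_gt_of_ne hne with h | h
  · have h1 := pair_h_lt hP hlev h
    rw [max_eq_right h.le, min_eq_left h.le]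
    refine le_trans (le_of_eq ?_) h1
    congr 2
    ext x
    rw [mem_filter, mem_filter]
    constructor
    · rintro ⟨h1, h2, h3⟩
      exact ⟨h1, h3, h2⟩
    · rintro ⟨h1, h2, h3⟩
      exact ⟨h1, h3, h2⟩
  · have h1 := pair_h_lt hP hlev h
    rw [max_eq_left h.le, min_eq_right h.le]
    exact h1

private theorem crt_sum (S : Finset ℕ) (hS : ∀ p ∈ S, p.Prime) (F : ℕ → ℕ → ℝ)
    (hF : ∀ p ∈ S, ∀ t, F p (t % p) = F p t) :
    ∑ t ∈ range (∏ p ∈ S, p), ∏ p ∈ S, F p t = ∏ p ∈ S, ∑ u ∈ range p, F p u := by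
  have ne1 : ∀ i : S, NeZero (i : ℕ) := fun i => ⟨(hS i i.2).ne_zero⟩
  have hQ0 : 0 < ∏ i : S, (i : ℕ) := prod_pos fun i _ => (hS i i.2).pos
  have ne2 : NeZero (∏ i : S, (i : ℕ)) := ⟨hQ0.ne'⟩
  have hcp : Pairwise (Function.onFun Nat.Coprime (fun i : S => (i : ℕ))) := by
    intro i j hij
    exact (Nat.coprime_primes (hS i i.2) (hS j j.2)).2 (fun h => hij (Subtype.ext h))
  have hcrt := RW.sum_prod_crt (fun i : S => (i : ℕ)) hcp (fun i x => F i x.val)
  have hper := RW.sum_period (q := ∏ i : S, (i : ℕ))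
    (fun y => ∏ i : S, F i (ZMod.castHom (dvd_prod_of_mem (fun i : S => (i : ℕ)) (mem_univ i))
      (ZMod (i : ℕ)) y).val) (M := 1) (Nat.coprime_one_left _) 0
  rw [hcrt] at hper
  have e1 : ∑ t ∈ range (∏ i : S, (i : ℕ)), (fun y : ZMod (∏ i : S, (i : ℕ)) => ∏ i : S, F i
      (ZMod.castHom (dvd_prod_of_mem (fun i : S => (i : ℕ)) (mem_univ i)) (ZMod (i : ℕ)) y).val)
      ((0 + (1 : ℕ) * (t : ℕ) : ℤ) : ZMod (∏ i : S, (i : ℕ))) =
      ∑ t ∈ range (∏ i : S, (i : ℕ)), ∏ p ∈ S, F p t := by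
    refine sum_congr rfl fun t _ => ?_
    rw [← prod_coe_sort S]
    refine prod_congr rfl fun i _ => ?_
    have h0 : (((0 + (1 : ℕ) * (t : ℕ) : ℤ)) : ZMod (∏ i : S, (i : ℕ))) = (t : ℕ) := by
      push_cast
      ring
    rw [h0, map_natCast, ZMod.val_natCast]
    exact hF i i.2 t
  have e2 : ∀ i : S, ∑ x : ZMod (i : ℕ), F i x.val = ∑ u ∈ range (i : ℕ), F i u := by
    intro i
    refine sum_bij (fun (y : ZMod (i : ℕ)) _ => y.val) ?_ ?_ ?_ ?_
    · intro y _
      exact mem_range.2 (ZMod.val_lt y)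
    · intro y _ y' _ h
      exact ZMod.val_injective _ h
    · intro t ht
      exact ⟨(t : ZMod (i : ℕ)), mem_univ _, ZMod.val_cast_of_lt (mem_range.1 ht)⟩
    · intro y _
      rfl
  rw [e1, prod_congr rfl fun i _ => e2 i,
    prod_coe_sort S (fun i => ∑ u ∈ range i, F i u)] at hper
  have e3 : ∏ i : S, (i : ℕ) = ∏ p ∈ S, p := prod_coe_sort S (fun i => i)
  rw [e3] at hper
  exact hper

private theorem cls {p : ℕ} (hp : 0 < p) (j : ℕ) : ∃ u ∈ range p, p ∣ u + j := by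
  refine ⟨(p - j % p) % p, mem_range.2 (Nat.mod_lt _ hp), ?_⟩
  have h1 : j % p < p := Nat.mod_lt _ hp
  have h2 : (p - j % p) + j % p = p := by omega
  have h3 : (p - j % p) % p + j ≡ (p - j % p) + j % p [MOD p] :=
    Nat.ModEq.add (Nat.mod_modEq _ _) (Nat.mod_modEq _ _).symm
  rw [h2] at h3
  exact (Nat.modEq_zero_iff_dvd).1 (h3.trans ((Nat.modEq_zero_iff_dvd).2 dvd_rfl))

private theorem loc_count {p : ℕ} (hp : p.Prime) {j j' : ℕ} :
    ((((range p).filter (fun u => ¬ p ∣ u + j ∧ ¬ p ∣ u + j')).card : ℕ) : ℝ) ≤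
      p * ((1 - 1 / (p : ℝ)) ^ 2 *
        (if p ∣ max j j' - min j j' then (1 - 1 / (p : ℝ))⁻¹ else 1)) := by
  have hp2 : (2 : ℝ) ≤ p := by exact_mod_cast hp.two_le
  have hp0 : (0 : ℝ) < p := by linarith
  have hq : (0 : ℝ) < 1 - 1 / (p : ℝ) := by
    rw [sub_pos, div_lt_one hp0]
    linarith
  obtain ⟨u, hu, hu2⟩ := cls hp.pos j
  obtain ⟨v, hv, hv2⟩ := cls hp.pos j'
  have hsub : (range p).filter (fun u => ¬ p ∣ u + j ∧ ¬ p ∣ u + j') ⊆ ((range p).erase u).erase v := by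
    intro x hx
    rw [mem_filter] at hx
    rw [mem_erase, mem_erase]
    refine ⟨?_, ?_, hx.1⟩
    · rintro rfl
      exact hx.2.2 hv2
    · rintro rfl
      exact hx.2.1 hu2
  have hcard := card_le_card hsub
  split_ifs with hd
  · have h1 : (((range p).erase u).erase v).card ≤ p - 1 := by
      refine (card_le_card (erase_subset _ _)).trans ?_
      rw [card_erase_of_mem hu, card_range]
    have h2 : ((((range p).filter (fun u => ¬ p ∣ u + j ∧ ¬ p ∣ u + j')).card : ℕ) : ℝ) ≤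
        (p : ℝ) - 1 := by
      have h3 := hcard.trans h1
      have h4 := hp.one_lt
      have h5 : ((range p).filter (fun u => ¬ p ∣ u + j ∧ ¬ p ∣ u + j')).card + 1 ≤ p := by omega
      have h6 : ((((range p).filter (fun u => ¬ p ∣ u + j ∧ ¬ p ∣ u + j')).card : ℕ) : ℝ) + 1 ≤ p := by
        exact_mod_cast h5
      linarith
    refine h2.trans (le_of_eq ?_)
    have h7 : (1 - 1 / (p : ℝ)) ^ 2 * (1 - 1 / (p : ℝ))⁻¹ = 1 - 1 / (p : ℝ) := by
      rw [sq, mul_assoc, mul_inv_cancel₀ hq.ne', mul_one]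
    rw [h7]
    field_simp
  · have huv : v ≠ u := by
      rintro rfl
      apply hd
      rcases le_total j j' with h | h
      · rw [max_eq_right h, min_eq_left h]
        have h1 := Nat.dvd_sub hv2 hu2
        have h2 : v + j' - (v + j) = j' - j := by omega
        rwa [h2] at h1
      · rw [max_eq_left h, min_eq_right h]
        have h1 := Nat.dvd_sub hu2 hv2
        have h2 : v + j - (v + j') = j - j' := by omega
        rwa [h2] at h1
    have h1 : (((range p).erase u).erase v).card = p - 1 - 1 := by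
      rw [card_erase_of_mem (mem_erase.2 ⟨huv, hv⟩), card_erase_of_mem hu, card_range]
    have h2 : ((((range p).filter (fun u => ¬ p ∣ u + j ∧ ¬ p ∣ u + j')).card : ℕ) : ℝ) ≤
        (p : ℝ) - 2 := by
      have h3 := hcard
      rw [h1] at h3
      have h4 := hp.two_le
      have h5 : ((range p).filter (fun u => ¬ p ∣ u + j ∧ ¬ p ∣ u + j')).card + 2 ≤ p := by omega
      have h6 : ((((range p).filter (fun u => ¬ p ∣ u + j ∧ ¬ p ∣ u + j')).card : ℕ) : ℝ) + 2 ≤ p := by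
        exact_mod_cast h5
      linarith
    refine h2.trans ?_
    have h7 : (p : ℝ) * ((1 - 1 / (p : ℝ)) ^ 2 * 1) = p - 2 + 1 / p := by
      field_simp
      ring
    rw [h7]
    have : (0 : ℝ) ≤ 1 / (p : ℝ) := by positivity
    linarith

theorem pair_b (z j j' : ℕ) (hj : j ≠ j') :
    ((((range (pmod z)).filter (fun b => Nat.Coprime (b + j) (pmod z) ∧
      Nat.Coprime (b + j') (pmod z))).card : ℕ) : ℝ) ≤
      pmod z * dens z ^ 2 * ∏ p ∈ (max j j' - min j j').primeFactors, (1 - 1 / (p : ℝ))⁻¹ := by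
  have hd0 : max j j' - min j j' ≠ 0 := by
    rcases lt_or_gt_of_ne hj with h | h
    · rw [max_eq_right h.le, min_eq_left h.le]
      omega
    · rw [max_eq_left h.le, min_eq_right h.le]
      omega
  have hpr : ∀ p ∈ prs z, p.Prime := fun p hp => (mem_prs.1 hp).1
  have hq : ∀ p : ℕ, p.Prime → (0 : ℝ) < 1 - 1 / (p : ℝ) ∧ 1 ≤ (1 - 1 / (p : ℝ))⁻¹ := by
    intro p hp
    have hp2 : (2 : ℝ) ≤ p := by exact_mod_cast hp.two_le
    have h1 : (0 : ℝ) < 1 - 1 / (p : ℝ) := by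
      rw [sub_pos, div_lt_one (by linarith)]
      linarith
    refine ⟨h1, (one_le_inv₀ h1).2 ?_⟩
    have : (0 : ℝ) ≤ 1 / (p : ℝ) := by positivity
    linarith
  have hcop : ∀ x : ℕ, Nat.Coprime x (pmod z) ↔ ∀ p ∈ prs z, ¬ p ∣ x := by
    intro x
    unfold pmod
    rw [Nat.coprime_prod_right_iff]
    refine forall₂_congr fun p hp => ?_
    rw [Nat.coprime_comm, (hpr p hp).coprime_iff_not_dvd]
  have h1 : ((((range (pmod z)).filter (fun b => Nat.Coprime (b + j) (pmod z) ∧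
      Nat.Coprime (b + j') (pmod z))).card : ℕ) : ℝ) =
      ∑ t ∈ range (∏ p ∈ prs z, p), ∏ p ∈ prs z,
        (if ¬ p ∣ t + j ∧ ¬ p ∣ t + j' then (1 : ℝ) else 0) := by
    rw [card_filter]
    push_cast
    refine sum_congr rfl fun t _ => ?_
    by_cases h : Nat.Coprime (t + j) (pmod z) ∧ Nat.Coprime (t + j') (pmod z)
    · rw [if_pos h, prod_eq_one]
      intro p hp
      exact if_pos ⟨(hcop _).1 h.1 p hp, (hcop _).1 h.2 p hp⟩
    · rw [if_neg h]
      symm
      have h2 : ∃ p ∈ prs z, ¬ (¬ p ∣ t + j ∧ ¬ p ∣ t + j') := by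
        by_contra hc
        push Not at hc
        apply h
        exact ⟨(hcop _).2 fun p hp => (hc p hp).1, (hcop _).2 fun p hp => (hc p hp).2⟩
      obtain ⟨p, hp, hp2⟩ := h2
      exact prod_eq_zero hp (if_neg hp2)
  rw [h1, crt_sum (prs z) hpr (fun p t => if ¬ p ∣ t + j ∧ ¬ p ∣ t + j' then (1 : ℝ) else 0) (by
    intro p _ t
    have h2 : ∀ i, (p ∣ t % p + i ↔ p ∣ t + i) := by
      intro i
      rw [Nat.dvd_iff_mod_eq_zero, Nat.dvd_iff_mod_eq_zero, Nat.mod_add_mod]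
    simp only [h2])]
  have h2 : ∀ p ∈ prs z, ∑ u ∈ range p, (if ¬ p ∣ u + j ∧ ¬ p ∣ u + j' then (1 : ℝ) else 0) ≤
      p * ((1 - 1 / (p : ℝ)) ^ 2 *
        (if p ∣ max j j' - min j j' then (1 - 1 / (p : ℝ))⁻¹ else 1)) := by
    intro p hp
    have h3 := loc_count (hpr p hp) (j := j) (j' := j')
    rw [card_filter] at h3
    push_cast at h3
    exact h3
  refine (prod_le_prod (fun p _ => sum_nonneg fun u _ => by split_ifs <;> norm_num) h2).trans ?_
  rw [prod_mul_distrib, prod_mul_distrib, prod_pow]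
  have h3 : ∏ p ∈ prs z, (p : ℝ) = (pmod z : ℝ) := by
    unfold pmod
    push_cast
    rfl
  rw [h3, ← mul_assoc]
  have hden : ∏ p ∈ prs z, (1 - 1 / (p : ℝ)) = dens z := rfl
  rw [hden]
  refine mul_le_mul_of_nonneg_left ?_ (by positivity)
  rw [← prod_filter]
  have hsub : (prs z).filter (fun p => p ∣ max j j' - min j j') ⊆
      (max j j' - min j j').primeFactors := by
    intro p hp
    rw [mem_filter] at hp
    exact Nat.mem_primeFactors.2 ⟨hpr p hp.1, hp.2, hd0⟩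
  rw [← prod_sdiff hsub]
  refine le_mul_of_one_le_left (prod_nonneg fun p hp => ?_) ?_
  · rw [mem_filter] at hp
    exact le_trans zero_le_one (hq p (hpr p hp.1)).2
  · have h4 : ∏ p ∈ (max j j' - min j j').primeFactors \
        (prs z).filter (fun p => p ∣ max j j' - min j j'), (1 : ℝ) ≤
        ∏ p ∈ (max j j' - min j j').primeFactors \
        (prs z).filter (fun p => p ∣ max j j' - min j j'), (1 - 1 / (p : ℝ))⁻¹ := by
      refine prod_le_prod (fun _ _ => by norm_num) fun p hp => ?_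
      exact (hq p (Nat.prime_of_mem_primeFactors (mem_sdiff.1 hp).1)).2
    rwa [prod_const_one] at h4

end Pool.Agent.REC
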