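import Pool.Agent.REC.SsMean
import Pool.Agent.REC.SsPair
import Pool.Agent.REC.AvgPhi

/-! REC/SsSec.  Second moment of the number of prime survivors in an interval.

PLAN.  `|Pv|^2 = ∑_{j,j'} [both]`; diagonal: `mean_up`.  Off the diagonal exchange the sums: for fixed `j ≠ j'` the number of pairs
`(h, b)` is the product of the two counts (`Finset.filter_product`-type), `pair_h`, `pair_b`, `dens_bounds`:
`≤ C HH/l^2 * pmod z1 * 256 (l2/(l l3))^2 * w(|j - j'|)`, `w d` = the two products over `d.primeFactors`; every `d` occurs for at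
most `2E` pairs of `Ico u (u + E)`: `∑_{j ≠ j'} w ≤ 2 E ∑_{d ≤ E} w d ≤ 2 e^2 E^2` (`avg_phi`).  With
`e = E l2/(l^2 l3)`: `l^(-2) (l2/(l l3))^2 E^2 = e^2`. -/

set_option autoImplicit false

namespace Pool.Agent.REC

open Finset Pool.Agent.Helper9.GW

/-- the weight of a difference -/
private noncomputable def ww (d : ℕ) : ℝ :=
  (∏ p ∈ d.primeFactors, (1 + 1 / (p : ℝ))) * ∏ p ∈ d.primeFactors, (1 - 1 / (p : ℝ))⁻¹

private theorem ww_nonneg (d : ℕ) : 0 ≤ ww d := by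
  unfold ww
  refine mul_nonneg (prod_nonneg fun p _ => by positivity) (prod_nonneg fun p hp => ?_)
  have h1 : (1 : ℝ) ≤ p := by exact_mod_cast (Nat.prime_of_mem_primeFactors hp).one_lt.le
  have h2 : 1 / (p : ℝ) ≤ 1 := by
    rw [div_le_one (by linarith)]
    exact h1
  exact inv_nonneg.2 (by linarith)

private theorem half_sum (f : ℕ → ℕ) (S : Finset ℕ) (E : ℕ)
    (hinj : ∀ x ∈ S, ∀ y ∈ S, f x = f y → x = y) (hm : ∀ x ∈ S, f x ∈ Icc 1 E) :
    ∑ x ∈ S, ww (f x) ≤ Real.exp 2 * E := by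
  rw [← sum_image (f := ww) (g := f) (fun x hx y hy h => hinj x hx y hy h)]
  refine (sum_le_sum_of_subset_of_nonneg ?_ fun d _ _ => ww_nonneg d).trans (avg_phi E)
  intro d hd
  obtain ⟨x, hx, rfl⟩ := mem_image.1 hd
  exact hm x hx

private theorem pairs_sum (u E : ℕ) :
    ∑ q ∈ (Ico u (u + E)).offDiag, ww (max q.1 q.2 - min q.1 q.2) ≤
      2 * Real.exp 2 * (E : ℝ) ^ 2 := by
  have h1 : (Ico u (u + E)).offDiag =
      ((Ico u (u + E)) ×ˢ (Ico u (u + E))).filter (fun q => q.1 ≠ q.2) := by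
    ext q
    rw [mem_offDiag, mem_filter, mem_product]
    tauto
  rw [h1, sum_filter, sum_product]
  have h2 : ∀ j ∈ Ico u (u + E), ∑ j' ∈ Ico u (u + E),
      (if j ≠ j' then ww (max j j' - min j j') else 0) ≤ 2 * (Real.exp 2 * E) := by
    intro j hj
    rw [mem_Ico] at hj
    have h3 : ∀ j' ∈ Ico u (u + E), (if j ≠ j' then ww (max j j' - min j j') else 0) =
        (if j' < j then ww (j - j') else 0) + (if j < j' then ww (j' - j) else 0) := by
      intro j' _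
      rcases lt_trichotomy j j' with h | h | h
      · rw [if_pos h.ne, if_neg (by omega), if_pos h, max_eq_right h.le, min_eq_left h.le,
          zero_add]
      · subst h
        simp
      · rw [if_pos h.ne', if_pos h, if_neg (by omega), max_eq_left h.le, min_eq_right h.le,
          add_zero]
    rw [sum_congr rfl h3, sum_add_distrib, ← sum_filter, ← sum_filter, two_mul]
    refine add_le_add ?_ ?_
    · refine half_sum (fun j' => j - j') _ E ?_ ?_
      · intro x hx y hy hxy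
        rw [mem_filter, mem_Ico] at hx hy
        omega
      · intro x hx
        rw [mem_filter, mem_Ico] at hx
        rw [mem_Icc]
        omega
    · refine half_sum (fun j' => j' - j) _ E ?_ ?_
      · intro x hx y hy hxy
        rw [mem_filter, mem_Ico] at hx hy
        omega
      · intro x hx
        rw [mem_filter, mem_Ico] at hx
        rw [mem_Icc]
        omega
  have h4 := sum_le_sum h2
  rw [sum_const, Nat.card_Ico, nsmul_eq_mul] at h4
  refine le_trans (le_of_eq ?_) (h4.trans (le_of_eq ?_))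
  · rfl
  · have : u + E - u = E := by omega
    rw [this]
    ring

private theorem sq_card (z1 z2 h b : ℕ) (C : Finset ℕ) :
    ((Pv z1 z2 h b C).card : ℝ) ^ 2 = ((Pv z1 z2 h b C).card : ℝ) +
      ∑ q ∈ C.offDiag, if ((q.1 < h ∧ (h - q.1).Prime ∧ z2 < h - q.1) ∧
        (q.2 < h ∧ (h - q.2).Prime ∧ z2 < h - q.2)) ∧ (Nat.Coprime (b + q.1) (pmod z1) ∧
          Nat.Coprime (b + q.2) (pmod z1)) then (1 : ℝ) else 0 := by
  have h1 : (Pv z1 z2 h b C).offDiag = C.offDiag.filter (fun q =>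
      ((q.1 < h ∧ (h - q.1).Prime ∧ z2 < h - q.1) ∧
        (q.2 < h ∧ (h - q.2).Prime ∧ z2 < h - q.2)) ∧ (Nat.Coprime (b + q.1) (pmod z1) ∧
          Nat.Coprime (b + q.2) (pmod z1))) := by
    unfold Pv
    ext q
    simp only [mem_offDiag, mem_filter]
    tauto
  rw [← sum_filter, ← h1, sum_const, nsmul_eq_mul, mul_one, offDiag_card,
    Nat.cast_sub (Nat.le_mul_self _), Nat.cast_mul]
  ring

private theorem count_prod (N M : ℕ) (p : ℕ → Prop) (r : ℕ → Prop) [DecidablePred p]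
    [DecidablePred r] :
    ∑ ω ∈ (Icc 1 N ×ˢ range M), (if p ω.1 ∧ r ω.2 then (1 : ℝ) else 0) =
      (((Icc 1 N).filter p).card : ℝ) * (((range M).filter r).card : ℝ) := by
  rw [sum_product]
  have h1 : ∀ x ∈ Icc 1 N, ∑ y ∈ range M, (if p x ∧ r y then (1 : ℝ) else 0) =
      (if p x then (1 : ℝ) else 0) * (((range M).filter r).card : ℝ) := by
    intro x _
    by_cases hx : p x
    · rw [if_pos hx, one_mul, card_filter, Nat.cast_sum]
      refine sum_congr rfl fun y _ => ?_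
      by_cases hy : r y
      · rw [if_pos ⟨hx, hy⟩, if_pos hy, Nat.cast_one]
      · rw [if_neg (fun h => hy h.2), if_neg hy, Nat.cast_zero]
    · rw [if_neg hx, zero_mul]
      refine sum_eq_zero fun y _ => ?_
      rw [if_neg (fun h => hx h.1)]
  rw [sum_congr rfl h1, ← sum_mul]
  congr 1
  rw [card_filter, Nat.cast_sum]
  refine sum_congr rfl fun x _ => ?_
  split_ifs
  · rw [Nat.cast_one]
  · rw [Nat.cast_zero]

theorem second : ∃ C : ℝ, 0 < C ∧ ∃ k0 : ℕ, ∀ (k : ℕ) (l l2 l3 : ℝ), k0 ≤ k → Par k l l2 l3 →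
    ∀ u E : ℕ, u + E ≤ HH l 3 → ∀ e : ℝ, e = E * (l2 / (l ^ 2 * l3)) →
    ∑ ω ∈ Om (2 ^ bb l l2 l3) (HH l 3),
      ((Pv (2 ^ bb l l2 l3) (zz l) ω.1 ω.2 (Ico u (u + E))).card : ℝ) ^ 2 ≤
      C * (e + e ^ 2) * (Om (2 ^ bb l l2 l3) (HH l 3)).card := by
  obtain ⟨Ch, hCh, k0, hpair⟩ := pair_h
  refine ⟨100 + Ch * 256 * (2 * Real.exp 2), by positivity, k0, ?_⟩
  intro k l l2 l3 hk h u E huE e he
  set z1 := 2 ^ bb l l2 l3 with hz1
  set z2 := zz l with hz2
  set N := HH l 3 with hN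
  set C := Ico u (u + E) with hC
  have hl := h.p1
  have hl2 := h.p2
  have hl3 : 0 < l3 := by linarith [h.h3]
  have hOm : ((Om z1 N).card : ℝ) = N * pmod z1 := Om_card z1 N
  have hup := mean_up h C
  rw [← hz1, ← hz2, ← hN] at hup
  have hCc : (C.card : ℝ) = E := by
    rw [hC, Nat.card_Ico]
    have : u + E - u = E := by omega
    rw [this]
  rw [hCc, ← he] at hup
  have hdens := (dens_bounds h).2
  rw [← hz1] at hdens
  have hdens0 : 0 ≤ dens z1 := by
    refine le_trans ?_ (dens_bounds h).1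
    positivity
  -- the pairs
  have hoff : ∀ q ∈ C.offDiag, ∑ ω ∈ Om z1 N,
      (if ((q.1 < ω.1 ∧ (ω.1 - q.1).Prime ∧ z2 < ω.1 - q.1) ∧
        (q.2 < ω.1 ∧ (ω.1 - q.2).Prime ∧ z2 < ω.1 - q.2)) ∧ (Nat.Coprime (ω.2 + q.1) (pmod z1) ∧
          Nat.Coprime (ω.2 + q.2) (pmod z1)) then (1 : ℝ) else 0) ≤
      Ch * 256 * ((1 / l ^ 2) * (l2 / (l * l3)) ^ 2) * (Om z1 N).card *
        ww (max q.1 q.2 - min q.1 q.2) := by
    intro q hq
    rw [mem_offDiag, hC, mem_Ico, mem_Ico] at hq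
    obtain ⟨hq1, hq2, hq3⟩ := hq
    have h1 := hpair k l l2 l3 hk h q.1 q.2 hq3 (by omega) (by omega)
    have h2 := pair_b z1 q.1 q.2 hq3
    rw [← hN, ← hz2] at h1
    have h3 := count_prod N (pmod z1)
      (fun x => (q.1 < x ∧ (x - q.1).Prime ∧ z2 < x - q.1) ∧
        (q.2 < x ∧ (x - q.2).Prime ∧ z2 < x - q.2))
      (fun y => Nat.Coprime (y + q.1) (pmod z1) ∧ Nat.Coprime (y + q.2) (pmod z1))
    unfold Om
    rw [h3]
    set d := max q.1 q.2 - min q.1 q.2 with hd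
    have hp1 : 0 ≤ ∏ p ∈ d.primeFactors, (1 + 1 / (p : ℝ)) :=
      prod_nonneg fun p _ => by positivity
    have hp2 : 0 ≤ ∏ p ∈ d.primeFactors, (1 - 1 / (p : ℝ))⁻¹ := by
      refine prod_nonneg fun p hp => ?_
      have h1 : (1 : ℝ) ≤ p := by exact_mod_cast (Nat.prime_of_mem_primeFactors hp).one_lt.le
      have h2 : 1 / (p : ℝ) ≤ 1 := by
        rw [div_le_one (by linarith)]
        exact h1
      exact inv_nonneg.2 (by linarith)
    have hds : dens z1 ^ 2 ≤ (16 * (l2 / (l * l3))) ^ 2 := pow_le_pow_left₀ hdens0 hdens 2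
    refine (mul_le_mul h1 h2 (Nat.cast_nonneg _) (by positivity)).trans ?_
    have h4 : (Ch * (N / l ^ 2) * ∏ p ∈ d.primeFactors, (1 + 1 / (p : ℝ))) *
        (pmod z1 * dens z1 ^ 2 * ∏ p ∈ d.primeFactors, (1 - 1 / (p : ℝ))⁻¹) =
        (Ch * (1 / l ^ 2) * ((N : ℝ) * pmod z1) * ww d) * dens z1 ^ 2 := by
      unfold ww
      ring
    rw [h4]
    have h5 : ((Icc 1 N ×ˢ range (pmod z1)).card : ℝ) = N * pmod z1 := hOm
    rw [h5]
    have h6 : 0 ≤ Ch * (1 / l ^ 2) * ((N : ℝ) * pmod z1) * ww d := by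
      have := ww_nonneg d
      positivity
    refine (mul_le_mul_of_nonneg_left hds h6).trans (le_of_eq ?_)
    ring
  have hsum : ∑ ω ∈ Om z1 N, ((Pv z1 z2 ω.1 ω.2 C).card : ℝ) ^ 2 =
      ∑ ω ∈ Om z1 N, ((Pv z1 z2 ω.1 ω.2 C).card : ℝ) +
      ∑ q ∈ C.offDiag, ∑ ω ∈ Om z1 N,
      (if ((q.1 < ω.1 ∧ (ω.1 - q.1).Prime ∧ z2 < ω.1 - q.1) ∧
        (q.2 < ω.1 ∧ (ω.1 - q.2).Prime ∧ z2 < ω.1 - q.2)) ∧ (Nat.Coprime (ω.2 + q.1) (pmod z1) ∧
          Nat.Coprime (ω.2 + q.2) (pmod z1)) then (1 : ℝ) else 0) := by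
    rw [sum_congr rfl fun ω _ => sq_card z1 z2 ω.1 ω.2 C, sum_add_distrib]
    congr 1
    rw [sum_comm]
  rw [hsum]
  have hA0 : 0 ≤ Ch * 256 * ((1 / l ^ 2) * (l2 / (l * l3)) ^ 2) * ((Om z1 N).card : ℝ) := by
    positivity
  have hoff2 := sum_le_sum hoff
  rw [← mul_sum] at hoff2
  have hoff3 := hoff2.trans (mul_le_mul_of_nonneg_left (pairs_sum u E) hA0)
  have he2 : (1 / l ^ 2) * (l2 / (l * l3)) ^ 2 * (E : ℝ) ^ 2 = e ^ 2 := by
    rw [he]
    field_simp
  have hfin : Ch * 256 * ((1 / l ^ 2) * (l2 / (l * l3)) ^ 2) * ((Om z1 N).card : ℝ) *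
      (2 * Real.exp 2 * (E : ℝ) ^ 2) =
      Ch * 256 * (2 * Real.exp 2) * e ^ 2 * ((Om z1 N).card : ℝ) := by
    rw [← he2]
    ring
  rw [hfin] at hoff3
  have he0 : 0 ≤ e := by
    rw [he]
    positivity
  have hO0 : (0 : ℝ) ≤ ((Om z1 N).card : ℝ) := Nat.cast_nonneg _
  refine (add_le_add hup hoff3).trans ?_
  have h7 : 0 ≤ 100 * e ^ 2 * ((Om z1 N).card : ℝ) := by positivity
  have h8 : 0 ≤ Ch * 256 * (2 * Real.exp 2) * e * ((Om z1 N).card : ℝ) := by positivity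
  nlinarith [h7, h8]

end Pool.Agent.REC
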